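import Pool.Agent.Q218.UB.Le

/-!
# Level sets of eigenfunctions (project UB), sequences: functions on open sets, Borel sets
-/

set_option autoImplicit false
open MeasureTheory Filter Topology
open scoped ContDiff ENNReal Manifold

namespace Pool.Agent.Q218.UB.Seq

noncomputable section

/-- sequences of functions on an open set -/
structure Lq (U : Set ℂ) (ρ : ℂ → ℝ) (lam : ℕ → ℝ) (u : ℕ → ℂ → ℝ) : Prop where
  o : IsOpen U
  rs : ContDiffOn ℝ ∞ ρ U
  r0 : ∀ z ∈ U, 0 < ρ z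
  tl : Tendsto lam atTop atTop
  us : ∀ n, ContDiffOn ℝ ∞ (u n) U
  eq : ∀ n, ∀ z ∈ U, lp (u n) z = -(lam n * (ρ z * u n z))
  lb : LB U u

variable {U : Set ℂ} {ρ : ℂ → ℝ} {lam : ℕ → ℝ} {u : ℕ → ℂ → ℝ} {G : (ℂ → ℝ) → ℂ → ℝ} {c : ℝ}

lemma cut_sm {φ f : ℂ → ℝ} (hU : IsOpen U) (hφ : ContDiff ℝ ∞ φ) (ts : tsupport φ ⊆ U)
    (hf : ContDiffOn ℝ ∞ f U) : ContDiff ℝ ∞ fun z => φ z * f z := by
  rw [contDiff_iff_contDiffAt]
  intro z
  by_cases hz : z ∈ U
  · exact hφ.contDiffAt.mul (hf.contDiffAt (hU.mem_nhds hz))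
  · have h1 : (tsupport φ)ᶜ ∈ 𝓝 z := (isClosed_tsupport φ).isOpen_compl.mem_nhds fun h => hz (ts h)
    have h2 : (fun z => φ z * f z) =ᶠ[𝓝 z] fun _ => 0 := by
      filter_upwards [h1] with y hy
      rw [image_eq_zero_of_notMem_tsupport hy, zero_mul]
    exact contDiffAt_const.congr_of_eventuallyEq h2

/-- extension to the plane -/
lemma ext (S : Lq U ρ lam u) {K : Set ℂ} (hK : IsCompact K) (hKU : K ⊆ U) :
    ∃ (W : Set ℂ) (ρ' : ℂ → ℝ) (u' : ℕ → ℂ → ℝ), Sq W ρ' lam u' ∧ K ⊆ W ∧ W ⊆ U ∧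
      (∀ z ∈ W, ρ' z = ρ z) ∧ ∀ n, ∀ z ∈ W, u' n z = u n z := by
  obtain ⟨φ, hφ, -, V, hV, hKV, hV1⟩ := tst_exists hK S.o hKU
  have hVU : V ⊆ U := fun z hz => by
    refine hφ.ts (subset_tsupport _ ?_)
    rw [Function.mem_support, hV1 z hz]; exact one_ne_zero
  have e1 : ∀ z ∈ V, φ z * ρ z = ρ z := fun z hz => by rw [hV1 z hz, one_mul]
  have e2 : ∀ n, ∀ z ∈ V, φ z * u n z = u n z := fun n z hz => by rw [hV1 z hz, one_mul]
  refine ⟨V, fun z => φ z * ρ z, fun n z => φ z * u n z, ⟨hV, cut_sm S.o hφ.sm hφ.ts S.rs, fun z hz => ?_,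
    S.tl, fun n => cut_sm S.o hφ.sm hφ.ts (S.us n), fun n z hz => ?_, fun K' hK' hK'V => ?_⟩, hKV, hVU,
    e1, e2⟩
  · rw [e1 z hz]; exact S.r0 z (hVU hz)
  · rw [e1 z hz, e2 n z hz, ← S.eq n z (hVU hz)]
    have h1 : ∀ v, ∀ z ∈ V, dv v (fun z => φ z * u n z) z = dv v (u n) z := fun v => dv_loc hV (e2 n) v
    unfold lp
    rw [dv_loc hV (h1 1) 1 z hz, dv_loc hV (h1 Complex.I) Complex.I z hz]
  · obtain ⟨C, hC⟩ := S.lb K' hK' (hK'V.trans hVU)
    refine ⟨C, ?_⟩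
    filter_upwards [hC] with n hn
    refine le_trans (le_of_eq ?_) hn
    refine setIntegral_congr_fun hK'.measurableSet fun z hz => ?_
    show (φ z * u n z) ^ 2 = u n z ^ 2
    rw [e2 n z (hK'V hz)]

/-- the normalised integral of the gradient over `B ∩ {a ≤ u ≤ b}` -/
def GS (G : (ℂ → ℝ) → ℂ → ℝ) (ρ : ℂ → ℝ) (u : ℕ → ℂ → ℝ) (lam : ℕ → ℝ) (a b : ℝ) (B : Set ℂ) (n : ℕ) : ℝ≥0∞ :=
  (∫⁻ z in B ∩ {z | a ≤ u n z ∧ u n z ≤ b}, ENNReal.ofReal (√(ρ z) * G (u n) z)) /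
    ENNReal.ofReal √(lam n)

/-- compact sets -/
theorem K_bd (hG : FG G c) (S : Lq U ρ lam u) {K : Set ℂ} (hK : IsCompact K) (hKU : K ⊆ U) {a b : ℝ} (hab : a ≤ b) :
    Up (GS G ρ u lam a b K) (ENNReal.ofReal ((b - a) * c) * ∫⁻ z in K, ENNReal.ofReal (ρ z)) := by
  obtain ⟨W, ρ', u', S', hKW, hWU, e1, e2⟩ := ext S hK hKU
  have h1 := compact_bd hG S' hK hKW hab
  have e3 : ∫⁻ z in K, ENNReal.ofReal (ρ' z) = ∫⁻ z in K, ENNReal.ofReal (ρ z) :=
    setLIntegral_congr_fun hK.measurableSet fun z hz => by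
      show ENNReal.ofReal (ρ' z) = ENNReal.ofReal (ρ z)
      rw [e1 z (hKW hz)]
  rw [e3] at h1
  refine h1.mono (Eventually.of_forall fun n => le_of_eq ?_) le_rfl
  unfold GS GI
  congr 1
  have mS : MeasurableSet {z | a ≤ u' n z ∧ u' n z ≤ b} :=
    (measurableSet_le measurable_const (S'.us n).continuous.measurable).inter
      (measurableSet_le (S'.us n).continuous.measurable measurable_const)
  have e4 : K ∩ {z | a ≤ u n z ∧ u n z ≤ b} = K ∩ {z | a ≤ u' n z ∧ u' n z ≤ b} := by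
    ext z
    constructor
    · rintro ⟨h1, h2, h3⟩
      exact ⟨h1, by rw [Set.mem_ofPred_eq, e2 n z (hKW h1)]; exact ⟨h2, h3⟩⟩
    · rintro ⟨h1, h2⟩
      rw [Set.mem_ofPred_eq, e2 n z (hKW h1)] at h2
      exact ⟨h1, h2⟩
  rw [e4]
  have e5 : ∀ z, (K.indicator (fun z => ENNReal.ofReal √(ρ' z)) z) * ENNReal.ofReal (G (u' n) z) =
      K.indicator (fun z => ENNReal.ofReal √(ρ' z) * ENNReal.ofReal (G (u' n) z)) z := fun z => by
    by_cases hz : z ∈ K
    · rw [Set.indicator_of_mem hz, Set.indicator_of_mem hz]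
    · rw [Set.indicator_of_notMem hz, Set.indicator_of_notMem hz, zero_mul]
  simp only [e5]
  rw [setLIntegral_indicator hK.measurableSet]
  refine setLIntegral_congr_fun (hK.measurableSet.inter mS) fun z hz => ?_
  show ENNReal.ofReal (√(ρ z) * G (u n) z) = ENNReal.ofReal √(ρ' z) * ENNReal.ofReal (G (u' n) z)
  rw [e1 z (hKW hz.1), ← ENNReal.ofReal_mul (Real.sqrt_nonneg _), hG.loc _ S'.o _ _ (e2 n) z (hKW hz.1)]

/-- the energy on compact sets -/
theorem E_bd (S : Lq U ρ lam u) {K : Set ℂ} (hK : IsCompact K) (hKU : K ⊆ U) :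
    ∃ C : ℝ, 0 ≤ C ∧ ∀ᶠ n in atTop, ∫⁻ z in K, ENNReal.ofReal (gd (u n) z ^ 2) ≤
      ENNReal.ofReal (C * lam n) := by
  obtain ⟨W, ρ', u', S', hKW, hWU, e1, e2⟩ := ext S hK hKU
  obtain ⟨C, C0, hC⟩ := grad_L2 S' hK hKW
  refine ⟨C, C0, ?_⟩
  filter_upwards [hC] with n hn
  have e3 : ∫⁻ z in K, ENNReal.ofReal (gd (u n) z ^ 2) = ∫⁻ z in K, ENNReal.ofReal (gd (u' n) z ^ 2) :=
    setLIntegral_congr_fun hK.measurableSet fun z hz => by
      show ENNReal.ofReal (gd (u n) z ^ 2) = ENNReal.ofReal (gd (u' n) z ^ 2)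
      rw [gd_loc S'.o (e2 n) z (hKW hz)]
  have i1 : Integrable (fun z => gd (u' n) z ^ 2) (volume.restrict K) := iK hK ((gd_cont (S'.us n)).pow 2)
  rw [e3, ← ofReal_integral_eq_lintegral_ofReal i1 (ae_of_all _ fun z => sq_nonneg _)]
  exact ENNReal.ofReal_le_ofReal hn

lemma aem_on (hU : IsOpen U) {f : ℂ → ℝ} (hf : ContinuousOn f U) {B : Set ℂ} (hB : B ⊆ U) :
    AEMeasurable (fun z => ENNReal.ofReal (f z)) (volume.restrict B) :=
  ((hf.aemeasurable hU.measurableSet).ennreal_ofReal).mono_measure (Measure.restrict_mono hB le_rfl)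

/-- small sets -/
lemma small (hG : FG G c) (S : Lq U ρ lam u) {B : Set ℂ} (hBU : B ⊆ U) (a b : ℝ)
    {t : ℝ} (ht : 0 < t) {n : ℕ} (hn : 0 < lam n) :
    GS G ρ u lam a b B n ≤ ENNReal.ofReal (t / 2) * (∫⁻ z in B, ENNReal.ofReal (ρ z)) +
      ENNReal.ofReal (1 / (2 * t * lam n)) * ∫⁻ z in B, ENNReal.ofReal (gd (u n) z ^ 2) := by
  have l0 : 0 < √(lam n) := Real.sqrt_pos.2 hn
  unfold GS
  rw [ENNReal.div_le_iff_le_mul (Or.inl (ENNReal.ofReal_pos.2 l0).ne') (Or.inl ENNReal.ofReal_ne_top)]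
  have m1 := aem_on S.o S.rs.continuousOn hBU
  have h1 : ∫⁻ z in B ∩ {z | a ≤ u n z ∧ u n z ≤ b}, ENNReal.ofReal (√(ρ z) * G (u n) z) ≤
      ∫⁻ z in B, (ENNReal.ofReal (t / 2 * √(lam n)) * ENNReal.ofReal (ρ z) +
        ENNReal.ofReal (1 / (2 * t * √(lam n))) * ENNReal.ofReal (gd (u n) z ^ 2)) := by
    refine (lintegral_mono_set Set.inter_subset_left).trans (lintegral_mono_ae ?_)
    have : ∀ᵐ z ∂(volume.restrict B), z ∈ U := by
      have h2 : ∀ᵐ z ∂(volume.restrict U), z ∈ U := ae_restrict_mem S.o.measurableSet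
      exact (Measure.restrict_mono hBU le_rfl).absolutelyContinuous.ae_le h2
    filter_upwards [this] with z hz
    have r0 := (S.r0 z hz).le
    rw [← ENNReal.ofReal_mul (by positivity), ← ENNReal.ofReal_mul (by positivity),
      ← ENNReal.ofReal_add (by positivity) (by positivity)]
    refine ENNReal.ofReal_le_ofReal ?_
    have q1 : √(ρ z) ^ 2 = ρ z := Real.sq_sqrt r0
    have q2 : 0 ≤ (t * √(lam n) * √(ρ z) - gd (u n) z) ^ 2 := sq_nonneg _
    have q0 : √(ρ z) * G (u n) z ≤ √(ρ z) * gd (u n) z :=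
      mul_le_mul_of_nonneg_left (hG.le _ _) (Real.sqrt_nonneg _)
    refine q0.trans ?_
    have q3 : t / 2 * √(lam n) * ρ z + 1 / (2 * t * √(lam n)) * gd (u n) z ^ 2 =
        ((t * √(lam n) * √(ρ z)) ^ 2 + gd (u n) z ^ 2) / (2 * t * √(lam n)) := by
      rw [mul_pow, q1]
      field_simp
    rw [q3, le_div_iff₀ (by positivity)]
    nlinarith
  refine h1.trans ?_
  rw [lintegral_add_left' (m1.const_mul _), lintegral_const_mul'' _ m1,
    lintegral_const_mul' _ _ ENNReal.ofReal_ne_top, add_mul]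
  refine add_le_add (le_of_eq ?_) (le_of_eq ?_)
  · rw [ENNReal.ofReal_mul (by positivity)]; ring
  · have e : (1 : ℝ) / (2 * t * √(lam n)) = 1 / (2 * t * lam n) * √(lam n) := by
      have := Real.mul_self_sqrt hn.le
      field_simp
      linarith
    rw [e, ENNReal.ofReal_mul (by positivity)]; ring

/-- **Borel sets** -/
theorem B_bd (hG : FG G c) (S : Lq U ρ lam u) {B : Set ℂ} (hB : MeasurableSet B) (hBU : B ⊆ U)
    (hfin : ∫⁻ z in B, ENNReal.ofReal (ρ z) ≠ ⊤) {C : ℝ} (hC : 0 ≤ C)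
    (hE : ∀ᶠ n in atTop, ∫⁻ z in B, ENNReal.ofReal (gd (u n) z ^ 2) ≤ ENNReal.ofReal (C * lam n))
    {a b : ℝ} (hab : a ≤ b) :
    Up (GS G ρ u lam a b B) (ENNReal.ofReal ((b - a) * c) * ∫⁻ z in B, ENNReal.ofReal (ρ z)) := by
  intro ε hε
  obtain ⟨t, ht⟩ : ∃ t, t = (C + 1) / ε := ⟨_, rfl⟩
  have t0 : 0 < t := by rw [ht]; positivity
  -- an inner approximation
  obtain ⟨ν, hν⟩ : ∃ ν : Measure ℂ, ν = (volume.restrict B).withDensity fun z => ENNReal.ofReal (ρ z) :=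
    ⟨_, rfl⟩
  have νa : ∀ F : Set ℂ, MeasurableSet F → F ⊆ B → ν F = ∫⁻ z in F, ENNReal.ofReal (ρ z) := fun F hF h => by
    rw [hν, withDensity_apply _ hF, Measure.restrict_restrict hF, Set.inter_eq_left.2 h]
  have fin : IsFiniteMeasure ν := by
    refine ⟨?_⟩
    rw [hν, withDensity_apply _ MeasurableSet.univ, Measure.restrict_univ]
    exact lt_top_iff_ne_top.2 hfin
  obtain ⟨e, he⟩ : ∃ e, e = ε / (2 * t) := ⟨_, rfl⟩
  have e0 : 0 < e := by rw [he]; positivity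
  obtain ⟨F, hFB, hF, hFm⟩ := hB.exists_isCompact_sdiff_lt (μ := ν) (measure_ne_top _ _)
    (ε := ENNReal.ofReal e) (by simpa using e0)
  have mF := hF.measurableSet
  rw [νa _ (hB.diff mF) Set.sdiff_subset] at hFm
  filter_upwards [K_bd hG S hF (hFB.trans hBU) hab (ε / 4) (by positivity), hE, S.tl.eventually_gt_atTop 0]
    with n h1 h2 h3
  have s1 : GS G ρ u lam a b B n ≤ GS G ρ u lam a b F n + GS G ρ u lam a b (B \ F) n := by
    unfold GS
    rw [← ENNReal.add_div]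
    gcongr
    refine (lintegral_mono_set ?_).trans (lintegral_union_le _ _ _)
    rintro z ⟨hz, hz2⟩
    by_cases hzF : z ∈ F
    · exact Or.inl ⟨hzF, hz2⟩
    · exact Or.inr ⟨⟨hz, hzF⟩, hz2⟩
  have s2 := small hG S (Set.sdiff_subset.trans hBU : B \ F ⊆ U) a b t0 h3
  have s3 : ENNReal.ofReal (t / 2) * (∫⁻ z in B \ F, ENNReal.ofReal (ρ z)) ≤ ENNReal.ofReal (ε / 4) := by
    calc _ ≤ ENNReal.ofReal (t / 2) * ENNReal.ofReal e := by gcongr
      _ = ENNReal.ofReal (t / 2 * e) := (ENNReal.ofReal_mul (by positivity)).symm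
      _ = _ := by
          congr 1
          rw [he]; field_simp; norm_num
  have s4 : ENNReal.ofReal (1 / (2 * t * lam n)) * ∫⁻ z in B \ F, ENNReal.ofReal (gd (u n) z ^ 2) ≤
      ENNReal.ofReal (ε / 2) := by
    calc _ ≤ ENNReal.ofReal (1 / (2 * t * lam n)) * ENNReal.ofReal (C * lam n) := by
          gcongr
          exact (lintegral_mono_set Set.sdiff_subset).trans h2
      _ = ENNReal.ofReal (1 / (2 * t * lam n) * (C * lam n)) := (ENNReal.ofReal_mul (by positivity)).symm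
      _ ≤ _ := by
          refine ENNReal.ofReal_le_ofReal ?_
          have : 1 / (2 * t * lam n) * (C * lam n) = C / (2 * t) := by field_simp
          rw [this, ht, div_le_iff₀ (by positivity)]
          have : ε / 2 * (2 * ((C + 1) / ε)) = C + 1 := by field_simp
          rw [this]; linarith
  have s5 : ∫⁻ z in F, ENNReal.ofReal (ρ z) ≤ ∫⁻ z in B, ENNReal.ofReal (ρ z) := lintegral_mono_set hFB
  calc GS G ρ u lam a b B n ≤ _ := s1
    _ ≤ (ENNReal.ofReal ((b - a) * c) * (∫⁻ z in F, ENNReal.ofReal (ρ z)) + ENNReal.ofReal (ε / 4)) +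
        (ENNReal.ofReal (ε / 4) + ENNReal.ofReal (ε / 2)) := add_le_add h1 (s2.trans (add_le_add s3 s4))
    _ ≤ (ENNReal.ofReal ((b - a) * c) * (∫⁻ z in B, ENNReal.ofReal (ρ z)) + ENNReal.ofReal (ε / 4)) +
        (ENNReal.ofReal (ε / 4) + ENNReal.ofReal (ε / 2)) := by gcongr
    _ = ENNReal.ofReal ((b - a) * c) * (∫⁻ z in B, ENNReal.ofReal (ρ z)) +
        (ENNReal.ofReal (ε / 4) + (ENNReal.ofReal (ε / 4) + ENNReal.ofReal (ε / 2))) := add_assoc _ _ _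
    _ = _ := by
        rw [← ENNReal.ofReal_add (by positivity) (by positivity),
          ← ENNReal.ofReal_add (by positivity) (by positivity)]
        congr 2
        ring

/-- Borel subsets of compact sets -/
theorem BK_bd (hG : FG G c) (S : Lq U ρ lam u) {B K : Set ℂ} (hB : MeasurableSet B) (hBK : B ⊆ K) (hK : IsCompact K)
    (hKU : K ⊆ U) {a b : ℝ} (hab : a ≤ b) :
    Up (GS G ρ u lam a b B) (ENNReal.ofReal ((b - a) * c) * ∫⁻ z in B, ENNReal.ofReal (ρ z)) := by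
  obtain ⟨C, C0, hC⟩ := E_bd S hK hKU
  have fin : ∫⁻ z in B, ENNReal.ofReal (ρ z) ≠ ⊤ := by
    refine ((lintegral_mono_set hBK).trans_lt ?_).ne
    exact ((S.rs.continuousOn.mono hKU).integrableOn_compact hK).lintegral_lt_top
  refine B_bd hG S hB (hBK.trans hKU) fin C0 ?_ hab
  filter_upwards [hC] with n hn
  exact (lintegral_mono_set hBK).trans hn

end

end Pool.Agent.Q218.UB.Seq
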