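import Pool.Agent.Q218.UB.Lf

/-!
# Level sets of eigenfunctions (project UB), sequences: the Neumann eigenfunctions of the square
-/

set_option autoImplicit false
open MeasureTheory Filter Topology
open scoped ContDiff ENNReal

namespace Pool.Agent.Q218.UB.Seq

noncomputable section

/-- the open square -/
def sq : Set ℂ := {z | (0 < z.re ∧ z.re < Real.pi) ∧ (0 < z.im ∧ z.im < Real.pi)}

/-- the eigenfunctions `√2 cos (n x)` -/
def nm (n : ℕ) (z : ℂ) : ℝ := √2 * Real.cos (n * z.re)

lemma nm_sm (n : ℕ) : ContDiff ℝ ∞ (nm n) := by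
  unfold nm
  have : ContDiff ℝ ∞ fun z : ℂ => z.re := Complex.reCLM.contDiff
  exact contDiff_const.mul (Real.contDiff_cos.comp (contDiff_const.mul this))

lemma nm_dv (n : ℕ) (v : ℂ) : dv v (nm n) = fun z => -(√2 * n * Real.sin (n * z.re)) * v.re := by
  funext z
  have h1 : HasFDerivAt (fun z : ℂ => z.re) Complex.reCLM z := Complex.reCLM.hasFDerivAt
  have h2 := ((h1.const_mul (n : ℝ)).cos).const_mul √2
  unfold dv nm
  rw [h2.fderiv]
  simp only [FunLike.coe_smul, Pi.smul_apply, Complex.reCLM_apply, smul_eq_mul]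
  ring

lemma nm_lp (n : ℕ) (z : ℂ) : lp (nm n) z = -((n : ℝ) ^ 2 * nm n z) := by
  have h1 : HasFDerivAt (fun z : ℂ => z.re) Complex.reCLM z := Complex.reCLM.hasFDerivAt
  have h2 : ∀ v : ℂ, dv v (dv v (nm n)) z = -((n : ℝ) ^ 2 * nm n z) * v.re ^ 2 := fun v => by
    rw [nm_dv]
    have h3 := (((h1.const_mul (n : ℝ)).sin).const_mul (-(√2 * n * v.re)))
    have e : (fun z : ℂ => -(√2 * n * Real.sin (n * z.re)) * v.re) =
        fun z : ℂ => -(√2 * n * v.re) * Real.sin (n * z.re) := by funext z; ring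
    unfold dv nm
    rw [e, h3.fderiv]
    simp only [FunLike.coe_smul, Pi.smul_apply, Complex.reCLM_apply, smul_eq_mul]
    ring
  unfold lp
  rw [h2, h2]
  simp

lemma sq_meas : MeasurableSet sq :=
  ((measurableSet_lt measurable_const Complex.measurable_re).inter
    (measurableSet_lt Complex.measurable_re measurable_const)).inter
    ((measurableSet_lt measurable_const Complex.measurable_im).inter
    (measurableSet_lt Complex.measurable_im measurable_const))

lemma sq_open : IsOpen sq :=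
  ((isOpen_lt continuous_const Complex.continuous_re).inter
    (isOpen_lt Complex.continuous_re continuous_const)).inter
    ((isOpen_lt continuous_const Complex.continuous_im).inter
    (isOpen_lt Complex.continuous_im continuous_const))

lemma sq_lint {g : ℝ → ℝ≥0∞} (hg : Measurable g) :
    ∫⁻ z in sq, g z.re = ENNReal.ofReal Real.pi * ∫⁻ x in Set.Ioo 0 Real.pi, g x := by
  have h1 := Complex.volume_preserving_equiv_real_prod
  have e1 : sq = Complex.measurableEquivRealProd ⁻¹' (Set.Ioo 0 Real.pi ×ˢ Set.Ioo 0 Real.pi) := by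
    ext z; rfl
  have h2 := h1.setLIntegral_comp_preimage (s := Set.Ioo 0 Real.pi ×ˢ Set.Ioo 0 Real.pi)
    (measurableSet_Ioo.prod measurableSet_Ioo) (f := fun p : ℝ × ℝ => g p.1) (hg.comp measurable_fst)
  rw [e1]
  refine Eq.trans ?_ (h2.trans ?_)
  · rfl
  · rw [Measure.volume_eq_prod, ← Measure.prod_restrict, lintegral_prod (fun p : ℝ × ℝ => g p.1) (hg.comp measurable_fst).aemeasurable]
    simp only [lintegral_const, Measure.restrict_apply_univ, Real.volume_Ioo, sub_zero]
    rw [lintegral_mul_const _ hg, mul_comm]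

lemma sq_vol : volume sq = ENNReal.ofReal Real.pi * ENNReal.ofReal Real.pi := by
  have h := sq_lint (g := fun _ => 1) measurable_const
  simpa using h

/-- a half period -/
lemma piece {n : ℕ} (hn : 1 ≤ n) (j : ℕ) {g : ℝ → ℝ≥0∞} :
    ∫⁻ x in Set.Icc (j * (Real.pi / n)) ((j + 1) * (Real.pi / n)),
      ENNReal.ofReal |-(√2 * n * Real.sin (n * x))| * g (√2 * Real.cos (n * x)) =
      ∫⁻ y in Set.Icc (-√2) √2, g y := by
  have hpi := Real.pi_pos
  have n0 : (0 : ℝ) < n := by exact_mod_cast hn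
  have s2 : (0 : ℝ) < √2 := Real.sqrt_pos.2 (by norm_num)
  obtain ⟨s, hs⟩ : ∃ s : ℝ, s = (-1) ^ j := ⟨_, rfl⟩
  have ss : s * s = 1 := by rw [hs, ← mul_pow]; norm_num
  have sa : |s| = 1 := by rw [hs, abs_pow]; norm_num
  have e1 : ∀ x : ℝ, √2 * Real.cos (n * x) = √2 * (s * Real.cos (n * x - j * Real.pi)) := fun x => by
    rw [Real.cos_sub_nat_mul_pi, ← hs, ← mul_assoc s, ss, one_mul]
  have b1 : Set.BijOn (fun x : ℝ => n * x - j * Real.pi)
      (Set.Icc (j * (Real.pi / n)) ((j + 1) * (Real.pi / n))) (Set.Icc 0 Real.pi) := by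
    refine ⟨fun x hx => ?_, fun x _ y _ h => ?_, fun t ht => ?_⟩
    · have h1 : (j : ℝ) * Real.pi ≤ n * x := by
        have := mul_le_mul_of_nonneg_left hx.1 n0.le
        have e : (n : ℝ) * (j * (Real.pi / n)) = j * Real.pi := by field_simp
        linarith
      have h2 : (n : ℝ) * x ≤ (j + 1) * Real.pi := by
        have := mul_le_mul_of_nonneg_left hx.2 n0.le
        have e : (n : ℝ) * ((j + 1) * (Real.pi / n)) = (j + 1) * Real.pi := by field_simp
        linarith
      constructor
      · show 0 ≤ (n : ℝ) * x - j * Real.pi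
        linarith
      · show (n : ℝ) * x - j * Real.pi ≤ Real.pi
        linarith
    · have h1 : (n : ℝ) * x - j * Real.pi = n * y - j * Real.pi := h
      have h2 : (n : ℝ) * x = n * y := by linarith
      exact mul_left_cancel₀ n0.ne' h2
    · refine ⟨(t + j * Real.pi) / n, ⟨?_, ?_⟩, ?_⟩
      · rw [le_div_iff₀ n0]
        have : (j : ℝ) * (Real.pi / n) * n = j * Real.pi := by field_simp
        rw [this]; linarith [ht.1]
      · rw [div_le_iff₀ n0]
        have : ((j : ℝ) + 1) * (Real.pi / n) * n = (j + 1) * Real.pi := by field_simp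
        rw [this]; linarith [ht.2]
      · show (n : ℝ) * ((t + j * Real.pi) / n) - j * Real.pi = t
        field_simp
        ring
  have b2 : Set.BijOn (fun y : ℝ => √2 * (s * y)) (Set.Icc (-1) 1) (Set.Icc (-√2) √2) := by
    refine ⟨fun y hy => ?_, fun x _ y _ h => ?_, fun t ht => ?_⟩
    · have h1 : |√2 * (s * y)| ≤ √2 := by
        rw [abs_mul, abs_mul, sa, one_mul, abs_of_pos s2]
        exact mul_le_of_le_one_right s2.le (abs_le.2 hy)
      exact abs_le.1 h1
    · have h1 : √2 * (s * x) = √2 * (s * y) := h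
      have h2 := mul_left_cancel₀ s2.ne' h1
      have h3 : s * (s * x) = s * (s * y) := by rw [h2]
      rwa [← mul_assoc, ← mul_assoc, ss, one_mul, one_mul] at h3
    · refine ⟨s * (t / √2), ?_, ?_⟩
      · have h1 : |s * (t / √2)| ≤ 1 := by
          rw [abs_mul, sa, one_mul, abs_div, abs_of_pos s2, div_le_one s2]
          exact abs_le.2 ht
        exact abs_le.1 h1
      · show √2 * (s * (s * (t / √2))) = t
        rw [← mul_assoc s, ss, one_mul]
        field_simp
  have b3 := b2.comp (Real.bijOn_cos.comp b1)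
  obtain ⟨f, hf⟩ : ∃ f : ℝ → ℝ, f = fun x => √2 * Real.cos (n * x) := ⟨_, rfl⟩
  have ef : ((fun y : ℝ => √2 * (s * y)) ∘ Real.cos ∘ fun x : ℝ => n * x - j * Real.pi) = f := by
    funext x
    rw [hf]
    exact (e1 x).symm
  rw [ef] at b3
  have hd : ∀ x, HasDerivAt f (-(√2 * n * Real.sin (n * x))) x := fun x => by
    have h1 : HasDerivAt (fun x : ℝ => (n : ℝ) * x) n x := by
      simpa using (hasDerivAt_id x).const_mul (n : ℝ)
    have h2 := (h1.cos).const_mul √2
    rw [hf]
    exact h2.congr_deriv (by ring)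
  have key := lintegral_image_eq_lintegral_abs_deriv_mul (s := Set.Icc (j * (Real.pi / n)) ((j + 1) * (Real.pi / n)))
    (f := f) (f' := fun x => -(√2 * n * Real.sin (n * x))) measurableSet_Icc
    (fun x _ => (hd x).hasDerivWithinAt) b3.injOn g
  rw [b3.image_eq] at key
  rw [key, hf]

/-- all half periods -/
lemma pieces {n : ℕ} (hn : 1 ≤ n) {g : ℝ → ℝ≥0∞} (k : ℕ) :
    ∫⁻ x in Set.Ico 0 (k * (Real.pi / n)),
      ENNReal.ofReal |-(√2 * n * Real.sin (n * x))| * g (√2 * Real.cos (n * x)) =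
      k * ∫⁻ y in Set.Icc (-√2) √2, g y := by
  have hpi := Real.pi_pos
  have n0 : (0 : ℝ) < n := by exact_mod_cast hn
  have h0 : 0 < Real.pi / n := by positivity
  induction k with
  | zero => simp
  | succ k ih =>
    have e1 : Set.Ico 0 (((k + 1 : ℕ) : ℝ) * (Real.pi / n)) =
        Set.Ico 0 (k * (Real.pi / n)) ∪ Set.Ico (k * (Real.pi / n)) (((k + 1 : ℕ) : ℝ) * (Real.pi / n)) := by
      rw [Set.Ico_union_Ico_eq_Ico (by positivity)]
      push_cast
      nlinarith
    have d : Disjoint (Set.Ico 0 (k * (Real.pi / n)))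
        (Set.Ico (k * (Real.pi / n)) (((k + 1 : ℕ) : ℝ) * (Real.pi / n))) :=
      Set.disjoint_left.2 fun x h1 h2 => absurd h2.1 (not_le.2 h1.2)
    rw [e1, lintegral_union measurableSet_Ico d, ih, setLIntegral_congr Ico_ae_eq_Icc]
    push_cast
    rw [piece hn k, add_mul, one_mul]

/-- the integral over the square -/
lemma sq_int {n : ℕ} (hn : 1 ≤ n) {a b : ℝ} (ha : -√2 ≤ a) (hb : b ≤ √2) :
    ∫⁻ z in sq ∩ {z | a ≤ nm n z ∧ nm n z ≤ b}, ENNReal.ofReal |dv 1 (nm n) z| =
      ENNReal.ofReal Real.pi * (n * ENNReal.ofReal (b - a)) := by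
  have hpi := Real.pi_pos
  have n0 : (0 : ℝ) < n := by exact_mod_cast hn
  have mS : MeasurableSet {z | a ≤ nm n z ∧ nm n z ≤ b} :=
    (measurableSet_le measurable_const (nm_sm n).continuous.measurable).inter
      (measurableSet_le (nm_sm n).continuous.measurable measurable_const)
  obtain ⟨g, hg⟩ : ∃ g : ℝ → ℝ≥0∞, g = (Set.Icc a b).indicator fun _ => 1 := ⟨_, rfl⟩
  have mg : Measurable g := by rw [hg]; exact measurable_const.indicator measurableSet_Icc
  have e1 : ∫⁻ z in sq ∩ {z | a ≤ nm n z ∧ nm n z ≤ b}, ENNReal.ofReal |dv 1 (nm n) z| =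
      ∫⁻ z in sq, (fun x : ℝ => ENNReal.ofReal |-(√2 * n * Real.sin (n * x))| * g (√2 * Real.cos (n * x))) z.re := by
    rw [Set.inter_comm, ← setLIntegral_indicator mS]
    refine lintegral_congr fun z => ?_
    by_cases hz : a ≤ nm n z ∧ nm n z ≤ b
    · have h1 : g (√2 * Real.cos (n * z.re)) = 1 := by
        rw [hg]; exact Set.indicator_of_mem (s := Set.Icc a b) hz _
      have h2 : z ∈ {z | a ≤ nm n z ∧ nm n z ≤ b} := hz
      rw [Set.indicator_of_mem h2]
      show _ = ENNReal.ofReal |-(√2 * n * Real.sin (n * z.re))| * g (√2 * Real.cos (n * z.re))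
      rw [h1, mul_one, nm_dv]
      simp
    · have h1 : g (√2 * Real.cos (n * z.re)) = 0 := by
        rw [hg]; exact Set.indicator_of_notMem (s := Set.Icc a b) hz _
      have h2 : z ∉ {z | a ≤ nm n z ∧ nm n z ≤ b} := hz
      rw [Set.indicator_of_notMem h2]
      show _ = ENNReal.ofReal |-(√2 * n * Real.sin (n * z.re))| * g (√2 * Real.cos (n * z.re))
      rw [h1, mul_zero]
  rw [e1, sq_lint (g := fun x : ℝ => ENNReal.ofReal |-(√2 * n * Real.sin (n * x))| * g (√2 * Real.cos (n * x)))
    (by fun_prop), setLIntegral_congr Ioo_ae_eq_Ico]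
  congr 1
  have h2 := pieces hn (g := g) n
  have e2 : (n : ℝ) * (Real.pi / n) = Real.pi := by field_simp
  rw [e2] at h2
  rw [h2]
  congr 1
  rw [hg, setLIntegral_indicator measurableSet_Icc, Set.inter_eq_left.2 (Set.Icc_subset_Icc ha hb)]
  simp

end

end Pool.Agent.Q218.UB.Seq
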