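import Pool.Agent.Q218.UB.Lf
import Pool.Agent.Q73.NL.TD2

/-!
# Level sets of eigenfunctions (project UB), sequences: the length of the level curves
-/

set_option autoImplicit false
open MeasureTheory Filter Topology
open scoped ContDiff ENNReal

namespace Pool.Agent.Q218.UB.Seq

noncomputable section

/-- the regular part of a level curve -/
def rl (u : ℂ → ℝ) (V : Set ℂ) (s : ℝ) : Set ℂ := {z | z ∈ V ∧ u z = s ∧ fderiv ℝ u z ≠ 0}

/-- the normalised integral of `g` over the part of `V` where `f` is near `s` -/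
def lv (f : ℂ → ℝ) (g : ℂ → ℝ≥0∞) (V : Set ℂ) (ε s : ℝ) : ℝ≥0∞ :=
  (∫⁻ z in V, Set.indicator {z | |f z - s| ≤ ε} g z) / ENNReal.ofReal (2 * ε)

/-- compact sets of regular points -/
lemma rl_compact {u : ℂ → ℝ} {V : Set ℂ} (hV : IsOpen V) (hu : ContDiffOn ℝ ∞ u V) {K : Set ℂ} {s : ℝ}
    (hK : IsCompact K) (hKV : K ⊆ rl u V s) :
    (μH[1] : Measure ℂ) K ≤ liminf (fun ε => lv u (fun z => ENNReal.ofReal (gd u z)) V ε s) (𝓝[>] (0 : ℝ)) := by
  obtain ⟨φ, hφ, -, W, hW, hKW, hW1⟩ := tst_exists hK hV fun z hz => (hKV hz).1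
  have hWV : W ⊆ V := fun z hz => by
    refine hφ.ts (subset_tsupport _ ?_)
    rw [Function.mem_support, hW1 z hz]; exact one_ne_zero
  obtain ⟨w, hw⟩ : ∃ w : ℂ → ℝ, w = fun z => φ z * (u z - s) := ⟨_, rfl⟩
  have sw : ContDiff ℝ ∞ w := by rw [hw]; exact cut_sm hV hφ.sm hφ.ts (hu.sub contDiffOn_const)
  have ew : ∀ z ∈ W, w z = u z - s := fun z hz => by rw [hw]; simp only; rw [hW1 z hz, one_mul]
  have ed : ∀ v, ∀ z ∈ W, fderiv ℝ w z v = dv v u z := fun v z hz => by
    have h1 : dv v w z = dv v (fun z => u z - s) z := dv_loc hW ew v z hz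
    have h2 : dv v (fun z => u z - s) z = dv v u z := by
      unfold dv
      rw [fderiv_sub_const]
    exact h1.trans h2
  have h1 := Pool.Agent.Q73.NL.td2 w K W sw hK hW hKW (fun z hz => ⟨?_, ?_⟩)
  · refine h1.trans (liminf_le_liminf (Eventually.of_forall fun ε => ?_))
    unfold Pool.Agent.Q73.NL.lev lv
    gcongr ?_ / _
    have m1 : MeasurableSet {z | z ∈ W ∧ |w z| ≤ ε} :=
      hW.measurableSet.inter (measurableSet_le sw.continuous.abs.measurable measurable_const)
    rw [← lintegral_indicator m1, ← lintegral_indicator hV.measurableSet]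
    refine lintegral_mono fun z => ?_
    by_cases hz : z ∈ {z | z ∈ W ∧ |w z| ≤ ε}
    · have h2 : |u z - s| ≤ ε := by rw [← ew z hz.1]; exact hz.2
      rw [Set.indicator_of_mem hz, Set.indicator_of_mem (hWV hz.1),
        Set.indicator_of_mem (show z ∈ {z | |u z - s| ≤ ε} from h2)]
      refine ENNReal.ofReal_le_ofReal (le_of_eq ?_)
      unfold Pool.Agent.Q73.NL.gr Pool.Agent.Q73.NL.dx Pool.Agent.Q73.NL.dy gd
      rw [ed 1 z hz.1, ed Complex.I z hz.1]
    · rw [Set.indicator_of_notMem hz]; exact zero_le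
  · rw [ew z (hKW hz), (hKV hz).2.1, sub_self]
  · by_contra hcon
    rw [not_or, not_not, not_not] at hcon
    have a1 : dv 1 u z = 0 := by rw [← ed 1 z (hKW hz)]; exact hcon.1
    have a2 : dv Complex.I u z = 0 := by rw [← ed Complex.I z (hKW hz)]; exact hcon.2
    refine (hKV hz).2.2 ?_
    ext v
    have h2 := dv_vec u v z
    rw [a1, a2, mul_zero, mul_zero, add_zero] at h2
    exact h2

/-- the whole regular part -/
lemma rl_open {u : ℂ → ℝ} {V : Set ℂ} (hV : IsOpen V) (hu : ContDiffOn ℝ ∞ u V) (s : ℝ) :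
    (μH[1] : Measure ℂ) (rl u V s) ≤
      liminf (fun ε => lv u (fun z => ENNReal.ofReal (gd u z)) V ε s) (𝓝[>] (0 : ℝ)) := by
  have cd : ContinuousOn (fun z => fderiv ℝ u z) V := (hu.continuousOn_fderiv_of_isOpen hV (by simp))
  have cu : ContinuousOn u V := hu.continuousOn
  obtain ⟨O, hO⟩ : ∃ O : Set ℂ, O = V ∩ {z | fderiv ℝ u z ≠ 0} := ⟨_, rfl⟩
  have oO : IsOpen O := by
    rw [hO]
    exact cd.isOpen_inter_preimage hV isOpen_ne
  obtain ⟨F, hFc, hFO, hFU, hFm⟩ := oO.exists_iUnion_isClosed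
  obtain ⟨K, hK⟩ : ∃ K : ℕ → Set ℂ, K = fun j => (F j ∩ Metric.closedBall 0 j) ∩ {z | u z = s} := ⟨_, rfl⟩
  have cK : ∀ j, IsCompact (K j) := fun j => by
    have h1 : IsCompact (F j ∩ Metric.closedBall 0 (j : ℝ)) :=
      (isCompact_closedBall (0 : ℂ) (j : ℝ)).inter_left (hFc j)
    have h2 : F j ∩ Metric.closedBall 0 (j : ℝ) ⊆ V := fun z hz => by
      have := hFO j hz.1
      rw [hO] at this
      exact this.1
    have h3 : IsClosed ((F j ∩ Metric.closedBall 0 (j : ℝ)) ∩ u ⁻¹' {s}) :=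
      (cu.mono h2).preimage_isClosed_of_isClosed h1.isClosed isClosed_singleton
    rw [hK]
    exact h1.of_isClosed_subset h3 Set.inter_subset_left
  have mK : Monotone K := fun i j hij => by
    rw [hK]
    refine Set.inter_subset_inter_left _ (Set.inter_subset_inter (hFm hij) ?_)
    exact Metric.closedBall_subset_closedBall (by exact_mod_cast hij)
  have KE : ∀ j, K j ⊆ rl u V s := fun j z hz => by
    rw [hK] at hz
    have h1 := hFO j hz.1.1
    rw [hO] at h1
    exact ⟨h1.1, hz.2, h1.2⟩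
  have UE : ⋃ j, K j = rl u V s := by
    refine Set.Subset.antisymm (Set.iUnion_subset KE) fun z hz => ?_
    have h1 : z ∈ ⋃ j, F j := by rw [hFU, hO]; exact ⟨hz.1, hz.2.2⟩
    obtain ⟨i, hi⟩ := Set.mem_iUnion.1 h1
    obtain ⟨j, hj⟩ := exists_nat_ge ‖z‖
    refine Set.mem_iUnion.2 ⟨max i j, ?_⟩
    rw [hK]
    refine ⟨⟨hFm (le_max_left i j) hi, ?_⟩, hz.2.1⟩
    rw [mem_closedBall_zero_iff]
    refine hj.trans ?_
    exact_mod_cast le_max_right i j
  rw [← UE, mK.measure_iUnion]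
  exact iSup_le fun j => rl_compact hV hu (cK j) (KE j)

/-- a measurable majorant -/
def Lv (f : ℂ → ℝ) (g : ℂ → ℝ≥0∞) (V : Set ℂ) (s : ℝ) : ℝ≥0∞ :=
  liminf (fun k : ℕ => lv f g V (1 / ((k : ℝ) + 1)) s) atTop

lemma lv_prod {f : ℂ → ℝ} {g : ℂ → ℝ≥0∞} (hf : Measurable f) (hg : Measurable g) (ε : ℝ) :
    Measurable fun p : ℝ × ℂ => Set.indicator {z | |f z - p.1| ≤ ε} g p.2 := by
  have h1 : MeasurableSet {p : ℝ × ℂ | |f p.2 - p.1| ≤ ε} :=
    measurableSet_le (((hf.comp measurable_snd).sub measurable_fst).abs) measurable_const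
  have h2 : (fun p : ℝ × ℂ => Set.indicator {z | |f z - p.1| ≤ ε} g p.2) =
      Set.indicator {p : ℝ × ℂ | |f p.2 - p.1| ≤ ε} fun p => g p.2 := by
    funext p
    by_cases hp : |f p.2 - p.1| ≤ ε
    · rw [Set.indicator_of_mem (show p.2 ∈ {z | |f z - p.1| ≤ ε} from hp),
        Set.indicator_of_mem (show p ∈ {p : ℝ × ℂ | |f p.2 - p.1| ≤ ε} from hp)]
    · rw [Set.indicator_of_notMem (show p.2 ∉ {z | |f z - p.1| ≤ ε} from hp),
        Set.indicator_of_notMem (show p ∉ {p : ℝ × ℂ | |f p.2 - p.1| ≤ ε} from hp)]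
  rw [h2]
  exact (hg.comp measurable_snd).indicator h1

lemma Lv_meas {f : ℂ → ℝ} {g : ℂ → ℝ≥0∞} (hf : Measurable f) (hg : Measurable g) (V : Set ℂ) :
    Measurable (Lv f g V) := by
  unfold Lv lv
  exact Measurable.liminf fun k => ((lv_prod hf hg _).lintegral_prod_right').div_const _

/-- the integral of the majorant over the levels -/
lemma Lv_int {f : ℂ → ℝ} {g : ℂ → ℝ≥0∞} (hf : Measurable f) (hg : Measurable g) {V : Set ℂ}
    {a b η : ℝ} (hη : 0 < η) :
    ∫⁻ s in Set.Icc a b, Lv f g V s ≤ ∫⁻ z in V, Set.indicator {z | a - η ≤ f z ∧ f z ≤ b + η} g z := by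
  have ml : ∀ k : ℕ, Measurable fun s => lv f g V (1 / ((k : ℝ) + 1)) s := fun k => by
    unfold lv
    exact ((lv_prod hf hg _).lintegral_prod_right').div_const _
  unfold Lv
  refine (lintegral_liminf_le ml).trans ?_
  refine liminf_le_of_le (by isBoundedDefault) fun B hB => ?_
  have ht : Tendsto (fun k : ℕ => (1 : ℝ) / ((k : ℝ) + 1)) atTop (𝓝 0) := tendsto_one_div_add_atTop_nhds_zero_nat
  obtain ⟨k, hk1, hk2⟩ := (hB.and (ht.eventually (gt_mem_nhds hη))).exists
  refine hk1.trans ?_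
  obtain ⟨ε, hε⟩ : ∃ ε : ℝ, ε = 1 / ((k : ℝ) + 1) := ⟨_, rfl⟩
  rw [← hε] at hk2 ⊢
  have ε0 : 0 < ε := by rw [hε]; positivity
  have ε2 : 0 < ENNReal.ofReal (2 * ε) := ENNReal.ofReal_pos.2 (by positivity)
  have e1 : ∫⁻ s in Set.Icc a b, lv f g V ε s =
      (∫⁻ z in V, ∫⁻ s in Set.Icc a b, Set.indicator {z | |f z - s| ≤ ε} g z) / ENNReal.ofReal (2 * ε) := by
    unfold lv
    simp only [div_eq_mul_inv]
    rw [lintegral_mul_const _ ((lv_prod hf hg _).lintegral_prod_right')]
    congr 1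
    exact lintegral_lintegral_swap (lv_prod hf hg ε).aemeasurable
  rw [e1, ENNReal.div_le_iff_le_mul (Or.inl ε2.ne') (Or.inl ENNReal.ofReal_ne_top)]
  have mI : MeasurableSet {z | a - η ≤ f z ∧ f z ≤ b + η} :=
    (measurableSet_le measurable_const hf).inter (measurableSet_le hf measurable_const)
  rw [← lintegral_mul_const _ (hg.indicator mI)]
  refine lintegral_mono fun z => ?_
  show ∫⁻ s in Set.Icc a b, Set.indicator {z | |f z - s| ≤ ε} g z ≤
    Set.indicator {z | a - η ≤ f z ∧ f z ≤ b + η} g z * ENNReal.ofReal (2 * ε)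
  have e2 : ∀ s, Set.indicator {z | |f z - s| ≤ ε} g z = Set.indicator (Set.Icc (f z - ε) (f z + ε)) (fun _ => g z) s := by
    intro s
    by_cases hs : |f z - s| ≤ ε
    · rw [Set.indicator_of_mem (show z ∈ {z | |f z - s| ≤ ε} from hs), Set.indicator_of_mem]
      rw [abs_le] at hs
      exact ⟨by linarith [hs.2], by linarith [hs.1]⟩
    · rw [Set.indicator_of_notMem (show z ∉ {z | |f z - s| ≤ ε} from hs), Set.indicator_of_notMem]
      intro h
      exact hs (abs_le.2 ⟨by linarith [h.2], by linarith [h.1]⟩)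
  simp only [e2]
  rw [setLIntegral_indicator measurableSet_Icc, setLIntegral_const]
  by_cases hz : a - η ≤ f z ∧ f z ≤ b + η
  · rw [Set.indicator_of_mem (show z ∈ {z | a - η ≤ f z ∧ f z ≤ b + η} from hz)]
    refine mul_le_mul_right ?_ _
    refine (measure_mono Set.inter_subset_left).trans ?_
    rw [Real.volume_Icc]
    exact ENNReal.ofReal_le_ofReal (by linarith)
  · have h0 : Set.Icc (f z - ε) (f z + ε) ∩ Set.Icc a b = ∅ := by
      rw [Set.eq_empty_iff_forall_notMem]
      rintro s ⟨⟨h1, h2⟩, h3, h4⟩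
      exact hz ⟨by linarith, by linarith⟩
    rw [h0, measure_empty, mul_zero]
    exact zero_le

/-- **the length of the level curves** -/
theorem curves {ρ : ℂ → ℝ} {U : Set ℂ} {lam : ℕ → ℝ} {u : ℕ → ℂ → ℝ} (S : Lq U ρ lam u) {V : Set ℂ}
    (hV : IsOpen V) (hVU : V ⊆ U) (h1 : ∀ z ∈ U, ρ z = 1) (hfin : volume V ≠ ⊤)
    (hup : ∀ a b : ℝ, a ≤ b → Up (GS gd ρ u lam a b V) (ENNReal.ofReal ((b - a) * (1 / 2)) *
      ∫⁻ z in V, ENNReal.ofReal (ρ z))) :
    ∃ L : ℕ → ℝ → ℝ≥0∞, (∀ n, Measurable (L n)) ∧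
      (∀ n s, (μH[1] : Measure ℂ) (rl (u n) V s) ≤ L n s) ∧
      ∀ a b : ℝ, a ≤ b → limsup (fun n => (∫⁻ s in Set.Icc a b, L n s) / ENNReal.ofReal √(lam n)) atTop ≤
        ENNReal.ofReal ((b - a) / 2) * volume V := by
  classical
  have vol : ∫⁻ z in V, ENNReal.ofReal (ρ z) = volume V := by
    have : ∫⁻ z in V, ENNReal.ofReal (ρ z) = ∫⁻ _ in V, 1 :=
      setLIntegral_congr_fun hV.measurableSet fun z hz => by
        show ENNReal.ofReal (ρ z) = 1
        rw [h1 z (hVU hz)]; simp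
    rw [this]; simp
  -- measurable versions
  have cu : ∀ n, ContinuousOn (u n) V := fun n => (S.us n).continuousOn.mono hVU
  have cd : ∀ n v, ContinuousOn (dv v (u n)) V := fun n v => by
    have h2 : ContinuousOn (fun z => fderiv ℝ (u n) z) V :=
      ((S.us n).mono hVU).continuousOn_fderiv_of_isOpen hV (by simp)
    exact h2.clm_apply continuousOn_const
  have cg : ∀ n, ContinuousOn (fun z => ENNReal.ofReal (gd (u n) z)) V := fun n => by
    unfold gd
    exact ENNReal.continuous_ofReal.comp_continuousOn (((cd n 1).pow 2).add ((cd n Complex.I).pow 2)).sqrt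
  obtain ⟨f, hf⟩ : ∃ f : ℕ → ℂ → ℝ, f = fun n => V.piecewise (u n) fun _ => 0 := ⟨_, rfl⟩
  obtain ⟨g, hg⟩ : ∃ g : ℕ → ℂ → ℝ≥0∞, g = fun n => V.piecewise (fun z => ENNReal.ofReal (gd (u n) z)) fun _ => 0 :=
    ⟨_, rfl⟩
  have mf : ∀ n, Measurable (f n) := fun n => by
    rw [hf]; exact (cu n).measurable_piecewise continuousOn_const hV.measurableSet
  have mg : ∀ n, Measurable (g n) := fun n => by
    rw [hg]; exact (cg n).measurable_piecewise continuousOn_const hV.measurableSet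
  have fz : ∀ n, ∀ z ∈ V, f n z = u n z := fun n z hz => by rw [hf]; exact Set.piecewise_eq_of_mem _ _ _ hz
  have gz : ∀ n, ∀ z ∈ V, g n z = ENNReal.ofReal (gd (u n) z) := fun n z hz => by
    rw [hg]; exact Set.piecewise_eq_of_mem _ _ _ hz
  have elv : ∀ n ε s, lv (f n) (g n) V ε s = lv (u n) (fun z => ENNReal.ofReal (gd (u n) z)) V ε s := by
    intro n ε s
    unfold lv
    congr 1
    refine setLIntegral_congr_fun hV.measurableSet fun z hz => ?_
    show Set.indicator {z | |f n z - s| ≤ ε} (g n) z =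
      Set.indicator {z | |u n z - s| ≤ ε} (fun z => ENNReal.ofReal (gd (u n) z)) z
    by_cases h : |u n z - s| ≤ ε
    · rw [Set.indicator_of_mem (show z ∈ {z | |f n z - s| ≤ ε} by rw [Set.mem_ofPred_eq, fz n z hz]; exact h),
        Set.indicator_of_mem (show z ∈ {z | |u n z - s| ≤ ε} from h), gz n z hz]
    · rw [Set.indicator_of_notMem (show z ∉ {z | |f n z - s| ≤ ε} by rw [Set.mem_ofPred_eq, fz n z hz]; exact h),
        Set.indicator_of_notMem (show z ∉ {z | |u n z - s| ≤ ε} from h)]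
  refine ⟨fun n => Lv (f n) (g n) V, fun n => Lv_meas (mf n) (mg n) V, fun n s => ?_, fun a b hab => ?_⟩
  · refine (rl_open hV ((S.us n).mono hVU) s).trans ?_
    unfold Lv
    simp only [elv]
    have ht : Tendsto (fun k : ℕ => (1 : ℝ) / ((k : ℝ) + 1)) atTop (𝓝[>] 0) := by
      rw [tendsto_nhdsWithin_iff]
      exact ⟨tendsto_one_div_add_atTop_nhds_zero_nat, Eventually.of_forall fun n => by
        show (0 : ℝ) < 1 / ((n : ℝ) + 1)
        positivity⟩
    have : liminf (fun k : ℕ => lv (u n) (fun z => ENNReal.ofReal (gd (u n) z)) V (1 / ((k : ℝ) + 1)) s) atTop =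
        liminf (fun ε => lv (u n) (fun z => ENNReal.ofReal (gd (u n) z)) V ε s)
          (Filter.map (fun k : ℕ => (1 : ℝ) / ((k : ℝ) + 1)) atTop) := by
      rw [← liminf_comp]; rfl
    rw [this]
    exact liminf_le_liminf_of_le ht
  · -- enlarge the interval
    have key : ∀ η : ℝ, 0 < η →
        limsup (fun n => (∫⁻ s in Set.Icc a b, Lv (f n) (g n) V s) / ENNReal.ofReal √(lam n)) atTop ≤
          ENNReal.ofReal ((b - a) / 2 + η) * volume V := by
      intro η hη
      have h2 := (hup (a - η) (b + η) (by linarith)).limsup_le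
      rw [vol] at h2
      have e : (b + η - (a - η)) * (1 / 2) = (b - a) / 2 + η := by ring
      rw [e] at h2
      refine le_trans (limsup_le_limsup (Eventually.of_forall fun n => ?_)) h2
      unfold GS
      gcongr ?_ / _
      refine (Lv_int (mf n) (mg n) hη).trans ?_
      rw [← lintegral_indicator hV.measurableSet]
      have mS : MeasurableSet (V ∩ {z | a - η ≤ u n z ∧ u n z ≤ b + η}) := by
        have e2 : V ∩ {z | a - η ≤ u n z ∧ u n z ≤ b + η} = V ∩ {z | a - η ≤ f n z ∧ f n z ≤ b + η} := by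
          ext z
          constructor
          · rintro ⟨h3, h4⟩
            refine ⟨h3, ?_⟩
            rw [Set.mem_ofPred_eq, fz n z h3]; exact h4
          · rintro ⟨h3, h4⟩
            rw [Set.mem_ofPred_eq, fz n z h3] at h4
            exact ⟨h3, h4⟩
        rw [e2]
        exact hV.measurableSet.inter ((measurableSet_le measurable_const (mf n)).inter
          (measurableSet_le (mf n) measurable_const))
      rw [← lintegral_indicator mS]
      refine lintegral_mono fun z => ?_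
      by_cases hz : z ∈ V
      · rw [Set.indicator_of_mem hz]
        by_cases h3 : a - η ≤ u n z ∧ u n z ≤ b + η
        · rw [Set.indicator_of_mem (show z ∈ {z | a - η ≤ f n z ∧ f n z ≤ b + η} by
              rw [Set.mem_ofPred_eq, fz n z hz]; exact h3),
            Set.indicator_of_mem (show z ∈ V ∩ {z | a - η ≤ u n z ∧ u n z ≤ b + η} from ⟨hz, h3⟩),
            gz n z hz, h1 z (hVU hz), Real.sqrt_one, one_mul]
        · rw [Set.indicator_of_notMem (show z ∉ {z | a - η ≤ f n z ∧ f n z ≤ b + η} by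
              rw [Set.mem_ofPred_eq, fz n z hz]; exact h3)]
          exact zero_le
      · rw [Set.indicator_of_notMem hz]; exact zero_le
    refine ge_of_tendsto (x := 𝓝[>] (0 : ℝ)) (f := fun η => ENNReal.ofReal ((b - a) / 2 + η) * volume V) ?_ ?_
    · have h3 : Tendsto (fun η : ℝ => (b - a) / 2 + η) (𝓝[>] 0) (𝓝 ((b - a) / 2)) := by
        have : Tendsto (fun η : ℝ => (b - a) / 2 + η) (𝓝 0) (𝓝 ((b - a) / 2 + 0)) :=
          (continuous_const.add continuous_id).tendsto 0
        rw [add_zero] at this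
        exact this.mono_left nhdsWithin_le_nhds
      exact ENNReal.Tendsto.mul_const (ENNReal.tendsto_ofReal h3) (Or.inr hfin)
    · filter_upwards [self_mem_nhdsWithin] with η hη
      exact key η hη

end

end Pool.Agent.Q218.UB.Seq
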