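import Mathlib

/-!
# Upper bounds for level sets of stationary waves (project UB): the regularised logarithm
-/

set_option autoImplicit false
open MeasureTheory Filter Topology Complex

namespace Pool.Agent.Q218.UB

noncomputable section

/-- `|z|² + δ²` -/
def QQ (δ : ℝ) (z : ℂ) : ℝ := z.re ^ 2 + z.im ^ 2 + δ ^ 2

/-- the regularised logarithm `(1/2) log (|z|² + δ²)` -/
def lg (δ : ℝ) (z : ℂ) : ℝ := Real.log (QQ δ z) / 2

/-- its first derivative -/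
def lg1 (δ : ℝ) (z z1 : ℂ) : ℝ := (z.re * z1.re + z.im * z1.im) / QQ δ z

/-- its second derivative -/
def lg2 (δ : ℝ) (z z1 z2 : ℂ) : ℝ :=
  (z1.re ^ 2 + z1.im ^ 2 + (z.re * z2.re + z.im * z2.im)) / QQ δ z -
    2 * (z.re * z1.re + z.im * z1.im) ^ 2 / QQ δ z ^ 2

/-- the main term -/
def mn (δ : ℝ) (z z1 : ℂ) : ℝ := 2 * δ ^ 2 * (z1.re ^ 2 + z1.im ^ 2) / QQ δ z ^ 2

lemma QQ_pos {δ : ℝ} (hδ : 0 < δ) (z : ℂ) : 0 < QQ δ z := by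
  unfold QQ; positivity

lemma QQ_ge {δ : ℝ} (z : ℂ) : δ ^ 2 ≤ QQ δ z := by
  unfold QQ; nlinarith [sq_nonneg z.re, sq_nonneg z.im]

lemma QQ_eq {δ : ℝ} (z : ℂ) : QQ δ z = ‖z‖ ^ 2 + δ ^ 2 := by
  unfold QQ; rw [Complex.sq_norm, Complex.normSq_apply]; ring

lemma hd_re {z : ℝ → ℂ} {z1 : ℂ} {t : ℝ} (h : HasDerivAt z z1 t) :
    HasDerivAt (fun t => (z t).re) z1.re t :=
  Complex.reCLM.hasFDerivAt.comp_hasDerivAt t h

lemma hd_im {z : ℝ → ℂ} {z1 : ℂ} {t : ℝ} (h : HasDerivAt z z1 t) :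
    HasDerivAt (fun t => (z t).im) z1.im t :=
  Complex.imCLM.hasFDerivAt.comp_hasDerivAt t h

lemma hd_QQ {δ : ℝ} {z : ℝ → ℂ} {z1 : ℂ} {t : ℝ} (h : HasDerivAt z z1 t) :
    HasDerivAt (fun t => QQ δ (z t)) (2 * ((z t).re * z1.re + (z t).im * z1.im)) t := by
  have h1 := (((hd_re h).pow 2).add ((hd_im h).pow 2)).add_const (δ ^ 2)
  refine h1.congr_deriv ?_
  simp only [Nat.cast_ofNat]
  ring

lemma hd_lg {δ : ℝ} (hδ : 0 < δ) {z : ℝ → ℂ} {z1 : ℂ} {t : ℝ} (h : HasDerivAt z z1 t) :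
    HasDerivAt (fun t => lg δ (z t)) (lg1 δ (z t) z1) t := by
  have h1 := ((hd_QQ (δ := δ) h).log (QQ_pos hδ _).ne').div_const 2
  refine h1.congr_deriv ?_
  unfold lg1
  have := (QQ_pos hδ (z t)).ne'
  field_simp

lemma hd_lg1 {δ : ℝ} (hδ : 0 < δ) {z z1 : ℝ → ℂ} {z2 : ℂ} {t : ℝ} (h : HasDerivAt z (z1 t) t)
    (h' : HasDerivAt z1 z2 t) :
    HasDerivAt (fun t => lg1 δ (z t) (z1 t)) (lg2 δ (z t) (z1 t) z2) t := by
  have h1 := (((hd_re h).mul (hd_re h')).add ((hd_im h).mul (hd_im h'))).div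
    (hd_QQ (δ := δ) h) (QQ_pos hδ _).ne'
  refine h1.congr_deriv ?_
  unfold lg2
  have := (QQ_pos hδ (z t)).ne'
  simp only [Pi.add_apply, Pi.mul_apply]
  field_simp
  ring

/-- algebra: the sum of the two second derivatives -/
lemma sum_eq {δ : ℝ} (hδ : 0 < δ) (z z1 z2 e e1 : ℂ) :
    lg2 δ z z1 z2 + lg2 δ z (I * (z1 - e)) (-(z2 - e1)) = mn δ z z1 +
      (((z1 - e).re ^ 2 + (z1 - e).im ^ 2 - (z1.re ^ 2 + z1.im ^ 2)) +
        (z.re * e1.re + z.im * e1.im)) / QQ δ z -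
      2 * ((z.im * (z1 - e).re - z.re * (z1 - e).im) ^ 2 - (z.im * z1.re - z.re * z1.im) ^ 2) /
        QQ δ z ^ 2 := by
  have h0 := (QQ_pos hδ z).ne'
  unfold lg2 mn
  simp only [Complex.mul_re, Complex.mul_im, Complex.I_re, Complex.I_im, Complex.neg_re,
    Complex.neg_im, Complex.sub_re, Complex.sub_im]
  have e0 : QQ δ z = z.re ^ 2 + z.im ^ 2 + δ ^ 2 := rfl
  field_simp
  rw [e0]
  ring

lemma le_sum {δ : ℝ} (hδ : 0 < δ) (z z1 z2 e e1 : ℂ) :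
    mn δ z z1 ≤ lg2 δ z z1 z2 + lg2 δ z (I * (z1 - e)) (-(z2 - e1)) +
      (‖e1‖ / δ + 3 * (2 * ‖z1‖ * ‖e‖ + ‖e‖ ^ 2) / δ ^ 2) := by
  rw [sum_eq hδ]
  have hQ := QQ_pos hδ z
  have hQd := QQ_ge (δ := δ) z
  have hd2 : 0 < δ ^ 2 := by positivity
  have nz : ‖z‖ ^ 2 = z.re ^ 2 + z.im ^ 2 := by rw [Complex.sq_norm, Complex.normSq_apply]; ring
  have n1 : ‖z1‖ ^ 2 = z1.re ^ 2 + z1.im ^ 2 := by rw [Complex.sq_norm, Complex.normSq_apply]; ring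
  have ne : ‖z1 - e‖ ^ 2 = (z1 - e).re ^ 2 + (z1 - e).im ^ 2 := by
    rw [Complex.sq_norm, Complex.normSq_apply]; ring
  -- first error
  have a1 : |(z1 - e).re ^ 2 + (z1 - e).im ^ 2 - (z1.re ^ 2 + z1.im ^ 2)| ≤
      2 * ‖z1‖ * ‖e‖ + ‖e‖ ^ 2 := by
    rw [← n1, ← ne]
    have h1 : ‖z1 - e‖ ≤ ‖z1‖ + ‖e‖ := norm_sub_le _ _
    have h2 : ‖z1‖ ≤ ‖z1 - e‖ + ‖e‖ := by
      have := norm_add_le (z1 - e) e
      simpa using this
    have p1 := norm_nonneg z1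
    have p2 := norm_nonneg e
    have p3 := norm_nonneg (z1 - e)
    rw [abs_le]
    constructor
    · nlinarith
    · nlinarith
  -- second error
  have a2 : |z.re * e1.re + z.im * e1.im| ≤ ‖z‖ * ‖e1‖ := by
    have h1 : z.re * e1.re + z.im * e1.im = ((starRingEnd ℂ) z * e1).re := by
      simp [Complex.mul_re]
    rw [h1]
    refine (Complex.abs_re_le_norm _).trans ?_
    rw [norm_mul, Complex.norm_conj]
  -- third error
  have a3 : |(z.im * (z1 - e).re - z.re * (z1 - e).im) ^ 2 - (z.im * z1.re - z.re * z1.im) ^ 2| ≤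
      ‖z‖ ^ 2 * (2 * ‖z1‖ * ‖e‖ + ‖e‖ ^ 2) := by
    have h1 : (z.im * (z1 - e).re - z.re * (z1 - e).im) ^ 2 - (z.im * z1.re - z.re * z1.im) ^ 2 =
        ((starRingEnd ℂ) z * e).im * ((starRingEnd ℂ) z * (e - 2 * z1)).im := by
      simp [Complex.mul_im, Complex.mul_re]
      ring
    rw [h1, abs_mul]
    have h2 := Complex.abs_im_le_norm ((starRingEnd ℂ) z * e)
    have h3 := Complex.abs_im_le_norm ((starRingEnd ℂ) z * (e - 2 * z1))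
    rw [norm_mul, Complex.norm_conj] at h2 h3
    have h4 : ‖e - 2 * z1‖ ≤ ‖e‖ + 2 * ‖z1‖ := by
      refine (norm_sub_le _ _).trans ?_
      rw [norm_mul]; simp
    calc _ ≤ (‖z‖ * ‖e‖) * (‖z‖ * (‖e‖ + 2 * ‖z1‖)) :=
          mul_le_mul h2 (h3.trans (by gcongr)) (abs_nonneg _) (by positivity)
      _ = _ := by ring
  have zQ : ‖z‖ * δ ≤ QQ δ z := by
    rw [QQ_eq]; nlinarith [sq_nonneg (‖z‖ - δ), sq_nonneg ‖z‖]
  have zQ2 : ‖z‖ ^ 2 ≤ QQ δ z := by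
    rw [QQ_eq]; linarith
  set X := 2 * ‖z1‖ * ‖e‖ + ‖e‖ ^ 2 with hX
  have hX0 : 0 ≤ X := by positivity
  have b1 : -(X / δ ^ 2) ≤ ((z1 - e).re ^ 2 + (z1 - e).im ^ 2 - (z1.re ^ 2 + z1.im ^ 2)) / QQ δ z := by
    rw [neg_le_iff_add_nonneg, div_add_div _ _ hQ.ne' hd2.ne']
    refine div_nonneg ?_ (by positivity)
    have := (abs_le.1 a1).1
    nlinarith
  have b2 : -(‖e1‖ / δ) ≤ (z.re * e1.re + z.im * e1.im) / QQ δ z := by
    rw [neg_le_iff_add_nonneg, div_add_div _ _ hQ.ne' hδ.ne']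
    refine div_nonneg ?_ (by positivity)
    have h1 := (abs_le.1 a2).1
    have h2 := norm_nonneg e1
    nlinarith
  have b3 : 2 * ((z.im * (z1 - e).re - z.re * (z1 - e).im) ^ 2 -
      (z.im * z1.re - z.re * z1.im) ^ 2) / QQ δ z ^ 2 ≤ 2 * X / δ ^ 2 := by
    rw [div_le_div_iff₀ (by positivity) hd2]
    have h1 := (abs_le.1 a3).2
    have h2 : ‖z‖ ^ 2 * X * δ ^ 2 ≤ X * QQ δ z ^ 2 := by
      calc ‖z‖ ^ 2 * X * δ ^ 2 = X * (‖z‖ ^ 2 * δ ^ 2) := by ring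
        _ ≤ X * (QQ δ z * QQ δ z) := by gcongr
        _ = _ := by ring
    nlinarith
  rw [add_div]
  have e3 : 3 * X / δ ^ 2 = X / δ ^ 2 + 2 * X / δ ^ 2 := by ring
  rw [e3]
  linarith

lemma lg_ge {δ : ℝ} (hδ : 0 < δ) (z : ℂ) : Real.log δ ≤ lg δ z := by
  unfold lg
  have h := Real.log_le_log (by positivity) (QQ_ge (δ := δ) z)
  rw [Real.log_pow] at h
  push_cast at h
  linarith

lemma lg_le {δ m : ℝ} (hδ : 0 < δ) (hm : 0 < m) (z : ℂ) :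
    lg δ z ≤ ((‖z‖ ^ 2 + δ ^ 2) / m - 1 + Real.log m) / 2 := by
  unfold lg
  have hQ := QQ_pos hδ z
  have h1 := Real.log_le_sub_one_of_pos (div_pos hQ hm)
  rw [Real.log_div hQ.ne' hm.ne', QQ_eq] at h1
  rw [QQ_eq]
  linarith

lemma lg_abs {δ : ℝ} (hδ : 0 < δ) (h1 : δ ≤ 1) (z : ℂ) : |lg δ z| ≤ ‖z‖ ^ 2 + 1 + |Real.log δ| := by
  rw [abs_le]
  have h2 := lg_ge hδ z
  have h3 := lg_le hδ one_pos z
  have h4 := neg_abs_le (Real.log δ)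
  have h5 := abs_nonneg (Real.log δ)
  have h6 : δ ^ 2 ≤ 1 := by nlinarith
  have h7 := sq_nonneg ‖z‖
  rw [Real.log_one] at h3
  constructor
  · linarith
  · have : ((‖z‖ ^ 2 + δ ^ 2) / 1 - 1 + 0) / 2 ≤ ‖z‖ ^ 2 + 1 := by
      simp only [div_one]; linarith
    linarith

lemma lg1_abs {δ : ℝ} (hδ : 0 < δ) (z z1 : ℂ) : |lg1 δ z z1| ≤ ‖z1‖ / δ := by
  have hQ := QQ_pos hδ z
  unfold lg1
  have a2 : |z.re * z1.re + z.im * z1.im| ≤ ‖z‖ * ‖z1‖ := by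
    have h1 : z.re * z1.re + z.im * z1.im = ((starRingEnd ℂ) z * z1).re := by
      simp [Complex.mul_re]
    rw [h1]
    refine (Complex.abs_re_le_norm _).trans ?_
    rw [norm_mul, Complex.norm_conj]
  have zQ : ‖z‖ * δ ≤ QQ δ z := by
    rw [QQ_eq]; nlinarith [sq_nonneg (‖z‖ - δ), sq_nonneg ‖z‖]
  rw [abs_div, abs_of_pos hQ, div_le_div_iff₀ hQ hδ]
  have := norm_nonneg z1
  nlinarith

lemma lg2_abs {δ : ℝ} (hδ : 0 < δ) (z z1 z2 : ℂ) :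
    |lg2 δ z z1 z2| ≤ 3 * ‖z1‖ ^ 2 / δ ^ 2 + ‖z2‖ / δ := by
  have hQ := QQ_pos hδ z
  have hQd := QQ_ge (δ := δ) z
  have hd2 : 0 < δ ^ 2 := by positivity
  have n1 : ‖z1‖ ^ 2 = z1.re ^ 2 + z1.im ^ 2 := by rw [Complex.sq_norm, Complex.normSq_apply]; ring
  have h1 : lg2 δ z z1 z2 = ‖z1‖ ^ 2 / QQ δ z + lg1 δ z z2 - 2 * (lg1 δ z z1) ^ 2 := by
    unfold lg2 lg1
    rw [n1]
    field_simp
  have h2 := abs_le.1 (lg1_abs hδ z z2)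
  have h3 := lg1_abs hδ z z1
  have h4 : (lg1 δ z z1) ^ 2 ≤ ‖z1‖ ^ 2 / δ ^ 2 := by
    rw [← sq_abs, ← div_pow]
    exact pow_le_pow_left₀ (abs_nonneg _) h3 2
  have h5 : ‖z1‖ ^ 2 / QQ δ z ≤ ‖z1‖ ^ 2 / δ ^ 2 := by gcongr
  have h6 : 0 ≤ ‖z1‖ ^ 2 / QQ δ z := by positivity
  have h7 := sq_nonneg (lg1 δ z z1)
  have h8 : 0 ≤ ‖z1‖ ^ 2 / δ ^ 2 := by positivity
  rw [h1]
  have e3 : 3 * ‖z1‖ ^ 2 / δ ^ 2 = 3 * (‖z1‖ ^ 2 / δ ^ 2) := by ring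
  rw [e3, abs_le]
  constructor <;> linarith

lemma mn_nn {δ : ℝ} (z z1 : ℂ) : 0 ≤ mn δ z z1 := by
  unfold mn; positivity

lemma mn_le {δ : ℝ} (hδ : 0 < δ) (z z1 : ℂ) : mn δ z z1 ≤ 2 * ‖z1‖ ^ 2 / δ ^ 2 := by
  have hQ := QQ_pos hδ z
  have hQd := QQ_ge (δ := δ) z
  have hd2 : 0 < δ ^ 2 := by positivity
  have n1 : ‖z1‖ ^ 2 = z1.re ^ 2 + z1.im ^ 2 := by rw [Complex.sq_norm, Complex.normSq_apply]; ring
  unfold mn
  rw [← n1, div_le_div_iff₀ (by positivity) hd2]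
  have h1 : δ ^ 2 * δ ^ 2 ≤ QQ δ z ^ 2 := by
    rw [sq (QQ δ z)]; exact mul_le_mul hQd hQd hd2.le hQ.le
  have h2 := sq_nonneg ‖z1‖
  nlinarith

/-! ### the Taylor polynomials in the imaginary direction -/

/-- `(i y)^n / n!` -/
def cc (n : ℕ) (y : ℝ) : ℂ := (I * y) ^ n / (n.factorial : ℂ)

/-- the Taylor polynomial `∑_{n < M} (i y)^n / n! h_n` -/
def tay (M : ℕ) (y : ℝ) (h : ℕ → ℝ) : ℂ := ∑ n ∈ Finset.range M, cc n y * (h n : ℂ)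

/-- the shift -/
def shf (h : ℕ → ℝ) : ℕ → ℝ := fun n => h (n + 1)

lemma cc_zero (y : ℝ) : cc 0 y = 1 := by simp [cc]

lemma cc_succ_zero (n : ℕ) : cc (n + 1) 0 = 0 := by simp [cc]

lemma cc_norm (n : ℕ) (y : ℝ) : ‖cc n y‖ = |y| ^ n / n.factorial := by
  unfold cc
  rw [norm_div, norm_pow, norm_mul, Complex.norm_I, one_mul, Complex.norm_real, Real.norm_eq_abs]
  simp

lemma hd_cc (n : ℕ) (y : ℝ) : HasDerivAt (cc (n + 1)) (I * cc n y) y := by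
  unfold cc
  have h0 : HasDerivAt (fun y : ℝ => (I * (y : ℂ))) (I * 1) y :=
    (Complex.ofRealCLM.hasDerivAt (x := y)).const_mul I |>.congr_deriv (by simp)
  have h1 := ((h0.pow (n + 1)).div_const ((n + 1).factorial : ℂ))
  refine h1.congr_deriv ?_
  rw [Nat.factorial_succ]
  have f0 : ((n.factorial : ℕ) : ℂ) ≠ 0 := by exact_mod_cast n.factorial_ne_zero
  have f1 : ((n : ℂ) + 1) ≠ 0 := by exact_mod_cast n.succ_ne_zero
  push_cast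
  field_simp

lemma hd_tay (M : ℕ) (h : ℕ → ℝ) (y : ℝ) :
    HasDerivAt (fun y => tay (M + 1) y h) (I * tay M y (shf h)) y := by
  unfold tay
  have e : (fun y => ∑ n ∈ Finset.range (M + 1), cc n y * (h n : ℂ)) =
      fun y => (∑ n ∈ Finset.range M, cc (n + 1) y * (h (n + 1) : ℂ)) + (h 0 : ℂ) := by
    funext y
    rw [Finset.sum_range_succ', cc_zero, one_mul]
  rw [e, Finset.mul_sum]
  refine HasDerivAt.add_const _ ?_
  refine HasDerivAt.fun_sum fun n _ => ?_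
  have := (hd_cc n y).mul_const (h (n + 1) : ℂ)
  refine this.congr_deriv ?_
  unfold shf
  ring

lemma tay_succ (M : ℕ) (y : ℝ) (h : ℕ → ℝ) : tay (M + 1) y h = tay M y h + cc M y * (h M : ℂ) := by
  unfold tay; rw [Finset.sum_range_succ]

lemma tay_zero (M : ℕ) (h : ℕ → ℝ) : tay (M + 1) 0 h = h 0 := by
  unfold tay
  rw [Finset.sum_range_succ', cc_zero, one_mul]
  simp [cc_succ_zero]

lemma tay_norm (M : ℕ) {y H : ℝ} (hy : |y| ≤ H) (h : ℕ → ℝ) :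
    ‖tay M y h‖ ≤ ∑ n ∈ Finset.range M, H ^ n / n.factorial * |h n| := by
  unfold tay
  refine (norm_sum_le _ _).trans (Finset.sum_le_sum fun n _ => ?_)
  rw [norm_mul, cc_norm, Complex.norm_real, Real.norm_eq_abs]
  gcongr

end

end Pool.Agent.Q218.UB
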