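import Pool.Agent.Q218.UB.A

/-!
# Upper bounds for level sets of stationary waves (project UB): the core inequality
-/

set_option autoImplicit false
open MeasureTheory Filter Topology Complex

namespace Pool.Agent.Q218.UB

noncomputable section

lemma cc_cont (n : ℕ) : Continuous (cc n) := by
  unfold cc
  fun_prop

lemma tay_cont (M : ℕ) (h : ℕ → ℝ) : Continuous fun y => tay M y h := by
  unfold tay
  exact continuous_finset_sum _ fun n _ => (cc_cont n).mul continuous_const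

lemma QQ_cont {δ : ℝ} : Continuous (QQ δ) := by
  unfold QQ
  exact (((Complex.continuous_re.pow 2).add (Complex.continuous_im.pow 2)).add continuous_const)

lemma lg_cont {δ : ℝ} (hδ : 0 < δ) : Continuous (lg δ) := by
  unfold lg
  exact (QQ_cont.log fun z => (QQ_pos hδ z).ne').div_const 2

lemma lg1_cont {δ : ℝ} (hδ : 0 < δ) : Continuous fun p : ℂ × ℂ => lg1 δ p.1 p.2 := by
  unfold lg1
  refine Continuous.div ?_ (QQ_cont.comp continuous_fst) fun p => (QQ_pos hδ _).ne'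
  fun_prop

lemma lg2_cont {δ : ℝ} (hδ : 0 < δ) : Continuous fun p : ℂ × ℂ × ℂ => lg2 δ p.1 p.2.1 p.2.2 := by
  unfold lg2
  have h0 : ∀ p : ℂ × ℂ × ℂ, QQ δ p.1 ≠ 0 := fun p => (QQ_pos hδ _).ne'
  have h1 : Continuous fun p : ℂ × ℂ × ℂ => QQ δ p.1 := QQ_cont.comp continuous_fst
  refine Continuous.sub (Continuous.div ?_ h1 h0) (Continuous.div ?_ (h1.pow 2) fun p =>
    pow_ne_zero 2 (h0 p)) <;> fun_prop

lemma mn_cont {δ : ℝ} (hδ : 0 < δ) : Continuous fun p : ℂ × ℂ => mn δ p.1 p.2 := by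
  unfold mn
  have h0 : ∀ p : ℂ × ℂ, QQ δ p.1 ≠ 0 := fun p => (QQ_pos hδ _).ne'
  have h1 : Continuous fun p : ℂ × ℂ => QQ δ p.1 := QQ_cont.comp continuous_fst
  refine Continuous.div ?_ (h1.pow 2) fun p => pow_ne_zero 2 (h0 p)
  fun_prop

/-- the second derivative in the real direction -/
def W2 (δ : ℝ) (N : ℕ) (a y : ℝ) (h : ℕ → ℝ) : ℝ :=
  lg2 δ (tay (N + 2) y h - a) (tay (N + 2) y (shf h)) (tay (N + 2) y (shf (shf h)))

/-- the second derivative in the imaginary direction -/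
def V2 (δ : ℝ) (N : ℕ) (a y : ℝ) (h : ℕ → ℝ) : ℝ :=
  lg2 δ (tay (N + 2) y h - a) (I * tay (N + 1) y (shf h)) (I * (I * tay N y (shf (shf h))))

/-- the main term -/
def Mn (δ : ℝ) (N : ℕ) (a y : ℝ) (h : ℕ → ℝ) : ℝ :=
  mn δ (tay (N + 2) y h - a) (tay (N + 2) y (shf h))

lemma one_sample {δ : ℝ} (hδ : 0 < δ) (N : ℕ) (a H : ℝ) (h : ℕ → ℝ) :
    ∫ y in (0 : ℝ)..H, (H - y) * V2 δ N a y h =
      lg δ (tay (N + 2) H h - a) - lg δ (tay (N + 2) 0 h - a) := by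
  have hz : ∀ y, HasDerivAt (fun y => tay (N + 2) y h - a) (I * tay (N + 1) y (shf h)) y := fun y =>
    (hd_tay (N + 1) h y).sub_const _
  have hz1 : ∀ y, HasDerivAt (fun y => I * tay (N + 1) y (shf h))
      (I * (I * tay N y (shf (shf h)))) y := fun y => (hd_tay N (shf h) y).const_mul I
  have hF : ∀ y, HasDerivAt (fun y => (H - y) * lg1 δ (tay (N + 2) y h - a)
      (I * tay (N + 1) y (shf h)) + lg δ (tay (N + 2) y h - a)) ((H - y) * V2 δ N a y h) y := by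
    intro y
    have h1 := (((hasDerivAt_id y).const_sub H).mul (hd_lg1 hδ (hz y) (hz1 y))).add
      (hd_lg hδ (hz y))
    refine h1.congr_deriv ?_
    unfold V2
    simp only [id]
    ring
  have hc : Continuous fun y => (H - y) * V2 δ N a y h := by
    unfold V2
    refine (continuous_const.sub continuous_id).mul ((lg2_cont hδ).comp
      (Continuous.prodMk ?_ (Continuous.prodMk ?_ ?_)))
    · exact (tay_cont _ _).sub continuous_const
    · exact continuous_const.mul (tay_cont _ _)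
    · exact continuous_const.mul (continuous_const.mul (tay_cont _ _))
  rw [intervalIntegral.integral_eq_sub_of_hasDerivAt (fun y _ => hF y) (hc.intervalIntegrable 0 H)]
  have e0 : lg1 δ (tay (N + 2) 0 h - a) (I * tay (N + 1) 0 (shf h)) = 0 := by
    rw [tay_zero, tay_zero]
    unfold lg1
    simp
  simp only [e0]
  ring

/-- the pointwise inequality -/
lemma pw_le {δ : ℝ} (hδ : 0 < δ) (N : ℕ) (a : ℝ) {y H : ℝ} (hy : |y| ≤ H) (h : ℕ → ℝ) :
    Mn δ N a y h ≤ W2 δ N a y h + V2 δ N a y h +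
      ((H ^ N / N.factorial + H ^ (N + 1) / (N + 1).factorial) +
        (H ^ N / N.factorial + H ^ (N + 1) / (N + 1).factorial) ^ 2) *
      ((2 + h (N + 2) ^ 2 + h (N + 3) ^ 2) / δ +
        3 * ((∑ n ∈ Finset.range (N + 2), H ^ n / n.factorial * |h (n + 1)|) ^ 2 +
          h (N + 2) ^ 2) / δ ^ 2) := by
  have H0 : 0 ≤ H := (abs_nonneg y).trans hy
  obtain ⟨r, hr⟩ : ∃ r, r = H ^ N / N.factorial + H ^ (N + 1) / (N + 1).factorial := ⟨_, rfl⟩
  obtain ⟨S, hS⟩ : ∃ S, S = ∑ n ∈ Finset.range (N + 2), H ^ n / n.factorial * |h (n + 1)| :=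
    ⟨_, rfl⟩
  have r0 : 0 ≤ r := by rw [hr]; positivity
  have S0 : 0 ≤ S := by rw [hS]; exact Finset.sum_nonneg fun _ _ => by positivity
  rw [← hr, ← hS]
  have hz1 : ‖tay (N + 2) y (shf h)‖ ≤ S := by rw [hS]; exact tay_norm _ hy _
  have c1 : ‖cc N y‖ ≤ H ^ N / N.factorial := by rw [cc_norm]; gcongr
  have c2 : ‖cc (N + 1) y‖ ≤ H ^ (N + 1) / (N + 1).factorial := by rw [cc_norm]; gcongr
  have p1 : 0 ≤ H ^ N / (N.factorial : ℝ) := by positivity
  have p2 : 0 ≤ H ^ (N + 1) / ((N + 1).factorial : ℝ) := by positivity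
  obtain ⟨e, he⟩ : ∃ e : ℂ, e = cc (N + 1) y * (h (N + 2) : ℂ) := ⟨_, rfl⟩
  obtain ⟨e1, he1⟩ : ∃ e1 : ℂ, e1 = cc N y * (h (N + 2) : ℂ) + cc (N + 1) y * (h (N + 3) : ℂ) :=
    ⟨_, rfl⟩
  have t1 : tay (N + 1) y (shf h) = tay (N + 2) y (shf h) - e := by
    rw [tay_succ (N + 1), he]; simp [shf]
  have t2 : I * (I * tay N y (shf (shf h))) = -(tay (N + 2) y (shf (shf h)) - e1) := by
    rw [tay_succ (N + 1), tay_succ N, he1]
    have : I * (I * tay N y (shf (shf h))) = (I * I) * tay N y (shf (shf h)) := by ring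
    rw [this, Complex.I_mul_I]
    simp only [shf]
    ring_nf
  have ne : ‖e‖ ≤ r * |h (N + 2)| := by
    rw [he, norm_mul, Complex.norm_real, Real.norm_eq_abs]
    refine mul_le_mul_of_nonneg_right ?_ (abs_nonneg _)
    rw [hr]; linarith
  have ne1 : ‖e1‖ ≤ r * (|h (N + 2)| + |h (N + 3)|) := by
    rw [he1]
    refine (norm_add_le _ _).trans ?_
    rw [norm_mul, norm_mul, Complex.norm_real, Complex.norm_real, Real.norm_eq_abs,
      Real.norm_eq_abs]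
    have q1 : ‖cc N y‖ ≤ r := by rw [hr]; linarith
    have q2 : ‖cc (N + 1) y‖ ≤ r := by rw [hr]; linarith
    have := mul_le_mul_of_nonneg_right q1 (abs_nonneg (h (N + 2)))
    have := mul_le_mul_of_nonneg_right q2 (abs_nonneg (h (N + 3)))
    linarith
  have main := le_sum hδ (tay (N + 2) y h - a) (tay (N + 2) y (shf h))
    (tay (N + 2) y (shf (shf h))) e e1
  unfold Mn W2 V2
  rw [t1, t2]
  refine main.trans (add_le_add le_rfl ?_)
  have a0 : |h (N + 2)| ≤ 1 + h (N + 2) ^ 2 := by nlinarith [sq_abs (h (N + 2)), sq_nonneg (|h (N + 2)| - 1)]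
  have a1 : |h (N + 3)| ≤ 1 + h (N + 3) ^ 2 := by nlinarith [sq_abs (h (N + 3)), sq_nonneg (|h (N + 3)| - 1)]
  have b1 : ‖e1‖ ≤ (r + r ^ 2) * (2 + h (N + 2) ^ 2 + h (N + 3) ^ 2) := by
    refine ne1.trans ?_
    have : r * (|h (N + 2)| + |h (N + 3)|) ≤ r * (2 + h (N + 2) ^ 2 + h (N + 3) ^ 2) :=
      mul_le_mul_of_nonneg_left (by linarith) r0
    have h3 : 0 ≤ r ^ 2 * (2 + h (N + 2) ^ 2 + h (N + 3) ^ 2) := by positivity
    nlinarith
  have b2 : 2 * ‖tay (N + 2) y (shf h)‖ * ‖e‖ + ‖e‖ ^ 2 ≤ (r + r ^ 2) * (S ^ 2 + h (N + 2) ^ 2) := by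
    have h1 : ‖tay (N + 2) y (shf h)‖ * ‖e‖ ≤ S * (r * |h (N + 2)|) :=
      mul_le_mul hz1 ne (norm_nonneg _) S0
    have h2 : ‖e‖ ^ 2 ≤ r ^ 2 * h (N + 2) ^ 2 := by
      calc ‖e‖ ^ 2 ≤ (r * |h (N + 2)|) ^ 2 := pow_le_pow_left₀ (norm_nonneg _) ne 2
        _ = r ^ 2 * h (N + 2) ^ 2 := by rw [mul_pow, sq_abs]
    have h3 : 2 * (S * (r * |h (N + 2)|)) ≤ r * (S ^ 2 + h (N + 2) ^ 2) := by
      have : 0 ≤ r * (S - |h (N + 2)|) ^ 2 := by positivity
      nlinarith [sq_abs (h (N + 2))]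
    have h4 : 0 ≤ r ^ 2 * S ^ 2 := by positivity
    nlinarith
  have c3 : ‖e1‖ / δ ≤ (r + r ^ 2) * ((2 + h (N + 2) ^ 2 + h (N + 3) ^ 2) / δ) := by
    rw [← mul_div_assoc]; gcongr
  have c4 : 3 * (2 * ‖tay (N + 2) y (shf h)‖ * ‖e‖ + ‖e‖ ^ 2) / δ ^ 2 ≤
      (r + r ^ 2) * (3 * (S ^ 2 + h (N + 2) ^ 2) / δ ^ 2) := by
    rw [← mul_div_assoc]
    have : (r + r ^ 2) * (3 * (S ^ 2 + h (N + 2) ^ 2)) = 3 * ((r + r ^ 2) * (S ^ 2 + h (N + 2) ^ 2)) := by
      ring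
    rw [this]; gcongr
  refine (add_le_add c3 c4).trans (le_of_eq ?_)
  ring

variable {X : Type*} [MeasurableSpace X] {μ : Measure X}

/-- weighted Cauchy-Schwarz -/
lemma cs (s : Finset ℕ) (w t : ℕ → ℝ) (hw : ∀ n, 0 ≤ w n) :
    (∑ n ∈ s, w n * |t n|) ^ 2 ≤ (∑ n ∈ s, w n) * ∑ n ∈ s, w n * t n ^ 2 := by
  have h := Finset.sum_mul_sq_le_sq_mul_sq s (fun n => √(w n)) (fun n => √(w n) * |t n|)
  have e1 : ∑ n ∈ s, √(w n) * (√(w n) * |t n|) = ∑ n ∈ s, w n * |t n| :=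
    Finset.sum_congr rfl fun n _ => by rw [← mul_assoc, Real.mul_self_sqrt (hw n)]
  have e2 : ∑ n ∈ s, √(w n) ^ 2 = ∑ n ∈ s, w n :=
    Finset.sum_congr rfl fun n _ => Real.sq_sqrt (hw n)
  have e3 : ∑ n ∈ s, (√(w n) * |t n|) ^ 2 = ∑ n ∈ s, w n * t n ^ 2 :=
    Finset.sum_congr rfl fun n _ => by rw [mul_pow, Real.sq_sqrt (hw n), sq_abs]
  rw [e1, e2, e3] at h
  exact h

/-- the data: random variables with bounded second moments -/
structure Dat (μ : Measure X) (K : ℕ) (M : ℝ) (h : ℕ → X → ℝ) : Prop where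
  me : ∀ n, Measurable (h n)
  l2 : ∀ n < K, Integrable (fun x => h n x ^ 2) μ
  bd : ∀ n < K, ∫ x, h n x ^ 2 ∂μ ≤ M ^ 2

lemma l2sum {K : ℕ} {M : ℝ} {h : ℕ → X → ℝ} (D : Dat μ K M h) (s : Finset ℕ) (w : ℕ → ℝ)
    (hw : ∀ n, 0 ≤ w n) (j : ℕ) (hs : ∀ n ∈ s, n + j < K) {W : ℝ} (hW : ∑ n ∈ s, w n ≤ W) :
    Integrable (fun x => (∑ n ∈ s, w n * |h (n + j) x|) ^ 2) μ ∧
      ∫ x, (∑ n ∈ s, w n * |h (n + j) x|) ^ 2 ∂μ ≤ W ^ 2 * M ^ 2 := by
  have W0 : 0 ≤ W := le_trans (Finset.sum_nonneg fun n _ => hw n) hW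
  have i1 : Integrable (fun x => ∑ n ∈ s, w n * h (n + j) x ^ 2) μ :=
    integrable_finsetSum _ fun n hn => (D.l2 _ (hs n hn)).const_mul (w n)
  have m1 : Measurable fun x => ∑ n ∈ s, w n * |h (n + j) x| :=
    Finset.measurable_sum _ fun n _ => ((D.me _).abs).const_mul (w n)
  have b : ∀ x, (∑ n ∈ s, w n * |h (n + j) x|) ^ 2 ≤ W * ∑ n ∈ s, w n * h (n + j) x ^ 2 :=
    fun x => (cs s w (fun n => h (n + j) x) hw).trans (mul_le_mul_of_nonneg_right hW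
      (Finset.sum_nonneg fun n _ => mul_nonneg (hw n) (sq_nonneg _)))
  have i2 : Integrable (fun x => (∑ n ∈ s, w n * |h (n + j) x|) ^ 2) μ := by
    refine Integrable.mono' (i1.const_mul W) (m1.pow_const 2).aestronglyMeasurable
      (ae_of_all _ fun x => ?_)
    rw [Real.norm_eq_abs, abs_of_nonneg (sq_nonneg _)]
    exact b x
  refine ⟨i2, (integral_mono i2 (i1.const_mul W) b).trans ?_⟩
  rw [integral_const_mul, integral_finsetSum _ fun n hn => (D.l2 _ (hs n hn)).const_mul (w n)]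
  simp only [integral_const_mul]
  have h1 : ∑ n ∈ s, w n * ∫ x, h (n + j) x ^ 2 ∂μ ≤ ∑ n ∈ s, w n * M ^ 2 :=
    Finset.sum_le_sum fun n hn => mul_le_mul_of_nonneg_left (D.bd _ (hs n hn)) (hw n)
  rw [← Finset.sum_mul] at h1
  calc W * ∑ n ∈ s, w n * ∫ x, h (n + j) x ^ 2 ∂μ ≤ W * ((∑ n ∈ s, w n) * M ^ 2) := by gcongr
    _ ≤ W * (W * M ^ 2) := by gcongr
    _ = _ := by ring

/-- the sample sequence at a point -/
def sq (h : ℕ → X → ℝ) (x : X) : ℕ → ℝ := fun n => h n x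

lemma tay_meas (m : ℕ) {g : X → ℕ → ℝ} (mg : ∀ n, Measurable fun x => g x n) :
    Measurable fun p : ℝ × X => tay m p.1 (g p.2) := by
  unfold tay
  exact Finset.measurable_sum _ fun n _ => ((cc_cont n).measurable.comp measurable_fst).mul
    (Complex.measurable_ofReal.comp ((mg n).comp measurable_snd))

lemma W2_meas {δ : ℝ} (hδ : 0 < δ) (N : ℕ) {h : ℕ → X → ℝ} (me : ∀ n, Measurable (h n)) :
    Measurable fun p : ℝ × ℝ × X => W2 δ N p.1 p.2.1 (sq h p.2.2) := by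
  have ms : Measurable fun p : ℝ × ℝ × X => p.2 := measurable_snd
  have mf : Measurable fun p : ℝ × ℝ × X => ((p.1 : ℝ) : ℂ) :=
    Complex.measurable_ofReal.comp measurable_fst
  have h0 : Measurable fun p : ℝ × ℝ × X => tay (N + 2) p.2.1 (sq h p.2.2) :=
    (tay_meas (N + 2) (g := sq h) fun n => me n).comp ms
  have h1 : Measurable fun p : ℝ × ℝ × X => tay (N + 2) p.2.1 (shf (sq h p.2.2)) :=
    (tay_meas (N + 2) (g := fun x => shf (sq h x)) fun n => me (n + 1)).comp ms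
  have h2 : Measurable fun p : ℝ × ℝ × X => tay (N + 2) p.2.1 (shf (shf (sq h p.2.2))) :=
    (tay_meas (N + 2) (g := fun x => shf (shf (sq h x))) fun n => me (n + 1 + 1)).comp ms
  have h3 := (h0.sub mf).prodMk (h1.prodMk h2)
  have h4 := (lg2_cont hδ).measurable.comp h3
  unfold W2
  exact h4

lemma Mn_meas {δ : ℝ} (hδ : 0 < δ) (N : ℕ) {h : ℕ → X → ℝ} (me : ∀ n, Measurable (h n)) :
    Measurable fun p : ℝ × ℝ × X => Mn δ N p.1 p.2.1 (sq h p.2.2) := by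
  have ms : Measurable fun p : ℝ × ℝ × X => p.2 := measurable_snd
  have mf : Measurable fun p : ℝ × ℝ × X => ((p.1 : ℝ) : ℂ) :=
    Complex.measurable_ofReal.comp measurable_fst
  have h0 : Measurable fun p : ℝ × ℝ × X => tay (N + 2) p.2.1 (sq h p.2.2) :=
    (tay_meas (N + 2) (g := sq h) fun n => me n).comp ms
  have h1 : Measurable fun p : ℝ × ℝ × X => tay (N + 2) p.2.1 (shf (sq h p.2.2)) :=
    (tay_meas (N + 2) (g := fun x => shf (sq h x)) fun n => me (n + 1)).comp ms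
  have h3 := (h0.sub mf).prodMk h1
  have h4 := (mn_cont hδ).measurable.comp h3
  unfold Mn
  exact h4

end

end Pool.Agent.Q218.UB
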