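import Pool.Agent.Q218.UB.B

/-!
# Upper bounds for level sets of stationary waves (project UB): the core inequality, integrated
-/

set_option autoImplicit false
open MeasureTheory Filter Topology Complex

namespace Pool.Agent.Q218.UB

noncomputable section

variable {X : Type*} [MeasurableSpace X] {μ : Measure X}

lemma domI [IsProbabilityMeasure μ] {H : ℝ} {F : ℝ × X → ℝ} {G : X → ℝ} (mF : Measurable F)
    (iG : Integrable G μ) (hb : ∀ y x, 0 < y → y ≤ H → |F (y, x)| ≤ G x) :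
    Integrable F ((volume.restrict (Set.Ioc (0 : ℝ) H)).prod μ) := by
  have e : (volume.restrict (Set.Ioc (0 : ℝ) H)).prod μ =
      ((volume : Measure ℝ).prod μ).restrict (Set.Ioc (0 : ℝ) H ×ˢ Set.univ) := by
    rw [← Measure.prod_restrict, Measure.restrict_univ]
  have iG' : Integrable (fun p : ℝ × X => G p.2) ((volume.restrict (Set.Ioc (0 : ℝ) H)).prod μ) :=
    iG.comp_snd _
  refine Integrable.mono' iG' mF.aestronglyMeasurable ?_
  rw [e]
  refine (ae_restrict_iff' (measurableSet_Ioc.prod MeasurableSet.univ)).2 (ae_of_all _ ?_)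
  rintro ⟨y, x⟩ ⟨hy, -⟩
  exact hb y x hy.1 hy.2

lemma W2_meas' {δ : ℝ} (hδ : 0 < δ) (N : ℕ) (a : ℝ) {h : ℕ → X → ℝ} (me : ∀ n, Measurable (h n)) :
    Measurable fun p : ℝ × X => W2 δ N a p.1 (sq h p.2) := by
  have mz : Measurable fun p : ℝ × X => ((a, p) : ℝ × ℝ × X) := measurable_prodMk_left
  have h1 := W2_meas hδ N me
  have h2 := h1.comp mz
  exact h2

lemma Mn_meas' {δ : ℝ} (hδ : 0 < δ) (N : ℕ) (a : ℝ) {h : ℕ → X → ℝ} (me : ∀ n, Measurable (h n)) :
    Measurable fun p : ℝ × X => Mn δ N a p.1 (sq h p.2) := by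
  have mz : Measurable fun p : ℝ × X => ((a, p) : ℝ × ℝ × X) := measurable_prodMk_left
  have h1 := Mn_meas hδ N me
  have h2 := h1.comp mz
  exact h2

/-- the error constant -/
def KB (δ H M : ℝ) : ℝ := (2 + 2 * M ^ 2) / δ + 3 * (Real.exp H ^ 2 * M ^ 2 + M ^ 2) / δ ^ 2

/-- the small number -/
def rr (H : ℝ) (N : ℕ) : ℝ := H ^ N / N.factorial + H ^ (N + 1) / (N + 1).factorial

theorem core [IsProbabilityMeasure μ] {δ H M A0 : ℝ} (hδ : 0 < δ) (hδ1 : δ ≤ 1) (hH : 0 ≤ H)
    (N : ℕ) {h : ℕ → X → ℝ} (D : Dat μ (N + 4) M h) {a : ℝ} (ha : |a| ≤ A0) {ε : ℝ}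
    (hW : ∀ y, 0 ≤ y → y ≤ H → ∫ x, W2 δ N a y (sq h x) ∂μ ≤ ε) :
    Integrable (fun x => ∫ y in (0 : ℝ)..H, (H - y) * Mn δ N a y (sq h x)) μ ∧
    ∫ x, (∫ y in (0 : ℝ)..H, (H - y) * Mn δ N a y (sq h x)) ∂μ ≤
      H + Real.log (2 * A0 ^ 2 + 2 * M ^ 2 + 1) / 2 - Real.log δ + H ^ 2 / 2 * ε +
        H ^ 2 / 2 * ((rr H N + rr H N ^ 2) * KB δ H M) := by
  have w0 : ∀ n : ℕ, 0 ≤ H ^ n / (n.factorial : ℝ) := fun n => by positivity
  have wE : ∑ n ∈ Finset.range (N + 2), H ^ n / (n.factorial : ℝ) ≤ Real.exp H :=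
    Real.sum_le_exp_of_nonneg hH _
  obtain ⟨S, hS⟩ : ∃ S : ℕ → X → ℝ, S = fun j x =>
    ∑ n ∈ Finset.range (N + 2), H ^ n / n.factorial * |h (n + j) x| := ⟨_, rfl⟩
  have S0 : ∀ j x, 0 ≤ S j x := fun j x => by
    rw [hS]; exact Finset.sum_nonneg fun n _ => mul_nonneg (w0 n) (abs_nonneg _)
  have iS : ∀ j, j ≤ 2 → Integrable (fun x => S j x ^ 2) μ ∧
      ∫ x, S j x ^ 2 ∂μ ≤ Real.exp H ^ 2 * M ^ 2 := by
    intro j hj
    rw [hS]
    refine l2sum D (Finset.range (N + 2)) _ w0 j (fun n hn => ?_) wE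
    have := Finset.mem_range.1 hn
    omega
  have b0 : ∀ y x, 0 < y → y ≤ H → ‖tay (N + 2) y (sq h x)‖ ≤ S 0 x := by
    intro y x y0 y1
    have := tay_norm (N + 2) (y := y) (H := H) (by rw [abs_of_pos y0]; exact y1) (sq h x)
    rw [hS]
    exact this
  have b1 : ∀ y x, 0 < y → y ≤ H → ‖tay (N + 2) y (shf (sq h x))‖ ≤ S 1 x := by
    intro y x y0 y1
    have := tay_norm (N + 2) (y := y) (H := H) (by rw [abs_of_pos y0]; exact y1) (shf (sq h x))
    rw [hS]
    exact this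
  have b2 : ∀ y x, 0 < y → y ≤ H → ‖tay (N + 2) y (shf (shf (sq h x)))‖ ≤ S 2 x := by
    intro y x y0 y1
    have := tay_norm (N + 2) (y := y) (H := H) (by rw [abs_of_pos y0]; exact y1)
      (shf (shf (sq h x)))
    rw [hS]
    exact this
  -- integrability of the second derivative
  have me := D.me
  have mW : Measurable fun p : ℝ × X => (H - p.1) * W2 δ N a p.1 (sq h p.2) :=
    (measurable_const.sub measurable_fst).mul (W2_meas' hδ N a me)
  have mM : Measurable fun p : ℝ × X => (H - p.1) * Mn δ N a p.1 (sq h p.2) :=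
    (measurable_const.sub measurable_fst).mul (Mn_meas' hδ N a me)
  have iW : Integrable (fun p : ℝ × X => (H - p.1) * W2 δ N a p.1 (sq h p.2))
      ((volume.restrict (Set.Ioc (0 : ℝ) H)).prod μ) := by
    refine domI mW (G := fun x => H * (3 * S 1 x ^ 2 / δ ^ 2 + (1 + S 2 x ^ 2) / δ)) ?_ ?_
    · refine (((((iS 1 (by norm_num)).1.const_mul 3).div_const _).add
        (((integrable_const (1 : ℝ)).add (iS 2 (by norm_num)).1).div_const δ)).const_mul H)
    · intro y x y0 y1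
      rw [abs_mul]
      have c1 : |H - y| ≤ H := by rw [abs_of_nonneg (by linarith)]; linarith
      refine mul_le_mul c1 ?_ (abs_nonneg _) hH
      refine (lg2_abs hδ _ _ _).trans ?_
      have c2 := b1 y x y0 y1
      have c3 := b2 y x y0 y1
      have c4 : S 2 x ≤ 1 + S 2 x ^ 2 := by nlinarith [sq_nonneg (S 2 x - 1)]
      have c5 : ‖tay (N + 2) y (shf (sq h x))‖ ^ 2 ≤ S 1 x ^ 2 :=
        pow_le_pow_left₀ (norm_nonneg _) c2 2
      have c6 : ‖tay (N + 2) y (shf (shf (sq h x)))‖ ≤ 1 + S 2 x ^ 2 := c3.trans c4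
      gcongr
  have iM : Integrable (fun p : ℝ × X => (H - p.1) * Mn δ N a p.1 (sq h p.2))
      ((volume.restrict (Set.Ioc (0 : ℝ) H)).prod μ) := by
    refine domI mM (G := fun x => H * (2 * S 1 x ^ 2 / δ ^ 2)) ?_ ?_
    · exact (((iS 1 (by norm_num)).1.const_mul 2).div_const _).const_mul H
    · intro y x y0 y1
      rw [abs_mul]
      have c1 : |H - y| ≤ H := by rw [abs_of_nonneg (by linarith)]; linarith
      refine mul_le_mul c1 ?_ (abs_nonneg _) hH
      unfold Mn
      rw [abs_of_nonneg (mn_nn _ _)]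
      refine (mn_le hδ _ _).trans ?_
      have c5 : ‖tay (N + 2) y (shf (sq h x))‖ ^ 2 ≤ S 1 x ^ 2 :=
        pow_le_pow_left₀ (norm_nonneg _) (b1 y x y0 y1) 2
      gcongr
  have jW : Integrable (fun x => ∫ y in (0 : ℝ)..H, (H - y) * W2 δ N a y (sq h x)) μ := by
    simp only [intervalIntegral.integral_of_le hH]
    exact iW.integral_prod_right
  have jM : Integrable (fun x => ∫ y in (0 : ℝ)..H, (H - y) * Mn δ N a y (sq h x)) μ := by
    simp only [intervalIntegral.integral_of_le hH]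
    exact iM.integral_prod_right
  refine ⟨jM, ?_⟩
  -- the mean of the second derivative
  have hWm : ∫ x, (∫ y in (0 : ℝ)..H, (H - y) * W2 δ N a y (sq h x)) ∂μ ≤ H ^ 2 / 2 * ε := by
    simp only [intervalIntegral.integral_of_le hH]
    have sw := integral_integral_swap (f := fun (y : ℝ) (x : X) =>
      (H - y) * W2 δ N a y (sq h x)) iW
    rw [← sw]
    have e1 : ∀ y, ∫ x, (H - y) * W2 δ N a y (sq h x) ∂μ =
        (H - y) * ∫ x, W2 δ N a y (sq h x) ∂μ := fun y => integral_const_mul _ _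
    have i1 : Integrable (fun y => ∫ x, (H - y) * W2 δ N a y (sq h x) ∂μ)
        (volume.restrict (Set.Ioc (0 : ℝ) H)) := iW.integral_prod_left
    have i2 : IntegrableOn (fun y : ℝ => (H - y) * ε) (Set.Ioc 0 H) := by
      have : Continuous fun y : ℝ => (H - y) * ε := by fun_prop
      exact (this.intervalIntegrable 0 H).1
    have h2 : ∫ y in Set.Ioc (0 : ℝ) H, ∫ x, (H - y) * W2 δ N a y (sq h x) ∂μ ≤
        ∫ y in Set.Ioc (0 : ℝ) H, (H - y) * ε := by
      refine setIntegral_mono_on i1 i2 measurableSet_Ioc fun y hy => ?_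
      rw [e1]
      exact mul_le_mul_of_nonneg_left (hW y hy.1.le hy.2) (by linarith [hy.2])
    refine h2.trans (le_of_eq ?_)
    rw [← intervalIntegral.integral_of_le hH, intervalIntegral.integral_mul_const]
    have : ∫ y in (0 : ℝ)..H, (H - y) = H ^ 2 / 2 := by
      rw [intervalIntegral.integral_sub (by simp) (by simp)]
      simp
      ring
    rw [this]
  -- the error term
  obtain ⟨r, hr⟩ : ∃ r, r = rr H N := ⟨_, rfl⟩
  have r0 : 0 ≤ r := by rw [hr]; unfold rr; positivity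
  obtain ⟨BB, hBB⟩ : ∃ BB : X → ℝ, BB = fun x => (2 + h (N + 2) x ^ 2 + h (N + 3) x ^ 2) / δ +
      3 * (S 1 x ^ 2 + h (N + 2) x ^ 2) / δ ^ 2 := ⟨_, rfl⟩
  have l2 := D.l2 (N + 2) (by omega)
  have l3 := D.l2 (N + 3) (by omega)
  have iBB : Integrable BB μ := by
    rw [hBB]
    exact ((((integrable_const (2 : ℝ)).add l2).add l3).div_const δ).add
      ((((iS 1 (by norm_num)).1.add l2).const_mul 3).div_const _)
  have mBB : ∫ x, BB x ∂μ ≤ KB δ H M := by
    rw [hBB]
    have hA : ∫ x, (2 + h (N + 2) x ^ 2 + h (N + 3) x ^ 2) / δ ∂μ ≤ (2 + 2 * M ^ 2) / δ := by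
      rw [integral_div]
      refine div_le_div_of_nonneg_right ?_ hδ.le
      have i1 : Integrable (fun x => 2 + h (N + 2) x ^ 2) μ := (integrable_const (2 : ℝ)).add l2
      rw [integral_add i1 l3, integral_add (integrable_const _) l2]
      have := D.bd (N + 2) (by omega)
      have := D.bd (N + 3) (by omega)
      simp only [integral_const, probReal_univ, smul_eq_mul, one_mul]
      linarith
    have hB : ∫ x, 3 * (S 1 x ^ 2 + h (N + 2) x ^ 2) / δ ^ 2 ∂μ ≤
        3 * (Real.exp H ^ 2 * M ^ 2 + M ^ 2) / δ ^ 2 := by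
      rw [integral_div, integral_const_mul, integral_add (iS 1 (by norm_num)).1 l2]
      have := D.bd (N + 2) (by omega)
      have := (iS 1 (by norm_num)).2
      refine div_le_div_of_nonneg_right ?_ (by positivity)
      linarith
    have iA : Integrable (fun x => (2 + h (N + 2) x ^ 2 + h (N + 3) x ^ 2) / δ) μ :=
      (((integrable_const (2 : ℝ)).add l2).add l3).div_const δ
    have iB : Integrable (fun x => 3 * (S 1 x ^ 2 + h (N + 2) x ^ 2) / δ ^ 2) μ :=
      (((iS 1 (by norm_num)).1.add l2).const_mul 3).div_const _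
    have hAB := integral_add iA iB
    unfold KB
    linarith
  -- pointwise
  obtain ⟨m, hm⟩ : ∃ m, m = Real.exp H ^ 2 * (2 * A0 ^ 2 + 2 * M ^ 2 + 1) := ⟨_, rfl⟩
  have m0 : 0 < m := by rw [hm]; positivity
  have pw : ∀ x, ∫ y in (0 : ℝ)..H, (H - y) * Mn δ N a y (sq h x) ≤
      (∫ y in (0 : ℝ)..H, (H - y) * W2 δ N a y (sq h x)) +
      ((((2 * A0 ^ 2 + 2 * S 0 x ^ 2 + 1) / m - 1 + Real.log m) / 2 - Real.log δ) +
        H ^ 2 / 2 * ((r + r ^ 2) * BB x)) := by
    intro x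
    have t0 := tay_cont (N + 2) (sq h x)
    have t1 := tay_cont (N + 2) (shf (sq h x))
    have t2 := tay_cont (N + 2) (shf (shf (sq h x)))
    have t3 := tay_cont (N + 1) (shf (sq h x))
    have t4 := tay_cont N (shf (shf (sq h x)))
    have cW : Continuous fun y => (H - y) * W2 δ N a y (sq h x) := by
      unfold W2
      exact (continuous_const.sub continuous_id).mul ((lg2_cont hδ).comp
        (Continuous.prodMk (t0.sub continuous_const) (Continuous.prodMk t1 t2)))
    have cV : Continuous fun y => (H - y) * V2 δ N a y (sq h x) := by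
      unfold V2
      exact (continuous_const.sub continuous_id).mul ((lg2_cont hδ).comp
        (Continuous.prodMk (t0.sub continuous_const) (Continuous.prodMk
          (continuous_const.mul t3) (continuous_const.mul (continuous_const.mul t4)))))
    have cM : Continuous fun y => (H - y) * Mn δ N a y (sq h x) := by
      unfold Mn
      exact (continuous_const.sub continuous_id).mul ((mn_cont hδ).comp
        (Continuous.prodMk (t0.sub continuous_const) t1))
    have cR : Continuous fun y => (H - y) * ((r + r ^ 2) * BB x) := by fun_prop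
    have h3 : ∫ y in (0 : ℝ)..H, (H - y) * Mn δ N a y (sq h x) ≤
        ∫ y in (0 : ℝ)..H, ((H - y) * W2 δ N a y (sq h x) + (H - y) * V2 δ N a y (sq h x) +
          (H - y) * ((r + r ^ 2) * BB x)) := by
      refine intervalIntegral.integral_mono_on hH (cM.intervalIntegrable 0 H)
        (((cW.add cV).add cR).intervalIntegrable 0 H) fun y hy => ?_
      have h4 := pw_le hδ N a (y := y) (H := H) (by rw [abs_of_nonneg hy.1]; exact hy.2) (sq h x)
      have h5 : 0 ≤ H - y := by linarith [hy.2]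
      have h6 := mul_le_mul_of_nonneg_left h4 h5
      have e5 : (r + r ^ 2) * BB x = ((H ^ N / N.factorial + H ^ (N + 1) / (N + 1).factorial) +
        (H ^ N / N.factorial + H ^ (N + 1) / (N + 1).factorial) ^ 2) *
        ((2 + sq h x (N + 2) ^ 2 + sq h x (N + 3) ^ 2) / δ +
          3 * ((∑ n ∈ Finset.range (N + 2), H ^ n / n.factorial * |sq h x (n + 1)|) ^ 2 +
            sq h x (N + 2) ^ 2) / δ ^ 2) := by
        rw [hr, hBB, hS]; rfl
      rw [e5]
      refine h6.trans (le_of_eq ?_)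
      ring
    have cWV : Continuous fun y => (H - y) * W2 δ N a y (sq h x) + (H - y) * V2 δ N a y (sq h x) :=
      cW.add cV
    rw [intervalIntegral.integral_add (cWV.intervalIntegrable 0 H)
      (cR.intervalIntegrable 0 H), intervalIntegral.integral_add (cW.intervalIntegrable 0 H)
      (cV.intervalIntegrable 0 H), one_sample hδ, intervalIntegral.integral_mul_const] at h3
    have e6 : ∫ y in (0 : ℝ)..H, (H - y) = H ^ 2 / 2 := by
      rw [intervalIntegral.integral_sub (by simp) (by simp)]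
      simp
      ring
    rw [e6] at h3
    have h7 := lg_ge hδ (tay (N + 2) 0 (sq h x) - a)
    have h8 := lg_le hδ m0 (tay (N + 2) H (sq h x) - a)
    have h9 : ‖tay (N + 2) H (sq h x) - a‖ ^ 2 + δ ^ 2 ≤ 2 * A0 ^ 2 + 2 * S 0 x ^ 2 + 1 := by
      have k1 : ‖tay (N + 2) H (sq h x)‖ ≤ S 0 x := by
        have := tay_norm (N + 2) (y := H) (H := H) (by rw [abs_of_nonneg hH]) (sq h x)
        rw [hS]
        exact this
      have k2 : ‖tay (N + 2) H (sq h x) - a‖ ≤ S 0 x + A0 := by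
        refine (norm_sub_le _ _).trans (add_le_add k1 ?_)
        rw [Complex.norm_real]; exact ha
      have k3 := pow_le_pow_left₀ (norm_nonneg _) k2 2
      nlinarith [sq_nonneg (S 0 x - A0)]
    have h10 : ((‖tay (N + 2) H (sq h x) - a‖ ^ 2 + δ ^ 2) / m - 1 + Real.log m) / 2 ≤
        ((2 * A0 ^ 2 + 2 * S 0 x ^ 2 + 1) / m - 1 + Real.log m) / 2 := by
      gcongr
    linarith
  have i0 := (iS 0 (by norm_num)).1
  have iR1 : Integrable (fun x => ((2 * A0 ^ 2 + 2 * S 0 x ^ 2 + 1) / m - 1 + Real.log m) / 2 -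
      Real.log δ) μ := by
    exact ((((((integrable_const (2 * A0 ^ 2)).add (i0.const_mul 2)).add
      (integrable_const (1 : ℝ))).div_const m).sub (integrable_const (1 : ℝ))).add
        (integrable_const (Real.log m))).div_const 2 |>.sub (integrable_const _)
  have iR2 : Integrable (fun x => H ^ 2 / 2 * ((r + r ^ 2) * BB x)) μ :=
    (iBB.const_mul _).const_mul _
  have hI := integral_mono jM (jW.add (iR1.add iR2)) pw
  have e1 : ∫ x, ((∫ y in (0 : ℝ)..H, (H - y) * W2 δ N a y (sq h x)) +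
      ((((2 * A0 ^ 2 + 2 * S 0 x ^ 2 + 1) / m - 1 + Real.log m) / 2 - Real.log δ) +
        H ^ 2 / 2 * ((r + r ^ 2) * BB x))) ∂μ =
      (∫ x, (∫ y in (0 : ℝ)..H, (H - y) * W2 δ N a y (sq h x)) ∂μ) +
      ((∫ x, (((2 * A0 ^ 2 + 2 * S 0 x ^ 2 + 1) / m - 1 + Real.log m) / 2 - Real.log δ) ∂μ) +
        H ^ 2 / 2 * ((r + r ^ 2) * ∫ x, BB x ∂μ)) := by
    have iR : Integrable (fun x => (((2 * A0 ^ 2 + 2 * S 0 x ^ 2 + 1) / m - 1 + Real.log m) / 2 -
      Real.log δ) + H ^ 2 / 2 * ((r + r ^ 2) * BB x)) μ := iR1.add iR2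
    rw [integral_add jW iR, integral_add iR1 iR2, integral_const_mul, integral_const_mul]
  have e2 : ∫ x, (((2 * A0 ^ 2 + 2 * S 0 x ^ 2 + 1) / m - 1 + Real.log m) / 2 - Real.log δ) ∂μ ≤
      H + Real.log (2 * A0 ^ 2 + 2 * M ^ 2 + 1) / 2 - Real.log δ := by
    have e3 : ∀ x, ((2 * A0 ^ 2 + 2 * S 0 x ^ 2 + 1) / m - 1 + Real.log m) / 2 - Real.log δ =
        (1 / m) * S 0 x ^ 2 + (((2 * A0 ^ 2 + 1) / m - 1 + Real.log m) / 2 - Real.log δ) := by
      intro x; field_simp; ring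
    simp only [e3]
    rw [integral_add (i0.const_mul _) (integrable_const _), integral_const_mul]
    simp only [integral_const, probReal_univ, smul_eq_mul, one_mul]
    have k1 := (iS 0 (by norm_num)).2
    have k2 : Real.log m = 2 * H + Real.log (2 * A0 ^ 2 + 2 * M ^ 2 + 1) := by
      rw [hm, Real.log_mul (by positivity) (by positivity), Real.log_pow, Real.log_exp]
      push_cast; ring
    have k3 : (1 / m) * ∫ x, S 0 x ^ 2 ∂μ + (2 * A0 ^ 2 + 1) / m / 2 ≤ 1 / 2 := by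
      have k4 : 1 ≤ Real.exp H ^ 2 := one_le_pow₀ (Real.one_le_exp hH)
      have k5 : ∫ x, S 0 x ^ 2 ∂μ + (2 * A0 ^ 2 + 1) / 2 ≤ m / 2 := by
        rw [hm]
        nlinarith [sq_nonneg A0, sq_nonneg M]
      have k6 : (1 / m) * ∫ x, S 0 x ^ 2 ∂μ + (2 * A0 ^ 2 + 1) / m / 2 =
          (∫ x, S 0 x ^ 2 ∂μ + (2 * A0 ^ 2 + 1) / 2) / m := by field_simp
      rw [k6, div_le_iff₀ m0]
      linarith
    rw [k2]
    linarith
  have e4 : H ^ 2 / 2 * ((r + r ^ 2) * ∫ x, BB x ∂μ) ≤ H ^ 2 / 2 * ((r + r ^ 2) * KB δ H M) := by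
    gcongr
  have hI' : ∫ x, (∫ y in (0 : ℝ)..H, (H - y) * Mn δ N a y (sq h x)) ∂μ ≤
      ∫ x, ((∫ y in (0 : ℝ)..H, (H - y) * W2 δ N a y (sq h x)) +
      ((((2 * A0 ^ 2 + 2 * S 0 x ^ 2 + 1) / m - 1 + Real.log m) / 2 - Real.log δ) +
        H ^ 2 / 2 * ((r + r ^ 2) * BB x))) ∂μ := hI
  rw [e1] at hI'
  rw [← hr]
  linarith

end

end Pool.Agent.Q218.UB
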