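import Pool.Agent.Q218.UB.B

/-!
# Upper bounds for level sets of stationary waves (project UB): the lower bound for one sample
-/

set_option autoImplicit false
open MeasureTheory Filter Topology Complex

namespace Pool.Agent.Q218.UB

noncomputable section

lemma arct {c k : ℝ} (hc : 0 < c) (hk : 0 ≤ k) :
    Real.arctan (k / c) / c ^ 3 ≤ ∫ a in (-k)..k, 1 / (a ^ 2 + c ^ 2) ^ 2 := by
  have hF : ∀ a : ℝ, HasDerivAt (fun a : ℝ => a / (2 * c ^ 2 * (a ^ 2 + c ^ 2)) +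
      Real.arctan (a / c) / (2 * c ^ 3)) (1 / (a ^ 2 + c ^ 2) ^ 2) a := by
    intro a
    have h0 : 0 < a ^ 2 + c ^ 2 := by positivity
    have h1 : HasDerivAt (fun a : ℝ => 2 * c ^ 2 * (a ^ 2 + c ^ 2)) (2 * c ^ 2 * (2 * a)) a := by
      have := (((hasDerivAt_id a).pow 2).add_const (c ^ 2)).const_mul (2 * c ^ 2)
      simpa using this
    have h2 := (hasDerivAt_id a).div h1 (by positivity)
    have h3 := (((hasDerivAt_id a).div_const c).arctan).div_const (2 * c ^ 3)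
    refine (h2.add h3).congr_deriv ?_
    simp only [id]
    field_simp
    ring
  have hc' : Continuous fun a : ℝ => 1 / (a ^ 2 + c ^ 2) ^ 2 := by
    refine continuous_const.div (by fun_prop) fun a => ?_
    positivity
  rw [intervalIntegral.integral_eq_sub_of_hasDerivAt (fun a _ => hF a)
    (hc'.intervalIntegrable _ _)]
  have e1 : Real.arctan (-k / c) = -Real.arctan (k / c) := by rw [neg_div, Real.arctan_neg]
  rw [e1]
  have h4 : 0 ≤ k / (2 * c ^ 2 * (k ^ 2 + c ^ 2)) := by positivity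
  have e2 : -k / (2 * c ^ 2 * ((-k) ^ 2 + c ^ 2)) = -(k / (2 * c ^ 2 * (k ^ 2 + c ^ 2))) := by
    rw [neg_sq, neg_div]
  rw [e2]
  have e3 : Real.arctan (k / c) / (2 * c ^ 3) - -Real.arctan (k / c) / (2 * c ^ 3) =
      Real.arctan (k / c) / c ^ 3 := by
    field_simp; ring
  linarith

lemma inner_int {δ : ℝ} (hδ : 0 < δ) (z z1 : ℂ) {α β k c B w : ℝ} (hk : 0 ≤ k)
    (h1 : α ≤ z.re - k) (h2 : z.re + k ≤ β) (hc : 0 < c) (hz : z.im ^ 2 + δ ^ 2 ≤ c ^ 2)
    (hcB : c ≤ B) (hw : w ≤ ‖z1‖ ^ 2) (hw0 : 0 ≤ w) :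
    2 * δ ^ 2 * w * (Real.arctan (k / B) / c ^ 3) ≤ ∫ a in α..β, mn δ (z - (a : ℂ)) z1 := by
  have hcont : Continuous fun a : ℝ => mn δ (z - (a : ℂ)) z1 :=
    (mn_cont hδ).comp (Continuous.prodMk (continuous_const.sub Complex.continuous_ofReal)
      continuous_const)
  have hαβ : z.re - k ≤ z.re + k := by linarith
  have n1 : ‖z1‖ ^ 2 = z1.re ^ 2 + z1.im ^ 2 := by rw [Complex.sq_norm, Complex.normSq_apply]; ring
  have s1 : ∫ a in (z.re - k)..(z.re + k), mn δ (z - (a : ℂ)) z1 ≤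
      ∫ a in α..β, mn δ (z - (a : ℂ)) z1 := by
    refine intervalIntegral.integral_mono_interval h1 hαβ h2
      (ae_of_all _ fun a => mn_nn _ _) (hcont.intervalIntegrable _ _)
  refine le_trans ?_ s1
  have s2 : ∫ a in (z.re - k)..(z.re + k), mn δ (z - (a : ℂ)) z1 =
      ∫ a in (-k)..k, mn δ (z - ((a + z.re : ℝ) : ℂ)) z1 := by
    rw [intervalIntegral.integral_comp_add_right (fun a => mn δ (z - (a : ℂ)) z1)]
    congr 1 <;> ring
  rw [s2]
  have hc2 : Continuous fun a : ℝ => 2 * δ ^ 2 * w * (1 / (a ^ 2 + c ^ 2) ^ 2) := by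
    refine continuous_const.mul (continuous_const.div (by fun_prop) fun a => ?_)
    positivity
  have hc3 : Continuous fun a : ℝ => mn δ (z - ((a + z.re : ℝ) : ℂ)) z1 :=
    hcont.comp (continuous_id.add continuous_const)
  have s3 : ∫ a in (-k)..k, 2 * δ ^ 2 * w * (1 / (a ^ 2 + c ^ 2) ^ 2) ≤
      ∫ a in (-k)..k, mn δ (z - ((a + z.re : ℝ) : ℂ)) z1 := by
    refine intervalIntegral.integral_mono_on (by linarith) (hc2.intervalIntegrable _ _)
      (hc3.intervalIntegrable _ _) fun a _ => ?_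
    unfold mn
    rw [← n1]
    have q0 := QQ_pos hδ (z - ((a + z.re : ℝ) : ℂ))
    have q1 : QQ δ (z - ((a + z.re : ℝ) : ℂ)) ≤ a ^ 2 + c ^ 2 := by
      unfold QQ
      simp only [Complex.sub_re, Complex.sub_im, Complex.ofReal_re, Complex.ofReal_im]
      nlinarith
    rw [mul_one_div]
    have q2 : QQ δ (z - ((a + z.re : ℝ) : ℂ)) ^ 2 ≤ (a ^ 2 + c ^ 2) ^ 2 :=
      pow_le_pow_left₀ q0.le q1 2
    exact div_le_div₀ (by positivity) (by gcongr) (by positivity) q2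
  refine le_trans ?_ s3
  rw [intervalIntegral.integral_const_mul]
  refine mul_le_mul_of_nonneg_left ?_ (by positivity)
  refine le_trans ?_ (arct hc hk)
  refine div_le_div_of_nonneg_right ?_ (by positivity)
  refine Real.arctan_strictMono.monotone ?_
  gcongr

lemma outer_int {δ B s : ℝ} (hδ : 0 < δ) :
    ∫ y in (0 : ℝ)..s, δ ^ 2 / (√(y ^ 2 * B ^ 2 + δ ^ 2)) ^ 3 = s / √(s ^ 2 * B ^ 2 + δ ^ 2) := by
  have hpos : ∀ y : ℝ, 0 < y ^ 2 * B ^ 2 + δ ^ 2 := fun y => by positivity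
  have hF : ∀ y : ℝ, HasDerivAt (fun y : ℝ => y / √(y ^ 2 * B ^ 2 + δ ^ 2))
      (δ ^ 2 / (√(y ^ 2 * B ^ 2 + δ ^ 2)) ^ 3) y := by
    intro y
    have h1 : HasDerivAt (fun y : ℝ => y ^ 2 * B ^ 2 + δ ^ 2) (2 * y * B ^ 2) y := by
      have := (((hasDerivAt_id y).pow 2).mul_const (B ^ 2)).add_const (δ ^ 2)
      simpa using this
    have h2 := (hasDerivAt_id y).div (h1.sqrt (hpos y).ne') (Real.sqrt_pos.2 (hpos y)).ne'
    refine h2.congr_deriv ?_
    have h3 := Real.sqrt_pos.2 (hpos y)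
    have h4 := Real.sq_sqrt (hpos y).le
    obtain ⟨r, hr⟩ : ∃ r, r = √(y ^ 2 * B ^ 2 + δ ^ 2) := ⟨_, rfl⟩
    simp only [id]
    rw [← hr] at h3 h4 ⊢
    field_simp
    nlinarith
  have hc : Continuous fun y : ℝ => δ ^ 2 / (√(y ^ 2 * B ^ 2 + δ ^ 2)) ^ 3 := by
    refine continuous_const.div (by fun_prop) fun y => ?_
    exact pow_ne_zero _ (Real.sqrt_pos.2 (hpos y)).ne'
  rw [intervalIntegral.integral_eq_sub_of_hasDerivAt (fun a _ => hF a)
    (hc.intervalIntegrable _ _)]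
  simp

/-- the control of the Taylor coefficients -/
def TT (N : ℕ) (h : ℕ → ℝ) : ℝ :=
  ∑ n ∈ Finset.range (N + 2), 1 / (n.factorial : ℝ) * (|h n| + |h (n + 1)|)

lemma tay_app (N : ℕ) (h : ℕ → ℝ) {y K : ℝ} (y0 : 0 ≤ y) (y1 : y ≤ 1) (hK : TT N h ≤ K) :
    ‖tay (N + 2) y h - (h 0 + I * (y * h 1))‖ ≤ y ^ 2 * K ∧
      ‖tay (N + 2) y (shf h) - h 1‖ ≤ y * K := by
  have K0 : ∀ n, 0 ≤ 1 / (n.factorial : ℝ) * (|h n| + |h (n + 1)|) := fun n => by positivity
  constructor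
  · have e1 : tay (N + 2) y h - (h 0 + I * (y * h 1)) =
        ∑ n ∈ Finset.range N, cc (n + 2) y * (h (n + 2) : ℂ) := by
      unfold tay
      rw [Finset.sum_range_succ', Finset.sum_range_succ', cc_zero]
      have : cc (0 + 1) y = I * y := by simp [cc]
      rw [this]
      simp only [zero_add]
      ring_nf
    rw [e1]
    refine (norm_sum_le _ _).trans ?_
    have h2 : ∀ n ∈ Finset.range N, ‖cc (n + 2) y * (h (n + 2) : ℂ)‖ ≤
        y ^ 2 * (1 / ((n + 2).factorial : ℝ) * (|h (n + 2)| + |h (n + 2 + 1)|)) := by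
      intro n _
      rw [norm_mul, cc_norm, Complex.norm_real, Real.norm_eq_abs, abs_of_nonneg y0]
      have h3 : y ^ (n + 2) ≤ y ^ 2 := pow_le_pow_of_le_one y0 y1 (by omega)
      have f0 : (0 : ℝ) < (n + 2).factorial := by exact_mod_cast (n + 2).factorial_pos
      calc y ^ (n + 2) / (n + 2).factorial * |h (n + 2)| ≤ y ^ 2 / (n + 2).factorial * |h (n + 2)| := by
            gcongr
        _ ≤ y ^ 2 / (n + 2).factorial * (|h (n + 2)| + |h (n + 2 + 1)|) := by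
            gcongr; linarith [abs_nonneg (h (n + 2 + 1))]
        _ = _ := by ring
    refine (Finset.sum_le_sum h2).trans ?_
    rw [← Finset.mul_sum]
    refine mul_le_mul_of_nonneg_left (le_trans ?_ hK) (sq_nonneg y)
    unfold TT
    rw [Finset.sum_range_succ', Finset.sum_range_succ']
    have := K0 0
    have := K0 (0 + 1)
    linarith
  · have e1 : tay (N + 2) y (shf h) - h 1 =
        ∑ n ∈ Finset.range (N + 1), cc (n + 1) y * (h (n + 1 + 1) : ℂ) := by
      unfold tay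
      rw [Finset.sum_range_succ', cc_zero]
      simp [shf]
    rw [e1]
    refine (norm_sum_le _ _).trans ?_
    have h2 : ∀ n ∈ Finset.range (N + 1), ‖cc (n + 1) y * (h (n + 1 + 1) : ℂ)‖ ≤
        y * (1 / ((n + 1).factorial : ℝ) * (|h (n + 1)| + |h (n + 1 + 1)|)) := by
      intro n _
      rw [norm_mul, cc_norm, Complex.norm_real, Real.norm_eq_abs, abs_of_nonneg y0]
      have h3 : y ^ (n + 1) ≤ y := by
        calc y ^ (n + 1) ≤ y ^ 1 := pow_le_pow_of_le_one y0 y1 (by omega)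
          _ = y := pow_one y
      have f0 : (0 : ℝ) < (n + 1).factorial := by exact_mod_cast (n + 1).factorial_pos
      calc y ^ (n + 1) / (n + 1).factorial * |h (n + 1 + 1)| ≤
            y / (n + 1).factorial * |h (n + 1 + 1)| := by
            gcongr
        _ ≤ y / (n + 1).factorial * (|h (n + 1)| + |h (n + 1 + 1)|) := by
            gcongr; linarith [abs_nonneg (h (n + 1))]
        _ = _ := by ring
    refine (Finset.sum_le_sum h2).trans ?_
    rw [← Finset.mul_sum]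
    refine mul_le_mul_of_nonneg_left (le_trans ?_ hK) y0
    have e2 := Finset.sum_range_succ' (fun n : ℕ => 1 / (n.factorial : ℝ) * (|h n| + |h (n + 1)|))
      (N + 1)
    have e3 : TT N h = ∑ n ∈ Finset.range (N + 1 + 1),
      1 / (n.factorial : ℝ) * (|h n| + |h (n + 1)|) := rfl
    rw [e3, e2]
    have := K0 0
    linarith

/-- **the lower bound for one sample** -/
theorem sample_low (N : ℕ) (h : ℕ → ℝ) {δ K k α β : ℝ} (hδ : 0 < δ) (hδ1 : δ ≤ 1) (hK1 : 1 ≤ K)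
    (hK : TT N h ≤ K) (hk : 0 < k) (hKδ : K * δ ≤ k) (hα : α + 2 * k ≤ h 0) (hβ : h 0 ≤ β - 2 * k) :
    ENNReal.ofReal (2 * Real.arctan (k / ((2 * K + 1) * √δ)) * (|h 1| - (3 * K + 1) * √δ)) ≤
      ∫⁻ y in Set.Ioc 0 √δ, ∫⁻ a in Set.Ioc α β, ENNReal.ofReal (Mn δ N a y h) := by
  obtain ⟨s, hs⟩ : ∃ s, s = √δ := ⟨_, rfl⟩
  obtain ⟨θ, hθ⟩ : ∃ θ, θ = Real.arctan (k / ((2 * K + 1) * √δ)) := ⟨_, rfl⟩
  have s0 : 0 < s := by rw [hs]; exact Real.sqrt_pos.2 hδ
  have s2 : s ^ 2 = δ := by rw [hs]; exact Real.sq_sqrt hδ.le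
  have s1 : s ≤ 1 := by rw [hs]; exact Real.sqrt_le_one.2 hδ1
  have θ0 : 0 ≤ θ := by
    rw [hθ]
    have : 0 ≤ k / ((2 * K + 1) * √δ) := by positivity
    exact Real.arctan_nonneg.2 this
  rw [← hθ, ← hs]
  by_cases hb : |h 1| ≤ (3 * K + 1) * s
  · rw [ENNReal.ofReal_of_nonpos]
    · exact zero_le
    · exact mul_nonpos_of_nonneg_of_nonpos (by positivity) (by linarith)
  rw [not_le] at hb
  obtain ⟨b, hbd⟩ : ∃ b, b = |h 1| := ⟨_, rfl⟩
  rw [← hbd] at hb ⊢
  have b0 : 0 ≤ b := by rw [hbd]; exact abs_nonneg _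
  have bK : b ≤ K := by
    refine le_trans ?_ hK
    unfold TT
    have h1 : 1 / ((0 : ℕ).factorial : ℝ) * (|h 0| + |h (0 + 1)|) ≤
        ∑ n ∈ Finset.range (N + 2), 1 / (n.factorial : ℝ) * (|h n| + |h (n + 1)|) :=
      Finset.single_le_sum (f := fun n : ℕ => 1 / (n.factorial : ℝ) * (|h n| + |h (n + 1)|))
        (fun n _ => by positivity) (Finset.mem_range.2 (by omega))
    refine le_trans ?_ h1
    simp only [Nat.factorial_zero, Nat.cast_one, div_one, one_mul, zero_add]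
    rw [hbd]
    linarith [abs_nonneg (h 0)]
  obtain ⟨η, hη⟩ : ∃ η, η = K * s := ⟨_, rfl⟩
  have η0 : 0 ≤ η := by rw [hη]; positivity
  obtain ⟨B, hB⟩ : ∃ B, B = b + η := ⟨_, rfl⟩
  have B0 : 0 < B := by rw [hB, hη]; nlinarith
  have bη : η < b := by rw [hη]; nlinarith
  have hinner : ∀ y ∈ Set.Ioc 0 s, ENNReal.ofReal (2 * θ * (b - η) ^ 2 *
      (δ ^ 2 / (√(y ^ 2 * B ^ 2 + δ ^ 2)) ^ 3)) ≤
        ∫⁻ a in Set.Ioc α β, ENNReal.ofReal (Mn δ N a y h) := by
    intro y hy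
    have y0 : 0 ≤ y := hy.1.le
    have y1 : y ≤ 1 := hy.2.trans s1
    obtain ⟨t1, t2⟩ := tay_app N h y0 y1 hK
    obtain ⟨z, hz⟩ : ∃ z, z = tay (N + 2) y h := ⟨_, rfl⟩
    obtain ⟨z1, hz1⟩ : ∃ z1, z1 = tay (N + 2) y (shf h) := ⟨_, rfl⟩
    rw [← hz] at t1
    rw [← hz1] at t2
    have yy : y ^ 2 * K ≤ k := by
      have : y ^ 2 ≤ δ := by rw [← s2]; exact pow_le_pow_left₀ y0 hy.2 2
      nlinarith
    have r1 : |z.re - h 0| ≤ y ^ 2 * K := by
      have := (Complex.abs_re_le_norm _).trans t1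
      simpa using this
    have r2 : |z.im - y * h 1| ≤ y ^ 2 * K := by
      have := (Complex.abs_im_le_norm _).trans t1
      simpa using this
    have r3 : |z.im| ≤ y * B := by
      have h3 : |z.im| ≤ |z.im - y * h 1| + |y * h 1| := by
        have := abs_add_le (z.im - y * h 1) (y * h 1)
        simpa using this
      rw [abs_mul, abs_of_nonneg y0, ← hbd] at h3
      have h4 : y ^ 2 * K ≤ y * (K * s) := by
        have : y * y ≤ y * s := mul_le_mul_of_nonneg_left hy.2 y0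
        nlinarith
      rw [hB, hη]
      nlinarith
    have r4 : (b - η) ^ 2 ≤ ‖z1‖ ^ 2 := by
      refine pow_le_pow_left₀ (by linarith) ?_ 2
      have h3 : ‖(h 1 : ℂ)‖ ≤ ‖z1‖ + ‖z1 - h 1‖ := by
        have h4 : (h 1 : ℂ) = z1 - (z1 - h 1) := by ring
        have := norm_sub_le z1 (z1 - h 1)
        rw [← h4] at this
        exact this
      rw [Complex.norm_real, Real.norm_eq_abs, ← hbd] at h3
      have h5 : y * K ≤ η := by rw [hη]; nlinarith [hy.2]
      linarith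
    have c0 : 0 < √(y ^ 2 * B ^ 2 + δ ^ 2) := Real.sqrt_pos.2 (by positivity)
    have c1 : z.im ^ 2 + δ ^ 2 ≤ √(y ^ 2 * B ^ 2 + δ ^ 2) ^ 2 := by
      rw [Real.sq_sqrt (by positivity)]
      have : z.im ^ 2 ≤ y ^ 2 * B ^ 2 := by
        rw [← sq_abs, ← mul_pow]
        exact pow_le_pow_left₀ (abs_nonneg _) r3 2
      linarith
    have c2 : √(y ^ 2 * B ^ 2 + δ ^ 2) ≤ (2 * K + 1) * s := by
      rw [Real.sqrt_le_left (by positivity)]
      have h3 : y * B ≤ 2 * K * s := by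
        have : B ≤ 2 * K := by rw [hB, hη]; nlinarith
        calc y * B ≤ s * (2 * K) := mul_le_mul hy.2 this B0.le s0.le
          _ = _ := by ring
      have h4 : δ ≤ s := by rw [← s2]; nlinarith
      have h5 : 0 ≤ y * B := by positivity
      have h6 : (y * B) ^ 2 ≤ (2 * K * s) ^ 2 := pow_le_pow_left₀ h5 h3 2
      have h7 : δ ^ 2 ≤ s ^ 2 := pow_le_pow_left₀ hδ.le h4 2
      nlinarith
    have I := inner_int hδ z z1 (α := α) (β := β) (k := k) (c := √(y ^ 2 * B ^ 2 + δ ^ 2))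
      (B := (2 * K + 1) * s) (w := (b - η) ^ 2) hk.le
      (by have := (abs_le.1 r1).1; linarith) (by have := (abs_le.1 r1).2; linarith) c0 c1 c2 r4
      (sq_nonneg _)
    have hcont : Continuous fun a : ℝ => Mn δ N a y h := by
      unfold Mn
      exact (mn_cont hδ).comp (Continuous.prodMk (continuous_const.sub Complex.continuous_ofReal)
        continuous_const)
    have αβ : α ≤ β := by linarith
    rw [← ofReal_integral_eq_lintegral_ofReal (hcont.intervalIntegrable α β).1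
      (ae_of_all _ fun a => mn_nn _ _), ← intervalIntegral.integral_of_le αβ]
    refine ENNReal.ofReal_le_ofReal ?_
    have e2 : (fun a : ℝ => Mn δ N a y h) = fun a : ℝ => mn δ (z - (a : ℂ)) z1 := by
      funext a; rw [hz, hz1]; rfl
    rw [e2]
    refine le_trans (le_of_eq ?_) I
    rw [hθ, ← hs]
    ring
  refine le_trans ?_ (setLIntegral_mono' measurableSet_Ioc hinner)
  have hc : Continuous fun y : ℝ => 2 * θ * (b - η) ^ 2 *
      (δ ^ 2 / (√(y ^ 2 * B ^ 2 + δ ^ 2)) ^ 3) := by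
    refine continuous_const.mul (continuous_const.div (by fun_prop) fun y => ?_)
    have : 0 < √(y ^ 2 * B ^ 2 + δ ^ 2) := Real.sqrt_pos.2 (by positivity)
    positivity
  rw [← ofReal_integral_eq_lintegral_ofReal (hc.intervalIntegrable 0 s).1
    (ae_of_all _ fun y => by positivity), ← intervalIntegral.integral_of_le s0.le,
    intervalIntegral.integral_const_mul, outer_int hδ]
  refine ENNReal.ofReal_le_ofReal ?_
  have e3 : s / √(s ^ 2 * B ^ 2 + δ ^ 2) = 1 / √(B ^ 2 + s ^ 2) := by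
    have : s ^ 2 * B ^ 2 + δ ^ 2 = s ^ 2 * (B ^ 2 + s ^ 2) := by rw [← s2]; ring
    rw [this, Real.sqrt_mul (by positivity), Real.sqrt_sq s0.le]
    have : 0 < √(B ^ 2 + s ^ 2) := Real.sqrt_pos.2 (by positivity)
    field_simp
  rw [e3]
  have h5 : √(B ^ 2 + s ^ 2) ≤ B + s := by
    rw [Real.sqrt_le_left (by positivity)]
    nlinarith
  have h6 : 0 < √(B ^ 2 + s ^ 2) := Real.sqrt_pos.2 (by positivity)
  have h7 : 1 / (B + s) ≤ 1 / √(B ^ 2 + s ^ 2) := one_div_le_one_div_of_le h6 h5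
  have h8 : b - (3 * K + 1) * s ≤ (b - η) ^ 2 * (1 / (B + s)) := by
    rw [mul_one_div, le_div_iff₀ (by positivity)]
    have e4 : (3 * K + 1) * s = 3 * η + s := by rw [hη]; ring
    rw [e4, hB]
    nlinarith [mul_nonneg η0 s0.le, sq_nonneg η, sq_nonneg s]
  calc 2 * θ * (b - (3 * K + 1) * s) ≤ 2 * θ * ((b - η) ^ 2 * (1 / (B + s))) := by gcongr
    _ ≤ 2 * θ * ((b - η) ^ 2 * (1 / √(B ^ 2 + s ^ 2))) := by gcongr
    _ = _ := by ring

end

end Pool.Agent.Q218.UB
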