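import Pool.Agent.Q218.UB.C
import Pool.Agent.Q218.UB.D

/-!
# Upper bounds for level sets of stationary waves (project UB): the abstract theorem
-/

set_option autoImplicit false
open MeasureTheory Filter Topology Complex
open scoped ENNReal

namespace Pool.Agent.Q218.UB

noncomputable section

variable {X : Type*} [MeasurableSpace X] {μ : Measure X}

/-- the right-hand side of the core inequality -/
def RS (δ H M A0 ε : ℝ) (N : ℕ) : ℝ :=
  H + Real.log (2 * A0 ^ 2 + 2 * M ^ 2 + 1) / 2 - Real.log δ + H ^ 2 / 2 * ε +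
        H ^ 2 / 2 * ((rr H N + rr H N ^ 2) * KB δ H M)

lemma Mn_nn (δ : ℝ) (N : ℕ) (a y : ℝ) (h : ℕ → ℝ) : 0 ≤ Mn δ N a y h := mn_nn _ _

lemma Mn_cont_y {δ : ℝ} (hδ : 0 < δ) (N : ℕ) (a : ℝ) (h : ℕ → ℝ) :
    Continuous fun y => Mn δ N a y h := by
  unfold Mn
  exact (mn_cont hδ).comp (Continuous.prodMk ((tay_cont (N + 2) h).sub continuous_const)
    (tay_cont (N + 2) (shf h)))

/-- the measure of the good set -/
def good (N : ℕ) (K k α β : ℝ) (h : ℕ → X → ℝ) : Set X :=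
  {x | TT N (sq h x) ≤ K ∧ α + 2 * k ≤ h 0 x ∧ h 0 x ≤ β - 2 * k}

lemma TT_meas (N : ℕ) {h : ℕ → X → ℝ} (me : ∀ n, Measurable (h n)) :
    Measurable fun x => TT N (sq h x) := by
  unfold TT sq
  exact Finset.measurable_sum _ fun n _ => ((me n).abs.add (me (n + 1)).abs).const_mul _

lemma good_meas (N : ℕ) (K k α β : ℝ) {h : ℕ → X → ℝ} (me : ∀ n, Measurable (h n)) :
    MeasurableSet (good N K k α β h) :=
  (measurableSet_le (TT_meas N me) measurable_const).inter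
    ((measurableSet_le measurable_const (me 0)).inter (measurableSet_le (me 0) measurable_const))

lemma slice [IsProbabilityMeasure μ] {δ H M A0 : ℝ} (hδ : 0 < δ) (hδ1 : δ ≤ 1)
    (hH : √δ < H) (N : ℕ) {h : ℕ → X → ℝ} (D : Dat μ (N + 4) M h) {a : ℝ} (ha : |a| ≤ A0) {ε : ℝ}
    (hW : ∀ y, 0 ≤ y → y ≤ H → ∫ x, W2 δ N a y (sq h x) ∂μ ≤ ε) :
    ∫⁻ x, (∫⁻ y in Set.Ioc 0 √δ, ENNReal.ofReal (Mn δ N a y (sq h x))) ∂μ ≤
      ENNReal.ofReal (RS δ H M A0 ε N / (H - √δ)) := by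
  obtain ⟨s, hs⟩ : ∃ s, s = √δ := ⟨_, rfl⟩
  have s0 : 0 ≤ s := by rw [hs]; exact Real.sqrt_nonneg _
  rw [← hs] at hH ⊢
  have H0 : 0 ≤ H := by linarith
  have Hs : 0 < H - s := by linarith
  obtain ⟨jM, hc⟩ := core hδ hδ1 H0 N D ha hW
  have h1 : ∀ x, ENNReal.ofReal (H - s) * ∫⁻ y in Set.Ioc 0 s, ENNReal.ofReal (Mn δ N a y (sq h x)) ≤
      ENNReal.ofReal (∫ y in (0 : ℝ)..H, (H - y) * Mn δ N a y (sq h x)) := by
    intro x
    have cM : Continuous fun y => (H - y) * Mn δ N a y (sq h x) :=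
      (continuous_const.sub continuous_id).mul (Mn_cont_y hδ N a _)
    rw [intervalIntegral.integral_of_le H0, ofReal_integral_eq_lintegral_ofReal
      (cM.intervalIntegrable 0 H).1 ((ae_restrict_iff' measurableSet_Ioc).2 (ae_of_all _ fun y hy =>
        mul_nonneg (by linarith [hy.2]) (Mn_nn _ _ _ _ _)))]
    rw [← lintegral_const_mul _ ((Mn_cont_y hδ N a (sq h x)).measurable.ennreal_ofReal)]
    refine le_trans (setLIntegral_mono' measurableSet_Ioc (g := fun y =>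
      ENNReal.ofReal ((H - y) * Mn δ N a y (sq h x))) fun y hy => ?_)
      (lintegral_mono_set (Set.Ioc_subset_Ioc_right hH.le))
    rw [← ENNReal.ofReal_mul Hs.le]
    exact ENNReal.ofReal_le_ofReal (mul_le_mul_of_nonneg_right (by linarith [hy.2]) (Mn_nn _ _ _ _ _))
  have hJ : 0 ≤ᵐ[μ] fun x => ∫ y in (0 : ℝ)..H, (H - y) * Mn δ N a y (sq h x) := by
    refine ae_of_all _ fun x => ?_
    exact intervalIntegral.integral_nonneg H0 fun y hy =>
      mul_nonneg (by linarith [hy.2]) (Mn_nn _ _ _ _ _)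
  have h2 : ENNReal.ofReal (H - s) * ∫⁻ x, (∫⁻ y in Set.Ioc 0 s,
      ENNReal.ofReal (Mn δ N a y (sq h x))) ∂μ ≤ ENNReal.ofReal (RS δ H M A0 ε N) := by
    have m1 : Measurable fun x => ∫⁻ y in Set.Ioc 0 s, ENNReal.ofReal (Mn δ N a y (sq h x)) := by
      have := (Mn_meas' hδ N a D.me).ennreal_ofReal
      exact this.lintegral_prod_left'
    rw [← lintegral_const_mul _ m1]
    refine (lintegral_mono h1).trans ?_
    rw [← ofReal_integral_eq_lintegral_ofReal jM hJ]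
    exact ENNReal.ofReal_le_ofReal hc
  rw [ENNReal.ofReal_div_of_pos Hs, ENNReal.le_div_iff_mul_le
    (Or.inl (ENNReal.ofReal_pos.2 Hs).ne') (Or.inl ENNReal.ofReal_ne_top), mul_comm]
  exact h2

theorem comb [IsProbabilityMeasure μ] {δ H M A0 K k α β : ℝ} (hδ : 0 < δ) (hδ1 : δ ≤ 1)
    (hH : √δ < H) (N : ℕ) {h : ℕ → X → ℝ} (D : Dat μ (N + 4) M h) (hαβ : α ≤ β) (hα : -A0 ≤ α)
    (hβ : β ≤ A0) {ε : ℝ}
    (hW : ∀ a, α ≤ a → a ≤ β → ∀ y, 0 ≤ y → y ≤ H → ∫ x, W2 δ N a y (sq h x) ∂μ ≤ ε)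
    (hK1 : 1 ≤ K) (hk : 0 < k) (hKδ : K * δ ≤ k) :
    ∫⁻ x in good N K k α β h, ENNReal.ofReal (2 * Real.arctan (k / ((2 * K + 1) * √δ)) *
      (|h 1 x| - (3 * K + 1) * √δ)) ∂μ ≤
      ENNReal.ofReal ((β - α) * (RS δ H M A0 ε N / (H - √δ))) := by
  have hm := (Mn_meas hδ N D.me).ennreal_ofReal
  have step1 : ∫⁻ x in good N K k α β h, ENNReal.ofReal (2 * Real.arctan (k / ((2 * K + 1) * √δ)) *
      (|h 1 x| - (3 * K + 1) * √δ)) ∂μ ≤
      ∫⁻ x, (∫⁻ y in Set.Ioc 0 √δ, ∫⁻ a in Set.Ioc α β,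
        ENNReal.ofReal (Mn δ N a y (sq h x))) ∂μ := by
    refine (setLIntegral_mono' (good_meas N K k α β D.me) fun x hx => ?_).trans
      (setLIntegral_le_lintegral _ _)
    exact sample_low N (sq h x) hδ hδ1 hK1 hx.1 hk hKδ hx.2.1 hx.2.2
  have step2 : ∀ x, ∫⁻ y in Set.Ioc 0 √δ, ∫⁻ a in Set.Ioc α β, ENNReal.ofReal (Mn δ N a y (sq h x)) =
      ∫⁻ a in Set.Ioc α β, ∫⁻ y in Set.Ioc 0 √δ, ENNReal.ofReal (Mn δ N a y (sq h x)) := by
    intro x
    refine lintegral_lintegral_swap (f := fun y a => ENNReal.ofReal (Mn δ N a y (sq h x))) ?_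
    have m2 : Measurable fun p : ℝ × ℝ => ((p.2, p.1, x) : ℝ × ℝ × X) :=
      measurable_snd.prodMk (measurable_fst.prodMk measurable_const)
    have m3 := hm.comp m2
    exact Measurable.aemeasurable m3
  simp only [step2] at step1
  have step3 : ∫⁻ x, (∫⁻ a in Set.Ioc α β, ∫⁻ y in Set.Ioc 0 √δ,
      ENNReal.ofReal (Mn δ N a y (sq h x))) ∂μ =
      ∫⁻ a in Set.Ioc α β, ∫⁻ x, (∫⁻ y in Set.Ioc 0 √δ,
        ENNReal.ofReal (Mn δ N a y (sq h x))) ∂μ := by
    refine lintegral_lintegral_swap (f := fun x a => ∫⁻ y in Set.Ioc 0 √δ,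
      ENNReal.ofReal (Mn δ N a y (sq h x))) ?_
    have m2 : Measurable fun p : ℝ × (X × ℝ) => ((p.2.2, p.1, p.2.1) : ℝ × ℝ × X) :=
      (measurable_snd.comp measurable_snd).prodMk (measurable_fst.prodMk
        (measurable_fst.comp measurable_snd))
    have m3 := hm.comp m2
    have m4 := m3.lintegral_prod_left' (μ := (volume.restrict (Set.Ioc 0 √δ) : Measure ℝ))
    exact Measurable.aemeasurable m4
  rw [step3] at step1
  refine step1.trans ?_
  have step4 : ∫⁻ a in Set.Ioc α β, ∫⁻ x, (∫⁻ y in Set.Ioc 0 √δ,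
        ENNReal.ofReal (Mn δ N a y (sq h x))) ∂μ ≤
      ∫⁻ _a in Set.Ioc α β, ENNReal.ofReal (RS δ H M A0 ε N / (H - √δ)) := by
    refine setLIntegral_mono' measurableSet_Ioc fun a ha => ?_
    refine slice hδ hδ1 hH N D (abs_le.2 ⟨by linarith [ha.1], by linarith [ha.2]⟩) ?_
    exact hW a ha.1.le ha.2
  refine step4.trans (le_of_eq ?_)
  rw [setLIntegral_const, Real.volume_Ioc, ENNReal.ofReal_mul (by linarith), mul_comm]

/-- the bound before the limits -/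
def FF (δ H M A0 K k α β ε : ℝ) (N : ℕ) : ℝ :=
  (β - α) * (RS δ H M A0 ε N / (H - √δ)) / (2 * Real.arctan (k / ((2 * K + 1) * √δ))) +
    (3 * K + 1) * √δ + (4 * Real.exp 1 ^ 2 * M ^ 2) / K

lemma TT_l2 {M : ℝ} (N : ℕ) {h : ℕ → X → ℝ} (D : Dat μ (N + 4) M h) :
    Integrable (fun x => TT N (sq h x) ^ 2) μ ∧
      ∫ x, TT N (sq h x) ^ 2 ∂μ ≤ 4 * Real.exp 1 ^ 2 * M ^ 2 := by
  have w0 : ∀ n : ℕ, 0 ≤ 1 / (n.factorial : ℝ) := fun n => by positivity
  have wE : ∑ n ∈ Finset.range (N + 2), 1 / (n.factorial : ℝ) ≤ Real.exp 1 := by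
    have := Real.sum_le_exp_of_nonneg (x := 1) zero_le_one (N + 2)
    simpa using this
  obtain ⟨i0, b0⟩ := l2sum D (Finset.range (N + 2)) _ w0 0 (fun n hn => by
    have := Finset.mem_range.1 hn; omega) wE
  obtain ⟨i1, b1⟩ := l2sum D (Finset.range (N + 2)) _ w0 1 (fun n hn => by
    have := Finset.mem_range.1 hn; omega) wE
  have e : ∀ x, TT N (sq h x) = (∑ n ∈ Finset.range (N + 2), 1 / (n.factorial : ℝ) * |h (n + 0) x|) +
      ∑ n ∈ Finset.range (N + 2), 1 / (n.factorial : ℝ) * |h (n + 1) x| := by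
    intro x
    unfold TT sq
    rw [← Finset.sum_add_distrib]
    refine Finset.sum_congr rfl fun n _ => ?_
    rw [mul_add]; rfl
  have le : ∀ x, TT N (sq h x) ^ 2 ≤ 2 * (∑ n ∈ Finset.range (N + 2), 1 / (n.factorial : ℝ) *
      |h (n + 0) x|) ^ 2 + 2 * (∑ n ∈ Finset.range (N + 2), 1 / (n.factorial : ℝ) *
      |h (n + 1) x|) ^ 2 := by
    intro x
    rw [e]
    nlinarith [sq_nonneg ((∑ n ∈ Finset.range (N + 2), 1 / (n.factorial : ℝ) * |h (n + 0) x|) -
      ∑ n ∈ Finset.range (N + 2), 1 / (n.factorial : ℝ) * |h (n + 1) x|)]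
  have iD := (i0.const_mul 2).add (i1.const_mul 2)
  have iT : Integrable (fun x => TT N (sq h x) ^ 2) μ := by
    refine Integrable.mono' iD ((TT_meas N D.me).pow_const 2).aestronglyMeasurable
      (ae_of_all _ fun x => ?_)
    rw [Real.norm_eq_abs, abs_of_nonneg (sq_nonneg _)]
    exact le x
  refine ⟨iT, ?_⟩
  have h1 : ∫ x, TT N (sq h x) ^ 2 ∂μ ≤ ∫ x, (2 * (∑ n ∈ Finset.range (N + 2),
      1 / (n.factorial : ℝ) * |h (n + 0) x|) ^ 2 + 2 * (∑ n ∈ Finset.range (N + 2),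
      1 / (n.factorial : ℝ) * |h (n + 1) x|) ^ 2) ∂μ := integral_mono iT iD le
  rw [integral_add (i0.const_mul 2) (i1.const_mul 2), integral_const_mul, integral_const_mul] at h1
  linarith

/-- **the abstract theorem before the limits** -/
theorem abstract_FF [IsProbabilityMeasure μ] {δ H M A0 K k α β : ℝ} (hδ : 0 < δ) (hδ1 : δ ≤ 1)
    (hH : √δ < H) (N : ℕ) {h : ℕ → X → ℝ} (D : Dat μ (N + 4) M h) (hαβ : α ≤ β) (hα : -A0 ≤ α)
    (hβ : β ≤ A0) {ε : ℝ} (hε : 0 ≤ ε)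
    (hW : ∀ a, α ≤ a → a ≤ β → ∀ y, 0 ≤ y → y ≤ H → ∫ x, W2 δ N a y (sq h x) ∂μ ≤ ε)
    (hK1 : 1 ≤ K) (hk : 0 < k) (hKδ : K * δ ≤ k) :
    ∫⁻ x in {x | α + 2 * k ≤ h 0 x ∧ h 0 x ≤ β - 2 * k}, ENNReal.ofReal |h 1 x| ∂μ ≤
      ENNReal.ofReal (FF δ H M A0 K k α β ε N) := by
  have hc := comb hδ hδ1 hH N D hαβ hα hβ hW hK1 hk hKδ
  obtain ⟨θ, hθ⟩ : ∃ θ, θ = Real.arctan (k / ((2 * K + 1) * √δ)) := ⟨_, rfl⟩
  obtain ⟨s, hs⟩ : ∃ s, s = √δ := ⟨_, rfl⟩
  have s0 : 0 < s := by rw [hs]; exact Real.sqrt_pos.2 hδ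
  have θ0 : 0 < θ := by
    rw [hθ]
    have : 0 < k / ((2 * K + 1) * √δ) := by rw [← hs]; positivity
    exact Real.arctan_pos.2 this
  have hRS : 0 ≤ RS δ H M A0 ε N := by
    unfold RS KB rr
    have H0 : 0 ≤ H := le_trans (Real.sqrt_nonneg _) hH.le
    have l1 : 0 ≤ Real.log (2 * A0 ^ 2 + 2 * M ^ 2 + 1) := Real.log_nonneg (by nlinarith [sq_nonneg A0, sq_nonneg M])
    have l2 : Real.log δ ≤ 0 := Real.log_nonpos hδ.le hδ1
    have : 0 ≤ H ^ 2 / 2 * ε := by positivity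
    have : 0 ≤ H ^ 2 / 2 * (((H ^ N / N.factorial + H ^ (N + 1) / (N + 1).factorial) +
      (H ^ N / N.factorial + H ^ (N + 1) / (N + 1).factorial) ^ 2) *
      ((2 + 2 * M ^ 2) / δ + 3 * (Real.exp H ^ 2 * M ^ 2 + M ^ 2) / δ ^ 2)) := by positivity
    linarith
  unfold FF
  rw [← hθ, ← hs]
  rw [← hθ, ← hs] at hc
  have Hs : 0 < H - s := by rw [hs]; linarith
  have mS : MeasurableSet {x | α + 2 * k ≤ h 0 x ∧ h 0 x ≤ β - 2 * k} :=
    (measurableSet_le measurable_const (D.me 0)).inter (measurableSet_le (D.me 0) measurable_const)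
  have mg := good_meas N K k α β D.me
  have mb : MeasurableSet {x | K < TT N (sq h x)} := measurableSet_lt measurable_const (TT_meas N D.me)
  have m1 : Measurable fun x => |h 1 x| := (D.me 1).abs
  -- split
  have sub : {x | α + 2 * k ≤ h 0 x ∧ h 0 x ≤ β - 2 * k} ⊆
      good N K k α β h ∪ {x | K < TT N (sq h x)} := by
    intro x hx
    rcases le_or_gt (TT N (sq h x)) K with h1 | h1
    · exact Or.inl ⟨h1, hx.1, hx.2⟩
    · exact Or.inr h1
  have sp : ∫⁻ x in {x | α + 2 * k ≤ h 0 x ∧ h 0 x ≤ β - 2 * k}, ENNReal.ofReal |h 1 x| ∂μ ≤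
      (∫⁻ x in good N K k α β h, ENNReal.ofReal |h 1 x| ∂μ) +
      ∫⁻ x in {x | K < TT N (sq h x)}, ENNReal.ofReal |h 1 x| ∂μ :=
    (lintegral_mono_set sub).trans (lintegral_union_le _ _ _)
  -- the bad part
  have hle : ∀ x, |h 1 x| ≤ TT N (sq h x) := by
    intro x
    unfold TT
    have h1 : 1 / ((0 : ℕ).factorial : ℝ) * (|sq h x 0| + |sq h x (0 + 1)|) ≤
        ∑ n ∈ Finset.range (N + 2), 1 / (n.factorial : ℝ) * (|sq h x n| + |sq h x (n + 1)|) :=
      Finset.single_le_sum (f := fun n : ℕ => 1 / (n.factorial : ℝ) *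
        (|sq h x n| + |sq h x (n + 1)|)) (fun n _ => by positivity) (Finset.mem_range.2 (by omega))
    refine le_trans ?_ h1
    simp only [Nat.factorial_zero, Nat.cast_one, div_one, one_mul, zero_add]
    have := abs_nonneg (sq h x 0)
    have e : sq h x 1 = h 1 x := rfl
    rw [e]; linarith
  obtain ⟨iT, bT⟩ := TT_l2 N D
  have bad : ∫⁻ x in {x | K < TT N (sq h x)}, ENNReal.ofReal |h 1 x| ∂μ ≤
      ENNReal.ofReal ((4 * Real.exp 1 ^ 2 * M ^ 2) / K) := by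
    have h1 : ∫⁻ x in {x | K < TT N (sq h x)}, ENNReal.ofReal |h 1 x| ∂μ ≤
        ∫⁻ x in {x | K < TT N (sq h x)}, ENNReal.ofReal (TT N (sq h x) ^ 2 / K) ∂μ := by
      refine setLIntegral_mono' mb fun x hx => ENNReal.ofReal_le_ofReal ?_
      have hx' : K < TT N (sq h x) := hx
      rw [le_div_iff₀ (by linarith)]
      have h2 := hle x
      have h3 := abs_nonneg (h 1 x)
      nlinarith
    refine h1.trans ((setLIntegral_le_lintegral _ _).trans ?_)
    rw [← ofReal_integral_eq_lintegral_ofReal (iT.div_const K) (ae_of_all _ fun x => by positivity)]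
    refine ENNReal.ofReal_le_ofReal ?_
    rw [integral_div]
    gcongr
  -- the good part
  have gd : ∫⁻ x in good N K k α β h, ENNReal.ofReal |h 1 x| ∂μ ≤
      ENNReal.ofReal ((β - α) * (RS δ H M A0 ε N / (H - s)) / (2 * θ) + (3 * K + 1) * s) := by
    have h1 : ∀ x, ENNReal.ofReal |h 1 x| ≤ ENNReal.ofReal (1 / (2 * θ)) *
        ENNReal.ofReal (2 * θ * (|h 1 x| - (3 * K + 1) * s)) + ENNReal.ofReal ((3 * K + 1) * s) := by
      intro x
      rw [← ENNReal.ofReal_mul (by positivity)]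
      have e : 1 / (2 * θ) * (2 * θ * (|h 1 x| - (3 * K + 1) * s)) = |h 1 x| - (3 * K + 1) * s := by
        field_simp
      rw [e]
      have : |h 1 x| = (|h 1 x| - (3 * K + 1) * s) + (3 * K + 1) * s := by ring
      conv_lhs => rw [this]
      exact ENNReal.ofReal_add_le
    have m2 : Measurable fun x => ENNReal.ofReal (2 * θ * (|h 1 x| - (3 * K + 1) * s)) :=
      ((m1.sub_const _).const_mul _).ennreal_ofReal
    calc ∫⁻ x in good N K k α β h, ENNReal.ofReal |h 1 x| ∂μ ≤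
        ∫⁻ x in good N K k α β h, (ENNReal.ofReal (1 / (2 * θ)) *
        ENNReal.ofReal (2 * θ * (|h 1 x| - (3 * K + 1) * s)) +
          ENNReal.ofReal ((3 * K + 1) * s)) ∂μ := lintegral_mono h1
      _ = ENNReal.ofReal (1 / (2 * θ)) * (∫⁻ x in good N K k α β h,
        ENNReal.ofReal (2 * θ * (|h 1 x| - (3 * K + 1) * s)) ∂μ) +
          ENNReal.ofReal ((3 * K + 1) * s) * μ (good N K k α β h) := by
        rw [lintegral_add_right _ measurable_const, lintegral_const_mul _ m2, setLIntegral_const]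
      _ ≤ ENNReal.ofReal (1 / (2 * θ)) * ENNReal.ofReal ((β - α) * (RS δ H M A0 ε N / (H - s))) +
          ENNReal.ofReal ((3 * K + 1) * s) * 1 := by
        exact add_le_add (mul_le_mul_right hc _) (mul_le_mul_right prob_le_one _)
      _ = _ := by
        rw [← ENNReal.ofReal_mul (by positivity), mul_one, ← ENNReal.ofReal_add]
        · congr 1; ring
        · have : 0 ≤ β - α := by linarith
          positivity
        · positivity
  refine sp.trans ((add_le_add gd bad).trans ?_)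
  rw [← ENNReal.ofReal_add]
  · have : 0 ≤ β - α := by linarith
    positivity
  · positivity

end

end Pool.Agent.Q218.UB
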