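import Pool.Agent.Q218.UB.E

/-!
# Upper bounds for level sets of stationary waves (project UB): the choice of the parameters
-/

set_option autoImplicit false
open MeasureTheory Filter Topology Complex
open scoped ENNReal

namespace Pool.Agent.Q218.UB

noncomputable section

universe u

lemma rr_lim (H : ℝ) : Tendsto (fun N : ℕ => rr H N) atTop (𝓝 0) := by
  have h1 := FloorSemiring.tendsto_pow_div_factorial_atTop H
  have h2 := h1.comp (tendsto_add_atTop_nat 1)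
  have h3 := h1.add h2
  rw [add_zero] at h3
  exact h3

lemma lim1 (δ H M A0 K k α β : ℝ) :
    Tendsto (fun N : ℕ => FF δ H M A0 K k α β (1 / ((N : ℝ) + 1)) N) atTop
      (𝓝 ((β - α) * ((H + (Real.log (2 * A0 ^ 2 + 2 * M ^ 2 + 1) / 2 - Real.log δ)) / (H - √δ)) /
        (2 * Real.arctan (k / ((2 * K + 1) * √δ))) + (3 * K + 1) * √δ +
        (4 * Real.exp 1 ^ 2 * M ^ 2) / K)) := by
  have h1 := rr_lim H
  have h2 : Tendsto (fun N : ℕ => (rr H N + rr H N ^ 2) * KB δ H M) atTop (𝓝 0) := by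
    have := (h1.add (h1.pow 2)).mul_const (KB δ H M)
    simpa using this
  have h3 : Tendsto (fun N : ℕ => (1 : ℝ) / ((N : ℝ) + 1)) atTop (𝓝 0) :=
    tendsto_one_div_add_atTop_nhds_zero_nat
  have h4 : Tendsto (fun N : ℕ => RS δ H M A0 (1 / ((N : ℝ) + 1)) N) atTop
      (𝓝 (H + (Real.log (2 * A0 ^ 2 + 2 * M ^ 2 + 1) / 2 - Real.log δ))) := by
    unfold RS
    have := ((h3.const_mul (H ^ 2 / 2)).const_add
      (H + Real.log (2 * A0 ^ 2 + 2 * M ^ 2 + 1) / 2 - Real.log δ)).add (h2.const_mul (H ^ 2 / 2))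
    simp only [mul_zero, add_zero] at this
    rw [add_sub_assoc] at this
    refine this.congr fun N => ?_
    ring
  unfold FF
  exact ((((h4.div_const (H - √δ)).const_mul (β - α)).div_const _).add_const _).add_const _

lemma lim2 (C s : ℝ) : Tendsto (fun H : ℝ => (H + C) / (H - s)) atTop (𝓝 1) := by
  have h1 : Tendsto (fun H : ℝ => (C + s) / (H - s)) atTop (𝓝 0) :=
    tendsto_const_nhds.div_atTop (tendsto_atTop_add_const_right _ (-s) tendsto_id |>.congr fun H => by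
      simp [sub_eq_add_neg])
  have h2 := h1.const_add 1
  rw [add_zero] at h2
  refine h2.congr' ?_
  filter_upwards [eventually_gt_atTop s] with H hH
  have : H - s ≠ 0 := by linarith [sub_pos.2 hH]
  field_simp
  ring

lemma lim3 {K k : ℝ} (hK : 1 ≤ K) (hk : 0 < k) :
    Tendsto (fun δ : ℝ => Real.arctan (k / ((2 * K + 1) * √δ))) (𝓝[>] 0) (𝓝 (Real.pi / 2)) := by
  have h0 : Tendsto (fun δ : ℝ => √δ) (𝓝[>] 0) (𝓝[>] 0) := by
    rw [tendsto_nhdsWithin_iff]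
    constructor
    · have := Real.continuous_sqrt.tendsto 0
      rw [Real.sqrt_zero] at this
      exact this.mono_left nhdsWithin_le_nhds
    · filter_upwards [self_mem_nhdsWithin] with δ hδ
      exact Real.sqrt_pos.2 hδ
  have h1 : Tendsto (fun δ : ℝ => (√δ)⁻¹) (𝓝[>] 0) atTop := tendsto_inv_nhdsGT_zero.comp h0
  have h2 : Tendsto (fun δ : ℝ => k / ((2 * K + 1) * √δ)) (𝓝[>] 0) atTop := by
    have := h1.const_mul_atTop (by positivity : 0 < k / (2 * K + 1))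
    refine this.congr fun δ => ?_
    rw [div_mul_eq_div_div, div_eq_mul_inv (k / (2 * K + 1))]
  exact (Real.tendsto_arctan_atTop.mono_right nhdsWithin_le_nhds).comp h2

lemma lim4 {K k : ℝ} (hK : 1 ≤ K) (hk : 0 < k) (L D : ℝ) :
    Tendsto (fun δ : ℝ => L * 1 / (2 * Real.arctan (k / ((2 * K + 1) * √δ))) + (3 * K + 1) * √δ + D)
      (𝓝[>] 0) (𝓝 (L / Real.pi + D)) := by
  have h1 := lim3 hK hk
  have h2 : Tendsto (fun δ : ℝ => √δ) (𝓝[>] 0) (𝓝 0) := by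
    have := Real.continuous_sqrt.tendsto 0
    rw [Real.sqrt_zero] at this
    exact this.mono_left nhdsWithin_le_nhds
  have h3 : Tendsto (fun δ : ℝ => L * 1 / (2 * Real.arctan (k / ((2 * K + 1) * √δ)))) (𝓝[>] 0)
      (𝓝 (L * 1 / (2 * (Real.pi / 2)))) :=
    tendsto_const_nhds.div (h1.const_mul 2) (by positivity)
  have h4 := (h3.add (h2.const_mul (3 * K + 1))).add_const D
  have e : L * 1 / (2 * (Real.pi / 2)) + (3 * K + 1) * 0 + D = L / Real.pi + D := by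
    have : 2 * (Real.pi / 2) = Real.pi := by ring
    rw [this]; ring
  rw [e] at h4
  exact h4

theorem par (M A0 : ℝ) {α β k ε0 : ℝ} (hαβ : α ≤ β) (hk : 0 < k) (hε0 : 0 < ε0) :
    ∃ (δ H K : ℝ) (N : ℕ), 0 < δ ∧ δ ≤ 1 ∧ √δ < H ∧ 1 ≤ K ∧ K * δ ≤ k ∧
      FF δ H M A0 K k α β (1 / ((N : ℝ) + 1)) N ≤ (β - α) / Real.pi + ε0 := by
  have a1 : Tendsto (fun K : ℝ => (β - α) / Real.pi + (4 * Real.exp 1 ^ 2 * M ^ 2) / K) atTop
      (𝓝 ((β - α) / Real.pi + 0)) :=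
    (tendsto_const_nhds.div_atTop tendsto_id).const_add _
  rw [add_zero] at a1
  obtain ⟨K, hK, hK1⟩ := ((a1.eventually (gt_mem_nhds (show (β - α) / Real.pi <
    (β - α) / Real.pi + ε0 by linarith))).and (eventually_ge_atTop 1)).exists
  have a2 := lim4 hK1 hk (β - α) ((4 * Real.exp 1 ^ 2 * M ^ 2) / K)
  have a3 : ∀ᶠ δ : ℝ in 𝓝[>] 0, 0 < δ ∧ δ ≤ 1 ∧ K * δ ≤ k := by
    have b1 : ∀ᶠ δ : ℝ in 𝓝[>] 0, δ < min 1 (k / K) := by
      have : (0 : ℝ) < min 1 (k / K) := lt_min one_pos (by positivity)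
      exact nhdsWithin_le_nhds (gt_mem_nhds this)
    filter_upwards [b1, self_mem_nhdsWithin] with δ h1 h2
    refine ⟨h2, (h1.le.trans (min_le_left _ _)), ?_⟩
    have := h1.le.trans (min_le_right _ _)
    rw [le_div_iff₀ (by linarith)] at this
    linarith
  obtain ⟨δ, hδ, δ0, δ1, Kδ⟩ := ((a2.eventually (gt_mem_nhds hK)).and a3).exists
  have a4 := (((lim2 (Real.log (2 * A0 ^ 2 + 2 * M ^ 2 + 1) / 2 - Real.log δ) √δ).const_mul
    (β - α)).div_const (2 * Real.arctan (k / ((2 * K + 1) * √δ)))).add_const ((3 * K + 1) * √δ)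
    |>.add_const ((4 * Real.exp 1 ^ 2 * M ^ 2) / K)
  obtain ⟨H, hH, Hs⟩ := ((a4.eventually (gt_mem_nhds hδ)).and (eventually_gt_atTop √δ)).exists
  have a5 := lim1 δ H M A0 K k α β
  obtain ⟨N, hN⟩ := (a5.eventually (gt_mem_nhds hH)).exists
  exact ⟨δ, H, K, N, δ0, δ1, Hs, hK1, Kδ, hN.le⟩

/-- **the abstract theorem** -/
theorem abs_thm (M : ℝ) {α β k ε0 : ℝ} (hαβ : α ≤ β) (hk : 0 < k) (hε0 : 0 < ε0) :
    ∃ (δ H ε : ℝ) (N : ℕ), 0 < δ ∧ 0 < H ∧ 0 < ε ∧ ∀ (X : Type u) [MeasurableSpace X] (μ : Measure X)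
      [IsProbabilityMeasure μ] (h : ℕ → X → ℝ), Dat μ (N + 4) M h →
      (∀ a, α ≤ a → a ≤ β → ∀ y, 0 ≤ y → y ≤ H → ∫ x, W2 δ N a y (sq h x) ∂μ ≤ ε) →
      ∫⁻ x in {x | α + 2 * k ≤ h 0 x ∧ h 0 x ≤ β - 2 * k}, ENNReal.ofReal |h 1 x| ∂μ ≤
        ENNReal.ofReal ((β - α) / Real.pi + ε0) := by
  obtain ⟨δ, H, K, N, h1, h2, h3, h4, h5, h6⟩ := par M (max |α| |β|) hαβ hk hε0
  have hN : (0 : ℝ) < 1 / ((N : ℝ) + 1) := by positivity
  refine ⟨δ, H, 1 / ((N : ℝ) + 1), N, h1, (Real.sqrt_nonneg δ).trans_lt h3, hN, ?_⟩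
  intro X _ μ _ h D hW
  refine (abstract_FF h1 h2 h3 N D hαβ (A0 := max |α| |β|) ?_ ?_ hN.le hW h4 hk h5).trans
    (ENNReal.ofReal_le_ofReal h6)
  · have := neg_abs_le α
    have := le_max_left |α| |β|
    linarith
  · exact (le_abs_self β).trans (le_max_right _ _)

end

end Pool.Agent.Q218.UB
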