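import Pool.Agent.Q218.UB.F
import Pool.Agent.Q73.SM.E

/-!
# Upper bounds for level sets of stationary waves (project UB): stationary waves
-/

set_option autoImplicit false
open MeasureTheory Filter Topology
open scoped ContDiff ENNReal

namespace Pool.Agent.Q218.UB

open Pool.Agent.Y139.SW Pool.Agent.Q73.SM

noncomputable section

variable {d : ℕ}

/-- the directional derivative -/
def Dv (v : E d) (f : E d → ℝ) (y : E d) : ℝ := fderiv ℝ f y v

lemma Dv_sm {f : E d → ℝ} (hf : ContDiff ℝ ∞ f) (v : E d) : ContDiff ℝ ∞ (Dv v f) :=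
  (hf.fderiv_right (m := ∞) le_rfl).clm_apply contDiff_const

lemma Dv_sum (f : E d → ℝ) (v y : E d) : Dv v f y = ∑ i, v i * D i f y := by
  unfold Dv D
  have h := (EuclideanSpace.basisFun (Fin d) ℝ).sum_repr v
  conv_lhs => rw [← h]
  rw [map_sum]
  refine Finset.sum_congr rfl fun i _ => ?_
  simp

lemma Dv_sq (f : E d → ℝ) (v y : E d) : Dv v f y ^ 2 ≤ ‖v‖ ^ 2 * ∑ i, D i f y ^ 2 := by
  rw [Dv_sum, EuclideanSpace.norm_sq_eq]
  refine (Finset.sum_mul_sq_le_sq_mul_sq _ _ _).trans (le_of_eq ?_)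
  simp

lemma D_Dv {f : E d → ℝ} (hf : ContDiff ℝ ∞ f) (i : Fin d) (v y : E d) :
    D i (Dv v f) y = Dv v (D i f) y := by
  have e : Dv v f = fun y => ∑ j, v j * D j f y := funext fun y => Dv_sum f v y
  rw [e, Dv_sum]
  have h1 : D i (fun y => ∑ j, v j * D j f y) y = ∑ j, D i (fun y => v j * D j f y) y :=
    D_sum (f := fun j y => v j * D j f y) Finset.univ (fun j => contDiff_const.mul (D_sm hf j)) i y
  rw [h1]
  refine Finset.sum_congr rfl fun j _ => ?_
  have h2 : D i (fun y => v j * D j f y) y = v j * D i (D j f) y := by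
    have h3 := (sdiff (D_sm hf j) y).hasFDerivAt.const_mul (v j)
    show fderiv ℝ (fun y => v j * D j f y) y _ = _
    rw [h3.fderiv]
    rfl
  rw [h2, D_comm hf]

lemma Lap_Dv {f : E d → ℝ} (hf : ContDiff ℝ ∞ f) (v y : E d) :
    Lap (Dv v f) y = Dv v (Lap f) y := by
  unfold Lap
  have h0 : Dv v (fun y => ∑ i, D i (D i f) y) y = ∑ i, Dv v (D i (D i f)) y := by
    unfold Dv
    rw [fderiv_fun_sum fun j _ => sdiff (D_sm (D_sm hf j) j) y]
    simp
  rw [h0]
  refine Finset.sum_congr rfl fun i _ => ?_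
  have h1 : D i (Dv v f) = Dv v (D i f) := funext fun y => D_Dv hf i v y
  rw [h1, D_Dv (D_sm hf i)]

variable {S : Type*} [MeasurableSpace S] {P : Measure S} {τ : E d → S → S}

lemma sf_dv {G : S → E d → ℝ} (h : SF τ G) (v : E d) : SF τ (fun s => Dv v (G s)) := by
  refine ⟨fun y => ?_, fun s => Dv_sm (h.smooth s) v, fun x s y => ?_⟩
  · have e : (fun s => Dv v (G s) y) = fun s => ∑ i, v i * D i (G s) y :=
      funext fun s => Dv_sum _ _ _
    rw [e]
    exact Finset.measurable_sum _ fun i _ => ((h.der i).meas y).const_mul _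
  · rw [Dv_sum, Dv_sum]
    refine Finset.sum_congr rfl fun i _ => ?_
    rw [(h.der i).cov]

lemma wave_dv [IsProbabilityMeasure P] (hτ : ∀ x, MeasurePreserving (τ x) P P)
    {G : S → E d → ℝ} (W : Wave P τ G) (v : E d) : Wave P τ (fun s => Dv v (G s)) ∧
      ∫ s, Dv v (G s) 0 ^ 2 ∂P ≤ ‖v‖ ^ 2 * ∫ s, G s 0 ^ 2 ∂P := by
  have W1 := fun i => W.der hτ i
  have hsf := sf_dv W.sf v
  have i1 : Integrable (fun s => ‖v‖ ^ 2 * ∑ i, D i (G s) 0 ^ 2) P :=
    (integrable_finsetSum _ fun i _ => (W1 i).l2).const_mul _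
  have i2 : Integrable (fun s => Dv v (G s) 0 ^ 2) P := by
    refine Integrable.mono' i1 ((hsf.meas 0).pow_const 2).aestronglyMeasurable
      (ae_of_all _ fun s => ?_)
    rw [Real.norm_eq_abs, abs_of_nonneg (sq_nonneg _)]
    exact Dv_sq _ _ _
  refine ⟨⟨hsf, fun s y => ?_, i2⟩, ?_⟩
  · rw [Lap_Dv (W.sf.smooth s)]
    have : Lap (G s) = fun y => -G s y := funext (W.eq s)
    rw [this]
    unfold Dv
    rw [fderiv_fun_neg]; rfl
  · refine (integral_mono i2 i1 fun s => Dv_sq _ _ _).trans (le_of_eq ?_)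
    rw [integral_const_mul, integral_finsetSum _ fun i _ => (W1 i).l2, W.energy hτ]

/-- continuous covariant fields -/
structure CF (τ : E d → S → S) (G : S → E d → ℝ) : Prop where
  meas : ∀ y, Measurable fun s => G s y
  cont : ∀ s, Continuous (G s)
  cov : ∀ x s y, G (τ x s) y = G s (y + x)

lemma cf_int (hτ : ∀ x, MeasurePreserving (τ x) P P) {G : S → E d → ℝ} (h : CF τ G) (y : E d)
    {k : ℝ → ℝ} (hk : Measurable k) : ∫ s, k (G s y) ∂P = ∫ s, k (G s 0) ∂P := by
  have e : ∀ s, G s y = G (τ y s) 0 := fun s => by rw [h.cov, zero_add]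
  have m : Measurable fun s => k (G s 0) := hk.comp (h.meas 0)
  simp only [e]
  have h1 := integral_map (μ := P) (hτ y).measurable.aemeasurable
    (f := fun s => k (G s 0)) m.aestronglyMeasurable
  rw [(hτ y).map_eq] at h1
  exact h1.symm

lemma cf_integrable (hτ : ∀ x, MeasurePreserving (τ x) P P) {G : S → E d → ℝ} (h : CF τ G)
    (y : E d) (hi : Integrable (fun s => G s 0) P) : Integrable (fun s => G s y) P := by
  have e : (fun s => G s y) = (fun s => G s 0) ∘ τ y := by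
    funext s
    show G s y = G (τ y s) 0
    rw [h.cov, zero_add]
  rw [e]
  exact (hτ y).integrable_comp_of_integrable hi

/-- the mean of a derivative -/
theorem div1 [IsProbabilityMeasure P] (hτ : ∀ x, MeasurePreserving (τ x) P P) {G G1 : S → E d → ℝ}
    (h : CF τ G) (h1 : CF τ G1) (v : E d)
    (hd : ∀ s (t : ℝ), HasDerivAt (fun t : ℝ => G s (t • v)) (G1 s (t • v)) t)
    (i0 : Integrable (fun s => G s 0) P) (i1 : Integrable (fun s => G1 s 0) P) :
    ∫ s, G1 s 0 ∂P = 0 := by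
  obtain ⟨K, hK⟩ : ∃ K : ℝ → S → ℝ, K = fun t s => G1 s (t • v) := ⟨_, rfl⟩
  have mK : Measurable (Function.uncurry K) := by
    refine measurable_uncurry_of_continuous_of_measurable (fun s => ?_) fun t => ?_
    · rw [hK]
      exact (h1.cont s).comp (continuous_id.smul continuous_const)
    · rw [hK]; exact h1.meas _
  have sl : ∀ t, Integrable (K t) P := fun t => by
    rw [hK]; exact cf_integrable hτ h1 _ i1
  have iK : Integrable (Function.uncurry K) ((volume.restrict (Set.Ioc (0 : ℝ) 1)).prod P) := by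
    rw [integrable_prod_iff mK.aestronglyMeasurable]
    refine ⟨ae_of_all _ fun t => sl t, ?_⟩
    have : (fun t => ∫ s, ‖Function.uncurry K (t, s)‖ ∂P) = fun _ => ∫ s, ‖G1 s 0‖ ∂P := by
      funext t
      rw [hK]
      exact cf_int hτ h1 (t • v) measurable_norm
    rw [this]
    exact integrable_const _
  have sw := integral_integral_swap iK
  have l1 : ∫ t in Set.Ioc (0 : ℝ) 1, ∫ s, K t s ∂P = ∫ s, G1 s 0 ∂P := by
    have : ∀ t, ∫ s, K t s ∂P = ∫ s, G1 s 0 ∂P := fun t => by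
      rw [hK]
      exact cf_int hτ h1 (t • v) measurable_id
    simp only [this]
    simp
  have l2 : ∀ s, ∫ t in Set.Ioc (0 : ℝ) 1, K t s = G s v - G s 0 := by
    intro s
    rw [← intervalIntegral.integral_of_le zero_le_one, hK]
    have := intervalIntegral.integral_eq_sub_of_hasDerivAt (a := 0) (b := 1)
      (f := fun t : ℝ => G s (t • v)) (f' := fun t => G1 s (t • v)) (fun t _ => hd s t) ?_
    · rw [this, one_smul, zero_smul]
    · exact ((h1.cont s).comp
        (continuous_id.smul continuous_const)).intervalIntegrable 0 1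
  rw [l1] at sw
  rw [sw]
  simp only [l2]
  rw [integral_sub (cf_integrable hτ h v i0) i0]
  have := cf_int hτ h v (k := fun x => x) measurable_id
  rw [this, sub_self]

/-- the iterated directional derivatives -/
def it (v : E d) (G : S → E d → ℝ) : ℕ → S → E d → ℝ
  | 0 => G
  | n + 1 => fun s => Dv v (it v G n s)

lemma it_wave [IsProbabilityMeasure P] (hτ : ∀ x, MeasurePreserving (τ x) P P)
    {G : S → E d → ℝ} (W : Wave P τ G) {v : E d} (hv : ‖v‖ ≤ 1) (n : ℕ) :
    Wave P τ (it v G n) ∧ ∫ s, it v G n s 0 ^ 2 ∂P ≤ ∫ s, G s 0 ^ 2 ∂P := by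
  induction n with
  | zero => exact ⟨W, le_rfl⟩
  | succ n ih =>
    obtain ⟨h1, h2⟩ := wave_dv hτ ih.1 v
    refine ⟨h1, h2.trans ?_⟩
    have h3 : ‖v‖ ^ 2 ≤ 1 := by nlinarith [norm_nonneg v]
    have h4 : 0 ≤ ∫ s, it v G n s 0 ^ 2 ∂P := integral_nonneg fun s => sq_nonneg _
    have h5 := ih.2
    nlinarith

lemma it_hd {G : S → E d → ℝ} (h : SF τ G) (v : E d) (n : ℕ) (s : S) (t : ℝ) :
    HasDerivAt (fun t : ℝ => it v G n s (t • v)) (it v G (n + 1) s (t • v)) t := by
  have hs : ∀ n, ContDiff ℝ ∞ (it v G n s) := by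
    intro n
    induction n with
    | zero => exact h.smooth s
    | succ n ih => exact Dv_sm ih v
  have h1 : HasDerivAt (fun t : ℝ => t • v) ((1 : ℝ) • v) t := (hasDerivAt_id t).smul_const v
  rw [one_smul] at h1
  exact (sdiff (hs n) (t • v)).hasFDerivAt.comp_hasDerivAt t h1

/-- the sequence of the derivatives at a point -/
def hs (v : E d) (G : S → E d → ℝ) (s : S) (y : E d) : ℕ → ℝ := fun n => it v G n s y

lemma hd_tay_x {g : ℕ → ℝ → ℝ} (hg : ∀ n t, HasDerivAt (g n) (g (n + 1) t) t) (m : ℕ) (y t : ℝ) :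
    HasDerivAt (fun t => tay m y (fun n => g n t)) (tay m y (shf (fun n => g n t))) t := by
  unfold tay
  refine HasDerivAt.fun_sum fun n _ => ?_
  exact ((hg n t).ofReal_comp).const_mul _

lemma tay_cont_x {g : ℕ → E d → ℝ} (hg : ∀ n, Continuous (g n)) (m : ℕ) (y : ℝ) :
    Continuous (fun x => tay m y (fun n => g n x)) := by
  unfold tay
  exact continuous_finsetSum _ fun n _ => continuous_const.mul
    (Complex.continuous_ofReal.comp (hg n))

lemma tay_meas_x {X : Type*} [MeasurableSpace X] {g : ℕ → X → ℝ} (hg : ∀ n, Measurable (g n))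
    (m : ℕ) (y : ℝ) : Measurable (fun x => tay m y (fun n => g n x)) := by
  unfold tay
  exact Finset.measurable_sum _ fun n _ => measurable_const.mul
    (Complex.measurable_ofReal.comp (hg n))

lemma lg2_mc {X : Type*} [MeasurableSpace X] {δ : ℝ} (hδ : 0 < δ) {f g k : X → ℂ}
    (hf : Measurable f) (hg : Measurable g) (hk : Measurable k) :
    Measurable fun x => lg2 δ (f x) (g x) (k x) :=
  (lg2_cont hδ).measurable.comp (hf.prodMk (hg.prodMk hk))

lemma lg1_mc {X : Type*} [MeasurableSpace X] {δ : ℝ} (hδ : 0 < δ) {f g : X → ℂ}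
    (hf : Measurable f) (hg : Measurable g) : Measurable fun x => lg1 δ (f x) (g x) :=
  (lg1_cont hδ).measurable.comp (hf.prodMk hg)

lemma lg2_cc {X : Type*} [TopologicalSpace X] {δ : ℝ} (hδ : 0 < δ) {f g k : X → ℂ}
    (hf : Continuous f) (hg : Continuous g) (hk : Continuous k) :
    Continuous fun x => lg2 δ (f x) (g x) (k x) :=
  (lg2_cont hδ).comp (hf.prodMk (hg.prodMk hk))

lemma lg1_cc {X : Type*} [TopologicalSpace X] {δ : ℝ} (hδ : 0 < δ) {f g : X → ℂ}
    (hf : Continuous f) (hg : Continuous g) : Continuous fun x => lg1 δ (f x) (g x) :=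
  (lg1_cont hδ).comp (hf.prodMk hg)

/-- integrability -/
lemma W2_int {X : Type*} [MeasurableSpace X] {μ : Measure X} [IsProbabilityMeasure μ] {δ M : ℝ}
    (hδ : 0 < δ) (N : ℕ) {h : ℕ → X → ℝ} (D : Dat μ (N + 4) M h) (a y : ℝ) :
    Integrable (fun x => W2 δ N a y (sq h x)) μ ∧
    Integrable (fun x => lg1 δ (tay (N + 2) y (sq h x) - a) (tay (N + 2) y (shf (sq h x)))) μ := by
  have w0 : ∀ n : ℕ, 0 ≤ |y| ^ n / (n.factorial : ℝ) := fun n => by positivity
  have i1 := (l2sum D (Finset.range (N + 2)) _ w0 1 (fun n hn => by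
    have := Finset.mem_range.1 hn; omega) le_rfl).1
  have i2 := (l2sum D (Finset.range (N + 2)) _ w0 2 (fun n hn => by
    have := Finset.mem_range.1 hn; omega) le_rfl).1
  have m0 : Measurable fun x => tay (N + 2) y (sq h x) - (a : ℂ) :=
    (tay_meas_x D.me (N + 2) y).sub_const _
  have m1 : Measurable fun x => tay (N + 2) y (shf (sq h x)) :=
    tay_meas_x (g := fun n => h (n + 1)) (fun n => D.me (n + 1)) (N + 2) y
  have m2 : Measurable fun x => tay (N + 2) y (shf (shf (sq h x))) :=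
    tay_meas_x (g := fun n => h (n + 1 + 1)) (fun n => D.me (n + 1 + 1)) (N + 2) y
  have b1 : ∀ x, ‖tay (N + 2) y (shf (sq h x))‖ ≤
      ∑ n ∈ Finset.range (N + 2), |y| ^ n / n.factorial * |h (n + 1) x| :=
    fun x => tay_norm (N + 2) (y := y) le_rfl (shf (sq h x))
  have b2 : ∀ x, ‖tay (N + 2) y (shf (shf (sq h x)))‖ ≤
      ∑ n ∈ Finset.range (N + 2), |y| ^ n / n.factorial * |h (n + 2) x| :=
    fun x => tay_norm (N + 2) (y := y) le_rfl (shf (shf (sq h x)))
  constructor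
  · have mW : Measurable fun x => W2 δ N a y (sq h x) := lg2_mc hδ m0 m1 m2
    refine Integrable.mono' (((i1.const_mul 3).div_const (δ ^ 2)).add
      (((integrable_const (1 : ℝ)).add i2).div_const δ)) mW.aestronglyMeasurable
      (ae_of_all _ fun x => ?_)
    rw [Real.norm_eq_abs]
    refine (lg2_abs hδ _ _ _).trans ?_
    obtain ⟨A, hA⟩ : ∃ A, A = ∑ n ∈ Finset.range (N + 2), |y| ^ n / n.factorial * |h (n + 1) x| :=
      ⟨_, rfl⟩
    obtain ⟨B, hB⟩ : ∃ B, B = ∑ n ∈ Finset.range (N + 2), |y| ^ n / n.factorial * |h (n + 2) x| :=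
      ⟨_, rfl⟩
    have c1 := b1 x
    have c2 := b2 x
    rw [← hA] at c1
    rw [← hB] at c2
    show _ ≤ 3 * (∑ n ∈ Finset.range (N + 2), |y| ^ n / n.factorial * |h (n + 1) x|) ^ 2 / δ ^ 2 +
      (1 + (∑ n ∈ Finset.range (N + 2), |y| ^ n / n.factorial * |h (n + 2) x|) ^ 2) / δ
    rw [← hA, ← hB]
    have c3 : ‖tay (N + 2) y (shf (sq h x))‖ ^ 2 ≤ A ^ 2 := pow_le_pow_left₀ (norm_nonneg _) c1 2
    have c4 : ‖tay (N + 2) y (shf (shf (sq h x)))‖ ≤ 1 + B ^ 2 := by
      nlinarith [sq_nonneg (B - 1), sq_nonneg B]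
    gcongr
  · have mW : Measurable fun x => lg1 δ (tay (N + 2) y (sq h x) - a)
        (tay (N + 2) y (shf (sq h x))) := lg1_mc hδ m0 m1
    refine Integrable.mono' (((integrable_const (1 : ℝ)).add i1).div_const δ)
      mW.aestronglyMeasurable (ae_of_all _ fun x => ?_)
    rw [Real.norm_eq_abs]
    refine (lg1_abs hδ _ _).trans ?_
    obtain ⟨A, hA⟩ : ∃ A, A = ∑ n ∈ Finset.range (N + 2), |y| ^ n / n.factorial * |h (n + 1) x| :=
      ⟨_, rfl⟩
    have c1 := b1 x
    rw [← hA] at c1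
    show _ ≤ (1 + (∑ n ∈ Finset.range (N + 2), |y| ^ n / n.factorial * |h (n + 1) x|) ^ 2) / δ
    rw [← hA]
    have c4 : ‖tay (N + 2) y (shf (sq h x))‖ ≤ 1 + A ^ 2 := by
      nlinarith [sq_nonneg (A - 1), sq_nonneg A]
    gcongr

/-- stationarity kills the second derivative -/
theorem W2_zero [IsProbabilityMeasure P] (hτ : ∀ x, MeasurePreserving (τ x) P P)
    {G : S → E d → ℝ} (W : Wave P τ G) {v : E d} (hv : ‖v‖ ≤ 1) {δ : ℝ} (hδ : 0 < δ) (N : ℕ)
    (a y : ℝ) : ∫ s, W2 δ N a y (hs v G s 0) ∂P = 0 := by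
  have Wn := it_wave hτ W hv
  have D : Dat P (N + 4) (√(∫ s, G s 0 ^ 2 ∂P)) (fun n s => it v G n s 0) := by
    refine ⟨fun n => (Wn n).1.m0, fun n _ => (Wn n).1.l2, fun n _ => ?_⟩
    rw [Real.sq_sqrt (integral_nonneg fun s => sq_nonneg _)]
    exact (Wn n).2
  obtain ⟨i2, i1⟩ := W2_int hδ N D a y
  have cn : ∀ s n, Continuous (it v G n s) := fun s n => ((Wn n).1.sf.smooth s).continuous
  have mn : ∀ x n, Measurable (fun s => it v G n s x) := fun x n => (Wn n).1.sf.meas x
  have cv : ∀ x s y, hs v G (τ x s) y = hs v G s (y + x) := fun x s y => by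
    funext n
    exact (Wn n).1.sf.cov x s y
  have t0 : ∀ x, Measurable fun s => tay (N + 2) y (hs v G s x) - (a : ℂ) := fun x =>
    (tay_meas_x (mn x) (N + 2) y).sub_const _
  have t1 : ∀ x, Measurable fun s => tay (N + 2) y (shf (hs v G s x)) := fun x =>
    tay_meas_x (g := fun n s => it v G (n + 1) s x) (fun n => mn x (n + 1)) (N + 2) y
  have t2 : ∀ x, Measurable fun s => tay (N + 2) y (shf (shf (hs v G s x))) := fun x =>
    tay_meas_x (g := fun n s => it v G (n + 1 + 1) s x) (fun n => mn x (n + 1 + 1)) (N + 2) y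
  have u0 : ∀ s, Continuous fun x => tay (N + 2) y (hs v G s x) - (a : ℂ) := fun s =>
    (tay_cont_x (cn s) (N + 2) y).sub continuous_const
  have u1 : ∀ s, Continuous fun x => tay (N + 2) y (shf (hs v G s x)) := fun s =>
    tay_cont_x (g := fun n => it v G (n + 1) s) (fun n => cn s (n + 1)) (N + 2) y
  have u2 : ∀ s, Continuous fun x => tay (N + 2) y (shf (shf (hs v G s x))) := fun s =>
    tay_cont_x (g := fun n => it v G (n + 1 + 1) s) (fun n => cn s (n + 1 + 1)) (N + 2) y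
  have C1 : CF τ (fun s x => lg1 δ (tay (N + 2) y (hs v G s x) - a)
      (tay (N + 2) y (shf (hs v G s x)))) := by
    refine ⟨fun x => lg1_mc hδ (t0 x) (t1 x), fun s => lg1_cc hδ (u0 s) (u1 s), fun x s z => ?_⟩
    simp only [cv]
  have C2 : CF τ (fun s x => lg2 δ (tay (N + 2) y (hs v G s x) - a)
      (tay (N + 2) y (shf (hs v G s x))) (tay (N + 2) y (shf (shf (hs v G s x))))) := by
    refine ⟨fun x => lg2_mc hδ (t0 x) (t1 x) (t2 x), fun s => lg2_cc hδ (u0 s) (u1 s) (u2 s),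
      fun x s z => ?_⟩
    simp only [cv]
  have hd : ∀ s (t : ℝ), HasDerivAt (fun t : ℝ => lg1 δ (tay (N + 2) y (hs v G s (t • v)) - a)
      (tay (N + 2) y (shf (hs v G s (t • v)))))
      (lg2 δ (tay (N + 2) y (hs v G s (t • v)) - a) (tay (N + 2) y (shf (hs v G s (t • v))))
        (tay (N + 2) y (shf (shf (hs v G s (t • v)))))) t := by
    intro s t
    have g0 : ∀ n t, HasDerivAt (fun t : ℝ => it v G n s (t • v)) (it v G (n + 1) s (t • v)) t :=
      fun n t => it_hd W.sf v n s t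
    have z0 : HasDerivAt (fun t : ℝ => tay (N + 2) y (hs v G s (t • v)) - (a : ℂ))
        (tay (N + 2) y (shf (hs v G s (t • v)))) t :=
      (hd_tay_x (g := fun n t => it v G n s (t • v)) g0 (N + 2) y t).sub_const (a : ℂ)
    have z1 : HasDerivAt (fun t : ℝ => tay (N + 2) y (shf (hs v G s (t • v))))
        (tay (N + 2) y (shf (shf (hs v G s (t • v))))) t :=
      hd_tay_x (g := fun n t => it v G (n + 1) s (t • v)) (fun n t => g0 (n + 1) t) (N + 2) y t
    exact hd_lg1 hδ z0 z1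
  exact div1 hτ C1 C2 v hd i1 i2

/-- the bound for closed intervals -/
theorem dir_Icc [IsProbabilityMeasure P] (hτ : ∀ x, MeasurePreserving (τ x) P P)
    {G : S → E d → ℝ} (W : Wave P τ G) {v : E d} (hv : ‖v‖ ≤ 1) (a b : ℝ) :
    ∫⁻ s in {s | G s 0 ∈ Set.Icc a b}, ENNReal.ofReal |Dv v (G s) 0| ∂P ≤
      ENNReal.ofReal ((b - a) / Real.pi) := by
  have hpi := Real.pi_pos
  rcases lt_or_ge b a with hab | hab
  · have : {s | G s 0 ∈ Set.Icc a b} = ∅ := by
      rw [Set.Icc_eq_empty (not_le.2 hab)]; simp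
    rw [this]; simp
  have Wn := it_wave hτ W hv
  have main : ∀ k : ℝ, 0 < k → ∫⁻ s in {s | G s 0 ∈ Set.Icc a b}, ENNReal.ofReal |Dv v (G s) 0| ∂P ≤
      ENNReal.ofReal ((b - a + 4 * k) / Real.pi + k) := by
    intro k hk
    obtain ⟨δ, H, ε, N, hδ, hH, hε, h⟩ := abs_thm (√(∫ s, G s 0 ^ 2 ∂P)) (α := a - 2 * k)
      (β := b + 2 * k) (k := k) (ε0 := k) (by linarith) hk hk
    have D : Dat P (N + 4) (√(∫ s, G s 0 ^ 2 ∂P)) (fun n s => it v G n s 0) := by
      refine ⟨fun n => (Wn n).1.m0, fun n _ => (Wn n).1.l2, fun n _ => ?_⟩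
      rw [Real.sq_sqrt (integral_nonneg fun s => sq_nonneg _)]
      exact (Wn n).2
    have h1 := h S P (fun n s => it v G n s 0) D (fun a' _ _ y _ _ => by
      have := W2_zero hτ W hv hδ N a' y
      exact this.le.trans hε.le)
    have e1 : {x | a - 2 * k + 2 * k ≤ it v G 0 x 0 ∧ it v G 0 x 0 ≤ b + 2 * k - 2 * k} =
        {s | G s 0 ∈ Set.Icc a b} := by
      ext s
      simp only [Set.mem_ofPred_eq, Set.mem_Icc, sub_add_cancel, add_sub_cancel_right]
      rfl
    rw [e1] at h1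
    have e2 : b + 2 * k - (a - 2 * k) = b - a + 4 * k := by ring
    rw [e2] at h1
    exact h1
  have hlim : Tendsto (fun k : ℝ => ENNReal.ofReal ((b - a + 4 * k) / Real.pi + k)) (𝓝[>] 0)
      (𝓝 (ENNReal.ofReal ((b - a) / Real.pi))) := by
    have h1 : Tendsto (fun k : ℝ => (b - a + 4 * k) / Real.pi + k) (𝓝[>] 0)
        (𝓝 ((b - a + 4 * 0) / Real.pi + 0)) := by
      have : Continuous fun k : ℝ => (b - a + 4 * k) / Real.pi + k := by fun_prop
      exact (this.tendsto 0).mono_left nhdsWithin_le_nhds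
    rw [mul_zero, add_zero, add_zero] at h1
    exact (ENNReal.continuous_ofReal.tendsto _).comp h1
  exact ge_of_tendsto hlim (by
    filter_upwards [self_mem_nhdsWithin] with k hk
    exact main k hk)

end

end Pool.Agent.Q218.UB
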