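import Pool.Agent.Q218.UB.N

/-!
# Level sets of eigenfunctions (project UB): the wave with the symmetry of the triangle (30, 60, 90)
-/

set_option autoImplicit false
open MeasureTheory Filter Topology
open scoped ContDiff ENNReal

namespace Pool.Agent.Q218.UB.G2

noncomputable section

open Pool.Agent.Q218.UB.Seq

/-- `sin (p x) sin (q √3 y)` -/
def tm (p q : ℝ) (z : ℂ) : ℝ := Real.sin (p * z.re) * Real.sin (q * (√3 * z.im))

lemma tm_sm (p q : ℝ) : ContDiff ℝ ∞ (tm p q) := by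
  unfold tm
  have h1 : ContDiff ℝ ∞ fun z : ℂ => z.re := Complex.reCLM.contDiff
  have h2 : ContDiff ℝ ∞ fun z : ℂ => z.im := Complex.imCLM.contDiff
  exact (Real.contDiff_sin.comp (contDiff_const.mul h1)).mul
    (Real.contDiff_sin.comp (contDiff_const.mul (contDiff_const.mul h2)))

lemma d_re (p : ℝ) (v z : ℂ) : HasFDerivAt (fun z : ℂ => p * z.re) (p • Complex.reCLM) z :=
  (Complex.reCLM.hasFDerivAt (x := z)).const_mul p

lemma d_im (q : ℝ) (v z : ℂ) : HasFDerivAt (fun z : ℂ => q * (√3 * z.im)) (q • √3 • Complex.imCLM) z :=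
  ((Complex.imCLM.hasFDerivAt (x := z)).const_mul √3).const_mul q

lemma tm_dv (p q : ℝ) (v : ℂ) : dv v (tm p q) = fun z =>
    p * v.re * (Real.cos (p * z.re) * Real.sin (q * (√3 * z.im))) +
      q * √3 * v.im * (Real.sin (p * z.re) * Real.cos (q * (√3 * z.im))) := by
  funext z
  have h := ((d_re p v z).sin).mul ((d_im q v z).sin)
  unfold dv
  have e : tm p q = (fun z : ℂ => Real.sin (p * z.re)) * fun z : ℂ => Real.sin (q * (√3 * z.im)) := rfl
  rw [e, h.fderiv]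
  simp only [FunLike.coe_add, Pi.add_apply, FunLike.coe_smul, Pi.smul_apply, smul_eq_mul,
    Complex.reCLM_apply, Complex.imCLM_apply]
  ring

lemma tm_lp (p q : ℝ) (z : ℂ) : lp (tm p q) z = -((p ^ 2 + 3 * q ^ 2) * tm p q z) := by
  have s3 : √3 * √3 = (3 : ℝ) := Real.mul_self_sqrt (by norm_num)
  unfold Pool.Agent.Q218.UB.Seq.lp
  rw [tm_dv, tm_dv]
  have h1 := ((((d_re p 1 z).cos).mul ((d_im q 1 z).sin)).const_mul (p * (1 : ℂ).re)).add
    ((((d_re p 1 z).sin).mul ((d_im q 1 z).cos)).const_mul (q * √3 * (1 : ℂ).im))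
  have h2 := ((((d_re p 1 z).cos).mul ((d_im q 1 z).sin)).const_mul (p * Complex.I.re)).add
    ((((d_re p 1 z).sin).mul ((d_im q 1 z).cos)).const_mul (q * √3 * Complex.I.im))
  unfold dv
  have e1 : fderiv ℝ (fun z : ℂ => p * (1 : ℂ).re * (Real.cos (p * z.re) * Real.sin (q * (√3 * z.im))) +
      q * √3 * (1 : ℂ).im * (Real.sin (p * z.re) * Real.cos (q * (√3 * z.im)))) z = _ := h1.fderiv
  have e2 : fderiv ℝ (fun z : ℂ => p * Complex.I.re * (Real.cos (p * z.re) * Real.sin (q * (√3 * z.im))) +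
      q * √3 * Complex.I.im * (Real.sin (p * z.re) * Real.cos (q * (√3 * z.im)))) z = _ := h2.fderiv
  rw [e1, e2]
  simp only [FunLike.coe_add, Pi.add_apply, FunLike.coe_smul, Pi.smul_apply, smul_eq_mul,
    Complex.reCLM_apply, Complex.imCLM_apply, Complex.one_re, Complex.one_im, Complex.I_re, Complex.I_im]
  unfold tm
  linear_combination (-(q ^ 2 * Real.sin (p * z.re) * Real.sin (q * (√3 * z.im)))) * s3

/-- the wave -/
def wv (n : ℝ) (z : ℂ) : ℝ := tm (5 * n) n z + (-1) * tm (4 * n) (2 * n) z + tm n (3 * n) z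

lemma wv_sm (n : ℝ) : ContDiff ℝ ∞ (wv n) := by
  unfold wv
  exact ((tm_sm _ _).add (contDiff_const.mul (tm_sm _ _))).add (tm_sm _ _)

lemma wv_lp (n : ℝ) (z : ℂ) : lp (wv n) z + 28 * n ^ 2 * wv n z = 0 := by
  have h1 : lp (wv n) z = lp (tm (5 * n) n) z + (-1) * lp (tm (4 * n) (2 * n)) z + lp (tm n (3 * n)) z := by
    have e : ∀ v, dv v (wv n) = fun z => (dv v (tm (5 * n) n) z + (-1) * dv v (tm (4 * n) (2 * n)) z) +
        dv v (tm n (3 * n)) z := fun v => by
      funext z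
      unfold wv
      rw [dv_add (f := fun z => tm (5 * n) n z + (-1) * tm (4 * n) (2 * n) z) (g := tm n (3 * n))
        ((tm_sm _ _).add (contDiff_const.mul (tm_sm _ _))) (tm_sm _ _),
        dv_add (f := tm (5 * n) n) (g := fun z => (-1) * tm (4 * n) (2 * n) z) (tm_sm _ _)
        (contDiff_const.mul (tm_sm _ _)), dv_cmul (tm_sm _ _)]
    have e2 : ∀ v, dv v (dv v (wv n)) z = (dv v (dv v (tm (5 * n) n)) z +
        (-1) * dv v (dv v (tm (4 * n) (2 * n))) z) + dv v (dv v (tm n (3 * n))) z := fun v => by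
      rw [e]
      rw [dv_add (f := fun z => dv v (tm (5 * n) n) z + (-1) * dv v (tm (4 * n) (2 * n)) z)
        (g := dv v (tm n (3 * n)))
        ((dv_sm (tm_sm _ _) v).add (contDiff_const.mul (dv_sm (tm_sm _ _) v))) (dv_sm (tm_sm _ _) v),
        dv_add (f := dv v (tm (5 * n) n)) (g := fun z => (-1) * dv v (tm (4 * n) (2 * n)) z)
        (dv_sm (tm_sm _ _) v) (contDiff_const.mul (dv_sm (tm_sm _ _) v)), dv_cmul (dv_sm (tm_sm _ _) v)]
    unfold Pool.Agent.Q218.UB.Seq.lp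
    rw [e2, e2]
    ring
  rw [h1, tm_lp, tm_lp, tm_lp]
  unfold wv
  ring

/-- the vertical coordinate -/
def Y (z : ℂ) : ℝ := √3 * z.im

lemma wv_scale (n : ℝ) (z : ℂ) : wv n z = wv 1 (n * z) := by
  have h1 : ((n : ℂ) * z).re = n * z.re := by simp
  have h2 : ((n : ℂ) * z).im = n * z.im := by simp
  unfold wv tm
  rw [h1, h2]
  congr 1
  · congr 1
    · congr 1
      · congr 1; ring
      · congr 1; ring
    · congr 1
      congr 1
      · congr 1; ring
      · congr 1; ring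
  · congr 1
    · congr 1; ring
    · congr 1; ring

/-- the product formula -/
lemma prod (z : ℂ) : wv 1 z = 4 * Real.sin z.re * Real.sin (Y z) * (Real.cos (Y z) - Real.cos z.re) *
    (Real.cos (Y z) - Real.cos (3 * z.re)) := by
  have e0 : wv 1 z = Real.sin (5 * z.re) * Real.sin (Y z) - Real.sin (4 * z.re) * Real.sin (2 * Y z) +
      Real.sin z.re * Real.sin (3 * Y z) := by
    unfold wv tm Y
    simp only [mul_one, one_mul]
    ring
  rw [e0]
  obtain ⟨x, hx⟩ : ∃ x, x = z.re := ⟨_, rfl⟩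
  obtain ⟨y, hy⟩ : ∃ y, y = Y z := ⟨_, rfl⟩
  rw [← hx, ← hy]
  have s4 : Real.sin (4 * x) = 4 * Real.sin x * Real.cos x * (2 * Real.cos x ^ 2 - 1) := by
    have : 4 * x = 2 * (2 * x) := by ring
    rw [this, Real.sin_two_mul, Real.sin_two_mul, Real.cos_two_mul]; ring
  have c4 : Real.cos (4 * x) = 8 * Real.cos x ^ 4 - 8 * Real.cos x ^ 2 + 1 := by
    have : 4 * x = 2 * (2 * x) := by ring
    rw [this, Real.cos_two_mul, Real.cos_two_mul]; ring
  have s5 : Real.sin (5 * x) = Real.sin x * (16 * Real.cos x ^ 4 - 12 * Real.cos x ^ 2 + 1) := by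
    have : 5 * x = 4 * x + x := by ring
    rw [this, Real.sin_add, s4, c4]; ring
  have s2 : Real.sin (2 * y) = 2 * Real.sin y * Real.cos y := Real.sin_two_mul y
  have s3 : Real.sin (3 * y) = Real.sin y * (4 * Real.cos y ^ 2 - 1) := by
    have h := Real.sin_sq_add_cos_sq y
    rw [Real.sin_three_mul]
    linear_combination (-(4 * Real.sin y)) * h
  have c3 : Real.cos (3 * x) = 4 * Real.cos x ^ 3 - 3 * Real.cos x := Real.cos_three_mul x
  rw [s5, s4, s2, s3, c3]
  ring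

lemma Y_sm : ContDiff ℝ ∞ Y := by
  unfold Y
  exact contDiff_const.mul Complex.imCLM.contDiff

/-- zeros of one factor -/
lemma reg_of_prod {h k : ℂ → ℝ} (sh : ContDiff ℝ ∞ h) (sk : ContDiff ℝ ∞ k) {z v : ℂ} (h0 : h z = 0)
    (hk0 : k z ≠ 0) (hd : dv v h z ≠ 0) (e : ∀ z, wv 1 z = h z * k z) :
    wv 1 z = 0 ∧ fderiv ℝ (wv 1) z ≠ 0 := by
  refine ⟨by rw [e, h0, zero_mul], fun hc => ?_⟩
  have e1 : wv 1 = fun z => h z * k z := funext e
  have h1 : dv v (wv 1) z = h z * dv v k z + dv v h z * k z := by rw [e1, dv_mul sh sk]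
  have h2 : dv v (wv 1) z = 0 := by unfold dv; rw [hc]; rfl
  rw [h2, h0, zero_mul, zero_add] at h1
  exact (mul_ne_zero hd hk0) h1.symm

lemma sm_sx (p : ℝ) : ContDiff ℝ ∞ fun z : ℂ => Real.sin (p * z.re) :=
  Real.contDiff_sin.comp (contDiff_const.mul Complex.reCLM.contDiff)

lemma sm_cx (p : ℝ) : ContDiff ℝ ∞ fun z : ℂ => Real.cos (p * z.re) :=
  Real.contDiff_cos.comp (contDiff_const.mul Complex.reCLM.contDiff)

lemma sm_sy : ContDiff ℝ ∞ fun z : ℂ => Real.sin (Y z) := Real.contDiff_sin.comp Y_sm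

lemma sm_cy : ContDiff ℝ ∞ fun z : ℂ => Real.cos (Y z) := Real.contDiff_cos.comp Y_sm

/-- the regular zeros -/
def rz : Set ℂ := {z | wv 1 z = 0 ∧ fderiv ℝ (wv 1) z ≠ 0}

/-- vertical lines -/
def W1 : Set ℂ := {z | Real.sin z.re = 0 ∧ Real.sin (Y z) ≠ 0}

/-- horizontal lines -/
def W2 : Set ℂ := {z | Real.sin (Y z) = 0 ∧ Real.sin z.re ≠ 0 ∧ Real.sin (3 * z.re) ≠ 0}

/-- lines with the angle 30 degrees -/
def W3 : Set ℂ := {z | Real.cos (Y z) = Real.cos z.re ∧ Real.sin z.re ≠ 0 ∧ Real.sin (Y z) ≠ 0 ∧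
  Real.cos (Y z) ≠ Real.cos (3 * z.re)}

/-- lines with the angle 60 degrees -/
def W4 : Set ℂ := {z | Real.cos (Y z) = Real.cos (3 * z.re) ∧ Real.sin z.re ≠ 0 ∧ Real.sin (Y z) ≠ 0 ∧
  Real.cos (Y z) ≠ Real.cos z.re}

lemma cos_of_sin {x : ℝ} (h : Real.sin x = 0) : Real.cos x = 1 ∨ Real.cos x = -1 :=
  (Real.sin_eq_zero_iff_cos_eq.1 h)

lemma cos_ne {x y : ℝ} (h : Real.sin x = 0) (h2 : Real.sin y ≠ 0) : Real.cos x ≠ Real.cos y := by
  intro h3
  refine h2 (Real.sin_eq_zero_iff_cos_eq.2 ?_)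
  rw [← h3]
  exact Real.sin_eq_zero_iff_cos_eq.1 h

lemma sin3 {x : ℝ} (h : Real.sin x = 0) : Real.sin (3 * x) = 0 := by
  rw [Real.sin_three_mul, h]; ring

lemma W1_sub : W1 ⊆ rz := by
  rintro z ⟨h1, h2⟩
  have c1 : Real.cos (Y z) ≠ Real.cos z.re := (cos_ne h1 h2).symm
  have c2 : Real.cos (Y z) ≠ Real.cos (3 * z.re) := (cos_ne (sin3 h1) h2).symm
  refine reg_of_prod (h := fun z => Real.sin (1 * z.re))
    (k := fun z => 4 * (Real.sin (Y z) * ((Real.cos (Y z) - Real.cos (1 * z.re)) *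
      (Real.cos (Y z) - Real.cos (3 * z.re))))) (v := 1) (sm_sx 1)
    (contDiff_const.mul (sm_sy.mul ((sm_cy.sub (sm_cx 1)).mul (sm_cy.sub (sm_cx 3))))) ?_ ?_ ?_ ?_
  · simpa using h1
  · simp only [one_mul]
    exact mul_ne_zero (by norm_num) (mul_ne_zero h2 (mul_ne_zero (sub_ne_zero.2 c1) (sub_ne_zero.2 c2)))
  · unfold dv
    rw [((d_re 1 1 z).sin).fderiv]
    simp only [FunLike.coe_smul, Pi.smul_apply, smul_eq_mul, Complex.reCLM_apply, Complex.one_re, one_mul,
      mul_one]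
    rcases cos_of_sin h1 with h | h <;> rw [h] <;> norm_num
  · intro z; rw [prod]; simp only [one_mul]; ring

lemma W2_sub : W2 ⊆ rz := by
  rintro z ⟨h1, h2, h3⟩
  have c1 : Real.cos (Y z) ≠ Real.cos z.re := cos_ne h1 h2
  have c2 : Real.cos (Y z) ≠ Real.cos (3 * z.re) := cos_ne h1 h3
  refine reg_of_prod (h := fun z => Real.sin (1 * (√3 * z.im)))
    (k := fun z => 4 * (Real.sin (1 * z.re) * ((Real.cos (Y z) - Real.cos (1 * z.re)) *
      (Real.cos (Y z) - Real.cos (3 * z.re))))) (v := Complex.I) ?_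
    (contDiff_const.mul ((sm_sx 1).mul ((sm_cy.sub (sm_cx 1)).mul (sm_cy.sub (sm_cx 3))))) ?_ ?_ ?_ ?_
  · have := sm_sy
    unfold Y at this
    simpa only [one_mul] using this
  · unfold Y at h1; simpa using h1
  · simp only [one_mul]
    exact mul_ne_zero (by norm_num) (mul_ne_zero h2 (mul_ne_zero (sub_ne_zero.2 c1) (sub_ne_zero.2 c2)))
  · unfold dv
    rw [((d_im 1 1 z).sin).fderiv]
    simp only [FunLike.coe_smul, Pi.smul_apply, smul_eq_mul, Complex.imCLM_apply, Complex.I_im, one_mul,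
      mul_one]
    have h4 := cos_of_sin h1
    unfold Y at h4
    have h5 : √3 ≠ 0 := (Real.sqrt_pos.2 (by norm_num)).ne'
    rcases h4 with h | h <;> rw [h] <;> simp
  · intro z; rw [prod]; unfold Y; simp only [one_mul]; ring

lemma W3_sub : W3 ⊆ rz := by
  rintro z ⟨h1, h2, h3, h4⟩
  refine reg_of_prod (h := fun z => Real.cos (1 * (√3 * z.im)) + (-1) * Real.cos (1 * z.re))
    (k := fun z => 4 * (Real.sin (1 * z.re) * (Real.sin (Y z) *
      (Real.cos (Y z) - Real.cos (3 * z.re))))) (v := 1) ?_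
    (contDiff_const.mul ((sm_sx 1).mul (sm_sy.mul (sm_cy.sub (sm_cx 3))))) ?_ ?_ ?_ ?_
  · have := sm_cy
    unfold Y at this
    have h5 : ContDiff ℝ ∞ fun z : ℂ => Real.cos (1 * (√3 * z.im)) := by simpa only [one_mul] using this
    exact h5.add (contDiff_const.mul (sm_cx 1))
  · unfold Y at h1
    simp only [one_mul]
    rw [h1]; ring
  · simp only [one_mul]
    exact mul_ne_zero (by norm_num) (mul_ne_zero h2 (mul_ne_zero h3 (sub_ne_zero.2 h4)))
  · unfold dv
    have h6 := ((d_im 1 1 z).cos).add (((d_re 1 1 z).cos).const_mul (-1))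
    have e1 : fderiv ℝ (fun z : ℂ => Real.cos (1 * (√3 * z.im)) + (-1) * Real.cos (1 * z.re)) z = _ := h6.fderiv
    rw [e1]
    simp only [FunLike.coe_add, Pi.add_apply, FunLike.coe_smul, Pi.smul_apply, smul_eq_mul,
      Complex.imCLM_apply, Complex.reCLM_apply, Complex.one_re, Complex.one_im, one_mul, mul_one, mul_zero,
      zero_add]
    intro h7
    refine h2 ?_
    linarith
  · intro z; rw [prod]; unfold Y; simp only [one_mul]; ring

lemma W4_sub : W4 ⊆ rz := by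
  rintro z ⟨h1, h2, h3, h4⟩
  refine reg_of_prod (h := fun z => Real.cos (1 * (√3 * z.im)) + (-1) * Real.cos (3 * z.re))
    (k := fun z => 4 * (Real.sin (1 * z.re) * (Real.sin (Y z) *
      (Real.cos (Y z) - Real.cos (1 * z.re))))) (v := Complex.I) ?_
    (contDiff_const.mul ((sm_sx 1).mul (sm_sy.mul (sm_cy.sub (sm_cx 1))))) ?_ ?_ ?_ ?_
  · have := sm_cy
    unfold Y at this
    have h5 : ContDiff ℝ ∞ fun z : ℂ => Real.cos (1 * (√3 * z.im)) := by simpa only [one_mul] using this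
    exact h5.add (contDiff_const.mul (sm_cx 3))
  · unfold Y at h1
    simp only [one_mul]
    rw [h1]; ring
  · simp only [one_mul]
    exact mul_ne_zero (by norm_num) (mul_ne_zero h2 (mul_ne_zero h3 (sub_ne_zero.2 h4)))
  · unfold dv
    have h6 := ((d_im 1 1 z).cos).add (((d_re 3 1 z).cos).const_mul (-1))
    have e1 : fderiv ℝ (fun z : ℂ => Real.cos (1 * (√3 * z.im)) + (-1) * Real.cos (3 * z.re)) z = _ := h6.fderiv
    rw [e1]
    simp only [FunLike.coe_add, Pi.add_apply, FunLike.coe_smul, Pi.smul_apply, smul_eq_mul,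
      Complex.imCLM_apply, Complex.reCLM_apply, Complex.I_re, Complex.I_im, one_mul, mul_one, mul_zero,
      add_zero]
    have h5 : √3 ≠ 0 := (Real.sqrt_pos.2 (by norm_num)).ne'
    unfold Y at h3
    exact mul_ne_zero (neg_ne_zero.2 h3) h5
  · intro z; rw [prod]; unfold Y; simp only [one_mul]; ring

end

end Pool.Agent.Q218.UB.G2
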