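import Pool.Agent.Q218.UB.Ga

/-!
# Level sets of eigenfunctions (project UB): periodic functions
-/

set_option autoImplicit false
open MeasureTheory Filter Topology
open scoped ContDiff ENNReal

namespace Pool.Agent.Q218.UB.G2

noncomputable section

open Pool.Agent.Q218.UB.Seq

/-- the mean over a period does not change under `x ↦ n x` -/
lemma per1 {T : ℝ} (hT : 0 < T) {G : ℝ → ℝ≥0∞} (mG : Measurable G) (hG : Function.Periodic G T) {n : ℕ}
    (hn : n ≠ 0) (a : ℝ) : ∫⁻ x in Set.Ioo a (a + T), G (n * x) = ∫⁻ x in Set.Ioo a (a + T), G x := by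
  haveI : Fact (0 < T) := ⟨hT⟩
  have mL : Measurable (hG.lift : AddCircle T → ℝ≥0∞) := QuotientAddGroup.measurable_from_quotient.2 mG
  rw [setLIntegral_congr Ioo_ae_eq_Ioc, setLIntegral_congr Ioo_ae_eq_Ioc]
  have e1 : ∫⁻ x in Set.Ioc a (a + T), G x = ∫⁻ b : AddCircle T, hG.lift b :=
    AddCircle.lintegral_preimage T a hG.lift
  have e2 : ∫⁻ x in Set.Ioc a (a + T), G (n * x) = ∫⁻ b : AddCircle T, hG.lift ((n : ℤ) • b) := by
    rw [← AddCircle.lintegral_preimage T a fun b => hG.lift ((n : ℤ) • b)]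
    refine lintegral_congr fun x => ?_
    show G (n * x) = hG.lift ((n : ℤ) • (x : AddCircle T))
    rw [← AddCircle.coe_zsmul, Function.Periodic.lift_coe]
    congr 1
    simp
  rw [e1, e2]
  exact (MeasureTheory.Measure.measurePreserving_zsmul (volume : Measure (AddCircle T)) (Int.natCast_ne_zero.2 hn)).lintegral_comp mL

/-- the cell -/
def cell : Set ℂ := {z | (-(Real.pi / 2) < z.re ∧ z.re < 3 * Real.pi / 2) ∧
  (-(Real.pi / 2) < √3 * z.im ∧ √3 * z.im < 3 * Real.pi / 2)}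

lemma cell_open : IsOpen cell :=
  ((isOpen_lt continuous_const Complex.continuous_re).inter
    (isOpen_lt Complex.continuous_re continuous_const)).inter
    ((isOpen_lt continuous_const (continuous_const.mul Complex.continuous_im)).inter
    (isOpen_lt (continuous_const.mul Complex.continuous_im) continuous_const))

lemma s3 : 0 < √(3 : ℝ) := Real.sqrt_pos.2 (by norm_num)

lemma cell_eq : cell = Complex.measurableEquivRealProd ⁻¹'
    (Set.Ioo (-(Real.pi / 2)) (-(Real.pi / 2) + 2 * Real.pi) ×ˢ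
      Set.Ioo (-(Real.pi / 2) / √3) (-(Real.pi / 2) / √3 + 2 * Real.pi / √3)) := by
  have h3 := s3
  have e1 : -(Real.pi / 2) + 2 * Real.pi = 3 * Real.pi / 2 := by ring
  have e2 : -(Real.pi / 2) / √3 + 2 * Real.pi / √3 = (3 * Real.pi / 2) / √3 := by ring
  rw [e1, e2]
  ext z
  show ((-(Real.pi / 2) < z.re ∧ z.re < 3 * Real.pi / 2) ∧
    (-(Real.pi / 2) < √3 * z.im ∧ √3 * z.im < 3 * Real.pi / 2)) ↔
    ((-(Real.pi / 2) < z.re ∧ z.re < 3 * Real.pi / 2) ∧
    (-(Real.pi / 2) / √3 < z.im ∧ z.im < (3 * Real.pi / 2) / √3))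
  rw [div_lt_iff₀ h3, lt_div_iff₀ h3, mul_comm √3 z.im]

lemma cell_lint {F : ℝ × ℝ → ℝ≥0∞} (hF : Measurable F) :
    ∫⁻ z in cell, F (z.re, z.im) =
      ∫⁻ x in Set.Ioo (-(Real.pi / 2)) (-(Real.pi / 2) + 2 * Real.pi),
        ∫⁻ y in Set.Ioo (-(Real.pi / 2) / √3) (-(Real.pi / 2) / √3 + 2 * Real.pi / √3), F (x, y) := by
  have h1 := Complex.volume_preserving_equiv_real_prod
  have h2 := h1.setLIntegral_comp_preimage
    (s := Set.Ioo (-(Real.pi / 2)) (-(Real.pi / 2) + 2 * Real.pi) ×ˢ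
      Set.Ioo (-(Real.pi / 2) / √3) (-(Real.pi / 2) / √3 + 2 * Real.pi / √3))
    (measurableSet_Ioo.prod measurableSet_Ioo) (f := F) hF
  rw [cell_eq]
  refine Eq.trans ?_ (h2.trans ?_)
  · rfl
  · rw [Measure.volume_eq_prod, ← Measure.prod_restrict, lintegral_prod F hF.aemeasurable]

lemma cell_vol : volume cell = ENNReal.ofReal (4 * Real.pi ^ 2 / √3) := by
  have h := cell_lint (F := fun _ => 1) measurable_const
  have hp := Real.pi_pos
  have h3 := s3
  simp only [lintegral_const, Measure.restrict_apply_univ, Real.volume_Ioo, one_mul] at h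
  rw [h, ← ENNReal.ofReal_mul (by
    have : -(Real.pi / 2) / √3 + 2 * Real.pi / √3 - -(Real.pi / 2) / √3 = 2 * Real.pi / √3 := by ring
    rw [this]; positivity)]
  congr 1
  ring

/-- the mean over a period in the plane -/
lemma per2 {F : ℝ × ℝ → ℝ≥0∞} (hF : Measurable F) (h1 : ∀ x y, F (x + 2 * Real.pi, y) = F (x, y))
    (h2 : ∀ x y, F (x, y + 2 * Real.pi / √3) = F (x, y)) {n : ℕ} (hn : n ≠ 0) :
    ∫⁻ z in cell, F (n * z.re, n * z.im) = ∫⁻ z in cell, F (z.re, z.im) := by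
  have hp := Real.pi_pos
  have h3 := s3
  have m1 : Measurable fun p : ℝ × ℝ => F ((n : ℝ) * p.1, (n : ℝ) * p.2) :=
    hF.comp ((measurable_fst.const_mul _).prodMk (measurable_snd.const_mul _))
  have e1 := cell_lint (F := fun p : ℝ × ℝ => F ((n : ℝ) * p.1, (n : ℝ) * p.2)) m1
  have e0 : ∫⁻ z in cell, F (n * z.re, n * z.im) =
      ∫⁻ z in cell, (fun p : ℝ × ℝ => F ((n : ℝ) * p.1, (n : ℝ) * p.2)) (z.re, z.im) := rfl
  rw [e0, e1, cell_lint hF]
  have e2 : ∀ x : ℝ, ∫⁻ y in Set.Ioo (-(Real.pi / 2) / √3) (-(Real.pi / 2) / √3 + 2 * Real.pi / √3),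
      F ((n : ℝ) * x, (n : ℝ) * y) =
      ∫⁻ y in Set.Ioo (-(Real.pi / 2) / √3) (-(Real.pi / 2) / √3 + 2 * Real.pi / √3), F ((n : ℝ) * x, y) :=
    fun x => per1 (T := 2 * Real.pi / √3) (by positivity) (G := fun y => F ((n : ℝ) * x, y))
      (hF.comp (measurable_const.prodMk measurable_id)) (fun y => h2 _ _) hn _
  simp only [e2]
  have mG : Measurable fun x : ℝ =>
      ∫⁻ y in Set.Ioo (-(Real.pi / 2) / √3) (-(Real.pi / 2) / √3 + 2 * Real.pi / √3), F (x, y) :=
    hF.lintegral_prod_right'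
  exact per1 (T := 2 * Real.pi) (by positivity) (G := fun x : ℝ =>
      ∫⁻ y in Set.Ioo (-(Real.pi / 2) / √3) (-(Real.pi / 2) / √3 + 2 * Real.pi / √3), F (x, y))
    mG (fun x => by simp only [h1]) hn _

end

end Pool.Agent.Q218.UB.G2
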