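import Pool.Agent.Q218.UB.Gb

/-!
# Level sets of eigenfunctions (project UB): the length of the nodal lines in a cell
-/

set_option autoImplicit false
open MeasureTheory Filter Topology
open scoped ContDiff ENNReal

namespace Pool.Agent.Q218.UB.G2

noncomputable section

open Pool.Agent.Q218.UB.Seq

/-- the length of a set on a line -/
lemma img_len (p : ℂ) {d : ℂ} (hd : d ≠ 0) (T : Set ℝ) :
    ENNReal.ofReal ‖d‖ * volume T ≤ (μH[1] : Measure ℂ) ((fun t : ℝ => p + t * d) '' T) := by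
  have n0 : 0 < ‖d‖ := norm_pos_iff.2 hd
  have hA : AntilipschitzWith (‖d‖₊)⁻¹ (fun t : ℝ => p + t * d) := by
    refine AntilipschitzWith.of_le_mul_dist fun x y => ?_
    have e : dist (p + (x : ℂ) * d) (p + (y : ℂ) * d) = |x - y| * ‖d‖ := by
      rw [dist_eq_norm]
      have : p + (x : ℂ) * d - (p + (y : ℂ) * d) = ((x - y : ℝ) : ℂ) * d := by push_cast; ring
      rw [this, norm_mul, Complex.norm_real, Real.norm_eq_abs]
    rw [e, NNReal.coe_inv, coe_nnnorm, Real.dist_eq]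
    have : ‖d‖⁻¹ * (|x - y| * ‖d‖) = |x - y| := by field_simp
    rw [this]
  have h := hA.le_hausdorffMeasure_image (d := 1) zero_le_one T
  rw [hausdorffMeasure_real, ENNReal.rpow_one] at h
  calc ENNReal.ofReal ‖d‖ * volume T
      ≤ ENNReal.ofReal ‖d‖ * ((((‖d‖₊)⁻¹ : NNReal) : ℝ≥0∞) * (μH[1] : Measure ℂ) ((fun t : ℝ => p + t * d) '' T)) := by
        gcongr
    _ = (ENNReal.ofReal ‖d‖ * (((‖d‖₊)⁻¹ : NNReal) : ℝ≥0∞)) * (μH[1] : Measure ℂ) ((fun t : ℝ => p + t * d) '' T) := by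
        rw [mul_assoc]
    _ = _ := by
        have e1 : ENNReal.ofReal ‖d‖ * (((‖d‖₊)⁻¹ : NNReal) : ℝ≥0∞) = 1 := by
          have h1 : (((‖d‖₊)⁻¹ : NNReal) : ℝ≥0∞) = ENNReal.ofReal (‖d‖⁻¹) := by
            rw [ENNReal.ofReal, Real.toNNReal_inv, norm_toNNReal]
          rw [h1, ← ENNReal.ofReal_mul n0.le, mul_inv_cancel₀ n0.ne', ENNReal.ofReal_one]
        rw [e1, one_mul]

/-- zeros of the sine -/
lemma sin_null {c : ℝ} (hc : c ≠ 0) : volume {t : ℝ | Real.sin (c * t) = 0} = 0 := by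
  have h : {t : ℝ | Real.sin (c * t) = 0} ⊆ Set.range fun k : ℤ => (k : ℝ) * Real.pi / c := by
    intro t ht
    obtain ⟨k, hk⟩ := Real.sin_eq_zero_iff.1 ht
    refine ⟨k, ?_⟩
    show (k : ℝ) * Real.pi / c = t
    rw [hk]
    field_simp
  exact ((Set.countable_range _).mono h).measure_zero volume

lemma sin6 {x : ℝ} (h : Real.sin (6 * x) ≠ 0) : Real.sin x ≠ 0 ∧ Real.sin (3 * x) ≠ 0 ∧
    Real.cos x ≠ Real.cos (3 * x) ∧ Real.cos x ≠ 0 ∧ Real.cos (3 * x) ≠ 0 := by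
  have e1 : Real.sin (6 * x) = 2 * Real.sin (3 * x) * Real.cos (3 * x) := by
    have : 6 * x = 2 * (3 * x) := by ring
    rw [this, Real.sin_two_mul]
  have a1 : Real.sin (3 * x) ≠ 0 := fun h1 => h (by rw [e1, h1]; ring)
  have a2 : Real.cos (3 * x) ≠ 0 := fun h1 => h (by rw [e1, h1]; ring)
  have a3 : Real.sin x ≠ 0 := fun h1 => a1 (sin3 h1)
  have a4 : Real.cos x ≠ 0 := fun h1 => a2 (by rw [Real.cos_three_mul, h1]; ring)
  refine ⟨a3, a1, fun h1 => ?_, a4, a2⟩
  rw [Real.cos_three_mul] at h1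
  have h2 := Real.sin_sq_add_cos_sq x
  have h3 : 4 * Real.cos x * Real.sin x ^ 2 = 0 := by
    have : Real.sin x ^ 2 = 1 - Real.cos x ^ 2 := by linarith
    rw [this]
    linear_combination h1
  exact mul_ne_zero (mul_ne_zero (by norm_num) a4) (pow_ne_zero 2 a3) h3

lemma Y_meas : Measurable Y := by
  unfold Y
  exact Complex.measurable_im.const_mul _

/-- a piece of an oblique line -/
def obl (m : ℝ) (k : ℤ) : Set ℂ :=
  {z | z ∈ cell ∧ Y z = m * z.re - 2 * Real.pi * k ∧ Real.sin (6 * z.re) ≠ 0}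

lemma obl_meas (m : ℝ) (k : ℤ) : MeasurableSet (obl m k) :=
  cell_open.measurableSet.inter ((measurableSet_eq_fun Y_meas
    ((Complex.measurable_re.const_mul m).sub measurable_const)).inter
    (measurableSet_eq_fun (Real.measurable_sin.comp (Complex.measurable_re.const_mul 6))
      measurable_const).compl)

/-- an oblique family -/
lemma obl_len {m : ℝ} (hm : ∀ x : ℝ, Real.cos (m * x) = 0 → Real.sin (6 * x) = 0) :
    ENNReal.ofReal (√(1 + m ^ 2 / 3) * (2 * Real.pi)) ≤ (μH[1] : Measure ℂ) (⋃ k : ℤ, obl m k) := by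
  have hp := Real.pi_pos
  have h3 := s3
  have h33 : √3 * √3 = (3 : ℝ) := Real.mul_self_sqrt (by norm_num)
  obtain ⟨d, hd⟩ : ∃ d : ℂ, d = ⟨1, m / √3⟩ := ⟨_, rfl⟩
  have d0 : d ≠ 0 := by
    intro h
    have : d.re = 0 := by rw [h]; rfl
    rw [hd] at this
    exact one_ne_zero this
  have nd : ‖d‖ = √(1 + m ^ 2 / 3) := by
    rw [Complex.norm_eq_sqrt_sq_add_sq, hd]
    congr 1
    show (1 : ℝ) ^ 2 + (m / √3) ^ 2 = _
    rw [one_pow, div_pow, Real.sq_sqrt (by norm_num : (0 : ℝ) ≤ 3)]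
  obtain ⟨T, hT⟩ : ∃ T : ℤ → Set ℝ, T = fun k : ℤ => {x | (-(Real.pi / 2) < x ∧ x < 3 * Real.pi / 2) ∧
    (-(Real.pi / 2) < m * x - 2 * Real.pi * k ∧ m * x - 2 * Real.pi * k < 3 * Real.pi / 2) ∧
    Real.sin (6 * x) ≠ 0} := ⟨_, rfl⟩
  have im : ∀ k : ℤ, (fun t : ℝ => (⟨0, -(2 * Real.pi * k) / √3⟩ : ℂ) + t * d) '' (T k) ⊆ obl m k := by
    rintro k _ ⟨x, hx, rfl⟩
    rw [hT] at hx
    obtain ⟨h1, h2, h4⟩ := hx
    have e1 : ((⟨0, -(2 * Real.pi * k) / √3⟩ : ℂ) + (x : ℂ) * d).re = x := by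
      rw [hd]; simp
    have e2 : ((⟨0, -(2 * Real.pi * k) / √3⟩ : ℂ) + (x : ℂ) * d).im = (m * x - 2 * Real.pi * k) / √3 := by
      rw [hd]
      simp
      ring
    have e3 : √3 * ((m * x - 2 * Real.pi * k) / √3) = m * x - 2 * Real.pi * k := by field_simp
    show _ ∈ obl m k
    refine ⟨⟨?_, ?_⟩, ?_, ?_⟩
    · simp only [e1]; exact h1
    · simp only [e2, e3]; exact h2
    · unfold Y; simp only [e1, e2, e3]
    · simp only [e1]; exact h4
  have dis : Pairwise (Function.onFun Disjoint (obl m)) := by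
    intro j k hjk
    rw [Function.onFun, Set.disjoint_left]
    rintro z ⟨-, h1, -⟩ ⟨-, h2, -⟩
    rw [h1] at h2
    have h4 : (j : ℝ) = k := by
      have : 2 * Real.pi * (j : ℝ) = 2 * Real.pi * k := by linarith
      exact mul_left_cancel₀ (by positivity) this
    exact hjk (by exact_mod_cast h4)
  rw [measure_iUnion dis fun k => obl_meas m k]
  have s1 : ∀ k : ℤ, ENNReal.ofReal ‖d‖ * volume (T k) ≤ (μH[1] : Measure ℂ) (obl m k) := fun k =>
    (img_len _ d0 (T k)).trans (measure_mono (im k))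
  refine le_trans ?_ (ENNReal.tsum_le_tsum s1)
  rw [ENNReal.tsum_mul_left, ENNReal.ofReal_mul (Real.sqrt_nonneg _), ← nd]
  refine mul_le_mul_right ?_ _
  refine le_trans ?_ (measure_iUnion_le T)
  have cov : Set.Ioo (-(Real.pi / 2)) (3 * Real.pi / 2) ⊆
      (⋃ k, T k) ∪ {t : ℝ | Real.sin (6 * t) = 0} := by
    intro x hx
    by_cases h6 : Real.sin (6 * x) = 0
    · exact Or.inr h6
    left
    obtain ⟨k, hk, -⟩ := existsUnique_sub_zsmul_mem_Ico (show (0 : ℝ) < 2 * Real.pi by positivity) (m * x)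
      (-(Real.pi / 2))
    rw [zsmul_eq_mul] at hk
    refine Set.mem_iUnion.2 ⟨k, ?_⟩
    rw [hT]
    refine ⟨hx, ⟨lt_of_le_of_ne ?_ ?_, ?_⟩, h6⟩
    · linarith [hk.1]
    · intro h7
      refine h6 (hm x ?_)
      have : m * x = -(Real.pi / 2) + k * (2 * Real.pi) := by linarith
      rw [this, Real.cos_add_int_mul_two_pi, Real.cos_neg, Real.cos_pi_div_two]
    · linarith [hk.2]
  have v1 : ENNReal.ofReal (2 * Real.pi) = volume (Set.Ioo (-(Real.pi / 2)) (3 * Real.pi / 2)) := by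
    rw [Real.volume_Ioo]
    congr 1
    ring
  rw [v1]
  refine (measure_mono cov).trans ((measure_union_le _ _).trans ?_)
  rw [sin_null (by norm_num), add_zero]

lemma cos_pm {m : ℝ} (hm : m = 1 ∨ m = -1) (x : ℝ) : Real.cos (m * x) = Real.cos x := by
  rcases hm with h | h <;> rw [h] <;> simp

lemma cos_pm3 {m : ℝ} (hm : m = 3 ∨ m = -3) (x : ℝ) : Real.cos (m * x) = Real.cos (3 * x) := by
  rcases hm with h | h
  · rw [h]
  · rw [h, neg_mul, Real.cos_neg]

lemma sin_pm {m : ℝ} (hm : m = 1 ∨ m = -1) (x : ℝ) : Real.sin (m * x) = m * Real.sin x := by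
  rcases hm with h | h <;> rw [h] <;> simp

lemma sin_pm3 {m : ℝ} (hm : m = 3 ∨ m = -3) (x : ℝ) : Real.sin (m * x) = m / 3 * Real.sin (3 * x) := by
  rcases hm with h | h
  · rw [h]; norm_num
  · rw [h, neg_mul, Real.sin_neg]; norm_num

lemma obl_Y {m : ℝ} {k : ℤ} {z : ℂ} (hz : z ∈ obl m k) :
    Real.cos (Y z) = Real.cos (m * z.re) ∧ Real.sin (Y z) = Real.sin (m * z.re) := by
  have e : m * z.re - 2 * Real.pi * k = m * z.re - k * (2 * Real.pi) := by ring
  rw [hz.2.1, e, Real.cos_sub_int_mul_two_pi, Real.sin_sub_int_mul_two_pi]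
  exact ⟨rfl, rfl⟩

lemma obl_W3 {m : ℝ} (hm : m = 1 ∨ m = -1) : (⋃ k : ℤ, obl m k) ⊆ W3 ∩ cell := by
  refine Set.iUnion_subset fun k z hz => ⟨?_, hz.1⟩
  obtain ⟨h1, h2⟩ := obl_Y hz
  obtain ⟨a1, a2, a3, -, -⟩ := sin6 hz.2.2
  have m0 : m ≠ 0 := by rcases hm with h | h <;> rw [h] <;> norm_num
  rw [cos_pm hm] at h1
  rw [sin_pm hm] at h2
  exact ⟨h1, a1, by rw [h2]; exact mul_ne_zero m0 a1, by rw [h1]; exact a3⟩

lemma obl_W4 {m : ℝ} (hm : m = 3 ∨ m = -3) : (⋃ k : ℤ, obl m k) ⊆ W4 ∩ cell := by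
  refine Set.iUnion_subset fun k z hz => ⟨?_, hz.1⟩
  obtain ⟨h1, h2⟩ := obl_Y hz
  obtain ⟨a1, a2, a3, -, -⟩ := sin6 hz.2.2
  have m0 : m / 3 ≠ 0 := by rcases hm with h | h <;> rw [h] <;> norm_num
  rw [cos_pm3 hm] at h1
  rw [sin_pm3 hm] at h2
  exact ⟨h1, a1, by rw [h2]; exact mul_ne_zero m0 a2, by rw [h1]; exact a3.symm⟩

lemma two {A B S : Set ℂ} {a b : ℝ} (ha0 : 0 ≤ a) (hb0 : 0 ≤ b) (mB : MeasurableSet B) (hd : Disjoint A B)
    (hA : A ⊆ S) (hB : B ⊆ S)
    (ha : ENNReal.ofReal a ≤ (μH[1] : Measure ℂ) A) (hb : ENNReal.ofReal b ≤ (μH[1] : Measure ℂ) B) :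
    ENNReal.ofReal (a + b) ≤ (μH[1] : Measure ℂ) S := by
  rw [ENNReal.ofReal_add ha0 hb0]
  refine (add_le_add ha hb).trans ?_
  rw [← measure_union hd mB]
  exact measure_mono (Set.union_subset hA hB)

lemma ob_meas (m : ℝ) : MeasurableSet (⋃ k : ℤ, obl m k) := MeasurableSet.iUnion fun k => obl_meas m k

lemma W3_len : ENNReal.ofReal (√(1 + 1 / 3) * (4 * Real.pi)) ≤ (μH[1] : Measure ℂ) (W3 ∩ cell) := by
  have hp := Real.pi_pos
  have h1 := obl_len (m := 1) fun x hx => by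
    by_contra h
    exact (sin6 h).2.2.2.1 (by rwa [cos_pm (Or.inl rfl)] at hx)
  have h2 := obl_len (m := -1) fun x hx => by
    by_contra h
    exact (sin6 h).2.2.2.1 (by rwa [cos_pm (Or.inr rfl)] at hx)
  have h := two (by positivity) (by positivity) (ob_meas (-1)) ?_ (obl_W3 (Or.inl rfl)) (obl_W3 (Or.inr rfl)) h1 h2
  · refine le_trans (ENNReal.ofReal_le_ofReal (le_of_eq ?_)) h
    norm_num
    ring
  · rw [Set.disjoint_left]
    intro z hz hz'
    obtain ⟨j, hj⟩ := Set.mem_iUnion.1 hz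
    obtain ⟨k, hk⟩ := Set.mem_iUnion.1 hz'
    have e1 := (obl_Y hj).2
    have e2 := (obl_Y hk).2
    rw [sin_pm (Or.inl rfl)] at e1
    rw [sin_pm (Or.inr rfl)] at e2
    exact (sin6 hj.2.2).1 (by linarith)

lemma W4_len : ENNReal.ofReal (8 * Real.pi) ≤ (μH[1] : Measure ℂ) (W4 ∩ cell) := by
  have hp := Real.pi_pos
  have h1 := obl_len (m := 3) fun x hx => by
    by_contra h
    exact (sin6 h).2.2.2.2 hx
  have h2 := obl_len (m := -3) fun x hx => by
    by_contra h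
    exact (sin6 h).2.2.2.2 (by rwa [cos_pm3 (Or.inr rfl)] at hx)
  have h := two (by positivity) (by positivity) (ob_meas (-3)) ?_ (obl_W4 (Or.inl rfl)) (obl_W4 (Or.inr rfl)) h1 h2
  · refine le_trans (ENNReal.ofReal_le_ofReal (le_of_eq ?_)) h
    have e : √(1 + 3 ^ 2 / 3) = (2 : ℝ) := by
      rw [show (1 + 3 ^ 2 / 3 : ℝ) = 2 ^ 2 by norm_num, Real.sqrt_sq (by norm_num)]
    have e' : √(1 + (-3) ^ 2 / 3) = (2 : ℝ) := by
      rw [show (1 + (-3) ^ 2 / 3 : ℝ) = 2 ^ 2 by norm_num, Real.sqrt_sq (by norm_num)]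
    rw [e, e']
    ring
  · rw [Set.disjoint_left]
    intro z hz hz'
    obtain ⟨j, hj⟩ := Set.mem_iUnion.1 hz
    obtain ⟨k, hk⟩ := Set.mem_iUnion.1 hz'
    have e1 := (obl_Y hj).2
    have e2 := (obl_Y hk).2
    rw [sin_pm3 (Or.inl rfl)] at e1
    rw [sin_pm3 (Or.inr rfl)] at e2
    exact (sin6 hj.2.2).2.1 (by linarith)

/-- a vertical line -/
def vrt (k : ℝ) : Set ℂ := {z | z ∈ cell ∧ z.re = k * Real.pi ∧ Real.sin (Y z) ≠ 0}

/-- a horizontal line -/
def hrz (k : ℝ) : Set ℂ := {z | z ∈ cell ∧ Y z = k * Real.pi ∧ Real.sin (6 * z.re) ≠ 0}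

lemma vrt_meas (k : ℝ) : MeasurableSet (vrt k) :=
  cell_open.measurableSet.inter ((measurableSet_eq_fun Complex.measurable_re measurable_const).inter
    (measurableSet_eq_fun (Real.measurable_sin.comp Y_meas) measurable_const).compl)

lemma hrz_meas (k : ℝ) : MeasurableSet (hrz k) :=
  cell_open.measurableSet.inter ((measurableSet_eq_fun Y_meas measurable_const).inter
    (measurableSet_eq_fun (Real.measurable_sin.comp (Complex.measurable_re.const_mul 6))
      measurable_const).compl)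

lemma vrt_len {k : ℝ} (h1 : -(1 / 2) < k) (h2 : k < 3 / 2) :
    ENNReal.ofReal (2 * Real.pi / √3) ≤ (μH[1] : Measure ℂ) (vrt k) := by
  have hp := Real.pi_pos
  have h3 := s3
  obtain ⟨T, hT⟩ : ∃ T : Set ℝ, T = {t | (-(Real.pi / 2) < √3 * t ∧ √3 * t < 3 * Real.pi / 2) ∧
    Real.sin (√3 * t) ≠ 0} := ⟨_, rfl⟩
  have im : (fun t : ℝ => ((k * Real.pi : ℝ) : ℂ) + t * Complex.I) '' T ⊆ vrt k := by
    rintro _ ⟨t, ht, rfl⟩
    rw [hT] at ht
    have e1 : (((k * Real.pi : ℝ) : ℂ) + (t : ℂ) * Complex.I).re = k * Real.pi := by simp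
    have e2 : (((k * Real.pi : ℝ) : ℂ) + (t : ℂ) * Complex.I).im = t := by simp
    refine ⟨⟨?_, ?_⟩, ?_, ?_⟩
    · simp only [e1]
      exact ⟨by nlinarith, by nlinarith⟩
    · simp only [e2]; exact ht.1
    · exact e1
    · unfold Y; simp only [e2]; exact ht.2
  refine le_trans ?_ ((img_len _ Complex.I_ne_zero T).trans (measure_mono im))
  rw [Complex.norm_I, ENNReal.ofReal_one, one_mul]
  have v1 : ENNReal.ofReal (2 * Real.pi / √3) = volume (Set.Ioo (-(Real.pi / 2) / √3) (3 * Real.pi / 2 / √3)) := by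
    rw [Real.volume_Ioo]
    congr 1
    ring
  rw [v1]
  have cov : Set.Ioo (-(Real.pi / 2) / √3) (3 * Real.pi / 2 / √3) ⊆ T ∪ {t : ℝ | Real.sin (√3 * t) = 0} := by
    intro t ht
    by_cases h6 : Real.sin (√3 * t) = 0
    · exact Or.inr h6
    · left
      rw [hT]
      refine ⟨⟨?_, ?_⟩, h6⟩
      · have := (div_lt_iff₀ h3).1 ht.1
        linarith
      · have := (lt_div_iff₀ h3).1 ht.2
        linarith
  refine (measure_mono cov).trans ((measure_union_le _ _).trans ?_)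
  rw [sin_null h3.ne', add_zero]

lemma hrz_len {k : ℝ} (h1 : -(1 / 2) < k) (h2 : k < 3 / 2) :
    ENNReal.ofReal (2 * Real.pi) ≤ (μH[1] : Measure ℂ) (hrz k) := by
  have hp := Real.pi_pos
  have h3 := s3
  obtain ⟨T, hT⟩ : ∃ T : Set ℝ, T = {x | (-(Real.pi / 2) < x ∧ x < 3 * Real.pi / 2) ∧
    Real.sin (6 * x) ≠ 0} := ⟨_, rfl⟩
  have im : (fun t : ℝ => (⟨0, k * Real.pi / √3⟩ : ℂ) + t * 1) '' T ⊆ hrz k := by
    rintro _ ⟨t, ht, rfl⟩
    rw [hT] at ht
    have e1 : ((⟨0, k * Real.pi / √3⟩ : ℂ) + (t : ℂ) * 1).re = t := by simp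
    have e2 : ((⟨0, k * Real.pi / √3⟩ : ℂ) + (t : ℂ) * 1).im = k * Real.pi / √3 := by simp
    have e3 : √3 * (k * Real.pi / √3) = k * Real.pi := by field_simp
    refine ⟨⟨?_, ?_⟩, ?_, ?_⟩
    · simp only [e1]; exact ht.1
    · simp only [e2, e3]
      exact ⟨by nlinarith, by nlinarith⟩
    · unfold Y; simp only [e2, e3]
    · simp only [e1]; exact ht.2
  refine le_trans ?_ ((img_len _ one_ne_zero T).trans (measure_mono im))
  rw [norm_one, ENNReal.ofReal_one, one_mul]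
  have v1 : ENNReal.ofReal (2 * Real.pi) = volume (Set.Ioo (-(Real.pi / 2)) (3 * Real.pi / 2)) := by
    rw [Real.volume_Ioo]
    congr 1
    ring
  rw [v1]
  have cov : Set.Ioo (-(Real.pi / 2)) (3 * Real.pi / 2) ⊆ T ∪ {t : ℝ | Real.sin (6 * t) = 0} := by
    intro t ht
    by_cases h6 : Real.sin (6 * t) = 0
    · exact Or.inr h6
    · left
      rw [hT]
      exact ⟨ht, h6⟩
  refine (measure_mono cov).trans ((measure_union_le _ _).trans ?_)
  rw [sin_null (by norm_num), add_zero]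

lemma vrt_W1 {k : ℝ} (hk : Real.sin (k * Real.pi) = 0) : vrt k ⊆ W1 ∩ cell :=
  fun z hz => ⟨⟨by rw [hz.2.1]; exact hk, hz.2.2⟩, hz.1⟩

lemma hrz_W2 {k : ℝ} (hk : Real.sin (k * Real.pi) = 0) : hrz k ⊆ W2 ∩ cell :=
  fun z hz => ⟨⟨by rw [hz.2.1]; exact hk, (sin6 hz.2.2).1, (sin6 hz.2.2).2.1⟩, hz.1⟩

lemma W1_len : ENNReal.ofReal (4 * Real.pi / √3) ≤ (μH[1] : Measure ℂ) (W1 ∩ cell) := by
  have hp := Real.pi_pos
  have h := two (by positivity) (by positivity) (vrt_meas 1) ?_ (vrt_W1 (k := 0) (by simp))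
    (vrt_W1 (k := 1) (by simp)) (vrt_len (by norm_num) (by norm_num)) (vrt_len (by norm_num) (by norm_num))
  · refine le_trans (ENNReal.ofReal_le_ofReal (le_of_eq ?_)) h
    ring
  · rw [Set.disjoint_left]
    intro z hz hz'
    have h1 := hz.2.1
    have h2 := hz'.2.1
    rw [h1] at h2
    linarith

lemma W2_len : ENNReal.ofReal (4 * Real.pi) ≤ (μH[1] : Measure ℂ) (W2 ∩ cell) := by
  have hp := Real.pi_pos
  have h := two (by positivity) (by positivity) (hrz_meas 1) ?_ (hrz_W2 (k := 0) (by simp))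
    (hrz_W2 (k := 1) (by simp)) (hrz_len (by norm_num) (by norm_num)) (hrz_len (by norm_num) (by norm_num))
  · refine le_trans (ENNReal.ofReal_le_ofReal (le_of_eq ?_)) h
    ring
  · rw [Set.disjoint_left]
    intro z hz hz'
    have h1 := hz.2.1
    have h2 := hz'.2.1
    rw [h1] at h2
    linarith

lemma sx_meas (p : ℝ) : Measurable fun z : ℂ => Real.sin (p * z.re) :=
  Real.measurable_sin.comp (Complex.measurable_re.const_mul p)

lemma W2_meas : MeasurableSet W2 := by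
  have h1 := sx_meas 3
  have h2 : Measurable fun z : ℂ => Real.sin z.re := Real.measurable_sin.comp Complex.measurable_re
  have h3 : Measurable fun z : ℂ => Real.sin (Y z) := Real.measurable_sin.comp Y_meas
  exact (measurableSet_eq_fun h3 measurable_const).inter
    ((measurableSet_eq_fun h2 measurable_const).compl.inter (measurableSet_eq_fun h1 measurable_const).compl)

lemma W3_meas : MeasurableSet W3 := by
  have h2 : Measurable fun z : ℂ => Real.sin z.re := Real.measurable_sin.comp Complex.measurable_re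
  have h3 : Measurable fun z : ℂ => Real.sin (Y z) := Real.measurable_sin.comp Y_meas
  have h4 : Measurable fun z : ℂ => Real.cos (Y z) := Real.measurable_cos.comp Y_meas
  have h5 : Measurable fun z : ℂ => Real.cos z.re := Real.measurable_cos.comp Complex.measurable_re
  have h6 : Measurable fun z : ℂ => Real.cos (3 * z.re) :=
    Real.measurable_cos.comp (Complex.measurable_re.const_mul 3)
  exact (measurableSet_eq_fun h4 h5).inter ((measurableSet_eq_fun h2 measurable_const).compl.inter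
    ((measurableSet_eq_fun h3 measurable_const).compl.inter (measurableSet_eq_fun h4 h6).compl))

lemma W4_meas : MeasurableSet W4 := by
  have h2 : Measurable fun z : ℂ => Real.sin z.re := Real.measurable_sin.comp Complex.measurable_re
  have h3 : Measurable fun z : ℂ => Real.sin (Y z) := Real.measurable_sin.comp Y_meas
  have h4 : Measurable fun z : ℂ => Real.cos (Y z) := Real.measurable_cos.comp Y_meas
  have h5 : Measurable fun z : ℂ => Real.cos z.re := Real.measurable_cos.comp Complex.measurable_re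
  have h6 : Measurable fun z : ℂ => Real.cos (3 * z.re) :=
    Real.measurable_cos.comp (Complex.measurable_re.const_mul 3)
  exact (measurableSet_eq_fun h4 h6).inter ((measurableSet_eq_fun h2 measurable_const).compl.inter
    ((measurableSet_eq_fun h3 measurable_const).compl.inter (measurableSet_eq_fun h4 h5).compl))

/-- the length of the nodal lines in the cell -/
theorem nodal_len : ENNReal.ofReal (12 * Real.pi * (1 + 1 / √3)) ≤ (μH[1] : Measure ℂ) (rl (wv 1) cell 0) := by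
  have hp := Real.pi_pos
  have h3 := s3
  have sub : ∀ W : Set ℂ, W ⊆ rz → W ∩ cell ⊆ rl (wv 1) cell 0 := fun W hW z hz =>
    ⟨hz.2, (hW hz.1).1, (hW hz.1).2⟩
  have mc := cell_open.measurableSet
  have a12 := two (S := (W1 ∩ cell) ∪ (W2 ∩ cell)) (by positivity) (by positivity) (W2_meas.inter mc) ?_
    Set.subset_union_left Set.subset_union_right W1_len W2_len
  have a34 := two (S := (W3 ∩ cell) ∪ (W4 ∩ cell)) (by positivity) (by positivity) (W4_meas.inter mc) ?_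
    Set.subset_union_left Set.subset_union_right W3_len W4_len
  have a := two (S := rl (wv 1) cell 0) (by positivity) (by positivity)
    ((W3_meas.inter mc).union (W4_meas.inter mc)) ?_
    (Set.union_subset (sub _ W1_sub) (sub _ W2_sub)) (Set.union_subset (sub _ W3_sub) (sub _ W4_sub)) a12 a34
  · refine le_trans (ENNReal.ofReal_le_ofReal (le_of_eq ?_)) a
    have e : √(1 + 1 / 3 : ℝ) = 2 / √3 := by
      rw [eq_div_iff h3.ne', ← Real.sqrt_mul (by norm_num), show ((1 + 1 / 3) * 3 : ℝ) = 2 ^ 2 by norm_num,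
        Real.sqrt_sq (by norm_num)]
    rw [e]
    field_simp
    ring
  · rw [Set.disjoint_left]
    rintro z (⟨h1, -⟩ | ⟨h1, -⟩) (⟨h2, -⟩ | ⟨h2, -⟩)
    · exact h2.2.1 h1.1
    · exact h2.2.1 h1.1
    · exact h2.2.2.1 h1.1
    · exact h2.2.2.1 h1.1
  · rw [Set.disjoint_left]
    rintro z ⟨h1, -⟩ ⟨h2, -⟩
    exact h2.2.2.2 h1.1
  · rw [Set.disjoint_left]
    rintro z ⟨h1, -⟩ ⟨h2, -⟩
    exact h1.2 h2.1

end

end Pool.Agent.Q218.UB.G2
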