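import Pool.Agent.Q218.UB.Gc

/-!
# Level sets of eigenfunctions (project UB): the lower bound for the constant
-/

set_option autoImplicit false
open MeasureTheory Filter Topology
open scoped ContDiff ENNReal

namespace Pool.Agent.Q218.UB.G2

noncomputable section

open Pool.Agent.Q218.UB.Seq

lemma wv_per_x (z : ℂ) : wv 1 (z + (2 * Real.pi : ℝ)) = wv 1 z := by
  rw [prod, prod]
  have e1 : (z + (2 * Real.pi : ℝ)).re = z.re + 2 * Real.pi := by simp
  have e2 : Y (z + (2 * Real.pi : ℝ)) = Y z := by unfold Y; simp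
  have e3 : 3 * (z.re + 2 * Real.pi) = 3 * z.re + (3 : ℤ) * (2 * Real.pi) := by push_cast; ring
  rw [e1, e2, e3, Real.sin_add_two_pi, Real.cos_add_two_pi, Real.cos_add_int_mul_two_pi]

lemma wv_per_y (z : ℂ) : wv 1 (z + (⟨0, 2 * Real.pi / √3⟩ : ℂ)) = wv 1 z := by
  have h3 := s3
  rw [prod, prod]
  have e1 : (z + (⟨0, 2 * Real.pi / √3⟩ : ℂ)).re = z.re := by simp
  have e2 : Y (z + (⟨0, 2 * Real.pi / √3⟩ : ℂ)) = Y z + 2 * Real.pi := by
    unfold Y
    simp only [Complex.add_im]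
    field_simp
  rw [e1, e2, Real.sin_add_two_pi, Real.cos_add_two_pi]

lemma gd_per {w : ℂ} (h : ∀ z, wv 1 (z + w) = wv 1 z) (z : ℂ) : gd (wv 1) (z + w) = gd (wv 1) z := by
  have e : (fun z => wv 1 (z + w)) = wv 1 := funext h
  have h1 : fderiv ℝ (wv 1) (z + w) = fderiv ℝ (wv 1) z := by
    rw [← fderiv_comp_add_right w, e]
  unfold gd dv
  rw [h1]

lemma gd_scale (n : ℝ) (hn : 0 ≤ n) (z : ℂ) : gd (wv n) z = n * gd (wv 1) (n * z) := by
  have e : wv n = fun z => wv 1 ((n : ℂ) * z) := funext fun z => wv_scale n z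
  have hd : HasFDerivAt (fun z : ℂ => (n : ℂ) * z) ((n : ℝ) • ContinuousLinearMap.id ℝ ℂ) z := by
    have h1 := (hasFDerivAt_id (𝕜 := ℝ) z).const_smul n
    refine h1.congr_of_eventuallyEq (Eventually.of_forall fun w => ?_)
    show (n : ℂ) * w = n • w
    rw [Complex.real_smul]
  have h2 : ∀ v, dv v (wv n) z = n * dv v (wv 1) (n * z) := fun v => by
    have h3 := (df (wv_sm 1) ((n : ℂ) * z)).hasFDerivAt.comp z hd
    unfold dv
    rw [e]
    have h4 : fderiv ℝ (fun z => wv 1 ((n : ℂ) * z)) z = _ := h3.fderiv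
    rw [h4]
    simp
  unfold gd
  rw [h2, h2, show (n * dv 1 (wv 1) (n * z)) ^ 2 + (n * dv Complex.I (wv 1) (n * z)) ^ 2 =
    n ^ 2 * (dv 1 (wv 1) (n * z) ^ 2 + dv Complex.I (wv 1) (n * z) ^ 2) by ring,
    Real.sqrt_mul (sq_nonneg n), Real.sqrt_sq hn]

/-- **the lower bound for the constant** -/
theorem sharp {c : ℝ} (hc0 : 0 ≤ c) (hc : c < 3 * (1 + √3) / (Real.pi * √28)) :
    ∃ b : ℝ, 0 < b ∧ ∀ n : ℕ, n ≠ 0 → ENNReal.ofReal (2 * b * c) * volume cell ≤
      (∫⁻ z in cell ∩ {z | -b ≤ wv n z ∧ wv n z ≤ b}, ENNReal.ofReal (gd (wv n) z)) /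
        ENNReal.ofReal √(28 * (n : ℝ) ^ 2) := by
  have hp := Real.pi_pos
  have h3 := s3
  have h33 : √3 * √3 = (3 : ℝ) := Real.mul_self_sqrt (by norm_num)
  have h28 : 0 < √(28 : ℝ) := Real.sqrt_pos.2 (by norm_num)
  obtain ⟨c', hc'⟩ : ∃ c', c' = c * √28 * (4 * Real.pi ^ 2 / √3) := ⟨_, rfl⟩
  have c0 : c' < 12 * Real.pi * (1 + 1 / √3) := by
    rw [lt_div_iff₀ (by positivity)] at hc
    have e : 12 * Real.pi * (1 + 1 / √3) = (3 * (1 + √3)) * (4 * Real.pi / √3) := by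
      field_simp
      ring
    have e2 : c' = c * (Real.pi * √28) * (4 * Real.pi / √3) := by rw [hc']; ring
    rw [e, e2]
    exact mul_lt_mul_of_pos_right hc (by positivity)
  have c'0 : 0 ≤ c' := by rw [hc']; positivity
  have h1 : ENNReal.ofReal c' < liminf (fun ε => lv (wv 1) (fun z => ENNReal.ofReal (gd (wv 1) z)) cell ε 0)
      (𝓝[>] (0 : ℝ)) := by
    refine lt_of_lt_of_le ?_ (nodal_len.trans (rl_open cell_open (wv_sm 1).contDiffOn 0))
    exact (ENNReal.ofReal_lt_ofReal_iff (by positivity)).2 c0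
  obtain ⟨b, hb1, hb0⟩ := ((eventually_lt_of_lt_liminf h1).and self_mem_nhdsWithin).exists
  have hb0 : 0 < b := hb0
  refine ⟨b, hb0, fun n hn => ?_⟩
  have n0 : (0 : ℝ) < n := by exact_mod_cast Nat.pos_of_ne_zero hn
  -- the periodic function
  obtain ⟨F, hF⟩ : ∃ F : ℝ × ℝ → ℝ≥0∞, F = fun p => Set.indicator {z | |wv 1 z - 0| ≤ b}
    (fun z => ENNReal.ofReal (gd (wv 1) z)) (⟨p.1, p.2⟩ : ℂ) := ⟨_, rfl⟩
  have mc : Measurable fun p : ℝ × ℝ => (⟨p.1, p.2⟩ : ℂ) := Complex.measurableEquivRealProd.symm.measurable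
  have mg : Measurable fun z => ENNReal.ofReal (gd (wv 1) z) := (gd_cont (wv_sm 1)).measurable.ennreal_ofReal
  have mw : Measurable (wv 1) := (wv_sm 1).continuous.measurable
  have mF : Measurable F := by
    rw [hF]
    exact (mg.indicator (measurableSet_le (mw.sub measurable_const).abs measurable_const)).comp mc
  have F1 : ∀ x y, F (x + 2 * Real.pi, y) = F (x, y) := fun x y => by
    rw [hF]
    have e : (⟨x + 2 * Real.pi, y⟩ : ℂ) = (⟨x, y⟩ : ℂ) + (2 * Real.pi : ℝ) := by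
      apply Complex.ext <;> simp
    show Set.indicator _ _ (⟨x + 2 * Real.pi, y⟩ : ℂ) = Set.indicator _ _ (⟨x, y⟩ : ℂ)
    rw [e]
    simp only [Set.indicator_apply, Set.mem_ofPred_eq, wv_per_x, gd_per wv_per_x]
  have F2 : ∀ x y, F (x, y + 2 * Real.pi / √3) = F (x, y) := fun x y => by
    rw [hF]
    have e : (⟨x, y + 2 * Real.pi / √3⟩ : ℂ) = (⟨x, y⟩ : ℂ) + (⟨0, 2 * Real.pi / √3⟩ : ℂ) := by
      apply Complex.ext <;> simp
    show Set.indicator _ _ (⟨x, y + 2 * Real.pi / √3⟩ : ℂ) = Set.indicator _ _ (⟨x, y⟩ : ℂ)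
    rw [e]
    simp only [Set.indicator_apply, Set.mem_ofPred_eq, wv_per_y, gd_per wv_per_y]
  have key := per2 mF F1 F2 hn
  have ms : MeasurableSet {z | -b ≤ wv n z ∧ wv n z ≤ b} :=
    (measurableSet_le measurable_const (wv_sm n).continuous.measurable).inter
      (measurableSet_le (wv_sm n).continuous.measurable measurable_const)
  have e1 : ∫⁻ z in cell ∩ {z | -b ≤ wv n z ∧ wv n z ≤ b}, ENNReal.ofReal (gd (wv n) z) =
      ENNReal.ofReal n * ∫⁻ z in cell, F (n * z.re, n * z.im) := by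
    rw [Set.inter_comm, ← Measure.restrict_restrict ms, ← lintegral_indicator ms,
      ← lintegral_const_mul' _ _ ENNReal.ofReal_ne_top]
    refine lintegral_congr fun z => ?_
    have ez : (⟨(n : ℝ) * z.re, (n : ℝ) * z.im⟩ : ℂ) = ((n : ℝ) : ℂ) * z := by
      apply Complex.ext <;> simp
    have es : wv (n : ℝ) z = wv 1 (((n : ℝ) : ℂ) * z) := wv_scale n z
    rw [hF]
    show _ = ENNReal.ofReal n * Set.indicator {z | |wv 1 z - 0| ≤ b}
      (fun z => ENNReal.ofReal (gd (wv 1) z)) (⟨(n : ℝ) * z.re, (n : ℝ) * z.im⟩ : ℂ)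
    rw [ez]
    by_cases hz : |wv 1 (((n : ℝ) : ℂ) * z) - 0| ≤ b
    · have hz2 : -b ≤ wv n z ∧ wv n z ≤ b := by
        rw [es]; rw [sub_zero] at hz; exact abs_le.1 hz
      rw [Set.indicator_of_mem (show z ∈ {z | -b ≤ wv n z ∧ wv n z ≤ b} from hz2),
        Set.indicator_of_mem (show ((n : ℝ) : ℂ) * z ∈ {z | |wv 1 z - 0| ≤ b} from hz),
        gd_scale n n0.le, ENNReal.ofReal_mul n0.le]
    · have hz2 : ¬ (-b ≤ wv n z ∧ wv n z ≤ b) := by
        rw [es]; rw [sub_zero] at hz; exact fun h => hz (abs_le.2 h)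
      rw [Set.indicator_of_notMem (show z ∉ {z | -b ≤ wv n z ∧ wv n z ≤ b} from hz2),
        Set.indicator_of_notMem (show ((n : ℝ) : ℂ) * z ∉ {z | |wv 1 z - 0| ≤ b} from hz), mul_zero]
  have e2 : ENNReal.ofReal c' * ENNReal.ofReal (2 * b) ≤ ∫⁻ z in cell, F (z.re, z.im) := by
    have h5 := hb1.le
    unfold lv at h5
    rw [ENNReal.le_div_iff_mul_le (Or.inl (ENNReal.ofReal_pos.2 (by positivity)).ne')
      (Or.inl ENNReal.ofReal_ne_top)] at h5
    rw [hF]
    exact h5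
  have sq : √(28 * (n : ℝ) ^ 2) = √28 * n := by
    rw [Real.sqrt_mul (by norm_num), Real.sqrt_sq n0.le]
  rw [e1, key, sq, ENNReal.le_div_iff_mul_le (Or.inl (ENNReal.ofReal_pos.2 (by positivity)).ne')
      (Or.inl ENNReal.ofReal_ne_top), cell_vol]
  calc ENNReal.ofReal (2 * b * c) * ENNReal.ofReal (4 * Real.pi ^ 2 / √3) * ENNReal.ofReal (√28 * n)
      = ENNReal.ofReal n * (ENNReal.ofReal c' * ENNReal.ofReal (2 * b)) := by
        rw [← ENNReal.ofReal_mul (by positivity), ← ENNReal.ofReal_mul (by positivity),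
          ← ENNReal.ofReal_mul c'0, ← ENNReal.ofReal_mul n0.le, hc']
        congr 1
        ring
    _ ≤ _ := by gcongr

end

end Pool.Agent.Q218.UB.G2
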