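import Pool.Agent.Q218.UB.G

/-!
# Upper bounds for level sets of stationary waves (project UB): Borel sets and the plane
-/

set_option autoImplicit false
open MeasureTheory Filter Topology
open scoped ContDiff ENNReal

namespace Pool.Agent.Q218.UB

open Pool.Agent.Y139.SW Pool.Agent.Q73.SM

noncomputable section

/-- a measure on the line which is at most `length / c` on closed intervals -/
lemma meas_le {ν : Measure ℝ} {c : ℝ} (hc : 0 < c)
    (h : ∀ a b, a ≤ b → ν (Set.Icc a b) ≤ ENNReal.ofReal ((b - a) / c)) (A : Set ℝ) :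
    ν A ≤ volume A / ENNReal.ofReal c := by
  have key : ENNReal.ofReal c • ν ≤ (μH[1] : Measure ℝ) := by
    refine Measure.le_hausdorffMeasure 1 _ 1 one_pos fun s hs => ?_
    rw [ENNReal.rpow_one, Measure.smul_apply, smul_eq_mul]
    have hb : Bornology.IsBounded s := by
      rw [Metric.isBounded_iff_ediam_ne_top]
      exact (lt_of_le_of_lt hs ENNReal.one_lt_top).ne
    rcases s.eq_empty_or_nonempty with h0 | hne
    · rw [h0]; simp
    rw [Real.ediam_eq hb]
    have h1 : s ⊆ Set.Icc (sInf s) (sSup s) := subset_Icc_csInf_csSup hb.bddBelow hb.bddAbove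
    have h2 : sInf s ≤ sSup s := csInf_le_csSup hne hb.bddBelow hb.bddAbove
    calc ENNReal.ofReal c * ν s ≤ ENNReal.ofReal c * ENNReal.ofReal ((sSup s - sInf s) / c) := by
          gcongr
          exact (measure_mono h1).trans (h _ _ h2)
      _ = ENNReal.ofReal (sSup s - sInf s) := by
          rw [← ENNReal.ofReal_mul hc.le]
          congr 1
          field_simp
  rw [hausdorffMeasure_real] at key
  rw [ENNReal.le_div_iff_mul_le (Or.inl (ENNReal.ofReal_pos.2 hc).ne')
    (Or.inl ENNReal.ofReal_ne_top), mul_comm]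
  exact key A

variable {d : ℕ} {S : Type*} [MeasurableSpace S] {P : Measure S} {τ : E d → S → S}

/-- **the directional bound** -/
theorem dir_bound [IsProbabilityMeasure P] (hτ : ∀ x, MeasurePreserving (τ x) P P)
    {G : S → E d → ℝ} (W : Wave P τ G) {v : E d} (hv : ‖v‖ ≤ 1) {A : Set ℝ}
    (hA : MeasurableSet A) :
    ∫⁻ s in {s | G s 0 ∈ A}, ENNReal.ofReal |Dv v (G s) 0| ∂P ≤
      volume A / ENNReal.ofReal Real.pi := by
  have mD : Measurable fun s => ENNReal.ofReal |Dv v (G s) 0| :=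
    ((sf_dv W.sf v).meas 0).abs.ennreal_ofReal
  obtain ⟨ν, hν⟩ : ∃ ν : Measure ℝ, ν = (P.withDensity fun s =>
    ENNReal.ofReal |Dv v (G s) 0|).map (fun s => G s 0) := ⟨_, rfl⟩
  have e : ∀ B : Set ℝ, MeasurableSet B → ν B =
      ∫⁻ s in {s | G s 0 ∈ B}, ENNReal.ofReal |Dv v (G s) 0| ∂P := by
    intro B hB
    rw [hν, Measure.map_apply W.m0 hB, withDensity_apply _ (W.m0 hB)]
    rfl
  rw [← e A hA]
  refine meas_le Real.pi_pos (fun a b _ => ?_) A
  rw [e _ measurableSet_Icc]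
  exact dir_Icc hτ W hv a b

/-- the same for all directions -/
theorem dir_all [IsProbabilityMeasure P] (hτ : ∀ x, MeasurePreserving (τ x) P P)
    {G : S → E d → ℝ} (W : Wave P τ G) (v : E d) {A : Set ℝ} (hA : MeasurableSet A) :
    ∫⁻ s in {s | G s 0 ∈ A}, ENNReal.ofReal |Dv v (G s) 0| ∂P ≤
      ENNReal.ofReal ‖v‖ * (volume A / ENNReal.ofReal Real.pi) := by
  rcases eq_or_ne v 0 with h0 | h0
  · subst h0
    have : ∀ s, Dv (0 : E d) (G s) 0 = 0 := fun s => by simp [Dv]
    simp [this]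
  · have hn : 0 < ‖v‖ := norm_pos_iff.2 h0
    have h1 := dir_bound hτ W (v := (‖v‖)⁻¹ • v) (by
      rw [norm_smul, norm_inv, norm_norm, inv_mul_cancel₀ hn.ne']) hA
    have e : ∀ s, ENNReal.ofReal |Dv v (G s) 0| =
        ENNReal.ofReal ‖v‖ * ENNReal.ofReal |Dv ((‖v‖)⁻¹ • v) (G s) 0| := by
      intro s
      rw [← ENNReal.ofReal_mul hn.le]
      congr 1
      have : Dv ((‖v‖)⁻¹ • v) (G s) 0 = (‖v‖)⁻¹ * Dv v (G s) 0 := by simp [Dv]
      rw [this, abs_mul, abs_inv, abs_norm]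
      field_simp
    simp only [e]
    have mD : Measurable fun s => ENNReal.ofReal |Dv ((‖v‖)⁻¹ • v) (G s) 0| :=
      ((sf_dv W.sf _).meas 0).abs.ennreal_ofReal
    rw [lintegral_const_mul _ mD]
    gcongr

section plane

lemma int_abs_cos : ∫ t in (0 : ℝ)..Real.pi, |Real.cos t| = 2 := by
  have hp : Function.Periodic (fun t => |Real.cos t|) Real.pi := fun t => by
    simp only [Real.cos_add_pi, abs_neg]
  have h1 := hp.intervalIntegral_add_eq 0 (-(Real.pi / 2))
  rw [zero_add] at h1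
  have e : -(Real.pi / 2) + Real.pi = Real.pi / 2 := by ring
  rw [h1, e]
  have h2 : ∫ t in (-(Real.pi / 2))..(Real.pi / 2), |Real.cos t| =
      ∫ t in (-(Real.pi / 2))..(Real.pi / 2), Real.cos t := by
    refine intervalIntegral.integral_congr fun t ht => ?_
    rw [Set.uIcc_of_le (by linarith [Real.pi_pos])] at ht
    exact abs_of_nonneg (Real.cos_nonneg_of_mem_Icc ht)
  rw [h2, integral_cos, Real.sin_neg, Real.sin_pi_div_two]
  norm_num

lemma int_abs_lin (a b : ℝ) :
    ∫ t in (0 : ℝ)..Real.pi, |Real.cos t * a + Real.sin t * b| = 2 * √(a ^ 2 + b ^ 2) := by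
  obtain ⟨z, hz⟩ : ∃ z : ℂ, z = ⟨a, b⟩ := ⟨_, rfl⟩
  have hr : ‖z‖ = √(a ^ 2 + b ^ 2) := by
    rw [hz, Complex.norm_def, Complex.normSq_mk]
    congr 1; ring
  have ha : a = ‖z‖ * Real.cos z.arg := by
    rw [Complex.norm_mul_cos_arg, hz]
  have hb : b = ‖z‖ * Real.sin z.arg := by
    rw [Complex.norm_mul_sin_arg, hz]
  have e : ∀ t, |Real.cos t * a + Real.sin t * b| = ‖z‖ * |Real.cos (t - z.arg)| := by
    intro t
    rw [Real.cos_sub]
    conv_lhs => rw [ha, hb]
    rw [← abs_norm z, ← abs_mul, abs_norm]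
    congr 1; ring
  simp only [e]
  rw [intervalIntegral.integral_const_mul,
    intervalIntegral.integral_comp_sub_right (fun t => |Real.cos t|)]
  have hp : Function.Periodic (fun t => |Real.cos t|) Real.pi := fun t => by
    simp only [Real.cos_add_pi, abs_neg]
  have h1 := hp.intervalIntegral_add_eq (0 - z.arg) 0
  have e2 : 0 - z.arg + Real.pi = Real.pi - z.arg := by ring
  rw [e2, zero_add, int_abs_cos] at h1
  rw [h1, hr]; ring

/-- the unit vectors of the plane -/
def vt (t : ℝ) : E 2 := !₂[Real.cos t, Real.sin t]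

lemma vt_norm (t : ℝ) : ‖vt t‖ = 1 := by
  unfold vt
  rw [EuclideanSpace.norm_eq, Fin.sum_univ_two]
  simp

lemma Dv_vt (f : E 2 → ℝ) (t : ℝ) (y : E 2) :
    Dv (vt t) f y = Real.cos t * D 0 f y + Real.sin t * D 1 f y := by
  rw [Dv_sum, Fin.sum_univ_two]
  simp [vt]

lemma lint_Dv (f : E 2 → ℝ) (y : E 2) :
    ∫⁻ t in Set.Ioc 0 Real.pi, ENNReal.ofReal |Dv (vt t) f y| =
      2 * ENNReal.ofReal √(g2 f y) := by
  simp only [Dv_vt]
  have hc : Continuous fun t => |Real.cos t * D 0 f y + Real.sin t * D 1 f y| := by fun_prop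
  rw [← ofReal_integral_eq_lintegral_ofReal (hc.intervalIntegrable 0 Real.pi).1
    (ae_of_all _ fun t => abs_nonneg _), ← intervalIntegral.integral_of_le Real.pi_pos.le,
    int_abs_lin, ENNReal.ofReal_mul (by norm_num), g2, Fin.sum_univ_two]
  simp

variable {S : Type*} [MeasurableSpace S] {P : Measure S} {τ : E 2 → S → S}

/-- **the bound for the gradient in the plane** -/
theorem grad_bound [IsProbabilityMeasure P] (hτ : ∀ x, MeasurePreserving (τ x) P P)
    {G : S → E 2 → ℝ} (W : Wave P τ G) {A : Set ℝ} (hA : MeasurableSet A) :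
    ∫⁻ s in {s | G s 0 ∈ A}, ENNReal.ofReal √(g2 (G s) 0) ∂P ≤ volume A / 2 := by
  have h1 : 2 * ∫⁻ s in {s | G s 0 ∈ A}, ENNReal.ofReal √(g2 (G s) 0) ∂P =
      ∫⁻ s in {s | G s 0 ∈ A}, (∫⁻ t in Set.Ioc 0 Real.pi,
        ENNReal.ofReal |Dv (vt t) (G s) 0|) ∂P := by
    rw [← lintegral_const_mul]
    · exact lintegral_congr fun s => (lint_Dv (G s) 0).symm
    · exact ((g2_sf W.sf).meas 0).sqrt.ennreal_ofReal
  have h2 : ∫⁻ s in {s | G s 0 ∈ A}, (∫⁻ t in Set.Ioc 0 Real.pi,
        ENNReal.ofReal |Dv (vt t) (G s) 0|) ∂P =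
      ∫⁻ t in Set.Ioc 0 Real.pi, ∫⁻ s in {s | G s 0 ∈ A},
        ENNReal.ofReal |Dv (vt t) (G s) 0| ∂P := by
    refine lintegral_lintegral_swap (f := fun s t => ENNReal.ofReal |Dv (vt t) (G s) 0|) ?_
    refine Measurable.aemeasurable ?_
    simp only [Dv_vt]
    have m0 : Measurable fun p : S × ℝ => D 0 (G p.1) 0 := ((W.sf.der 0).meas 0).comp measurable_fst
    have m1 : Measurable fun p : S × ℝ => D 1 (G p.1) 0 := ((W.sf.der 1).meas 0).comp measurable_fst
    exact ((((Real.measurable_cos.comp measurable_snd).mul m0).add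
      ((Real.measurable_sin.comp measurable_snd).mul m1)).abs).ennreal_ofReal
  have h3 : ∫⁻ t in Set.Ioc 0 Real.pi, ∫⁻ s in {s | G s 0 ∈ A},
        ENNReal.ofReal |Dv (vt t) (G s) 0| ∂P ≤ volume A := by
    calc _ ≤ ∫⁻ _t in Set.Ioc 0 Real.pi, volume A / ENNReal.ofReal Real.pi :=
          lintegral_mono fun t => dir_bound hτ W (vt_norm t).le hA
      _ = volume A := by
          rw [setLIntegral_const, Real.volume_Ioc, sub_zero]
          exact ENNReal.div_mul_cancel (ENNReal.ofReal_pos.2 Real.pi_pos).ne' ENNReal.ofReal_ne_top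
  rw [ENNReal.le_div_iff_mul_le (Or.inl (by norm_num)) (Or.inl (by norm_num)), mul_comm, h1, h2]
  exact h3

end plane

end

end Pool.Agent.Q218.UB
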