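import Pool.Agent.Q218.UB.H
import Pool.Agent.Q73.RF.D
import Pool.Agent.Q73.NL.TD1
import Pool.Agent.Q73.NL.TD2
import Pool.Agent.Q73.NL.TD3

/-!
# Upper bounds for level sets of stationary waves (project UB): nodal length, transfer, plane waves
-/

set_option autoImplicit false
open MeasureTheory Filter Topology
open scoped ContDiff ENNReal

namespace Pool.Agent.Q218.UB

open Pool.Agent.Y139.SW Pool.Agent.Q73.SM Pool.Agent.Q73.NL Pool.Agent.Q73.RF

noncomputable section

lemma d3 : D3 := td3 td1 td2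

variable {S : Type*} [MeasurableSpace S] {P : Measure S} {τ : E 2 → S → S}

lemma Ae_le [IsProbabilityMeasure P] (hτ : ∀ x, MeasurePreserving (τ x) P P)
    {G : S → E 2 → ℝ} (W : Wave P τ G) {ε : ℝ} (hε : 0 < ε) : Ae P G ε ≤ 1 / 2 := by
  unfold Ae
  have h1 := grad_bound hτ W (A := Set.Icc (-ε) ε) measurableSet_Icc
  have e : {s | G s 0 ∈ Set.Icc (-ε) ε} = {s | |G s 0| ≤ ε} := by
    ext s
    simp only [Set.mem_ofPred_eq, Set.mem_Icc, abs_le]
  rw [e, Real.volume_Icc] at h1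
  have e2 : ε - -ε = 2 * ε := by ring
  rw [e2] at h1
  refine (ENNReal.div_le_div_right h1 _).trans ?_
  rw [ENNReal.div_le_iff_le_mul (Or.inl (ENNReal.ofReal_pos.2 (by positivity)).ne')
    (Or.inl ENNReal.ofReal_ne_top), div_eq_mul_inv, div_eq_mul_inv, one_mul, mul_comm]

/-- the nodal length -/
theorem nodal [IsProbabilityMeasure P] (hτ : ∀ x, MeasurePreserving (τ x) P P)
    {G : S → E 2 → ℝ} (W : Wave P τ G) {V : Set (E 2)} (hV : IsOpen V) :
    ∃ L : S → ℝ≥0∞, Measurable L ∧ (∀ s, (∃ y, G s y ≠ 0) →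
      (μH[1] : Measure (E 2)) {y | y ∈ V ∧ G s y = 0} ≤ L s) ∧
      ∫⁻ s, L s ∂P ≤ volume V / 2 := by
  obtain ⟨V', hV'⟩ : ∃ V' : Set ℂ, V' = ee ⁻¹' V := ⟨_, rfl⟩
  have oV' : IsOpen V' := by rw [hV']; exact hV.preimage ee.continuous
  have ml : ∀ n : ℕ, Measurable fun s => lev (fun z => G s (ee z)) V' (1 / ((n : ℝ) + 1)) :=
    fun n => lev_meas W.sf _ _
  have ht : Tendsto (fun n : ℕ => (1 : ℝ) / ((n : ℝ) + 1)) atTop (𝓝[>] 0) := by
    rw [tendsto_nhdsWithin_iff]
    exact ⟨tendsto_one_div_add_atTop_nhds_zero_nat, Eventually.of_forall fun n => by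
      show (0 : ℝ) < 1 / ((n : ℝ) + 1)
      positivity⟩
  refine ⟨fun s => liminf (fun n : ℕ => lev (fun z => G s (ee z)) V' (1 / ((n : ℝ) + 1))) atTop,
    Measurable.liminf ml, fun s hs => ?_, ?_⟩
  · have hlap : ∀ z, lap (fun z => G s (ee z)) z + 1 * G s (ee z) = 0 := fun z => by
      rw [lap_ee (W.sf.smooth s), W.eq]; ring
    have h1 := d3 (fun z => G s (ee z)) 1 V' (smooth_ee (W.sf.smooth s)) hlap (by
      obtain ⟨y, hy⟩ := hs
      exact ⟨ee.symm y, by simpa using hy⟩) oV'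
    have h2 : liminf (fun ε => lev (fun z => G s (ee z)) V' ε) (𝓝[>] (0 : ℝ)) ≤
        liminf (fun n : ℕ => lev (fun z => G s (ee z)) V' (1 / ((n : ℝ) + 1))) atTop := by
      have : liminf (fun n : ℕ => lev (fun z => G s (ee z)) V' (1 / ((n : ℝ) + 1))) atTop =
          liminf (fun ε => lev (fun z => G s (ee z)) V' ε)
            (Filter.map (fun n : ℕ => (1 : ℝ) / ((n : ℝ) + 1)) atTop) := by
        rw [← liminf_comp]; rfl
      rw [this]
      exact liminf_le_liminf_of_le ht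
    have h3 : (μH[1] : Measure (E 2)) {y | y ∈ V ∧ G s y = 0} =
        (μH[1] : Measure ℂ) {z | z ∈ V' ∧ G s (ee z) = 0} := by
      rw [← ee.isometry.hausdorffMeasure_image (Or.inl zero_le_one)]
      congr 1
      ext y
      simp only [Set.mem_image, Set.mem_ofPred_eq, hV', Set.mem_preimage]
      constructor
      · rintro ⟨h1, h2⟩
        exact ⟨ee.symm y, ⟨by simpa using h1, by simpa using h2⟩, by simp⟩
      · rintro ⟨z, ⟨h1, h2⟩, rfl⟩
        exact ⟨h1, h2⟩
    rw [h3]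
    exact h1.trans h2
  · refine (lintegral_liminf_le ml).trans ?_
    simp only [mean_lev hτ W.sf]
    have hv : volume V' = volume V := by
      rw [hV']
      exact ee.measurePreserving.measure_preimage hV.measurableSet.nullMeasurableSet
    have h1 : ∀ n : ℕ, volume V' * Ae P G (1 / ((n : ℝ) + 1)) ≤ volume V / 2 := by
      intro n
      rw [hv]
      have e : volume V / 2 = volume V * (1 / 2) := by rw [div_eq_mul_inv, one_div]
      rw [e]
      have hn : (0 : ℝ) < 1 / ((n : ℝ) + 1) := by positivity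
      exact mul_le_mul_right (Ae_le hτ W hn) _
    calc liminf (fun n : ℕ => volume V' * Ae P G (1 / ((n : ℝ) + 1))) atTop ≤
        liminf (fun _ : ℕ => volume V / 2) atTop := liminf_le_liminf (Eventually.of_forall h1)
      _ = volume V / 2 := liminf_const _

/-- the sharp example: the plane wave with random phase -/
theorem pw_sharp (d : ℕ) {A : Set ℝ} (hA : MeasurableSet A) (h1 : A ⊆ Set.Icc (-1) 1)
    (hup : ∀ B : Set ℝ, MeasurableSet B → ∫⁻ s in {s | pwv d s 0 ∈ B},
      ENNReal.ofReal |D 0 (pwv d s) 0| ∂(AddCircle.haarAddCircle (T := 2 * Real.pi)) ≤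
        volume B / ENNReal.ofReal Real.pi) :
    ∫⁻ s in {s | pwv d s 0 ∈ A}, ENNReal.ofReal |D 0 (pwv d s) 0|
      ∂(AddCircle.haarAddCircle (T := 2 * Real.pi)) = volume A / ENNReal.ofReal Real.pi := by
  have hpi := Real.pi_pos
  have hpi' : ENNReal.ofReal Real.pi ≠ 0 := (ENNReal.ofReal_pos.2 hpi).ne'
  obtain ⟨μ, hμ⟩ : ∃ μ : Measure (AddCircle (2 * Real.pi)),
    μ = AddCircle.haarAddCircle (T := 2 * Real.pi) := ⟨_, rfl⟩
  rw [← hμ] at hup ⊢
  obtain ⟨g, hg⟩ : ∃ g : AddCircle (2 * Real.pi) → ℝ≥0∞,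
    g = fun s => ENNReal.ofReal |D 0 (pwv d s) 0| := ⟨_, rfl⟩
  have m0 : Measurable fun s => pwv d s 0 := pwv_meas d 0
  -- the total mass
  have hD : ∀ s, |D 0 (pwv d s) 0| = |asin' (s + ((Real.pi / 2 : ℝ) : AddCircle (2 * Real.pi)))| := by
    intro s
    induction s using QuotientAddGroup.induction_on with
    | H x =>
      have e1 := pwv_D d x 0 0
      simp only [if_true] at e1
      have e2 : asin' ((x : AddCircle (2 * Real.pi)) + ((Real.pi / 2 : ℝ) : AddCircle (2 * Real.pi))) =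
          Real.sin (x + Real.pi / 2) := by
        rw [← AddCircle.coe_add, asin_coe]
      rw [Real.sin_add_pi_div_two] at e2
      change |D 0 (pwv d (x : AddCircle (2 * Real.pi))) 0| = |asin' ((x : AddCircle (2 * Real.pi)) +
        ((Real.pi / 2 : ℝ) : AddCircle (2 * Real.pi)))|
      rw [e1, e2]
      simp
  have htot : ENNReal.ofReal (2 / Real.pi) = ∫⁻ s, g s ∂μ := by
    have h2 : ∫ s, |asin' s| ∂μ = 2 / Real.pi := by
      have h3 := pw_abs
      rw [← hμ] at h3
      rw [← h3]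
      refine integral_congr_ae (ae_of_all _ fun s => ?_)
      simp [pwv]
    have h4 : ∫ s, |asin' (s + ((Real.pi / 2 : ℝ) : AddCircle (2 * Real.pi)))| ∂μ = 2 / Real.pi := by
      rw [← h2, hμ]
      exact integral_add_right_eq_self (fun s => |asin' s|) _
    have hi : Integrable (fun s => |asin' (s + ((Real.pi / 2 : ℝ) : AddCircle (2 * Real.pi)))|) μ := by
      by_contra hcon
      rw [integral_undef hcon] at h4
      have : (0 : ℝ) < 2 / Real.pi := by positivity
      linarith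
    rw [hg]
    simp only [hD]
    rw [← ofReal_integral_eq_lintegral_ofReal hi (ae_of_all _ fun s => abs_nonneg _), h4]
  -- the complement
  have hle1 : ∀ s, pwv d s 0 ∈ Set.Icc (-1 : ℝ) 1 := by
    intro s
    induction s using QuotientAddGroup.induction_on with
    | H x =>
      rw [pwv_coe]
      exact ⟨Real.neg_one_le_sin _, Real.sin_le_one _⟩
  have hsplit : ∫⁻ s, g s ∂μ = (∫⁻ s in {s | pwv d s 0 ∈ A}, g s ∂μ) +
      ∫⁻ s in {s | pwv d s 0 ∈ Set.Icc (-1 : ℝ) 1 \ A}, g s ∂μ := by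
    have e1 : {s | pwv d s 0 ∈ Set.Icc (-1 : ℝ) 1 \ A} = {s | pwv d s 0 ∈ A}ᶜ := by
      ext s
      simp only [Set.mem_ofPred_eq, Set.mem_sdiff, Set.mem_compl_iff]
      exact ⟨fun h => h.2, fun h => ⟨hle1 s, h⟩⟩
    have mA : MeasurableSet {s | pwv d s 0 ∈ A} := m0 hA
    rw [e1, lintegral_add_compl _ mA]
  have hA2 := hup A hA
  have hB2 := hup (Set.Icc (-1 : ℝ) 1 \ A) (measurableSet_Icc.diff hA)
  have hv : volume (Set.Icc (-1 : ℝ) 1 \ A) = ENNReal.ofReal 2 - volume A := by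
    have hfin : volume A ≠ ⊤ := ((measure_mono h1).trans_lt (by
      rw [Real.volume_Icc]; exact ENNReal.ofReal_lt_top)).ne
    rw [measure_sdiff h1 hA.nullMeasurableSet hfin, Real.volume_Icc]
    norm_num
  have hA4 : volume A ≤ ENNReal.ofReal 2 := by
    have := measure_mono (μ := (volume : Measure ℝ)) h1
    rw [Real.volume_Icc] at this
    refine this.trans (le_of_eq ?_)
    norm_num
  refine le_antisymm hA2 ?_
  have e0 : ENNReal.ofReal (2 / Real.pi) = volume A / ENNReal.ofReal Real.pi +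
      (ENNReal.ofReal 2 - volume A) / ENNReal.ofReal Real.pi := by
    rw [← ENNReal.add_div, add_tsub_cancel_of_le hA4, ENNReal.ofReal_div_of_pos hpi]
  have hgd : g = fun s => ENNReal.ofReal |D 0 (pwv d s) 0| := hg
  have hA5 : volume A / ENNReal.ofReal Real.pi +
      (ENNReal.ofReal 2 - volume A) / ENNReal.ofReal Real.pi ≤
      (∫⁻ s in {s | pwv d s 0 ∈ A}, g s ∂μ) +
        (ENNReal.ofReal 2 - volume A) / ENNReal.ofReal Real.pi := by
    rw [← e0, htot, hsplit]
    refine add_le_add le_rfl ?_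
    rw [← hv, hgd]
    exact hB2
  have hfin : (ENNReal.ofReal 2 - volume A) / ENNReal.ofReal Real.pi ≠ ⊤ :=
    ENNReal.div_ne_top (ne_top_of_le_ne_top ENNReal.ofReal_ne_top tsub_le_self) hpi'
  have := (ENNReal.add_le_add_iff_right hfin).1 hA5
  rw [hgd] at this
  exact this

end

end Pool.Agent.Q218.UB
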