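import Pool.Agent.Q218.UB.H

/-!
# Upper bounds for level sets of stationary waves (project UB): crossings on lines
-/

set_option autoImplicit false
open MeasureTheory Filter Topology
open scoped ContDiff ENNReal

namespace Pool.Agent.Q218.UB

open Pool.Agent.Y139.SW Pool.Agent.Q73.SM

noncomputable section

/-- the part of the variation of `f` near the level `a` -/
def cr (f f' : ℝ → ℝ) (a ε : ℝ) (t : ℝ) : ℝ≥0∞ :=
  Set.indicator {x : ℝ | |x - a| ≤ ε} 1 (f t) * ENNReal.ofReal |f' t|

/-- an upward passage -/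
lemma passage {f f' : ℝ → ℝ} (hf : ∀ t, HasDerivAt f (f' t) t) (hc : Continuous f') {a ε s t : ℝ}
    (hε : 0 < ε) (hst : s ≤ t) (h1 : f s ≤ a - ε) (h2 : a + ε ≤ f t) :
    ENNReal.ofReal (2 * ε) ≤ ∫⁻ x in Set.Ioc s t, cr f f' a ε x := by
  have cf : Continuous f := continuous_iff_continuousAt.2 fun t => (hf t).continuousAt
  -- the last point before `t` with `f ≤ a - ε`
  obtain ⟨A, hA⟩ : ∃ A : Set ℝ, A = Set.Icc s t ∩ {x | f x ≤ a - ε} := ⟨_, rfl⟩
  have cA : IsCompact A := by
    rw [hA]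
    exact isCompact_Icc.inter_right (isClosed_le cf continuous_const)
  have nA : A.Nonempty := ⟨s, by rw [hA]; exact ⟨⟨le_rfl, hst⟩, h1⟩⟩
  obtain ⟨s', hs', hmax⟩ := cA.exists_isMaxOn nA continuousOn_id
  have hs'A : s' ∈ Set.Icc s t ∩ {x | f x ≤ a - ε} := hA ▸ hs'
  have up : ∀ x, s' < x → x ≤ t → a - ε < f x := by
    intro x hx hxt
    by_contra hcon
    rw [not_lt] at hcon
    have hxA : x ∈ A := by rw [hA]; exact ⟨⟨hs'A.1.1.trans hx.le, hxt⟩, hcon⟩
    have := hmax hxA
    simp only [id, Set.mem_ofPred_eq] at this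
    linarith
  -- the first point after `s'` with `f ≥ a + ε`
  obtain ⟨B, hB⟩ : ∃ B : Set ℝ, B = Set.Icc s' t ∩ {x | a + ε ≤ f x} := ⟨_, rfl⟩
  have cB : IsCompact B := by
    rw [hB]
    exact isCompact_Icc.inter_right (isClosed_le continuous_const cf)
  have nB : B.Nonempty := ⟨t, by rw [hB]; exact ⟨⟨hs'A.1.2, le_rfl⟩, h2⟩⟩
  obtain ⟨t', ht', hmin⟩ := cB.exists_isMinOn nB continuousOn_id
  have ht'B : t' ∈ Set.Icc s' t ∩ {x | a + ε ≤ f x} := hB ▸ ht'
  have dn : ∀ x, s' ≤ x → x < t' → f x < a + ε := by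
    intro x hx hxt
    by_contra hcon
    rw [not_lt] at hcon
    have hxB : x ∈ B := by rw [hB]; exact ⟨⟨hx, hxt.le.trans ht'B.1.2⟩, hcon⟩
    have := hmin hxB
    simp only [id, Set.mem_ofPred_eq] at this
    linarith
  have hs1 : f s' ≤ a - ε := hs'A.2
  have ht1 : a + ε ≤ f t' := ht'B.2
  have hst' : s' ≤ t' := ht'B.1.1
  calc ENNReal.ofReal (2 * ε) ≤ ENNReal.ofReal (f t' - f s') :=
        ENNReal.ofReal_le_ofReal (by linarith)
    _ = ENNReal.ofReal (∫ x in s'..t', f' x) := by
        rw [intervalIntegral.integral_eq_sub_of_hasDerivAt (fun x _ => hf x)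
          (hc.intervalIntegrable _ _)]
    _ ≤ ENNReal.ofReal (∫ x in s'..t', |f' x|) := by
        refine ENNReal.ofReal_le_ofReal ?_
        exact intervalIntegral.integral_mono_on hst' (hc.intervalIntegrable _ _)
          (hc.abs.intervalIntegrable _ _) fun x _ => le_abs_self _
    _ = ∫⁻ x in Set.Ioo s' t', ENNReal.ofReal |f' x| := by
        rw [intervalIntegral.integral_of_le hst', ofReal_integral_eq_lintegral_ofReal
          (hc.abs.intervalIntegrable _ _).1 (ae_of_all _ fun x => abs_nonneg _)]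
        exact setLIntegral_congr Ioo_ae_eq_Ioc.symm
    _ ≤ ∫⁻ x in Set.Ioo s' t', cr f f' a ε x := by
        refine setLIntegral_mono' measurableSet_Ioo fun x hx => ?_
        unfold cr
        have : f x ∈ {x : ℝ | |x - a| ≤ ε} := by
          have k1 := up x hx.1 (hx.2.le.trans ht'B.1.2)
          have k2 := dn x hx.1.le hx.2
          show |f x - a| ≤ ε
          rw [abs_le]
          constructor <;> linarith
        rw [Set.indicator_of_mem this, Pi.one_apply, one_mul]
    _ ≤ ∫⁻ x in Set.Ioc s t, cr f f' a ε x := by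
        refine lintegral_mono_set fun x hx => ?_
        exact ⟨lt_of_le_of_lt hs'A.1.1 hx.1, hx.2.le.trans ht'B.1.2⟩

lemma cr_neg (f f' : ℝ → ℝ) (a ε t : ℝ) :
    cr (fun t => -f t) (fun t => -f' t) (-a) ε t = cr f f' a ε t := by
  unfold cr
  rw [abs_neg]
  congr 1
  have e : |(-f t) - (-a)| = |f t - a| := by
    rw [← abs_neg]; congr 1; ring
  by_cases h : |f t - a| ≤ ε
  · have h1 : -f t ∈ {x : ℝ | |x - -a| ≤ ε} := by
      show |(-f t) - (-a)| ≤ ε
      rw [e]; exact h
    have h2 : f t ∈ {x : ℝ | |x - a| ≤ ε} := h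
    rw [Set.indicator_of_mem h1, Set.indicator_of_mem h2]
    rfl
  · have h1 : -f t ∉ {x : ℝ | |x - -a| ≤ ε} := by
      show ¬ |(-f t) - (-a)| ≤ ε
      rw [e]; exact h
    have h2 : f t ∉ {x : ℝ | |x - a| ≤ ε} := h
    rw [Set.indicator_of_notMem h1, Set.indicator_of_notMem h2]

/-- a passage between two points on different sides of the level -/
lemma passage' {f f' : ℝ → ℝ} (hf : ∀ t, HasDerivAt f (f' t) t) (hc : Continuous f') {a ε s t : ℝ}
    (hε : 0 < ε) (hst : s ≤ t) (hs : ε ≤ |f s - a|) (ht : ε ≤ |f t - a|)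
    (h : (f s - a) * (f t - a) < 0) :
    ENNReal.ofReal (2 * ε) ≤ ∫⁻ x in Set.Ioc s t, cr f f' a ε x := by
  rcases lt_or_ge (f s) a with h1 | h1
  · have h2 : a < f t := by
      by_contra hcon
      rw [not_lt] at hcon
      nlinarith
    refine passage hf hc hε hst ?_ ?_
    · rw [abs_of_neg (by linarith)] at hs; linarith
    · rw [abs_of_pos (by linarith)] at ht; linarith
  · have h2 : f t < a := by
      by_contra hcon
      rw [not_lt] at hcon
      nlinarith
    have := passage (f := fun t => -f t) (f' := fun t => -f' t) (a := -a) (ε := ε)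
      (fun t => (hf t).neg) hc.neg hε hst (by
        rw [abs_of_nonneg (by linarith)] at hs
        linarith) (by
        rw [abs_of_neg (by linarith)] at ht
        linarith)
    simp only [cr_neg] at this
    exact this

/-- `f - a` changes sign at least `k` times on `[0, ℓ]` -/
def Crosses (f : ℝ → ℝ) (a ℓ : ℝ) (k : ℕ) : Prop :=
  ∃ t : ℕ → ℝ, (∀ i < k, t i < t (i + 1)) ∧ 0 ≤ t 0 ∧ t k ≤ ℓ ∧
    ∀ i < k, (f (t i) - a) * (f (t (i + 1)) - a) < 0

lemma crosses_le {f f' : ℝ → ℝ} (hf : ∀ t, HasDerivAt f (f' t) t) (hc : Continuous f') {a ℓ : ℝ}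
    {k : ℕ} (h : Crosses f a ℓ k) :
    ∃ ε0 : ℝ, 0 < ε0 ∧ ∀ ε : ℝ, 0 < ε → ε < ε0 →
      (k : ℝ≥0∞) * ENNReal.ofReal (2 * ε) ≤ ∫⁻ x in Set.Ioc 0 ℓ, cr f f' a ε x := by
  obtain ⟨t, t1, t2, t3, t4⟩ := h
  rcases Nat.eq_zero_or_pos k with h0 | h0
  · exact ⟨1, one_pos, fun ε _ _ => by rw [h0]; simp⟩
  have mono : ∀ i j, i ≤ j → j ≤ k → t i ≤ t j := by
    intro i j hij
    induction j, hij using Nat.le_induction with
    | base => intro _; exact le_rfl
    | succ j hj ih => intro hk; exact (ih (by omega)).trans (t1 j (by omega)).le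
  have ne : ∀ i ∈ Finset.range (k + 1), 0 < |f (t i) - a| := by
    intro i hi
    rw [Finset.mem_range] at hi
    rw [abs_pos]
    rcases Nat.lt_or_ge i k with h1 | h1
    · intro h2; have := t4 i h1; rw [h2, zero_mul] at this; exact lt_irrefl _ this
    · obtain rfl : i = (k - 1) + 1 := by omega
      intro h2; have := t4 (k - 1) (by omega); rw [h2, mul_zero] at this; exact lt_irrefl _ this
  obtain ⟨ε0, hε0, hle⟩ : ∃ ε0 : ℝ, 0 < ε0 ∧ ∀ i ∈ Finset.range (k + 1), ε0 ≤ |f (t i) - a| := by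
    have hne : (Finset.range (k + 1)).Nonempty := ⟨0, by simp⟩
    obtain ⟨i, hi, hmin⟩ := Finset.exists_min_image (Finset.range (k + 1))
      (fun i => |f (t i) - a|) hne
    exact ⟨|f (t i) - a|, ne i hi, fun j hj => hmin j hj⟩
  refine ⟨ε0, hε0, fun ε h1 h2 => ?_⟩
  have key : ∀ m, m ≤ k → (m : ℝ≥0∞) * ENNReal.ofReal (2 * ε) ≤
      ∫⁻ x in Set.Ioc (t 0) (t m), cr f f' a ε x := by
    intro m
    induction m with
    | zero => intro _; simp
    | succ m ih =>
      intro hm
      have e : Set.Ioc (t 0) (t (m + 1)) = Set.Ioc (t 0) (t m) ∪ Set.Ioc (t m) (t (m + 1)) :=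
        (Set.Ioc_union_Ioc_eq_Ioc (mono 0 m (by omega) (by omega)) (t1 m (by omega)).le).symm
      have hdis : Disjoint (Set.Ioc (t 0) (t m)) (Set.Ioc (t m) (t (m + 1))) := by
        rw [Set.disjoint_left]
        intro x hx hx'
        exact absurd hx.2 (not_le.2 hx'.1)
      rw [e, lintegral_union measurableSet_Ioc hdis]
      have p := passage' hf hc h1 (t1 m (by omega)).le (h2.le.trans (hle m (by simp; omega)))
        (h2.le.trans (hle (m + 1) (by simp; omega))) (t4 m (by omega))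
      have := add_le_add (ih (by omega)) p
      refine le_trans (le_of_eq ?_) this
      push_cast
      ring
  refine (key k le_rfl).trans (lintegral_mono_set fun x hx => ?_)
  exact ⟨lt_of_le_of_lt t2 hx.1, hx.2.trans t3⟩

variable {d : ℕ} {S : Type*} [MeasurableSpace S] {P : Measure S} {τ : E d → S → S}

/-- **the crossings of a level on a line** -/
theorem crossings [IsProbabilityMeasure P] (hτ : ∀ x, MeasurePreserving (τ x) P P)
    {G : S → E d → ℝ} (W : Wave P τ G) {v : E d} (hv : ‖v‖ ≤ 1) (a : ℝ) {ℓ : ℝ} (hℓ : 0 ≤ ℓ) :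
    ∃ L : S → ℝ≥0∞, Measurable L ∧
      (∀ s k, Crosses (fun t => G s (t • v)) a ℓ k → (k : ℝ≥0∞) ≤ L s) ∧
      ∫⁻ s, L s ∂P ≤ ENNReal.ofReal (ℓ / Real.pi) := by
  have hpi := Real.pi_pos
  have W1 := (wave_dv hτ W v).1
  have hd : ∀ s t, HasDerivAt (fun t : ℝ => G s (t • v)) (Dv v (G s) (t • v)) t := fun s t =>
    it_hd W.sf v 0 s t
  have hcont : ∀ s, Continuous fun t : ℝ => Dv v (G s) (t • v) := fun s =>
    (W1.sf.smooth s).continuous.comp (continuous_id.smul continuous_const)
  -- joint measurability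
  have mt : Measurable fun p : S × ℝ => (p.2 • v, p.1) :=
    (measurable_snd.smul_const v).prodMk measurable_fst
  have mG : Measurable fun p : S × ℝ => G p.1 (p.2 • v) := (joint W.sf).comp mt
  have mD : Measurable fun p : S × ℝ => Dv v (G p.1) (p.2 • v) := (joint W1.sf).comp mt
  have mc : ∀ ε : ℝ, Measurable fun p : S × ℝ =>
      cr (fun t => G p.1 (t • v)) (fun t => Dv v (G p.1) (t • v)) a ε p.2 := by
    intro ε
    unfold cr
    have m1 : MeasurableSet {x : ℝ | |x - a| ≤ ε} :=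
      measurableSet_le (measurable_id.sub_const a).abs measurable_const
    exact ((measurable_one.indicator m1).comp mG).mul mD.abs.ennreal_ofReal
  obtain ⟨J, hJ⟩ : ∃ J : ℕ → S → ℝ≥0∞, J = fun (n : ℕ) s => (∫⁻ t in Set.Ioc 0 ℓ,
    cr (fun t => G s (t • v)) (fun t => Dv v (G s) (t • v)) a (1 / ((n : ℝ) + 1)) t) /
      ENNReal.ofReal (2 * (1 / ((n : ℝ) + 1))) := ⟨_, rfl⟩
  have mJ : ∀ n, Measurable (J n) := fun n => by
    rw [hJ]
    exact (Measurable.lintegral_prod_right' (mc (1 / ((n : ℝ) + 1)))).div_const _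
  refine ⟨fun s => liminf (fun n => J n s) atTop, Measurable.liminf mJ, fun s k hk => ?_, ?_⟩
  · obtain ⟨ε0, hε0, hε⟩ := crosses_le (hd s) (hcont s) hk
    refine le_liminf_of_le (by isBoundedDefault) ?_
    have h1 : ∀ᶠ n : ℕ in atTop, (1 : ℝ) / ((n : ℝ) + 1) < ε0 :=
      (tendsto_one_div_add_atTop_nhds_zero_nat (𝕜 := ℝ)).eventually (gt_mem_nhds hε0)
    filter_upwards [h1] with n hn
    have hn0 : (0 : ℝ) < 1 / ((n : ℝ) + 1) := by positivity
    rw [hJ]
    rw [ENNReal.le_div_iff_mul_le (Or.inl (ENNReal.ofReal_pos.2 (by positivity)).ne')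
      (Or.inl ENNReal.ofReal_ne_top)]
    exact hε _ hn0 hn
  · refine (lintegral_liminf_le mJ).trans ?_
    have hb : ∀ n, ∫⁻ s, J n s ∂P ≤ ENNReal.ofReal (ℓ / Real.pi) := by
      intro n
      obtain ⟨ε, hε⟩ : ∃ ε : ℝ, ε = 1 / ((n : ℝ) + 1) := ⟨_, rfl⟩
      have ε0 : 0 < ε := by rw [hε]; positivity
      have h2ε : ENNReal.ofReal (2 * ε) ≠ 0 := (ENNReal.ofReal_pos.2 (by positivity)).ne'
      rw [hJ]
      simp only [← hε, div_eq_mul_inv (G := ℝ≥0∞)]
      rw [lintegral_mul_const _ (Measurable.lintegral_prod_right' (mc ε))]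
      rw [lintegral_lintegral_swap (f := fun s t => cr (fun t => G s (t • v))
        (fun t => Dv v (G s) (t • v)) a ε t) (mc ε).aemeasurable]
      have h1 : ∀ t : ℝ, ∫⁻ s, cr (fun t => G s (t • v)) (fun t => Dv v (G s) (t • v)) a ε t ∂P ≤
          ENNReal.ofReal (2 * ε) / ENNReal.ofReal Real.pi := by
        intro t
        obtain ⟨K, hK⟩ : ∃ K : S → ℝ≥0∞, K = fun s =>
          Set.indicator {x : ℝ | |x - a| ≤ ε} 1 (G s 0) * ENNReal.ofReal |Dv v (G s) 0| := ⟨_, rfl⟩
        have mS : MeasurableSet {x : ℝ | |x - a| ≤ ε} :=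
          measurableSet_le (measurable_id.sub_const a).abs measurable_const
        have mK : Measurable K := by
          rw [hK]
          exact ((measurable_one.indicator mS).comp W.m0).mul W1.m0.abs.ennreal_ofReal
        have e : ∀ s, cr (fun t => G s (t • v)) (fun t => Dv v (G s) (t • v)) a ε t =
            K (τ (t • v) s) := by
          intro s
          unfold cr
          rw [hK]
          simp only
          rw [W.sf.cov, W1.sf.cov, zero_add]
        simp only [e]
        rw [(hτ (t • v)).lintegral_comp mK, hK]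
        have h3 := dir_bound hτ W hv (A := Set.Icc (a - ε) (a + ε)) measurableSet_Icc
        have e2 : {s | G s 0 ∈ Set.Icc (a - ε) (a + ε)} = {s | |G s 0 - a| ≤ ε} := by
          ext s
          simp only [Set.mem_ofPred_eq, Set.mem_Icc, abs_le]
          constructor
          · rintro ⟨h1, h2⟩; constructor <;> linarith
          · rintro ⟨h1, h2⟩; constructor <;> linarith
        rw [e2, Real.volume_Icc] at h3
        have e3 : a + ε - (a - ε) = 2 * ε := by ring
        rw [e3] at h3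
        refine le_trans (le_of_eq ?_) h3
        have mS2 : MeasurableSet {s | |G s 0 - a| ≤ ε} :=
          measurableSet_le (W.m0.sub_const a).abs measurable_const
        rw [← lintegral_indicator mS2]
        refine lintegral_congr fun s => ?_
        by_cases hz : |G s 0 - a| ≤ ε
        · rw [Set.indicator_of_mem (by exact hz), Set.indicator_of_mem (by exact hz), Pi.one_apply,
            one_mul]
        · rw [Set.indicator_of_notMem (by exact hz), Set.indicator_of_notMem (by exact hz), zero_mul]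
      calc (∫⁻ t in Set.Ioc 0 ℓ, ∫⁻ s, cr (fun t => G s (t • v)) (fun t => Dv v (G s) (t • v)) a ε t
            ∂P) * (ENNReal.ofReal (2 * ε))⁻¹ ≤
            (∫⁻ _t in Set.Ioc 0 ℓ, ENNReal.ofReal (2 * ε) / ENNReal.ofReal Real.pi) *
              (ENNReal.ofReal (2 * ε))⁻¹ := by
            gcongr with t
            exact h1 t
        _ = ENNReal.ofReal (ℓ / Real.pi) := by
            rw [setLIntegral_const, Real.volume_Ioc, sub_zero, ENNReal.ofReal_div_of_pos hpi,
              div_eq_mul_inv, div_eq_mul_inv]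
            have : ENNReal.ofReal (2 * ε) * (ENNReal.ofReal Real.pi)⁻¹ * ENNReal.ofReal ℓ *
                (ENNReal.ofReal (2 * ε))⁻¹ = (ENNReal.ofReal (2 * ε) * (ENNReal.ofReal (2 * ε))⁻¹) *
                (ENNReal.ofReal ℓ * (ENNReal.ofReal Real.pi)⁻¹) := by ring
            rw [this, ENNReal.mul_inv_cancel h2ε ENNReal.ofReal_ne_top, one_mul]
    calc liminf (fun n => ∫⁻ s, J n s ∂P) atTop ≤
        liminf (fun _ : ℕ => ENNReal.ofReal (ℓ / Real.pi)) atTop :=
          liminf_le_liminf (Eventually.of_forall hb)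
      _ = ENNReal.ofReal (ℓ / Real.pi) := liminf_const _

end

end Pool.Agent.Q218.UB
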