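import Pool.Agent.Q218.UB.F

/-!
# Level sets of eigenfunctions (project UB), sequences: calculus in the plane
-/

set_option autoImplicit false
open MeasureTheory Filter Topology
open scoped ContDiff ENNReal

namespace Pool.Agent.Q218.UB.Seq

noncomputable section

/-- the derivative in the direction `v` -/
def dv (v : ℂ) (f : ℂ → ℝ) (z : ℂ) : ℝ := fderiv ℝ f z v

/-- the Laplacian -/
def lp (f : ℂ → ℝ) (z : ℂ) : ℝ := dv 1 (dv 1 f) z + dv Complex.I (dv Complex.I f) z

/-- iterated derivatives -/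
def it (v : ℂ) (f : ℂ → ℝ) : ℕ → ℂ → ℝ
  | 0 => f
  | n + 1 => dv v (it v f n)

lemma dv_sm {f : ℂ → ℝ} (hf : ContDiff ℝ ∞ f) (v : ℂ) : ContDiff ℝ ∞ (dv v f) :=
  (hf.fderiv_right (m := ∞) le_rfl).clm_apply contDiff_const

lemma it_sm {f : ℂ → ℝ} (hf : ContDiff ℝ ∞ f) (v : ℂ) (n : ℕ) : ContDiff ℝ ∞ (it v f n) := by
  induction n with
  | zero => exact hf
  | succ n ih => exact dv_sm ih v

lemma lp_sm {f : ℂ → ℝ} (hf : ContDiff ℝ ∞ f) : ContDiff ℝ ∞ (lp f) :=
  (dv_sm (dv_sm hf 1) 1).add (dv_sm (dv_sm hf Complex.I) Complex.I)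

lemma df {f : ℂ → ℝ} (hf : ContDiff ℝ ∞ f) (z : ℂ) : DifferentiableAt ℝ f z :=
  hf.differentiable (by simp) z

lemma dv_add {f g : ℂ → ℝ} (hf : ContDiff ℝ ∞ f) (hg : ContDiff ℝ ∞ g) (v z : ℂ) :
    dv v (fun z => f z + g z) z = dv v f z + dv v g z := by
  unfold dv
  rw [fderiv_fun_add (df hf z) (df hg z)]; rfl

lemma dv_mul {f g : ℂ → ℝ} (hf : ContDiff ℝ ∞ f) (hg : ContDiff ℝ ∞ g) (v z : ℂ) :
    dv v (fun z => f z * g z) z = f z * dv v g z + dv v f z * g z := by
  unfold dv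
  rw [fderiv_fun_mul (df hf z) (df hg z)]
  simp only [FunLike.coe_add, Pi.add_apply, FunLike.coe_smul, Pi.smul_apply, smul_eq_mul]
  ring

lemma dv_cmul {f : ℂ → ℝ} (hf : ContDiff ℝ ∞ f) (c : ℝ) (v z : ℂ) :
    dv v (fun z => c * f z) z = c * dv v f z := by
  unfold dv
  rw [fderiv_const_mul (df hf z)]; rfl

lemma dv_zero (v z : ℂ) : dv v (fun _ => (0 : ℝ)) z = 0 := by
  unfold dv
  rw [fderiv_fun_const]; rfl

lemma dv_sum {ι : Type*} (s : Finset ι) {f : ι → ℂ → ℝ} (hf : ∀ i ∈ s, ContDiff ℝ ∞ (f i)) (v z : ℂ) :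
    dv v (fun z => ∑ i ∈ s, f i z) z = ∑ i ∈ s, dv v (f i) z := by
  unfold dv
  rw [fderiv_fun_sum fun i hi => df (hf i hi) z]
  simp

lemma dv_vec (f : ℂ → ℝ) (v z : ℂ) : dv v f z = v.re * dv 1 f z + v.im * dv Complex.I f z := by
  unfold dv
  have h : v = v.re • (1 : ℂ) + v.im • Complex.I := by
    apply Complex.ext <;> simp
  conv_lhs => rw [h]
  rw [map_add, map_smul, map_smul]; rfl

lemma dv_smul (f : ℂ → ℝ) (s : ℝ) (v z : ℂ) : dv (s • v) f z = s * dv v f z := by
  unfold dv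
  rw [map_smul]; rfl

lemma dv_sq (f : ℂ → ℝ) (v z : ℂ) :
    dv v f z ^ 2 ≤ ‖v‖ ^ 2 * (dv 1 f z ^ 2 + dv Complex.I f z ^ 2) := by
  rw [dv_vec, Complex.sq_norm, Complex.normSq_apply]
  nlinarith [sq_nonneg (v.re * dv Complex.I f z - v.im * dv 1 f z)]

lemma dv_comm {f : ℂ → ℝ} (hf : ContDiff ℝ ∞ f) (v w z : ℂ) :
    dv v (dv w f) z = dv w (dv v f) z := by
  have h1 : ∀ a b : ℂ, dv a (dv b f) z = fderiv ℝ (fderiv ℝ f) z a b := by
    intro a b
    unfold dv
    have h2 : DifferentiableAt ℝ (fderiv ℝ f) z :=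
      (hf.fderiv_right (m := ∞) le_rfl).differentiable (by simp) z
    rw [fderiv_clm_apply h2 (differentiableAt_const b)]
    simp
  rw [h1, h1]
  have h2 : ((2 : ℕ∞) : WithTop ℕ∞) ≤ ((⊤ : ℕ∞) : WithTop ℕ∞) :=
    WithTop.coe_le_coe.mpr (le_top : (2 : ℕ∞) ≤ ⊤)
  exact ((hf.contDiffAt (x := z)).isSymmSndFDerivAt (by
    simp only [minSmoothness_of_isRCLikeNormedField]
    exact h2)) v w

lemma dv_lp {f : ℂ → ℝ} (hf : ContDiff ℝ ∞ f) (v z : ℂ) : lp (dv v f) z = dv v (lp f) z := by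
  unfold lp
  rw [dv_add (dv_sm (dv_sm hf 1) 1) (dv_sm (dv_sm hf Complex.I) Complex.I)]
  have h1 : ∀ w, dv w (dv w (dv v f)) z = dv v (dv w (dv w f)) z := by
    intro w
    have : dv w (dv v f) = dv v (dv w f) := funext fun z => dv_comm hf w v z
    rw [this, dv_comm (dv_sm hf w)]
  rw [h1, h1]

lemma it_lp {f : ℂ → ℝ} (hf : ContDiff ℝ ∞ f) (v : ℂ) (n : ℕ) : lp (it v f n) = it v (lp f) n := by
  induction n with
  | zero => rfl
  | succ n ih =>
    funext z
    show lp (dv v (it v f n)) z = dv v (it v (lp f) n) z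
    rw [dv_lp (it_sm hf v n), ih]

lemma it_cmul {f : ℂ → ℝ} (hf : ContDiff ℝ ∞ f) (c : ℝ) (v : ℂ) (n : ℕ) :
    it v (fun z => c * f z) n = fun z => c * it v f n z := by
  induction n with
  | zero => rfl
  | succ n ih =>
    funext z
    show dv v (it v (fun z => c * f z) n) z = c * dv v (it v f n) z
    rw [ih, dv_cmul (it_sm hf v n)]

/-- locality -/
lemma dv_loc {W : Set ℂ} (hW : IsOpen W) {f g : ℂ → ℝ} (h : ∀ z ∈ W, f z = g z) (v : ℂ) :
    ∀ z ∈ W, dv v f z = dv v g z := by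
  intro z hz
  unfold dv
  have : f =ᶠ[𝓝 z] g := by
    filter_upwards [hW.mem_nhds hz] with y hy using h y hy
  rw [this.fderiv_eq]

lemma it_loc {W : Set ℂ} (hW : IsOpen W) {f g : ℂ → ℝ} (h : ∀ z ∈ W, f z = g z) (v : ℂ) (n : ℕ) :
    ∀ z ∈ W, it v f n z = it v g n z := by
  induction n with
  | zero => exact h
  | succ n ih => exact dv_loc hW ih v

/-- the Leibniz rule -/
lemma leib {ρ : ℂ → ℝ} (hρ : ContDiff ℝ ∞ ρ) (m : ℕ) :
    ∃ F : ℕ → ℂ → ℂ → ℝ, (∀ i v, ContDiff ℝ ∞ (F i v)) ∧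
      (∀ i (s : ℝ) v z, F i (s • v) z = s ^ (m - i) * F i v z) ∧ ∀ (v : ℂ) (w : ℂ → ℝ), ContDiff ℝ ∞ w →
        ∀ z, it v (fun z => ρ z * w z) m z =
          ρ z * it v w m z + ∑ i ∈ Finset.range m, F i v z * it v w i z := by
  refine ⟨fun i v z => (m.choose i : ℝ) * it v ρ (m - i) z, fun i v => contDiff_const.mul (it_sm hρ v _),
    fun i s v z => ?_, fun v w hw => ?_⟩
  · have : ∀ k z, it (s • v) ρ k z = s ^ k * it v ρ k z := by
      intro k
      induction k with
      | zero => intro z; simp [it]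
      | succ k ih =>
        intro z
        show dv (s • v) (it (s • v) ρ k) z = _
        rw [dv_smul, funext ih, dv_cmul (it_sm hρ v k)]
        show s * (s ^ k * it v ρ (k + 1) z) = _
        ring
    simp only [this]; ring
  · have key : ∀ m z, it v (fun z => ρ z * w z) m z =
        ∑ i ∈ Finset.range (m + 1), (m.choose i : ℝ) * it v ρ (m - i) z * it v w i z := by
      intro m
      induction m with
      | zero => intro z; simp [it]
      | succ m ih =>
        intro z
        show dv v (it v (fun z => ρ z * w z) m) z = _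
        rw [funext ih, dv_sum _ fun i _ => (contDiff_const.mul (it_sm hρ v _)).mul (it_sm hw v i)]
        have e : ∀ i ∈ Finset.range (m + 1),
            dv v (fun z => (m.choose i : ℝ) * it v ρ (m - i) z * it v w i z) z =
            (m.choose i : ℝ) * it v ρ (m - i) z * it v w (i + 1) z +
              (m.choose i : ℝ) * it v ρ (m + 1 - i) z * it v w i z := by
          intro i hi
          rw [dv_mul (contDiff_const.mul (it_sm hρ v _)) (it_sm hw v i), dv_cmul (it_sm hρ v _)]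
          have h1 : m + 1 - i = (m - i) + 1 := by
            have := Finset.mem_range.1 hi; omega
          rw [h1]; rfl
        rw [Finset.sum_congr rfl e, Finset.sum_add_distrib]
        rw [Finset.sum_range_succ' (fun i => ((m + 1).choose i : ℝ) * it v ρ (m + 1 - i) z * it v w i z)]
        have e2 : ∀ i, ((m + 1).choose (i + 1) : ℝ) = (m.choose i : ℝ) + (m.choose (i + 1) : ℝ) := by
          intro i
          rw [Nat.choose_succ_succ]; push_cast; ring
        simp only [e2, Nat.add_sub_add_right, add_mul, Finset.sum_add_distrib, Nat.choose_zero_right]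
        rw [Finset.sum_range_succ' (fun i => (m.choose i : ℝ) * it v ρ (m + 1 - i) z * it v w i z),
          Finset.sum_range_succ (fun i => (m.choose (i + 1) : ℝ) * it v ρ (m - i) z * it v w (i + 1) z)]
        simp only [Nat.choose_succ_self, Nat.cast_zero, zero_mul, add_zero, Nat.add_sub_add_right,
          Nat.choose_zero_right]
        ring
    intro z
    rw [key, Finset.sum_range_succ]
    simp only [Nat.choose_self, Nat.cast_one, one_mul, Nat.sub_self]
    rw [add_comm]; rfl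

/-! ### integration by parts -/

lemma int_cc {f g : ℂ → ℝ} (hf : Continuous f) (hg : Continuous g) (hc : HasCompactSupport f) :
    Integrable (fun z => f z * g z) volume :=
  (hf.mul hg).integrable_of_hasCompactSupport (hc.mul_right (f' := g))

lemma dv_cs {f : ℂ → ℝ} (hc : HasCompactSupport f) (v : ℂ) : HasCompactSupport (dv v f) := by
  refine hc.mono' fun z hz => ?_
  unfold dv at hz
  by_contra h
  apply hz
  show fderiv ℝ f z v = 0
  rw [fderiv_of_notMem_tsupport ℝ h]; rfl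

lemma dv_ts {f : ℂ → ℝ} (v : ℂ) : tsupport (dv v f) ⊆ tsupport f := by
  refine closure_minimal (fun z hz => ?_) isClosed_closure
  by_contra h
  apply hz
  show fderiv ℝ f z v = 0
  rw [fderiv_of_notMem_tsupport ℝ h]; rfl

lemma ibp {f g : ℂ → ℝ} (hf : ContDiff ℝ ∞ f) (hg : ContDiff ℝ ∞ g) (hc : HasCompactSupport f) (v : ℂ) :
    ∫ z, f z * dv v g z = -∫ z, dv v f z * g z :=
  integral_mul_fderiv_eq_neg_fderiv_mul_of_integrable (μ := volume)
    (int_cc (dv_sm hf v).continuous hg.continuous (dv_cs hc v))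
    (int_cc hf.continuous (dv_sm hg v).continuous hc) (int_cc hf.continuous hg.continuous hc)
    (fun z _ => df hf z) (fun z _ => df hg z)

/-- two integrations by parts -/
lemma ibp2 {f g : ℂ → ℝ} (hf : ContDiff ℝ ∞ f) (hg : ContDiff ℝ ∞ g) (hc : HasCompactSupport f) (v : ℂ) :
    ∫ z, f z * dv v (dv v g) z = ∫ z, dv v (dv v f) z * g z := by
  rw [ibp hf (dv_sm hg v) hc, ibp (dv_sm hf v) hg (dv_cs hc v), neg_neg]

/-- the energy identity -/
lemma energy {φ w : ℂ → ℝ} (hφ : ContDiff ℝ ∞ φ) (hw : ContDiff ℝ ∞ w) (hc : HasCompactSupport φ) :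
    ∫ z, φ z * (dv 1 w z ^ 2 + dv Complex.I w z ^ 2) =
      -(∫ z, φ z * (w z * lp w z)) + (∫ z, lp φ z * w z ^ 2) / 2 := by
  have h1 : ∀ v, ∫ z, φ z * dv v w z ^ 2 =
      -(∫ z, φ z * (w z * dv v (dv v w) z)) + (∫ z, dv v (dv v φ) z * w z ^ 2) / 2 := by
    intro v
    have e0 : ∫ z, dv v (dv v φ) z * w z ^ 2 = ∫ z, φ z * dv v (dv v fun z => w z ^ 2) z :=
      (ibp2 hφ (hw.pow 2) hc v).symm
    have e1 : ∀ z, dv v (dv v fun z => w z ^ 2) z = 2 * dv v w z ^ 2 + 2 * (w z * dv v (dv v w) z) := by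
      intro z
      have a1 : dv v (fun z => w z ^ 2) = fun z => 2 * (w z * dv v w z) := by
        funext z
        have : (fun z => w z ^ 2) = fun z => w z * w z := funext fun z => pow_two (w z)
        rw [this, dv_mul hw hw]; ring
      rw [a1, dv_cmul (hw.mul (dv_sm hw v)), dv_mul hw (dv_sm hw v)]
      ring
    rw [e0]
    simp only [e1, mul_add]
    have i1 : Integrable (fun z => φ z * (2 * dv v w z ^ 2)) volume :=
      int_cc hφ.continuous (continuous_const.mul ((dv_sm hw v).continuous.pow 2)) hc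
    have i2 : Integrable (fun z => φ z * (2 * (w z * dv v (dv v w) z))) volume :=
      int_cc hφ.continuous (continuous_const.mul (hw.continuous.mul
        (dv_sm (dv_sm hw v) v).continuous)) hc
    rw [integral_add i1 i2]
    have e2 : ∀ z, φ z * (2 * dv v w z ^ 2) = 2 * (φ z * dv v w z ^ 2) := fun z => by ring
    have e3 : ∀ z, φ z * (2 * (w z * dv v (dv v w) z)) = 2 * (φ z * (w z * dv v (dv v w) z)) :=
      fun z => by ring
    simp only [e2, e3]
    rw [integral_const_mul, integral_const_mul]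
    ring
  have i1 : ∀ v, Integrable (fun z => φ z * dv v w z ^ 2) volume := fun v =>
    int_cc hφ.continuous ((dv_sm hw v).continuous.pow 2) hc
  have i2 : ∀ v, Integrable (fun z => φ z * (w z * dv v (dv v w) z)) volume := fun v =>
    int_cc hφ.continuous (hw.continuous.mul (dv_sm (dv_sm hw v) v).continuous) hc
  have i3 : ∀ v, Integrable (fun z => dv v (dv v φ) z * w z ^ 2) volume := fun v =>
    int_cc (dv_sm (dv_sm hφ v) v).continuous (hw.continuous.pow 2) (dv_cs (dv_cs hc v) v)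
  unfold lp
  simp only [mul_add, add_mul]
  rw [integral_add (i1 1) (i1 Complex.I), integral_add (i2 1) (i2 Complex.I),
    integral_add (i3 1) (i3 Complex.I), h1, h1]
  ring

end

end Pool.Agent.Q218.UB.Seq
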