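import Pool.Agent.Q218.UB.La

/-!
# Level sets of eigenfunctions (project UB), sequences: local bounds
-/

set_option autoImplicit false
open MeasureTheory Filter Topology
open scoped ContDiff ENNReal

namespace Pool.Agent.Q218.UB.Seq

noncomputable section

/-- test functions -/
structure Tst (W : Set ℂ) (φ : ℂ → ℝ) : Prop where
  sm : ContDiff ℝ ∞ φ
  cs : HasCompactSupport φ
  ts : tsupport φ ⊆ W
  nn : ∀ z, 0 ≤ φ z

lemma tst_exists {K W : Set ℂ} (hK : IsCompact K) (hW : IsOpen W) (h : K ⊆ W) :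
    ∃ φ, Tst W φ ∧ (∀ z, φ z ≤ 1) ∧ ∃ V, IsOpen V ∧ K ⊆ V ∧ ∀ z ∈ V, φ z = 1 := by
  obtain ⟨δ, hδ, hδB⟩ := hK.exists_cthickening_subset_open hW h
  obtain ⟨f, hf1, hf2, hf3⟩ := exists_contMDiff_support_eq_eq_one_iff (modelWithCornersSelf ℝ ℂ)
    (Metric.isOpen_thickening (δ := δ) (E := K)) (Metric.isClosed_cthickening (δ := δ / 2) (E := K))
    (Metric.cthickening_subset_thickening' hδ (by linarith) K)
  have hs : tsupport f ⊆ Metric.cthickening δ K := by
    apply closure_minimal _ Metric.isClosed_cthickening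
    rw [hf3.1]
    exact Metric.thickening_subset_cthickening _ _
  refine ⟨f, ⟨hf1.contDiff, ?_, hs.trans hδB, fun z => ?_⟩, fun z => ?_, Metric.thickening (δ / 2) K,
    Metric.isOpen_thickening, Metric.self_subset_thickening (by linarith) K, fun z hz => ?_⟩
  · exact (hK.cthickening (r := δ)).of_isClosed_subset (isClosed_tsupport f) hs
  · exact (hf2 ⟨z, rfl⟩).1
  · exact (hf2 ⟨z, rfl⟩).2
  · exact (hf3.2 z).1 (Metric.thickening_subset_cthickening _ _ hz)

/-- local boundedness in `L²` -/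
def LB (W : Set ℂ) (u : ℕ → ℂ → ℝ) : Prop :=
  ∀ K : Set ℂ, IsCompact K → K ⊆ W → ∃ C : ℝ, ∀ᶠ n in atTop, ∫ z in K, u n z ^ 2 ≤ C

lemma iK {K : Set ℂ} (hK : IsCompact K) {f : ℂ → ℝ} (hf : Continuous f) : IntegrableOn f K :=
  hf.continuousOn.integrableOn_compact hK

lemma LB.nn {W K : Set ℂ} {u : ℕ → ℂ → ℝ} (h : LB W u) (hK : IsCompact K) (hKW : K ⊆ W) :
    ∃ C : ℝ, 0 ≤ C ∧ ∀ᶠ n in atTop, ∫ z in K, u n z ^ 2 ≤ C := by
  obtain ⟨C, hC⟩ := h K hK hKW
  exact ⟨max C 0, le_max_right _ _, hC.mono fun n hn => hn.trans (le_max_left _ _)⟩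

lemma LB.add {W : Set ℂ} {u w : ℕ → ℂ → ℝ} (hu : ∀ n, Continuous (u n)) (hw : ∀ n, Continuous (w n))
    (h1 : LB W u) (h2 : LB W w) : LB W (fun n z => u n z + w n z) := by
  intro K hK hKW
  obtain ⟨C1, c1⟩ := h1 K hK hKW
  obtain ⟨C2, c2⟩ := h2 K hK hKW
  refine ⟨2 * C1 + 2 * C2, ?_⟩
  filter_upwards [c1, c2] with n a1 a2
  calc ∫ z in K, (u n z + w n z) ^ 2 ≤ ∫ z in K, (2 * u n z ^ 2 + 2 * w n z ^ 2) := by
        refine integral_mono (iK hK (((hu n).add (hw n)).pow 2))
          (iK hK (by have := hu n; have := hw n; fun_prop)) fun z => ?_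
        have := sq_nonneg (u n z - w n z)
        simp only; nlinarith
    _ = 2 * (∫ z in K, u n z ^ 2) + 2 * ∫ z in K, w n z ^ 2 := by
        rw [integral_add (iK hK (by have := hu n; fun_prop)) (iK hK (by have := hw n; fun_prop)),
          integral_const_mul, integral_const_mul]
    _ ≤ _ := by linarith

lemma LB.mul {W : Set ℂ} {f u : ℕ → ℂ → ℝ} (hf : ∀ n, Continuous (f n)) (hu : ∀ n, Continuous (u n))
    (hb : ∀ K : Set ℂ, IsCompact K → K ⊆ W → ∃ B : ℝ, ∀ᶠ n in atTop, ∀ z ∈ K, |f n z| ≤ B)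
    (h : LB W u) : LB W (fun n z => f n z * u n z) := by
  intro K hK hKW
  obtain ⟨C, C0, c⟩ := h.nn hK hKW
  obtain ⟨B, b⟩ := hb K hK hKW
  refine ⟨B ^ 2 * C, ?_⟩
  filter_upwards [c, b] with n a1 a2
  calc ∫ z in K, (f n z * u n z) ^ 2 ≤ ∫ z in K, B ^ 2 * u n z ^ 2 := by
        refine setIntegral_mono_on (iK hK (((hf n).mul (hu n)).pow 2))
          (iK hK (by have := hu n; fun_prop)) hK.measurableSet fun z hz => ?_
        rw [mul_pow]
        have h1 : f n z ^ 2 ≤ B ^ 2 := by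
          rw [← sq_abs]; exact pow_le_pow_left₀ (abs_nonneg _) (a2 z hz) 2
        exact mul_le_mul_of_nonneg_right h1 (sq_nonneg _)
    _ = B ^ 2 * ∫ z in K, u n z ^ 2 := integral_const_mul _ _
    _ ≤ _ := mul_le_mul_of_nonneg_left a1 (sq_nonneg _)

lemma LB.sum {W : Set ℂ} {ι : Type*} (s : Finset ι) {u : ι → ℕ → ℂ → ℝ}
    (hu : ∀ i ∈ s, ∀ n, Continuous (u i n)) (h : ∀ i ∈ s, LB W (u i)) :
    LB W (fun n z => ∑ i ∈ s, u i n z) := by
  classical
  induction s using Finset.induction_on with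
  | empty =>
    intro K _ _
    exact ⟨0, Eventually.of_forall fun n => by simp⟩
  | insert a s ha ih =>
    have h1 := LB.add (hu a (Finset.mem_insert_self _ _))
      (fun n => continuous_finset_sum s fun i hi => hu i (Finset.mem_insert_of_mem hi) n)
      (h a (Finset.mem_insert_self _ _))
      (ih (fun i hi => hu i (Finset.mem_insert_of_mem hi)) fun i hi => h i (Finset.mem_insert_of_mem hi))
    simpa only [Finset.sum_insert ha] using h1

lemma bdd_on {K : Set ℂ} (hK : IsCompact K) {f : ℂ → ℝ} (hf : Continuous f) :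
    ∃ B : ℝ, 0 ≤ B ∧ ∀ z ∈ K, |f z| ≤ B := by
  obtain ⟨B, hB⟩ := hK.exists_bound_of_continuousOn hf.continuousOn
  exact ⟨max B 0, le_max_right _ _, fun z hz => (hB z hz).trans (le_max_left _ _)⟩

/-- integrals of a compactly supported function times a product -/
lemma bil {W : Set ℂ} {g : ℂ → ℝ} (hg : Continuous g) (cs : HasCompactSupport g) (ts : tsupport g ⊆ W)
    {w1 w2 : ℕ → ℂ → ℝ} (c1 : ∀ n, Continuous (w1 n)) (c2 : ∀ n, Continuous (w2 n))
    (h1 : LB W w1) (h2 : LB W w2) :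
    ∃ C : ℝ, 0 ≤ C ∧ ∀ᶠ n in atTop, |∫ z, g z * (w1 n z * w2 n z)| ≤ C := by
  have hK : IsCompact (tsupport g) := cs
  obtain ⟨B, B0, hB⟩ := bdd_on hK hg
  obtain ⟨C1, C10, a1⟩ := h1.nn hK ts
  obtain ⟨C2, C20, a2⟩ := h2.nn hK ts
  refine ⟨B * (C1 + C2), by positivity, ?_⟩
  filter_upwards [a1, a2] with n b1 b2
  have e : ∫ z, g z * (w1 n z * w2 n z) = ∫ z in tsupport g, g z * (w1 n z * w2 n z) := by
    refine (setIntegral_eq_integral_of_forall_compl_eq_zero fun z hz => ?_).symm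
    rw [image_eq_zero_of_notMem_tsupport hz, zero_mul]
  rw [e]
  refine (abs_integral_le_integral_abs).trans ?_
  have i1 : IntegrableOn (fun z => w1 n z ^ 2) (tsupport g) := iK hK ((c1 n).pow 2)
  have i2 : IntegrableOn (fun z => w2 n z ^ 2) (tsupport g) := iK hK ((c2 n).pow 2)
  calc ∫ z in tsupport g, |g z * (w1 n z * w2 n z)| ≤
      ∫ z in tsupport g, B * (w1 n z ^ 2 + w2 n z ^ 2) := by
        refine setIntegral_mono_on (iK hK (by have := c1 n; have := c2 n; fun_prop))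
          ((i1.add i2).const_mul B) hK.measurableSet fun z hz => ?_
        rw [abs_mul, abs_mul]
        have h3 : |w1 n z| * |w2 n z| ≤ w1 n z ^ 2 + w2 n z ^ 2 := by
          rw [← sq_abs (w1 n z), ← sq_abs (w2 n z)]
          nlinarith [sq_nonneg (|w1 n z| - |w2 n z|), sq_nonneg (|w1 n z|), sq_nonneg (|w2 n z|)]
        exact mul_le_mul (hB z hz) h3 (by positivity) B0
    _ = B * ((∫ z in tsupport g, w1 n z ^ 2) + ∫ z in tsupport g, w2 n z ^ 2) := by
        rw [integral_const_mul, integral_add i1 i2]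
    _ ≤ _ := by gcongr

/-- local energy bound -/
lemma lb_grad {W : Set ℂ} (hW : IsOpen W) {w r : ℕ → ℂ → ℝ} {s : ℕ → ℝ} (hw : ∀ n, ContDiff ℝ ∞ (w n))
    (hr : ∀ n, Continuous (r n)) (hs : ∀ᶠ n in atTop, |s n| ≤ 1) (h : LB W w) (h' : LB W r)
    (e : ∀ n, ∀ z ∈ W, s n ^ 2 * lp (w n) z = r n z) (v : ℂ) :
    LB W (fun n => dv (s n • v) (w n)) := by
  intro K hK hKW
  obtain ⟨φ, hφ, -, V, hV, hKV, hV1⟩ := tst_exists hK hW hKW
  have cw : ∀ n, Continuous (w n) := fun n => (hw n).continuous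
  have cl : Continuous (lp φ) := (lp_sm hφ.sm).continuous
  have sl : tsupport (lp φ) ⊆ tsupport φ := by
    refine closure_minimal (fun z hz => ?_) isClosed_closure
    by_contra hn
    apply hz
    have h1 : ∀ v, dv v (dv v φ) z = 0 := fun v => by
      have : z ∉ tsupport (dv v φ) := fun h => hn (dv_ts v h)
      show fderiv ℝ (dv v φ) z v = 0
      rw [fderiv_of_notMem_tsupport ℝ this]; rfl
    unfold lp
    rw [h1, h1, add_zero]
  have cs : HasCompactSupport (lp φ) := IsCompact.of_isClosed_subset hφ.cs (isClosed_tsupport _) sl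
  obtain ⟨C1, C10, a1⟩ := bil hφ.sm.continuous hφ.cs hφ.ts cw hr h h'
  obtain ⟨C2, C20, a2⟩ := bil cl cs (sl.trans hφ.ts) cw cw h h
  refine ⟨‖v‖ ^ 2 * (C1 + C2), ?_⟩
  filter_upwards [hs, a1, a2] with n b0 b1 b2
  have s1 : s n ^ 2 ≤ 1 := by rw [← sq_abs]; exact pow_le_one₀ (abs_nonneg _) b0
  obtain ⟨Q, hQ⟩ : ∃ Q : ℂ → ℝ, Q = fun z => dv 1 (w n) z ^ 2 + dv Complex.I (w n) z ^ 2 := ⟨_, rfl⟩
  have cQ : Continuous Q := by
    rw [hQ]
    exact ((dv_sm (hw n) 1).continuous.pow 2).add ((dv_sm (hw n) Complex.I).continuous.pow 2)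
  have Q0 : ∀ z, 0 ≤ Q z := fun z => by rw [hQ]; positivity
  have iQ : Integrable (fun z => φ z * Q z) volume := int_cc hφ.sm.continuous cQ hφ.cs
  have m1 : ∫ z in K, dv (s n • v) (w n) z ^ 2 ≤ s n ^ 2 * ‖v‖ ^ 2 * ∫ z, φ z * Q z := by
    calc ∫ z in K, dv (s n • v) (w n) z ^ 2 ≤ ∫ z in K, s n ^ 2 * ‖v‖ ^ 2 * (φ z * Q z) := by
          refine setIntegral_mono_on (iK hK ((dv_sm (hw n) _).continuous.pow 2))
            ((iQ.const_mul _).integrableOn) hK.measurableSet fun z hz => ?_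
          rw [hV1 z (hKV hz), one_mul, dv_smul, mul_pow, mul_assoc]
          refine mul_le_mul_of_nonneg_left ?_ (sq_nonneg _)
          rw [hQ]; exact dv_sq (w n) v z
      _ ≤ ∫ z, s n ^ 2 * ‖v‖ ^ 2 * (φ z * Q z) := by
          refine setIntegral_le_integral (iQ.const_mul _) (ae_of_all _ fun z => ?_)
          show 0 ≤ s n ^ 2 * ‖v‖ ^ 2 * (φ z * Q z)
          have := hφ.nn z
          have := Q0 z
          positivity
      _ = _ := integral_const_mul _ _
  have m2 : s n ^ 2 * ∫ z, φ z * Q z = -(∫ z, φ z * (w n z * r n z)) +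
      s n ^ 2 * (∫ z, lp φ z * (w n z * w n z)) / 2 := by
    have h1 := energy hφ.sm (hw n) hφ.cs
    have h2 : ∫ z, φ z * Q z = ∫ z, φ z * (dv 1 (w n) z ^ 2 + dv Complex.I (w n) z ^ 2) := by rw [hQ]
    rw [h2, h1]
    have h3 : ∫ z, φ z * (w n z * r n z) = s n ^ 2 * ∫ z, φ z * (w n z * lp (w n) z) := by
      rw [← integral_const_mul]
      refine integral_congr_ae (ae_of_all _ fun z => ?_)
      simp only
      by_cases hz : z ∈ tsupport φ
      · rw [← e n z (hφ.ts hz)]; ring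
      · rw [image_eq_zero_of_notMem_tsupport hz]; ring
    have h4 : ∀ z, w n z ^ 2 = w n z * w n z := fun z => by ring
    simp only [h4]
    rw [h3]; ring
  have m3 : s n ^ 2 * ∫ z, φ z * Q z ≤ C1 + C2 := by
    rw [m2]
    have h1 := neg_abs_le (∫ z, φ z * (w n z * r n z))
    have h2 := le_abs_self (∫ z, lp φ z * (w n z * w n z))
    have h3 : s n ^ 2 * (∫ z, lp φ z * (w n z * w n z)) ≤ 1 * C2 := by
      calc s n ^ 2 * (∫ z, lp φ z * (w n z * w n z)) ≤ s n ^ 2 * C2 :=
            mul_le_mul_of_nonneg_left (h2.trans b2) (sq_nonneg _)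
        _ ≤ 1 * C2 := by gcongr
    linarith
  calc _ ≤ s n ^ 2 * ‖v‖ ^ 2 * ∫ z, φ z * Q z := m1
    _ = ‖v‖ ^ 2 * (s n ^ 2 * ∫ z, φ z * Q z) := by ring
    _ ≤ _ := by gcongr

/-- the sequences -/
structure Sq (W : Set ℂ) (ρ : ℂ → ℝ) (lam : ℕ → ℝ) (u : ℕ → ℂ → ℝ) : Prop where
  o : IsOpen W
  rs : ContDiff ℝ ∞ ρ
  r0 : ∀ z ∈ W, 0 < ρ z
  tl : Tendsto lam atTop atTop
  us : ∀ n, ContDiff ℝ ∞ (u n)
  eq : ∀ n, ∀ z ∈ W, lp (u n) z = -(lam n * (ρ z * u n z))
  lb : LB W u

variable {W : Set ℂ} {ρ : ℂ → ℝ} {lam : ℕ → ℝ} {u : ℕ → ℂ → ℝ}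

/-- the scale -/
def sc (κ : ℝ) (lam : ℕ → ℝ) (n : ℕ) : ℝ := 1 / √(κ * lam n)

lemma sc_ev {κ : ℝ} (hκ : 0 < κ) (h : Tendsto lam atTop atTop) {ε : ℝ} (hε : 0 < ε) :
    ∀ᶠ n in atTop, 0 < lam n ∧ 0 < sc κ lam n ∧ sc κ lam n ≤ ε ∧ sc κ lam n ^ 2 * lam n = 1 / κ := by
  filter_upwards [h.eventually_gt_atTop 0, h.eventually_ge_atTop (1 / (κ * ε ^ 2))] with n h1 h2
  have h3 : 0 < κ * lam n := by positivity
  have h4 : 0 < √(κ * lam n) := Real.sqrt_pos.2 h3
  refine ⟨h1, by unfold sc; positivity, ?_, ?_⟩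
  · unfold sc
    rw [div_le_iff₀ h4, ← Real.sqrt_sq hε.le, ← Real.sqrt_mul (sq_nonneg _)]
    refine Real.one_le_sqrt.2 ?_
    rw [div_le_iff₀ (by positivity)] at h2
    nlinarith
  · unfold sc
    rw [div_pow, Real.sq_sqrt h3.le]
    field_simp

/-- the equation for the derivatives -/
lemma eq_it (S : Sq W ρ lam u) (m : ℕ) (v : ℂ) : ∃ F : ℕ → ℂ → ℝ, (∀ i, Continuous (F i)) ∧
    ∀ n (s : ℝ), ∀ z ∈ W, lp (it (s • v) (u n) m) z =
      -(lam n * (ρ z * it (s • v) (u n) m z +
        ∑ i ∈ Finset.range m, s ^ (m - i) * (F i z * it (s • v) (u n) i z))) := by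
  obtain ⟨F, h1, h2, h3⟩ := leib S.rs m
  refine ⟨fun i => F i v, fun i => (h1 i v).continuous, fun n s z hz => ?_⟩
  rw [it_lp (S.us n)]
  have e1 := it_loc S.o (f := lp (u n)) (g := fun z => -lam n * (ρ z * u n z)) (fun z hz => by
    rw [S.eq n z hz]; ring) (s • v) m z hz
  rw [e1, it_cmul (S.rs.mul (S.us n))]
  simp only [h3 (s • v) (u n) (S.us n), h2]
  have e2 : ∀ i, s ^ (m - i) * F i v z * it (s • v) (u n) i z =
      s ^ (m - i) * (F i v z * it (s • v) (u n) i z) := fun i => by ring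
  simp only [e2]
  ring

/-- the derivatives are locally bounded -/
theorem lb_it (S : Sq W ρ lam u) {κ : ℝ} (hκ : 0 < κ) (v : ℂ) (m : ℕ) :
    LB W (fun n => it (sc κ lam n • v) (u n) m) := by
  induction m using Nat.strong_induction_on with
  | _ m ih =>
    cases m with
    | zero => exact S.lb
    | succ m =>
      obtain ⟨F, cF, hF⟩ := eq_it S m v
      have cit : ∀ i n, Continuous (it (sc κ lam n • v) (u n) i) := fun i n => (it_sm (S.us n) _ i).continuous
      -- restrict to large `n`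
      obtain ⟨r, hr⟩ : ∃ r : ℕ → ℂ → ℝ, r = fun n z => (-(1 / κ)) * (ρ z * it (sc κ lam n • v) (u n) m z +
        ∑ i ∈ Finset.range m, (sc κ lam n ^ (m - i) * F i z) * it (sc κ lam n • v) (u n) i z) := ⟨_, rfl⟩
      have cr : ∀ n, Continuous (r n) := by
        intro n
        rw [hr]
        exact continuous_const.mul ((S.rs.continuous.mul (cit m n)).add
          (continuous_finset_sum _ fun i _ => (continuous_const.mul (cF i)).mul (cit i n)))
      have lr : LB W r := by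
        rw [hr]
        refine LB.mul (f := fun _ _ => -(1 / κ)) (fun n => continuous_const)
          (u := fun n z => ρ z * it (sc κ lam n • v) (u n) m z +
            ∑ i ∈ Finset.range m, (sc κ lam n ^ (m - i) * F i z) * it (sc κ lam n • v) (u n) i z)
          (fun n => (S.rs.continuous.mul (cit m n)).add
            (continuous_finset_sum _ fun i _ => (continuous_const.mul (cF i)).mul (cit i n)))
          (fun K _ _ => ⟨|-(1 / κ)|, Eventually.of_forall fun n z _ => le_rfl⟩) ?_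
        refine LB.add (fun n => S.rs.continuous.mul (cit m n)) (fun n => continuous_finset_sum _ fun i _ =>
          (continuous_const.mul (cF i)).mul (cit i n)) ?_ ?_
        · refine LB.mul (f := fun _ => ρ) (fun n => S.rs.continuous) (cit m) (fun K hK _ => ?_)
            (ih m (Nat.lt_succ_self m))
          obtain ⟨B, -, hB⟩ := bdd_on hK S.rs.continuous
          exact ⟨B, Eventually.of_forall fun n => hB⟩
        · refine LB.sum _ (fun i _ n => (continuous_const.mul (cF i)).mul (cit i n)) fun i hi => ?_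
          have hi' := Finset.mem_range.1 hi
          refine LB.mul (f := fun n z => sc κ lam n ^ (m - i) * F i z) (fun n => continuous_const.mul (cF i))
            (cit i) (fun K hK _ => ?_) (ih i (by omega))
          obtain ⟨B, B0, hB⟩ := bdd_on hK (cF i)
          refine ⟨B, ?_⟩
          filter_upwards [sc_ev hκ S.tl one_pos] with n hn z hz
          rw [abs_mul, abs_pow, abs_of_pos hn.2.1]
          calc _ ≤ 1 * B := mul_le_mul (pow_le_one₀ hn.2.1.le hn.2.2.1) (hB z hz) (abs_nonneg _) zero_le_one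
            _ = B := one_mul B
      -- the energy bound for a modified sequence
      obtain ⟨s', hs'⟩ : ∃ s' : ℕ → ℝ, s' = fun n => if sc κ lam n ^ 2 * lam n = 1 / κ then sc κ lam n else 0 :=
        ⟨_, rfl⟩
      obtain ⟨r', hr'⟩ : ∃ r' : ℕ → ℂ → ℝ, r' = fun n z => if sc κ lam n ^ 2 * lam n = 1 / κ then r n z else 0 :=
        ⟨_, rfl⟩
      have ev := sc_ev hκ S.tl one_pos
      have key := lb_grad S.o (w := fun n => it (sc κ lam n • v) (u n) m) (r := r') (s := s')
        (fun n => it_sm (S.us n) _ m) (fun n => by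
          rw [hr']
          by_cases h : sc κ lam n ^ 2 * lam n = 1 / κ
          · simp only [h, if_true]; exact cr n
          · simp only [h, if_false]; exact continuous_const) (by
          filter_upwards [ev] with n hn
          rw [hs']
          simp only [hn.2.2.2, if_true]
          rw [abs_of_pos hn.2.1]; exact hn.2.2.1) (ih m (Nat.lt_succ_self m)) (by
          intro K hK hKW
          obtain ⟨C, hC⟩ := lr K hK hKW
          refine ⟨C, ?_⟩
          filter_upwards [ev, hC] with n hn h1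
          rw [hr']
          simp only [hn.2.2.2, if_true]
          exact h1) (by
          intro n z hz
          rw [hs', hr']
          by_cases h : sc κ lam n ^ 2 * lam n = 1 / κ
          · simp only [h, if_true]
            rw [hF n (sc κ lam n) z hz, hr]
            simp only
            have e3 : ∀ i, sc κ lam n ^ (m - i) * F i z * it (sc κ lam n • v) (u n) i z =
              sc κ lam n ^ (m - i) * (F i z * it (sc κ lam n • v) (u n) i z) := fun i => by ring
            simp only [e3]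
            rw [← h]; ring
          · simp only [h, if_false]; ring) v
      intro K hK hKW
      obtain ⟨C, hC⟩ := key K hK hKW
      refine ⟨C, ?_⟩
      filter_upwards [ev, hC] with n hn h1
      rw [hs'] at h1
      simp only [hn.2.2.2, if_true] at h1
      exact h1

end

end Pool.Agent.Q218.UB.Seq
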