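import Pool.Agent.Q218.UB.Lb
import Pool.Agent.Q218.UB.G

/-!
# Level sets of eigenfunctions (project UB), sequences: the local directional bound
-/

set_option autoImplicit false
open MeasureTheory Filter Topology
open scoped ContDiff ENNReal

namespace Pool.Agent.Q218.UB.Seq

noncomputable section

variable {W : Set ℂ} {ρ : ℂ → ℝ} {lam : ℕ → ℝ} {u : ℕ → ℂ → ℝ}

/-- the asymptotic energy inequality -/
theorem en_step (S : Sq W ρ lam u) {φ : ℂ → ℝ} (hφ : Tst W φ) {κ : ℝ} (hκ : 0 < κ)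
    (hρκ : ∀ z ∈ tsupport φ, ρ z ≤ κ) {v : ℂ} (hv : ‖v‖ ≤ 1) (m : ℕ) {ε : ℝ} (hε : 0 < ε) :
    ∀ᶠ n in atTop, ∫ z, φ z * it (sc κ lam n • v) (u n) (m + 1) z ^ 2 ≤
      (∫ z, φ z * it (sc κ lam n • v) (u n) m z ^ 2) + ε := by
  obtain ⟨F, cF, hF⟩ := eq_it S m v
  obtain ⟨h, hh⟩ : ∃ h : ℕ → ℕ → ℂ → ℝ, h = fun m n => it (sc κ lam n • v) (u n) m := ⟨_, rfl⟩
  have sm : ∀ m n, ContDiff ℝ ∞ (h m n) := fun m n => by rw [hh]; exact it_sm (S.us n) _ m
  have ch : ∀ m n, Continuous (h m n) := fun m n => (sm m n).continuous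
  have lb : ∀ m, LB W (h m) := fun m => by rw [hh]; exact lb_it S hκ v m
  have cl : Continuous (lp φ) := (lp_sm hφ.sm).continuous
  have sl : tsupport (lp φ) ⊆ tsupport φ := by
    refine closure_minimal (fun z hz => ?_) isClosed_closure
    by_contra hn
    apply hz
    have h1 : ∀ v, dv v (dv v φ) z = 0 := fun v => by
      have : z ∉ tsupport (dv v φ) := fun h => hn (dv_ts v h)
      show fderiv ℝ (dv v φ) z v = 0
      rw [fderiv_of_notMem_tsupport ℝ this]; rfl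
    unfold lp
    rw [h1, h1, add_zero]
  have cs : HasCompactSupport (lp φ) := IsCompact.of_isClosed_subset hφ.cs (isClosed_tsupport _) sl
  obtain ⟨C0, C00, a0⟩ := bil cl cs (sl.trans hφ.ts) (ch m) (ch m) (lb m) (lb m)
  have b1 : ∀ i : ℕ, ∃ C : ℝ, 0 ≤ C ∧ ∀ᶠ n in atTop, |∫ z, (φ z * F i z) * (h i n z * h m n z)| ≤ C := by
    intro i
    have ts : tsupport (fun z => φ z * F i z) ⊆ tsupport φ := tsupport_mul_subset_left
    exact bil (hφ.sm.continuous.mul (cF i)) (hφ.cs.mul_right (f' := F i)) (ts.trans hφ.ts) (ch i) (ch m)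
      (lb i) (lb m)
  choose C C1 a1 using b1
  obtain ⟨T, hT⟩ : ∃ T : ℝ, T = 1 / κ * (∑ i ∈ Finset.range m, C i) + C0 := ⟨_, rfl⟩
  have T0 : 0 ≤ T := by
    rw [hT]
    have := Finset.sum_nonneg (s := Finset.range m) fun i _ => C1 i
    positivity
  have ev1 : ∀ᶠ n in atTop, ∀ i ∈ Finset.range m, |∫ z, (φ z * F i z) * (h i n z * h m n z)| ≤ C i :=
    (eventually_all_finset _).2 fun i _ => a1 i
  filter_upwards [a0, ev1, sc_ev hκ S.tl one_pos, sc_ev hκ S.tl (ε := ε / (T + 1)) (by positivity)]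
    with n d0 d1 d2 d3
  obtain ⟨s, hs⟩ : ∃ s, s = sc κ lam n := ⟨_, rfl⟩
  rw [← hs] at d2 d3
  obtain ⟨p1, p2, p3, p4⟩ := d2
  have p5 := d3.2.2.1
  have e0 : ∀ m, it (sc κ lam n • v) (u n) m = h m n := fun m => by rw [hh]
  rw [e0, e0]
  have s1 : s ^ 2 ≤ s := by nlinarith
  -- first step
  have m1 : ∫ z, φ z * h (m + 1) n z ^ 2 ≤
      s ^ 2 * ∫ z, φ z * (dv 1 (h m n) z ^ 2 + dv Complex.I (h m n) z ^ 2) := by
    rw [← integral_const_mul]
    refine integral_mono (int_cc hφ.sm.continuous ((ch _ _).pow 2) hφ.cs)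
      ((int_cc hφ.sm.continuous (((dv_sm (sm m n) 1).continuous.pow 2).add
        ((dv_sm (sm m n) Complex.I).continuous.pow 2)) hφ.cs).const_mul _) fun z => ?_
    have e1 : h (m + 1) n z = s * dv v (h m n) z := by
      rw [← dv_smul, hs, hh]; rfl
    show φ z * h (m + 1) n z ^ 2 ≤ s ^ 2 * (φ z * (dv 1 (h m n) z ^ 2 + dv Complex.I (h m n) z ^ 2))
    rw [e1, mul_pow]
    have e2 := dv_sq (h m n) v z
    have e3 : ‖v‖ ^ 2 ≤ 1 := by nlinarith [norm_nonneg v]
    have e4 : 0 ≤ dv 1 (h m n) z ^ 2 + dv Complex.I (h m n) z ^ 2 := by positivity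
    have e5 : dv v (h m n) z ^ 2 ≤ dv 1 (h m n) z ^ 2 + dv Complex.I (h m n) z ^ 2 := by nlinarith
    have e6 := hφ.nn z
    calc φ z * (s ^ 2 * dv v (h m n) z ^ 2) = s ^ 2 * (φ z * dv v (h m n) z ^ 2) := by ring
      _ ≤ _ := by gcongr
  -- the energy identity
  have m2 : s ^ 2 * ∫ z, φ z * (dv 1 (h m n) z ^ 2 + dv Complex.I (h m n) z ^ 2) =
      1 / κ * (∫ z, (φ z * ρ z) * (h m n z * h m n z)) +
      1 / κ * (∑ i ∈ Finset.range m, s ^ (m - i) * ∫ z, (φ z * F i z) * (h i n z * h m n z)) +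
      s ^ 2 * (∫ z, lp φ z * (h m n z * h m n z)) / 2 := by
    rw [energy hφ.sm (sm m n) hφ.cs]
    have h4 : ∀ z, h m n z ^ 2 = h m n z * h m n z := fun z => by ring
    simp only [h4]
    have h3 : ∫ z, φ z * (h m n z * lp (h m n) z) =
        -(lam n * ((∫ z, (φ z * ρ z) * (h m n z * h m n z)) +
          ∑ i ∈ Finset.range m, s ^ (m - i) * ∫ z, (φ z * F i z) * (h i n z * h m n z))) := by
      have i1 : Integrable (fun z => (φ z * ρ z) * (h m n z * h m n z)) volume :=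
        int_cc (hφ.sm.continuous.mul S.rs.continuous) ((ch m n).mul (ch m n)) (hφ.cs.mul_right (f' := ρ))
      have i2 : ∀ i ∈ Finset.range m, Integrable (fun z => s ^ (m - i) *
          ((φ z * F i z) * (h i n z * h m n z))) volume := fun i _ =>
        (int_cc (hφ.sm.continuous.mul (cF i)) ((ch i n).mul (ch m n))
          (hφ.cs.mul_right (f' := F i))).const_mul _
      have e7 : ∀ i ∈ Finset.range m, s ^ (m - i) * ∫ z, (φ z * F i z) * (h i n z * h m n z) =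
          ∫ z, s ^ (m - i) * ((φ z * F i z) * (h i n z * h m n z)) := fun i _ =>
        (integral_const_mul _ _).symm
      rw [Finset.sum_congr rfl e7, ← integral_finsetSum _ i2, ← integral_add i1
        (integrable_finsetSum _ i2), ← integral_const_mul, ← integral_neg]
      refine integral_congr_ae (ae_of_all _ fun z => ?_)
      simp only
      by_cases hz : z ∈ tsupport φ
      · have := hF n s z (hφ.ts hz)
        have e8 : lp (h m n) z = -(lam n * (ρ z * h m n z +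
            ∑ i ∈ Finset.range m, s ^ (m - i) * (F i z * h i n z))) := by
          rw [hh]; simp only; rw [← hs]; exact this
        rw [e8]
        have e9 : ∑ i ∈ Finset.range m, s ^ (m - i) * (φ z * F i z * (h i n z * h m n z)) =
            φ z * h m n z * ∑ i ∈ Finset.range m, s ^ (m - i) * (F i z * h i n z) := by
          rw [Finset.mul_sum]
          exact Finset.sum_congr rfl fun i _ => by ring
        rw [e9]; ring
      · rw [image_eq_zero_of_notMem_tsupport hz]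
        simp
    rw [h3]
    have e10 : 1 / κ = s ^ 2 * lam n := p4.symm
    rw [e10]; ring
  -- estimates
  have m3 : 1 / κ * (∫ z, (φ z * ρ z) * (h m n z * h m n z)) ≤ ∫ z, φ z * h m n z ^ 2 := by
    rw [← integral_const_mul]
    refine integral_mono ((int_cc (hφ.sm.continuous.mul S.rs.continuous) ((ch m n).mul (ch m n))
      (hφ.cs.mul_right (f' := ρ))).const_mul _) (int_cc hφ.sm.continuous ((ch m n).pow 2) hφ.cs)
      fun z => ?_
    show 1 / κ * (φ z * ρ z * (h m n z * h m n z)) ≤ φ z * h m n z ^ 2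
    by_cases hz : z ∈ tsupport φ
    · have e1 := hρκ z hz
      have e2 : 1 / κ * ρ z ≤ 1 := by
        rw [one_div, inv_mul_le_iff₀ hκ]; linarith
      have e3 : 0 ≤ φ z * h m n z ^ 2 := mul_nonneg (hφ.nn z) (sq_nonneg _)
      calc 1 / κ * (φ z * ρ z * (h m n z * h m n z)) = 1 / κ * ρ z * (φ z * h m n z ^ 2) := by ring
        _ ≤ 1 * (φ z * h m n z ^ 2) := by gcongr
        _ = _ := one_mul _
    · rw [image_eq_zero_of_notMem_tsupport hz]
      simp
  have m4 : ∑ i ∈ Finset.range m, s ^ (m - i) * ∫ z, (φ z * F i z) * (h i n z * h m n z) ≤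
      s * ∑ i ∈ Finset.range m, C i := by
    rw [Finset.mul_sum]
    refine Finset.sum_le_sum fun i hi => ?_
    have e1 := d1 i hi
    have e2 : s ^ (m - i) ≤ s := by
      have : m - i ≠ 0 := by have := Finset.mem_range.1 hi; omega
      exact pow_le_of_le_one p2.le p3 this
    have e3 := (le_abs_self _).trans e1
    calc _ ≤ s ^ (m - i) * C i := mul_le_mul_of_nonneg_left e3 (by positivity)
      _ ≤ s * C i := mul_le_mul_of_nonneg_right e2 (C1 i)
  have m5 : s ^ 2 * (∫ z, lp φ z * (h m n z * h m n z)) / 2 ≤ s * C0 := by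
    have e3 := (le_abs_self _).trans d0
    have e4 : s ^ 2 * (∫ z, lp φ z * (h m n z * h m n z)) ≤ s * C0 := by
      calc _ ≤ s ^ 2 * C0 := mul_le_mul_of_nonneg_left e3 (sq_nonneg _)
        _ ≤ s * C0 := mul_le_mul_of_nonneg_right s1 C00
    have e5 : 0 ≤ s * C0 := by positivity
    linarith
  have m6 : 1 / κ * (∑ i ∈ Finset.range m, s ^ (m - i) * ∫ z, (φ z * F i z) * (h i n z * h m n z)) ≤
      1 / κ * (s * ∑ i ∈ Finset.range m, C i) := mul_le_mul_of_nonneg_left m4 (by positivity)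
  have m7 : s * T ≤ ε := by
    calc s * T ≤ ε / (T + 1) * T := mul_le_mul_of_nonneg_right p5 T0
      _ ≤ ε := by
        rw [div_mul_eq_mul_div, div_le_iff₀ (by positivity)]
        nlinarith
  have m8 : 1 / κ * (s * ∑ i ∈ Finset.range m, C i) + s * C0 = s * T := by rw [hT]; ring
  linarith

theorem en_all (S : Sq W ρ lam u) {φ : ℂ → ℝ} (hφ : Tst W φ) {κ : ℝ} (hκ : 0 < κ)
    (hρκ : ∀ z ∈ tsupport φ, ρ z ≤ κ) {v : ℂ} (hv : ‖v‖ ≤ 1) (m : ℕ) : ∀ {ε : ℝ}, 0 < ε →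
    ∀ᶠ n in atTop, ∫ z, φ z * it (sc κ lam n • v) (u n) m z ^ 2 ≤ (∫ z, φ z * u n z ^ 2) + ε := by
  induction m with
  | zero =>
    intro ε hε
    refine Eventually.of_forall fun n => ?_
    show ∫ z, φ z * u n z ^ 2 ≤ _
    linarith
  | succ m ih =>
    intro ε hε
    filter_upwards [ih (half_pos hε), en_step S hφ hκ hρκ hv m (half_pos hε)] with n h1 h2
    linarith

/-! ### the mean of the second derivative -/

lemma line {f : ℂ → ℝ} (hf : ContDiff ℝ ∞ f) (w z : ℂ) (t : ℝ) :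
    HasDerivAt (fun t : ℝ => f (z + t • w)) (dv w f (z + t • w)) t := by
  have h1 : HasDerivAt (fun t : ℝ => z + t • w) ((1 : ℝ) • w) t :=
    ((hasDerivAt_id t).smul_const w).const_add z
  rw [one_smul] at h1
  exact (df hf (z + t • w)).hasFDerivAt.comp_hasDerivAt t h1

lemma tay_sm {g : ℕ → ℂ → ℝ} (hg : ∀ n, ContDiff ℝ ∞ (g n)) (m : ℕ) (y : ℝ) :
    ContDiff ℝ ∞ (fun x => tay m y (fun n => g n x)) := by
  unfold tay
  exact ContDiff.sum fun n _ => contDiff_const.mul (Complex.ofRealCLM.contDiff.comp (hg n))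

lemma lg_sm {δ : ℝ} (hδ : 0 < δ) {f : ℂ → ℂ} (hf : ContDiff ℝ ∞ f) :
    ContDiff ℝ ∞ (fun z => lg δ (f z)) := by
  unfold lg
  have h1 : ContDiff ℝ ∞ fun z => QQ δ (f z) := by
    unfold QQ
    exact (((Complex.reCLM.contDiff.comp hf).pow 2).add ((Complex.imCLM.contDiff.comp hf).pow 2)).add
      contDiff_const
  exact (h1.log fun z => (QQ_pos hδ _).ne').div_const 2

lemma dW2 {δ : ℝ} (hδ : 0 < δ) {f : ℂ → ℝ} (hf : ContDiff ℝ ∞ f) (w : ℂ) (N : ℕ) (a y : ℝ) (z : ℂ) :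
    dv w (dv w fun z => lg δ (tay (N + 2) y (fun n => it w f n z) - a)) z =
      W2 δ N a y (fun n => it w f n z) := by
  have sg : ∀ n, ContDiff ℝ ∞ (it w f n) := fun n => it_sm hf w n
  have g0 : ∀ z n t, HasDerivAt (fun t : ℝ => it w f n (z + t • w)) (it w f (n + 1) (z + t • w)) t :=
    fun z n t => line (sg n) w z t
  obtain ⟨G, hG⟩ : ∃ G : ℂ → ℝ, G = fun z => lg δ (tay (N + 2) y (fun n => it w f n z) - a) := ⟨_, rfl⟩
  have sG : ContDiff ℝ ∞ G := by
    rw [hG]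
    exact lg_sm hδ ((tay_sm sg (N + 2) y).sub contDiff_const)
  have z0 : ∀ z t, HasDerivAt (fun t : ℝ => tay (N + 2) y (fun n => it w f n (z + t • w)) - (a : ℂ))
      (tay (N + 2) y (shf fun n => it w f n (z + t • w))) t := fun z t =>
    (hd_tay_x (g := fun n t => it w f n (z + t • w)) (g0 z) (N + 2) y t).sub_const (a : ℂ)
  have z1 : ∀ z t, HasDerivAt (fun t : ℝ => tay (N + 2) y (shf fun n => it w f n (z + t • w)))
      (tay (N + 2) y (shf (shf fun n => it w f n (z + t • w)))) t := fun z t =>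
    hd_tay_x (g := fun n t => it w f (n + 1) (z + t • w)) (fun n t => g0 z (n + 1) t) (N + 2) y t
  have d1 : ∀ z, dv w G z = lg1 δ (tay (N + 2) y (fun n => it w f n z) - a)
      (tay (N + 2) y (shf fun n => it w f n z)) := by
    intro z
    have h1 := line sG w z 0
    have h2 : HasDerivAt (fun t : ℝ => G (z + t • w)) (lg1 δ (tay (N + 2) y
        (fun n => it w f n (z + (0 : ℝ) • w)) - a) (tay (N + 2) y (shf fun n => it w f n (z + (0 : ℝ) • w)))) 0 := by
      rw [hG]; exact hd_lg hδ (z0 z 0)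
    have h3 := h1.unique h2
    simpa only [zero_smul, add_zero] using h3
  rw [← hG]
  have h1 := line (dv_sm sG w) w z 0
  have h2 : HasDerivAt (fun t : ℝ => dv w G (z + t • w)) (W2 δ N a y
      (fun n => it w f n (z + (0 : ℝ) • w))) 0 := by
    have : (fun t : ℝ => dv w G (z + t • w)) = fun t : ℝ => lg1 δ (tay (N + 2) y
        (fun n => it w f n (z + t • w)) - a) (tay (N + 2) y (shf fun n => it w f n (z + t • w))) :=
      funext fun t => d1 _
    rw [this]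
    exact hd_lg1 hδ (z0 z 0) (z1 z 0)
  have h3 := h1.unique h2
  simpa only [zero_smul, add_zero] using h3

lemma lg_abs' {δ : ℝ} (hδ : 0 < δ) (z : ℂ) : |lg δ z| ≤ ‖z‖ ^ 2 + (δ ^ 2 + 1 + |Real.log δ|) := by
  rw [abs_le]
  have h2 := lg_ge hδ z
  have h3 := lg_le hδ one_pos z
  have h4 := neg_abs_le (Real.log δ)
  have h5 := abs_nonneg (Real.log δ)
  have h7 := sq_nonneg ‖z‖
  have h8 := sq_nonneg δ
  rw [Real.log_one] at h3
  simp only [div_one] at h3
  constructor <;> linarith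

lemma tay_sq (M : ℕ) {y H A : ℝ} (h0 : 0 ≤ y) (hy : y ≤ H) (hH : 0 ≤ H) (h : ℕ → ℝ) {a : ℝ} (ha : |a| ≤ A) :
    ‖tay M y h - a‖ ^ 2 ≤ 2 * (∑ n ∈ Finset.range M, (H ^ n / n.factorial) ^ 2) *
      (∑ n ∈ Finset.range M, h n ^ 2) + 2 * A ^ 2 := by
  have h1 := tay_norm M (y := y) (H := H) (by rw [abs_of_nonneg h0]; exact hy) h
  have h2 : (∑ n ∈ Finset.range M, H ^ n / n.factorial * |h n|) ^ 2 ≤
      (∑ n ∈ Finset.range M, (H ^ n / n.factorial) ^ 2) * ∑ n ∈ Finset.range M, h n ^ 2 := by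
    refine (Finset.sum_mul_sq_le_sq_mul_sq _ _ _).trans (le_of_eq ?_)
    simp only [sq_abs]
  have h3 : ‖tay M y h - a‖ ≤ ‖tay M y h‖ + |a| := by
    refine (norm_sub_le _ _).trans (le_of_eq ?_)
    rw [Complex.norm_real, Real.norm_eq_abs]
  have h4 : ‖tay M y h‖ ^ 2 ≤ (∑ n ∈ Finset.range M, H ^ n / n.factorial * |h n|) ^ 2 :=
    pow_le_pow_left₀ (norm_nonneg _) h1 2
  have h5 : |a| ^ 2 ≤ A ^ 2 := pow_le_pow_left₀ (abs_nonneg _) ha 2
  have h6 : ‖tay M y h - a‖ ^ 2 ≤ (‖tay M y h‖ + |a|) ^ 2 := pow_le_pow_left₀ (norm_nonneg _) h3 2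
  nlinarith [sq_nonneg (‖tay M y h‖ - |a|)]

/-- the mean of the second derivative tends to zero -/
theorem w2_mean (S : Sq W ρ lam u) {φ : ℂ → ℝ} (hφ : Tst W φ) {κ : ℝ} (hκ : 0 < κ) (v : ℂ) (N : ℕ)
    {δ H A : ℝ} (hδ : 0 < δ) (hH : 0 ≤ H) {ε : ℝ} (hε : 0 < ε) :
    ∀ᶠ n in atTop, ∀ a, |a| ≤ A → ∀ y, 0 ≤ y → y ≤ H →
      ∫ z, φ z * W2 δ N a y (fun m => it (sc κ lam n • v) (u n) m z) ≤ ε := by
  obtain ⟨h, hh⟩ : ∃ h : ℕ → ℕ → ℂ → ℝ, h = fun m n => it (sc κ lam n • v) (u n) m := ⟨_, rfl⟩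
  have sm : ∀ m n, ContDiff ℝ ∞ (h m n) := fun m n => by rw [hh]; exact it_sm (S.us n) _ m
  have ch : ∀ m n, Continuous (h m n) := fun m n => (sm m n).continuous
  have lb : ∀ m, LB W (h m) := fun m => by rw [hh]; exact lb_it S hκ v m
  obtain ⟨ψ, hψ⟩ : ∃ ψ : ℂ → ℝ, ψ = dv v (dv v φ) := ⟨_, rfl⟩
  have sψ : ContDiff ℝ ∞ ψ := by rw [hψ]; exact dv_sm (dv_sm hφ.sm v) v
  have tψ : tsupport ψ ⊆ tsupport φ := by rw [hψ]; exact (dv_ts v).trans (dv_ts v)
  have hK : IsCompact (tsupport φ) := hφ.cs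
  obtain ⟨B, B0, hB⟩ := bdd_on hK sψ.continuous
  have b1 : ∀ i : ℕ, ∃ C : ℝ, 0 ≤ C ∧ ∀ᶠ n in atTop, ∫ z in tsupport φ, h i n z ^ 2 ≤ C := fun i =>
    (lb i).nn hK hφ.ts
  choose C C1 a1 using b1
  obtain ⟨Q, hQ⟩ : ∃ Q : ℝ, Q = ∑ n ∈ Finset.range (N + 2), (H ^ n / n.factorial) ^ 2 := ⟨_, rfl⟩
  have Q0 : 0 ≤ Q := by rw [hQ]; exact Finset.sum_nonneg fun n _ => sq_nonneg _
  obtain ⟨R, hR⟩ : ∃ R : ℝ, R = 2 * A ^ 2 + (δ ^ 2 + 1 + |Real.log δ|) := ⟨_, rfl⟩
  have R0 : 0 ≤ R := by rw [hR]; positivity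
  obtain ⟨T, hT⟩ : ∃ T : ℝ, T = B * (2 * Q * (∑ i ∈ Finset.range (N + 2), C i) +
    R * (volume (tsupport φ)).toReal) := ⟨_, rfl⟩
  have T0 : 0 ≤ T := by
    rw [hT]
    have := Finset.sum_nonneg (s := Finset.range (N + 2)) fun i _ => C1 i
    positivity
  have ev1 : ∀ᶠ n in atTop, ∀ i ∈ Finset.range (N + 2), ∫ z in tsupport φ, h i n z ^ 2 ≤ C i :=
    (eventually_all_finset _).2 fun i _ => a1 i
  filter_upwards [ev1, sc_ev hκ S.tl one_pos, sc_ev hκ S.tl (ε := ε / (T + 1)) (by positivity)]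
    with n d1 d2 d3
  intro a ha y y0 yH
  obtain ⟨s, hs⟩ : ∃ s, s = sc κ lam n := ⟨_, rfl⟩
  rw [← hs] at d2 d3
  obtain ⟨p1, p2, p3, p4⟩ := d2
  have p5 := d3.2.2.1
  obtain ⟨G, hG⟩ : ∃ G : ℂ → ℝ, G = fun z => lg δ (tay (N + 2) y (fun m => h m n z) - a) := ⟨_, rfl⟩
  have sG : ContDiff ℝ ∞ G := by
    rw [hG]
    exact lg_sm hδ ((tay_sm (fun m => sm m n) (N + 2) y).sub contDiff_const)
  have e1 : ∫ z, φ z * W2 δ N a y (fun m => it (sc κ lam n • v) (u n) m z) = s ^ 2 * ∫ z, ψ z * G z := by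
    have h1 : ∀ z, W2 δ N a y (fun m => it (sc κ lam n • v) (u n) m z) =
        dv (s • v) (dv (s • v) G) z := by
      intro z
      rw [← dW2 hδ (S.us n), hG, hh, hs]
    simp only [h1]
    rw [ibp2 hφ.sm sG hφ.cs, ← integral_const_mul]
    refine integral_congr_ae (ae_of_all _ fun z => ?_)
    simp only
    have h2 : dv (s • v) φ = fun z => s * dv v φ z := funext fun z => dv_smul _ _ _ _
    rw [dv_smul, h2, dv_cmul (dv_sm hφ.sm v), hψ]; ring
  rw [e1]
  have e2 : ∫ z, ψ z * G z ≤ T := by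
    have h1 : ∫ z, ψ z * G z = ∫ z in tsupport φ, ψ z * G z := by
      refine (setIntegral_eq_integral_of_forall_compl_eq_zero fun z hz => ?_).symm
      rw [image_eq_zero_of_notMem_tsupport (fun h => hz (tψ h)), zero_mul]
    have i1 : ∀ i ∈ Finset.range (N + 2), IntegrableOn (fun z => h i n z ^ 2) (tsupport φ) :=
      fun i _ => iK hK ((ch i n).pow 2)
    have i2 : IntegrableOn (fun z => 2 * Q * ∑ i ∈ Finset.range (N + 2), h i n z ^ 2) (tsupport φ) :=
      (integrable_finsetSum _ i1).const_mul _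
    have i3 : IntegrableOn (fun _ : ℂ => R) (tsupport φ) := integrableOn_const hK.measure_lt_top.ne
    rw [h1]
    calc ∫ z in tsupport φ, ψ z * G z ≤
        ∫ z in tsupport φ, B * (2 * Q * (∑ i ∈ Finset.range (N + 2), h i n z ^ 2) + R) := by
          refine setIntegral_mono_on (iK hK (sψ.continuous.mul sG.continuous))
            ((i2.add i3).const_mul B) hK.measurableSet fun z hz => ?_
          have q1 : |G z| ≤ 2 * Q * (∑ i ∈ Finset.range (N + 2), h i n z ^ 2) + R := by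
            rw [hG, hR, hQ]
            simp only
            have := tay_sq (N + 2) y0 yH hH (fun m => h m n z) ha
            have := lg_abs' hδ (tay (N + 2) y (fun m => h m n z) - a)
            linarith
          calc ψ z * G z ≤ |ψ z * G z| := le_abs_self _
            _ = |ψ z| * |G z| := abs_mul _ _
            _ ≤ B * _ := mul_le_mul (hB z hz) q1 (abs_nonneg _) B0
      _ = B * (2 * Q * (∑ i ∈ Finset.range (N + 2), ∫ z in tsupport φ, h i n z ^ 2) +
            R * (volume (tsupport φ)).toReal) := by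
          rw [integral_const_mul, integral_add i2 i3, integral_const_mul, integral_finsetSum _ i1,
            setIntegral_const, smul_eq_mul, mul_comm R]
          rfl
      _ ≤ T := by
          rw [hT]
          have := Finset.sum_le_sum d1
          gcongr
  calc s ^ 2 * ∫ z, ψ z * G z ≤ s ^ 2 * T := mul_le_mul_of_nonneg_left e2 (sq_nonneg _)
    _ ≤ s * T := mul_le_mul_of_nonneg_right (by nlinarith) T0
    _ ≤ ε / (T + 1) * T := mul_le_mul_of_nonneg_right p5 T0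
    _ ≤ ε := by
        rw [div_mul_eq_mul_div, div_le_iff₀ (by positivity)]
        nlinarith

end

end Pool.Agent.Q218.UB.Seq
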