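import Pool.Agent.Q218.UB.Lc
import Pool.Agent.Q218.UB.H

/-!
# Level sets of eigenfunctions (project UB), sequences: the bound for test functions
-/

set_option autoImplicit false
open MeasureTheory Filter Topology
open scoped ContDiff ENNReal

namespace Pool.Agent.Q218.UB.Seq

noncomputable section

variable {W : Set ℂ} {ρ : ℂ → ℝ} {lam : ℕ → ℝ} {u : ℕ → ℂ → ℝ}

/-- the probability measure of a test function -/
def pm (φ : ℂ → ℝ) : Measure ℂ := volume.withDensity fun z => ENNReal.ofReal (φ z / ∫ z, φ z)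

lemma pm_m {φ : ℂ → ℝ} (hφ : Tst W φ) : Measurable fun z => ENNReal.ofReal (φ z / ∫ z, φ z) :=
  (hφ.sm.continuous.measurable.div_const _).ennreal_ofReal

lemma phi_int {φ : ℂ → ℝ} (hφ : Tst W φ) : Integrable φ volume :=
  hφ.sm.continuous.integrable_of_hasCompactSupport hφ.cs

lemma pm_prob {φ : ℂ → ℝ} (hφ : Tst W φ) (hc : 0 < ∫ z, φ z) : IsProbabilityMeasure (pm φ) := by
  constructor
  unfold pm
  rw [withDensity_apply _ MeasurableSet.univ, Measure.restrict_univ,
    ← ofReal_integral_eq_lintegral_ofReal ((phi_int hφ).div_const _)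
      (ae_of_all _ fun z => div_nonneg (hφ.nn z) hc.le), integral_div, div_self hc.ne', ENNReal.ofReal_one]

lemma pm_toReal {φ : ℂ → ℝ} (hφ : Tst W φ) (hc : 0 < ∫ z, φ z) (z : ℂ) :
    (ENNReal.ofReal (φ z / ∫ z, φ z)).toReal = φ z / ∫ z, φ z :=
  ENNReal.toReal_ofReal (div_nonneg (hφ.nn z) hc.le)

lemma pm_integral {φ : ℂ → ℝ} (hφ : Tst W φ) (hc : 0 < ∫ z, φ z) (g : ℂ → ℝ) :
    ∫ z, g z ∂(pm φ) = (∫ z, φ z * g z) / ∫ z, φ z := by
  unfold pm
  rw [integral_withDensity_eq_integral_toReal_smul (pm_m hφ) (ae_of_all _ fun z => ENNReal.ofReal_lt_top)]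
  simp only [pm_toReal hφ hc, smul_eq_mul]
  rw [← integral_div]
  refine integral_congr_ae (ae_of_all _ fun z => ?_)
  simp only; ring

lemma pm_integrable {φ : ℂ → ℝ} (hφ : Tst W φ) (hc : 0 < ∫ z, φ z) {g : ℂ → ℝ} (hg : Continuous g) :
    Integrable g (pm φ) := by
  unfold pm
  rw [integrable_withDensity_iff_integrable_smul' (pm_m hφ) (ae_of_all _ fun z => ENNReal.ofReal_lt_top)]
  simp only [pm_toReal hφ hc, smul_eq_mul]
  have h1 : Integrable (fun z => φ z * g z) volume := int_cc hφ.sm.continuous hg hφ.cs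
  refine (h1.div_const (∫ z, φ z)).congr (ae_of_all _ fun z => ?_)
  simp only; ring

/-- **the directional bound for test functions** -/
theorem core (S : Sq W ρ lam u) {φ : ℂ → ℝ} (hφ : Tst W φ) (hc : 0 < ∫ z, φ z) {κ : ℝ} (hκ : 0 < κ)
    (hρκ : ∀ z ∈ tsupport φ, ρ z ≤ κ) {v : ℂ} (hv : ‖v‖ ≤ 1) {a b η : ℝ} (hab : a ≤ b) (hη : 0 < η) :
    ∀ᶠ n in atTop, ∫⁻ z in {z | a ≤ u n z ∧ u n z ≤ b}, ENNReal.ofReal (φ z * |dv v (u n) z|) ≤
      ENNReal.ofReal (√(κ * lam n) * (∫ z, φ z) * ((b - a) / Real.pi + η)) := by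
  have hpi := Real.pi_pos
  obtain ⟨c, hcd⟩ : ∃ c, c = ∫ z, φ z := ⟨_, rfl⟩
  have c0 : 0 < c := by rw [hcd]; exact hc
  obtain ⟨k, hk, hk2⟩ : ∃ k : ℝ, 0 < k ∧ (b - a + 4 * k) / Real.pi + k ≤ (b - a) / Real.pi + η := by
    refine ⟨η / (4 / Real.pi + 1), by positivity, le_of_eq ?_⟩
    field_simp
    ring
  -- the bound of the second moments
  obtain ⟨C, C0, hC⟩ := bil hφ.sm.continuous hφ.cs hφ.ts (fun n => (S.us n).continuous)
    (fun n => (S.us n).continuous) S.lb S.lb
  obtain ⟨M, hM⟩ : ∃ M : ℝ, M = √((C + 1) / c) := ⟨_, rfl⟩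
  have hM2 : M ^ 2 = (C + 1) / c := by rw [hM, Real.sq_sqrt (by positivity)]
  obtain ⟨δ, H, ε, N, hδ, hH, hε, habs⟩ := abs_thm M (α := a - 2 * k) (β := b + 2 * k) (k := k) (ε0 := k)
    (by linarith) hk hk
  obtain ⟨A, hA⟩ : ∃ A, A = max |a - 2 * k| |b + 2 * k| := ⟨_, rfl⟩
  have ev1 : ∀ᶠ n in atTop, ∀ m ∈ Finset.range (N + 4),
      ∫ z, φ z * it (sc κ lam n • v) (u n) m z ^ 2 ≤ (∫ z, φ z * u n z ^ 2) + 1 :=
    (eventually_all_finset _).2 fun m _ => en_all S hφ hκ hρκ hv m one_pos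
  have ev2 := w2_mean S hφ hκ v N (A := A) hδ hH.le (ε := c * ε) (by positivity)
  filter_upwards [hC, ev1, ev2, sc_ev hκ S.tl one_pos] with n d0 d1 d2 d3
  obtain ⟨p1, p2, p3, p4⟩ := d3
  have : IsProbabilityMeasure (pm φ) := pm_prob hφ hc
  obtain ⟨h, hh⟩ : ∃ h : ℕ → ℂ → ℝ, h = fun m => it (sc κ lam n • v) (u n) m := ⟨_, rfl⟩
  have ch : ∀ m, Continuous (h m) := fun m => by rw [hh]; exact (it_sm (S.us n) _ m).continuous
  have D : Dat (pm φ) (N + 4) M h := by
    refine ⟨fun m => (ch m).measurable, fun m _ => pm_integrable hφ hc ((ch m).pow 2), fun m hm => ?_⟩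
    rw [pm_integral hφ hc, hM2, ← hcd]
    refine div_le_div_of_nonneg_right ?_ c0.le
    have h1 := d1 m (Finset.mem_range.2 hm)
    have h2 := (le_abs_self _).trans d0
    have h3 : ∫ z, φ z * u n z ^ 2 = ∫ z, φ z * (u n z * u n z) :=
      integral_congr_ae (ae_of_all _ fun z => by simp only; ring)
    rw [h3] at h1
    rw [hh]
    linarith
  have key := habs ℂ (pm φ) h D (fun a' h1 h2 y y0 yH => by
    have ha' : |a'| ≤ A := by
      rw [hA, abs_le]
      have e1 := neg_abs_le (a - 2 * k)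
      have e2 := le_abs_self (b + 2 * k)
      have e3 := le_max_left |a - 2 * k| |b + 2 * k|
      have e4 := le_max_right |a - 2 * k| |b + 2 * k|
      constructor <;> linarith
    have h3 := d2 a' ha' y y0 yH
    rw [pm_integral hφ hc, ← hcd, div_le_iff₀ c0, mul_comm ε c, hh]
    exact h3)
  have e1 : {x | a - 2 * k + 2 * k ≤ h 0 x ∧ h 0 x ≤ b + 2 * k - 2 * k} =
      {z | a ≤ u n z ∧ u n z ≤ b} := by
    rw [hh]
    ext z
    simp only [Set.mem_ofPred_eq, sub_add_cancel, add_sub_cancel_right]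
    rfl
  rw [e1] at key
  have mS : MeasurableSet {z | a ≤ u n z ∧ u n z ≤ b} :=
    (measurableSet_le measurable_const (S.us n).continuous.measurable).inter
      (measurableSet_le (S.us n).continuous.measurable measurable_const)
  have m1 : Measurable fun x => ENNReal.ofReal |h 1 x| := (ch 1).measurable.abs.ennreal_ofReal
  unfold pm at key
  rw [setLIntegral_withDensity_eq_setLIntegral_mul _ (pm_m hφ) m1 mS] at key
  have e2 : ∀ z, ((fun z => ENNReal.ofReal (φ z / ∫ z, φ z)) * fun x => ENNReal.ofReal |h 1 x|) z =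
      ENNReal.ofReal (sc κ lam n / c) * ENNReal.ofReal (φ z * |dv v (u n) z|) := by
    intro z
    have e3 : h 1 z = sc κ lam n * dv v (u n) z := by
      rw [← dv_smul, hh]; rfl
    simp only [Pi.mul_apply]
    rw [e3, abs_mul, abs_of_pos p2, ← hcd, ← ENNReal.ofReal_mul (div_nonneg (hφ.nn z) c0.le),
      ← ENNReal.ofReal_mul (by positivity)]
    congr 1; ring
  simp only [e2] at key
  rw [lintegral_const_mul _ (by
    exact ((hφ.sm.continuous.mul (dv_sm (S.us n) v).continuous.abs).measurable).ennreal_ofReal)] at key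
  have e4 : b + 2 * k - (a - 2 * k) = b - a + 4 * k := by ring
  rw [e4] at key
  have key2 := key.trans (ENNReal.ofReal_le_ofReal hk2)
  have e5 : 0 < sc κ lam n / c := by positivity
  have e6 : √(κ * lam n) * c * ((b - a) / Real.pi + η) = (sc κ lam n / c)⁻¹ * ((b - a) / Real.pi + η) := by
    unfold sc
    rw [inv_div, div_div_eq_mul_div, div_one, mul_comm c]
  rw [← hcd, e6, ENNReal.ofReal_mul (by positivity), ENNReal.ofReal_inv_of_pos e5,
    mul_comm, ← div_eq_mul_inv, ENNReal.le_div_iff_mul_le (Or.inl (ENNReal.ofReal_pos.2 e5).ne')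
    (Or.inl ENNReal.ofReal_ne_top), mul_comm]
  exact key2

/-- the length of the gradient -/
def gd (f : ℂ → ℝ) (z : ℂ) : ℝ := √(dv 1 f z ^ 2 + dv Complex.I f z ^ 2)

lemma gd_cont {f : ℂ → ℝ} (hf : ContDiff ℝ ∞ f) : Continuous (gd f) := by
  unfold gd
  exact (((dv_sm hf 1).continuous.pow 2).add ((dv_sm hf Complex.I).continuous.pow 2)).sqrt

lemma gd_nn (f : ℂ → ℝ) (z : ℂ) : 0 ≤ gd f z := Real.sqrt_nonneg _

/-- unit vectors -/
def ud (t : ℝ) : ℂ := ⟨Real.cos t, Real.sin t⟩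

lemma ud_norm (t : ℝ) : ‖ud t‖ = 1 := by
  have h : ‖ud t‖ ^ 2 = 1 := by
    rw [Complex.sq_norm, Complex.normSq_apply]
    show Real.cos t * Real.cos t + Real.sin t * Real.sin t = 1
    have := Real.cos_sq_add_sin_sq t
    nlinarith
  nlinarith [norm_nonneg (ud t)]

lemma dv_ud (f : ℂ → ℝ) (t : ℝ) (z : ℂ) :
    dv (ud t) f z = Real.cos t * dv 1 f z + Real.sin t * dv Complex.I f z := dv_vec f (ud t) z

lemma dv_gd (f : ℂ → ℝ) {v : ℂ} (hv : ‖v‖ ≤ 1) (z : ℂ) : |dv v f z| ≤ gd f z := by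
  unfold gd
  refine Real.abs_le_sqrt ((dv_sq f v z).trans ?_)
  have : ‖v‖ ^ 2 ≤ 1 := by nlinarith [norm_nonneg v]
  have h2 : 0 ≤ dv 1 f z ^ 2 + dv Complex.I f z ^ 2 := by positivity
  nlinarith

lemma lint_dv (f : ℂ → ℝ) (z : ℂ) {c : ℝ} (hc : 0 ≤ c) :
    ∫⁻ t in Set.Ioc 0 Real.pi, ENNReal.ofReal (c * |dv (ud t) f z|) =
      2 * ENNReal.ofReal (c * gd f z) := by
  simp only [dv_ud]
  have hcn : Continuous fun t => c * |Real.cos t * dv 1 f z + Real.sin t * dv Complex.I f z| := by fun_prop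
  rw [← ofReal_integral_eq_lintegral_ofReal (hcn.intervalIntegrable 0 Real.pi).1
    (ae_of_all _ fun t => mul_nonneg hc (abs_nonneg _)), ← intervalIntegral.integral_of_le Real.pi_pos.le,
    intervalIntegral.integral_const_mul, int_abs_lin]
  have : c * (2 * √(dv 1 f z ^ 2 + dv Complex.I f z ^ 2)) = 2 * (c * gd f z) := by unfold gd; ring
  rw [this, ENNReal.ofReal_mul (by norm_num)]
  norm_num

/-- the normalised integral of a function `G` of the gradient over the set `a ≤ u ≤ b` -/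
def GI (G : (ℂ → ℝ) → ℂ → ℝ) (u : ℕ → ℂ → ℝ) (lam : ℕ → ℝ) (a b : ℝ) (f : ℂ → ℝ≥0∞) (n : ℕ) : ℝ≥0∞ :=
  (∫⁻ z in {z | a ≤ u n z ∧ u n z ≤ b}, f z * ENNReal.ofReal (G (u n) z)) / ENNReal.ofReal √(lam n)

/-- a crude bound of the gradient -/
lemma grad_L2 (S : Sq W ρ lam u) {K : Set ℂ} (hK : IsCompact K) (hKW : K ⊆ W) :
    ∃ C : ℝ, 0 ≤ C ∧ ∀ᶠ n in atTop, ∫ z in K, gd (u n) z ^ 2 ≤ C * lam n := by
  have h1 := (lb_it S one_pos 1 1).nn hK hKW
  have h2 := (lb_it S one_pos Complex.I 1).nn hK hKW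
  obtain ⟨C1, C10, a1⟩ := h1
  obtain ⟨C2, C20, a2⟩ := h2
  refine ⟨C1 + C2, by positivity, ?_⟩
  filter_upwards [a1, a2, sc_ev one_pos S.tl one_pos] with n b1 b2 b3
  obtain ⟨p1, p2, p3, p4⟩ := b3
  have e1 : ∀ v z, it (sc 1 lam n • v) (u n) 1 z = sc 1 lam n * dv v (u n) z := fun v z => by
    rw [← dv_smul]; rfl
  simp only [e1, mul_pow] at b1 b2
  rw [integral_const_mul] at b1 b2
  have e2 : ∫ z in K, gd (u n) z ^ 2 = (∫ z in K, dv 1 (u n) z ^ 2) + ∫ z in K, dv Complex.I (u n) z ^ 2 := by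
    have i1 : ∀ v, Integrable (fun z => dv v (u n) z ^ 2) (volume.restrict K) := fun v =>
      iK hK ((dv_sm (S.us n) v).continuous.pow 2)
    rw [← integral_add (i1 1) (i1 Complex.I)]
    refine integral_congr_ae (ae_of_all _ fun z => ?_)
    unfold gd
    simp only
    rw [Real.sq_sqrt (by positivity)]
  have e3 : sc 1 lam n ^ 2 = 1 / lam n := by
    rw [div_one] at p4
    rw [eq_div_iff p1.ne']; exact p4
  rw [e3, one_div, inv_mul_le_iff₀ p1] at b1 b2
  rw [e2]
  linarith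

/-- **the bound of the gradient for test functions** -/
theorem core_grad (S : Sq W ρ lam u) {φ : ℂ → ℝ} (hφ : Tst W φ) {κ : ℝ} (hκ : 0 < κ)
    (hρκ : ∀ z ∈ tsupport φ, ρ z ≤ κ) {a b : ℝ} (hab : a ≤ b) :
    limsup (GI gd u lam a b fun z => ENNReal.ofReal (φ z)) atTop ≤
      ENNReal.ofReal (√κ * ((b - a) * (1 / 2)) * ∫ z, φ z) := by
  have hpi := Real.pi_pos
  rcases (integral_nonneg (μ := volume) (f := φ) fun z => hφ.nn z).eq_or_lt with hc | hc
  · -- the zero function
    have h0 : ∀ z, φ z = 0 := by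
      have h1 := (integral_eq_zero_iff_of_nonneg (μ := volume) hφ.nn (phi_int hφ)).1 hc.symm
      have h2 : φ = 0 := (Continuous.ae_eq_iff_eq volume hφ.sm.continuous continuous_const).1 h1
      intro z; rw [h2]; rfl
    have : GI gd u lam a b (fun z => ENNReal.ofReal (φ z)) = fun _ => 0 := by
      funext n
      unfold GI
      simp [h0]
    rw [this]; simp
  -- measurability
  have mS : ∀ n, MeasurableSet {z | a ≤ u n z ∧ u n z ≤ b} := fun n =>
    (measurableSet_le measurable_const (S.us n).continuous.measurable).inter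
      (measurableSet_le (S.us n).continuous.measurable measurable_const)
  have mj : ∀ n, Measurable fun p : ℝ × ℂ => ENNReal.ofReal (φ p.2 * |dv (ud p.1) (u n) p.2|) := by
    intro n
    simp only [dv_ud]
    have c1 : Continuous (dv 1 (u n)) := (dv_sm (S.us n) 1).continuous
    have c2 : Continuous (dv Complex.I (u n)) := (dv_sm (S.us n) Complex.I).continuous
    have c3 : Continuous φ := hφ.sm.continuous
    have : Continuous fun p : ℝ × ℂ =>
      φ p.2 * |Real.cos p.1 * dv 1 (u n) p.2 + Real.sin p.1 * dv Complex.I (u n) p.2| := by fun_prop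
    exact this.measurable.ennreal_ofReal
  -- the crude bound
  obtain ⟨C, C0, hC⟩ := grad_L2 S hφ.cs hφ.ts
  obtain ⟨B, B0, hB⟩ := bdd_on hφ.cs hφ.sm.continuous
  obtain ⟨T, hT⟩ : ∃ T : ℝ, T = B * (C + (volume (tsupport φ)).toReal) := ⟨_, rfl⟩
  have T0 : 0 ≤ T := by rw [hT]; positivity
  have crude : ∀ᶠ n in atTop, ∀ t, (∫⁻ z in {z | a ≤ u n z ∧ u n z ≤ b},
      ENNReal.ofReal (φ z * |dv (ud t) (u n) z|)) / ENNReal.ofReal √(lam n) ≤ ENNReal.ofReal T := by
    filter_upwards [hC, S.tl.eventually_ge_atTop 1] with n h1 h2 t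
    have l0 : 0 < √(lam n) := Real.sqrt_pos.2 (by linarith)
    have l1 : √(lam n) ^ 2 = lam n := Real.sq_sqrt (by linarith)
    rw [ENNReal.div_le_iff_le_mul (Or.inl (ENNReal.ofReal_pos.2 l0).ne') (Or.inl ENNReal.ofReal_ne_top),
      ← ENNReal.ofReal_mul T0]
    have i1 : IntegrableOn (fun z => gd (u n) z ^ 2) (tsupport φ) :=
      iK hφ.cs ((gd_cont (S.us n)).pow 2)
    have i2 : IntegrableOn (fun _ : ℂ => √(lam n)) (tsupport φ) :=
      integrableOn_const (IsCompact.measure_lt_top hφ.cs).ne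
    calc ∫⁻ z in {z | a ≤ u n z ∧ u n z ≤ b}, ENNReal.ofReal (φ z * |dv (ud t) (u n) z|)
        ≤ ∫⁻ z, ENNReal.ofReal (φ z * |dv (ud t) (u n) z|) := setLIntegral_le_lintegral _ _
      _ = ENNReal.ofReal (∫ z, φ z * |dv (ud t) (u n) z|) :=
          (ofReal_integral_eq_lintegral_ofReal (int_cc hφ.sm.continuous
            (dv_sm (S.us n) _).continuous.abs hφ.cs)
            (ae_of_all _ fun z => mul_nonneg (hφ.nn z) (abs_nonneg _))).symm
      _ ≤ ENNReal.ofReal (T * √(lam n)) := by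
          refine ENNReal.ofReal_le_ofReal ?_
          have e : ∫ z, φ z * |dv (ud t) (u n) z| = ∫ z in tsupport φ, φ z * |dv (ud t) (u n) z| := by
            refine (setIntegral_eq_integral_of_forall_compl_eq_zero fun z hz => ?_).symm
            rw [image_eq_zero_of_notMem_tsupport hz, zero_mul]
          rw [e]
          calc ∫ z in tsupport φ, φ z * |dv (ud t) (u n) z| ≤
              ∫ z in tsupport φ, B * (gd (u n) z ^ 2 / √(lam n) + √(lam n)) := by
                refine setIntegral_mono_on (iK hφ.cs (hφ.sm.continuous.mul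
                  (dv_sm (S.us n) _).continuous.abs)) (((i1.div_const _).add i2).const_mul B)
                  hφ.cs.isClosed.measurableSet fun z hz => ?_
                have q1 := dv_gd (u n) (ud_norm t).le z
                have q2 := gd_nn (u n) z
                have q3 : gd (u n) z ≤ gd (u n) z ^ 2 / √(lam n) + √(lam n) := by
                  rw [div_add' _ _ _ l0.ne', le_div_iff₀ l0]
                  nlinarith [sq_nonneg (gd (u n) z - √(lam n))]
                have q4 := (le_abs_self _).trans (hB z hz)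
                exact mul_le_mul q4 (q1.trans q3) (abs_nonneg _) B0
            _ = B * ((∫ z in tsupport φ, gd (u n) z ^ 2) / √(lam n) +
                  (volume (tsupport φ)).toReal * √(lam n)) := by
                rw [integral_const_mul, integral_add (i1.div_const _) i2, integral_div,
                  setIntegral_const, smul_eq_mul]
                rfl
            _ ≤ B * (C * √(lam n) + (volume (tsupport φ)).toReal * √(lam n)) := by
                have q5 : (∫ z in tsupport φ, gd (u n) z ^ 2) / √(lam n) ≤ C * √(lam n) := by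
                  rw [div_le_iff₀ l0, mul_assoc, ← pow_two, l1]; exact h1
                gcongr
            _ = T * √(lam n) := by rw [hT]; ring
  -- the functions of the direction
  obtain ⟨n0, hn0⟩ := eventually_atTop.1 crude
  obtain ⟨Fn, hFn⟩ : ∃ Fn : ℕ → ℝ → ℝ≥0∞, Fn = fun n t => (∫⁻ z in {z | a ≤ u n z ∧ u n z ≤ b},
      ENNReal.ofReal (φ z * |dv (ud t) (u n) z|)) / ENNReal.ofReal √(lam n) := ⟨_, rfl⟩
  have mF : ∀ n, Measurable (Fn n) := fun n => by
    rw [hFn]
    exact ((mj n).lintegral_prod_right' (ν := volume.restrict {z | a ≤ u n z ∧ u n z ≤ b})).div_const _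
  have lim1 : ∀ t, limsup (fun n => Fn n t) atTop ≤ ENNReal.ofReal (√κ * (∫ z, φ z) * ((b - a) / Real.pi)) := by
    intro t
    have h1 : ∀ η : ℝ, 0 < η → limsup (fun n => Fn n t) atTop ≤
        ENNReal.ofReal (√κ * (∫ z, φ z) * ((b - a) / Real.pi + η)) := by
      intro η hη
      refine limsup_le_of_le (by isBoundedDefault) ?_
      filter_upwards [core S hφ hc hκ hρκ (ud_norm t).le hab hη, S.tl.eventually_gt_atTop 0] with n h1 h2
      have l0 : 0 < √(lam n) := Real.sqrt_pos.2 h2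
      rw [hFn]
      simp only
      rw [ENNReal.div_le_iff_le_mul (Or.inl (ENNReal.ofReal_pos.2 l0).ne') (Or.inl ENNReal.ofReal_ne_top),
        ← ENNReal.ofReal_mul (by
          have : 0 ≤ (b - a) / Real.pi := div_nonneg (by linarith) hpi.le
          positivity)]
      refine h1.trans (ENNReal.ofReal_le_ofReal (le_of_eq ?_))
      rw [Real.sqrt_mul hκ.le]; ring
    have h2 : Tendsto (fun η : ℝ => ENNReal.ofReal (√κ * (∫ z, φ z) * ((b - a) / Real.pi + η))) (𝓝[>] 0)
        (𝓝 (ENNReal.ofReal (√κ * (∫ z, φ z) * ((b - a) / Real.pi)))) := by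
      have h3 : Continuous fun η : ℝ => √κ * (∫ z, φ z) * ((b - a) / Real.pi + η) := by fun_prop
      have h4 := (h3.tendsto 0).mono_left (nhdsWithin_le_nhds (s := Set.Ioi 0))
      rw [add_zero] at h4
      exact (ENNReal.continuous_ofReal.tendsto _).comp h4
    exact ge_of_tendsto h2 (by
      filter_upwards [self_mem_nhdsWithin] with η hη
      exact h1 η hη)
  -- Fatou
  have fatou := limsup_lintegral_le (μ := volume.restrict (Set.Ioc 0 Real.pi))
    (f := fun n => Fn (n + n0)) (fun _ => ENNReal.ofReal T) (fun n => mF _)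
    (fun n => ae_of_all _ fun t => by
      show Fn (n + n0) t ≤ ENNReal.ofReal T
      rw [hFn]; exact hn0 (n + n0) (Nat.le_add_left _ _) t) (by simp [ENNReal.mul_eq_top])
  have e1 : ∀ n, ∫⁻ t in Set.Ioc 0 Real.pi, Fn n t = 2 * GI gd u lam a b (fun z => ENNReal.ofReal (φ z)) n := by
    intro n
    rw [hFn]
    simp only [div_eq_mul_inv]
    rw [lintegral_mul_const _ ((mj n).lintegral_prod_right' (ν := volume.restrict {z | a ≤ u n z ∧ u n z ≤ b}))]
    rw [lintegral_lintegral_swap (f := fun t z => ENNReal.ofReal (φ z * |dv (ud t) (u n) z|))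
      (mj n).aemeasurable]
    unfold GI
    simp only [lint_dv _ _ (hφ.nn _)]
    rw [lintegral_const_mul _ (by
      exact ((hφ.sm.continuous.mul (gd_cont (S.us n))).measurable).ennreal_ofReal), div_eq_mul_inv, mul_assoc]
    congr 3
    funext z
    rw [ENNReal.ofReal_mul (hφ.nn z)]
  have e2 : limsup (fun n => ∫⁻ t in Set.Ioc 0 Real.pi, Fn (n + n0) t) atTop =
      2 * limsup (GI gd u lam a b fun z => ENNReal.ofReal (φ z)) atTop := by
    simp only [e1]
    rw [← ENNReal.limsup_const_mul_of_ne_top (by norm_num)]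
    exact limsup_nat_add (fun n => 2 * GI gd u lam a b (fun z => ENNReal.ofReal (φ z)) n) n0
  rw [e2] at fatou
  have e3 : ∫⁻ t in Set.Ioc 0 Real.pi, limsup (fun n => Fn (n + n0) t) atTop ≤
      2 * ENNReal.ofReal (√κ * ((b - a) * (1 / 2)) * ∫ z, φ z) := by
    calc _ ≤ ∫⁻ _t in Set.Ioc 0 Real.pi, ENNReal.ofReal (√κ * (∫ z, φ z) * ((b - a) / Real.pi)) := by
          refine lintegral_mono fun t => ?_
          rw [limsup_nat_add (fun n => Fn n t) n0]
          exact lim1 t
      _ = _ := by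
          have q : 0 ≤ (b - a) / Real.pi := div_nonneg (by linarith) hpi.le
          have q2 : (2 : ℝ≥0∞) = ENNReal.ofReal 2 := by norm_num
          rw [setLIntegral_const, Real.volume_Ioc, sub_zero, ← ENNReal.ofReal_mul (by positivity), q2,
            ← ENNReal.ofReal_mul (by norm_num)]
          congr 1
          field_simp
  have e4 := fatou.trans e3
  rwa [ENNReal.mul_le_mul_iff_right (by norm_num) (by norm_num)] at e4

/-- the functions of the gradient for which the bound holds with the constant `c` -/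
structure FG (G : (ℂ → ℝ) → ℂ → ℝ) (c : ℝ) : Prop where
  c0 : 0 ≤ c
  cont : ∀ f : ℂ → ℝ, ContDiff ℝ ∞ f → Continuous (G f)
  nn : ∀ f z, 0 ≤ G f z
  loc : ∀ W : Set ℂ, IsOpen W → ∀ f g : ℂ → ℝ, (∀ z ∈ W, f z = g z) → ∀ z ∈ W, G f z = G g z
  le : ∀ f z, G f z ≤ gd f z
  core : ∀ (W : Set ℂ) (ρ : ℂ → ℝ) (lam : ℕ → ℝ) (u : ℕ → ℂ → ℝ), Sq W ρ lam u → ∀ φ : ℂ → ℝ, Tst W φ →
    ∀ κ : ℝ, 0 < κ → (∀ z ∈ tsupport φ, ρ z ≤ κ) → ∀ a b : ℝ, a ≤ b →
    limsup (GI G u lam a b fun z => ENNReal.ofReal (φ z)) atTop ≤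
      ENNReal.ofReal (√κ * ((b - a) * c) * ∫ z, φ z)

lemma gd_loc {W : Set ℂ} (hW : IsOpen W) {f g : ℂ → ℝ} (h : ∀ z ∈ W, f z = g z) :
    ∀ z ∈ W, gd f z = gd g z := fun z hz => by
  unfold gd
  rw [dv_loc hW h 1 z hz, dv_loc hW h Complex.I z hz]

theorem fg_gd : FG gd (1 / 2) :=
  ⟨by norm_num, fun f hf => gd_cont hf, gd_nn, fun W hW f g h => gd_loc hW h, fun f z => le_rfl,
    fun W ρ lam u S φ hφ κ hκ h a b hab => core_grad S hφ hκ h hab⟩

theorem fg_dv {v : ℂ} (hv : ‖v‖ ≤ 1) : FG (fun f z => |dv v f z|) (1 / Real.pi) := by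
  have hpi := Real.pi_pos
  refine ⟨by positivity, fun f hf => (dv_sm hf v).continuous.abs, fun f z => abs_nonneg _,
    fun W hW f g h z hz => by
      show |dv v f z| = |dv v g z|
      rw [dv_loc hW h v z hz], fun f z => dv_gd f hv z,
    fun W ρ lam u S φ hφ κ hκ h a b hab => ?_⟩
  rcases (integral_nonneg (μ := volume) (f := φ) fun z => hφ.nn z).eq_or_lt with hc | hc
  · have h0 : ∀ z, φ z = 0 := by
      have h1 := (integral_eq_zero_iff_of_nonneg (μ := volume) hφ.nn (phi_int hφ)).1 hc.symm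
      have h2 : φ = 0 := (Continuous.ae_eq_iff_eq volume hφ.sm.continuous continuous_const).1 h1
      intro z; rw [h2]; rfl
    have : GI (fun f z => |dv v f z|) u lam a b (fun z => ENNReal.ofReal (φ z)) = fun _ => 0 := by
      funext n
      unfold GI
      simp [h0]
    rw [this]; simp
  have h1 : ∀ η : ℝ, 0 < η → limsup (GI (fun f z => |dv v f z|) u lam a b fun z => ENNReal.ofReal (φ z)) atTop ≤
      ENNReal.ofReal (√κ * (∫ z, φ z) * ((b - a) / Real.pi + η)) := by
    intro η hη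
    refine limsup_le_of_le (by isBoundedDefault) ?_
    filter_upwards [core S hφ hc hκ h hv hab hη, S.tl.eventually_gt_atTop 0] with n h1 h2
    have l0 : 0 < √(lam n) := Real.sqrt_pos.2 h2
    unfold GI
    rw [ENNReal.div_le_iff_le_mul (Or.inl (ENNReal.ofReal_pos.2 l0).ne') (Or.inl ENNReal.ofReal_ne_top),
      ← ENNReal.ofReal_mul (by
        have : 0 ≤ (b - a) / Real.pi := div_nonneg (by linarith) hpi.le
        positivity)]
    have e : ∀ z, ENNReal.ofReal (φ z) * ENNReal.ofReal |dv v (u n) z| =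
        ENNReal.ofReal (φ z * |dv v (u n) z|) := fun z => (ENNReal.ofReal_mul (hφ.nn z)).symm
    simp only [e]
    refine h1.trans (ENNReal.ofReal_le_ofReal (le_of_eq ?_))
    rw [Real.sqrt_mul hκ.le]; ring
  have h2 : Tendsto (fun η : ℝ => ENNReal.ofReal (√κ * (∫ z, φ z) * ((b - a) / Real.pi + η))) (𝓝[>] 0)
      (𝓝 (ENNReal.ofReal (√κ * ((b - a) * (1 / Real.pi)) * ∫ z, φ z))) := by
    have h3 : Continuous fun η : ℝ => √κ * (∫ z, φ z) * ((b - a) / Real.pi + η) := by fun_prop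
    have h4 := (h3.tendsto 0).mono_left (nhdsWithin_le_nhds (s := Set.Ioi 0))
    rw [add_zero] at h4
    have e : √κ * ((b - a) * (1 / Real.pi)) * ∫ z, φ z = √κ * (∫ z, φ z) * ((b - a) / Real.pi) := by ring
    rw [e]
    exact (ENNReal.continuous_ofReal.tendsto _).comp h4
  exact ge_of_tendsto h2 (by
    filter_upwards [self_mem_nhdsWithin] with η hη
    exact h1 η hη)

end

end Pool.Agent.Q218.UB.Seq
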