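import Pool.Agent.Q218.UB.Ld

/-!
# Level sets of eigenfunctions (project UB), sequences: compact sets
-/

set_option autoImplicit false
open MeasureTheory Filter Topology
open scoped ContDiff ENNReal Manifold

namespace Pool.Agent.Q218.UB.Seq

noncomputable section

/-- asymptotic upper bounds -/
def Up (f : ℕ → ℝ≥0∞) (c : ℝ≥0∞) : Prop := ∀ ε : ℝ, 0 < ε → ∀ᶠ n in atTop, f n ≤ c + ENNReal.ofReal ε

lemma Up.of_limsup {f : ℕ → ℝ≥0∞} {c : ℝ≥0∞} (h : limsup f atTop ≤ c) : Up f c := by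
  intro ε hε
  rcases eq_or_ne c ⊤ with hc | hc
  · exact Eventually.of_forall fun n => by rw [hc, top_add]; exact le_top
  · have h1 : limsup f atTop < c + ENNReal.ofReal ε :=
      lt_of_le_of_lt h (ENNReal.lt_add_right hc (ENNReal.ofReal_pos.2 hε).ne')
    exact (eventually_lt_of_limsup_lt h1).mono fun n hn => hn.le

lemma Up.limsup_le {f : ℕ → ℝ≥0∞} {c : ℝ≥0∞} (h : Up f c) : limsup f atTop ≤ c := by
  refine ENNReal.le_of_forall_pos_le_add fun ε hε _ => ?_
  refine limsup_le_of_le (by isBoundedDefault) ?_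
  filter_upwards [h ε hε] with n hn
  rwa [ENNReal.ofReal_coe_nnreal] at hn

lemma Up.mono {f g : ℕ → ℝ≥0∞} {c d : ℝ≥0∞} (h : Up f c) (hg : ∀ᶠ n in atTop, g n ≤ f n) (hc : c ≤ d) :
    Up g d := by
  intro ε hε
  filter_upwards [h ε hε, hg] with n h1 h2
  exact (h2.trans h1).trans (by gcongr)

lemma Up.add {f g : ℕ → ℝ≥0∞} {c d : ℝ≥0∞} (h : Up f c) (h' : Up g d) :
    Up (fun n => f n + g n) (c + d) := by
  intro ε hε
  filter_upwards [h _ (half_pos hε), h' _ (half_pos hε)] with n h1 h2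
  calc f n + g n ≤ (c + ENNReal.ofReal (ε / 2)) + (d + ENNReal.ofReal (ε / 2)) := add_le_add h1 h2
    _ = c + d + (ENNReal.ofReal (ε / 2) + ENNReal.ofReal (ε / 2)) := by ring
    _ = _ := by rw [← ENNReal.ofReal_add (by positivity) (by positivity), add_halves]

lemma Up.zero : Up (fun _ => 0) 0 := fun _ _ => Eventually.of_forall fun _ => by simp

lemma Up.sum {ι : Type*} (s : Finset ι) {f : ι → ℕ → ℝ≥0∞} {c : ι → ℝ≥0∞} (h : ∀ i ∈ s, Up (f i) (c i)) :
    Up (fun n => ∑ i ∈ s, f i n) (∑ i ∈ s, c i) := by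
  classical
  induction s using Finset.induction_on with
  | empty => simpa using Up.zero
  | insert a s ha ih =>
    simp only [Finset.sum_insert ha]
    exact (h a (Finset.mem_insert_self _ _)).add (ih fun i hi => h i (Finset.mem_insert_of_mem hi))

lemma Up.mul {f : ℕ → ℝ≥0∞} {c : ℝ≥0∞} (h : Up f c) {r : ℝ} (hr : 0 ≤ r) :
    Up (fun n => ENNReal.ofReal r * f n) (ENNReal.ofReal r * c) := by
  intro ε hε
  filter_upwards [h (ε / (r + 1)) (by positivity)] with n h1
  calc ENNReal.ofReal r * f n ≤ ENNReal.ofReal r * (c + ENNReal.ofReal (ε / (r + 1))) := by gcongr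
    _ = ENNReal.ofReal r * c + ENNReal.ofReal (r * (ε / (r + 1))) := by
        rw [mul_add, ← ENNReal.ofReal_mul hr]
    _ ≤ _ := by
        gcongr
        rw [mul_div_assoc', div_le_iff₀ (by positivity)]
        nlinarith

lemma Up.of_tendsto {f : ℕ → ℝ≥0∞} {g : ℝ → ℝ≥0∞} {c : ℝ≥0∞} (h : ∀ᶠ r in 𝓝[>] (0 : ℝ), Up f (g r))
    (hg : Tendsto g (𝓝[>] 0) (𝓝 c)) : Up f c := by
  refine Up.of_limsup ?_
  exact ge_of_tendsto hg (h.mono fun r hr => hr.limsup_le)

variable {W : Set ℂ} {ρ : ℂ → ℝ} {lam : ℕ → ℝ} {u : ℕ → ℂ → ℝ} {G : (ℂ → ℝ) → ℂ → ℝ} {c : ℝ}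

lemma GI_mono (G : (ℂ → ℝ) → ℂ → ℝ) (u : ℕ → ℂ → ℝ) (lam : ℕ → ℝ) (a b : ℝ) {f g : ℂ → ℝ≥0∞} (h : ∀ z, f z ≤ g z) (n : ℕ) :
    GI G u lam a b f n ≤ GI G u lam a b g n := by
  unfold GI
  gcongr with z
  exact h z

lemma GI_sum (hG : FG G c) (hu : ∀ n, ContDiff ℝ ∞ (u n)) (a b : ℝ) {ι : Type*} (s : Finset ι) {f : ι → ℂ → ℝ≥0∞}
    (hf : ∀ i, Measurable (f i)) (n : ℕ) :
    GI G u lam a b (fun z => ∑ i ∈ s, f i z) n = ∑ i ∈ s, GI G u lam a b (f i) n := by
  unfold GI
  have m : ∀ i ∈ s, Measurable fun z => f i z * ENNReal.ofReal (G (u n) z) := fun i _ =>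
    (hf i).mul (hG.cont _ (hu n)).measurable.ennreal_ofReal
  simp only [Finset.sum_mul, div_eq_mul_inv]
  rw [lintegral_finsetSum _ m, Finset.sum_mul]

lemma GI_mul (hG : FG G c) (hu : ∀ n, ContDiff ℝ ∞ (u n)) (a b : ℝ) {f : ℂ → ℝ≥0∞} (hf : Measurable f) (q : ℝ≥0∞) (n : ℕ) :
    GI G u lam a b (fun z => q * f z) n = q * GI G u lam a b f n := by
  unfold GI
  have m : Measurable fun z => f z * ENNReal.ofReal (G (u n) z) :=
    hf.mul (hG.cont _ (hu n)).measurable.ennreal_ofReal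
  simp only [mul_assoc, div_eq_mul_inv]
  rw [lintegral_const_mul _ m, mul_assoc]

/-- a partition of unity with small oscillation of `ρ` -/
lemma part (hρ : Continuous ρ) {K : Set ℂ} (hK : IsCompact K)
    {r : ℝ} (hr : 0 < r) (hr2 : Metric.cthickening r K ⊆ W) :
    ∃ (m : ℕ) (φ : Fin m → ℂ → ℝ) (κ : Fin m → ℝ), (∀ i, Tst W (φ i)) ∧
      (∀ i, ∃ x ∈ K, κ i = ρ x + r) ∧
      (∀ i, ∀ z ∈ tsupport (φ i), ρ z ≤ κ i ∧ κ i ≤ ρ z + 2 * r ∧ z ∈ Metric.cthickening r K) ∧
      (∀ z ∈ K, ∑ i, φ i z = 1) ∧ ∀ z, ∑ i, φ i z ≤ 1 := by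
  classical
  have h1 : ∀ x : ℂ, ∃ δ : ℝ, 0 < δ ∧ δ ≤ r ∧ ∀ y ∈ Metric.closedBall x δ, |ρ y - ρ x| ≤ r := by
    intro x
    obtain ⟨δ, hδ, h⟩ := Metric.continuous_iff.1 hρ x r hr
    refine ⟨min (δ / 2) r, by positivity, min_le_right _ _, fun y hy => ?_⟩
    have h2 : dist y x ≤ min (δ / 2) r := hy
    have h3 : dist y x < δ := lt_of_le_of_lt (h2.trans (min_le_left _ _)) (by linarith)
    have := h y h3
    rw [Real.dist_eq] at this
    exact this.le
  choose δ d1 d2 d3 using h1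
  obtain ⟨t, ht, htK⟩ := hK.elim_nhds_subcover (fun x => Metric.ball x (δ x)) fun x _ =>
    Metric.ball_mem_nhds x (d1 x)
  obtain ⟨e⟩ : Nonempty (Fin t.card ≃ t) := ⟨t.equivFin.symm⟩
  obtain ⟨f, hf⟩ := SmoothPartitionOfUnity.exists_isSubordinate (modelWithCornersSelf ℝ ℂ) hK.isClosed
    (fun i : Fin t.card => Metric.ball (e i : ℂ) (δ (e i : ℂ))) (fun i => Metric.isOpen_ball) (by
      intro z hz
      obtain ⟨x, hx, hzx⟩ := Set.mem_iUnion₂.1 (htK hz)
      exact Set.mem_iUnion.2 ⟨e.symm ⟨x, hx⟩, by simpa using hzx⟩)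
  have hcl : ∀ i, ∀ z ∈ tsupport (f i), z ∈ Metric.closedBall (e i : ℂ) (δ (e i : ℂ)) := fun i z hz =>
    Metric.ball_subset_closedBall (hf i hz)
  have hth : ∀ i, ∀ z ∈ tsupport (f i), z ∈ Metric.cthickening r K := fun i z hz => by
    have h1 : dist z (e i : ℂ) ≤ r := (hcl i z hz : dist z (e i : ℂ) ≤ _).trans (d2 _)
    exact Metric.mem_cthickening_of_dist_le z (e i : ℂ) r K (ht _ (e i).2) h1
  refine ⟨t.card, fun i => f i, fun i => ρ (e i : ℂ) + r, fun i => ⟨(f i).contMDiff.contDiff, ?_, ?_,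
    fun z => f.nonneg i z⟩, fun i => ⟨(e i : ℂ), ht _ (e i).2, rfl⟩, fun i z hz => ?_, fun z hz => ?_,
    fun z => ?_⟩
  · exact (isCompact_closedBall (e i : ℂ) (δ (e i : ℂ))).of_isClosed_subset (isClosed_tsupport _) (hcl i)
  · exact fun z hz => hr2 (hth i z hz)
  · have h1 := abs_le.1 (d3 _ z (hcl i z hz))
    exact ⟨by linarith [h1.2], by linarith [h1.1], hth i z hz⟩
  · have := f.sum_eq_one hz
    rwa [finsum_eq_sum_of_fintype] at this
  · have := f.sum_le_one z
    rwa [finsum_eq_sum_of_fintype] at this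

/-- compact sets -/
theorem compact_bd (hG : FG G c) (S : Sq W ρ lam u) {K : Set ℂ} (hK : IsCompact K) (hKW : K ⊆ W) {a b : ℝ}
    (hab : a ≤ b) : Up (GI G u lam a b (K.indicator fun z => ENNReal.ofReal √(ρ z)))
      (ENNReal.ofReal ((b - a) * c) * ∫⁻ z in K, ENNReal.ofReal (ρ z)) := by
  classical
  obtain ⟨r0, hr0, hr0W⟩ := hK.exists_cthickening_subset_open S.o hKW
  obtain ⟨ν, hν⟩ : ∃ ν : Measure ℂ, ν = volume.withDensity fun z => ENNReal.ofReal (ρ z) := ⟨_, rfl⟩
  have mρ : Measurable fun z => ENNReal.ofReal (ρ z) := S.rs.continuous.measurable.ennreal_ofReal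
  have νa : ∀ B : Set ℂ, MeasurableSet B → ν B = ∫⁻ z in B, ENNReal.ofReal (ρ z) := fun B hB => by
    rw [hν, withDensity_apply _ hB]
  have fin : IsFiniteMeasureOnCompacts ν := by
    refine ⟨fun B hB => ?_⟩
    rw [νa B hB.measurableSet]
    exact ((S.rs.continuous.continuousOn.integrableOn_compact hB).lintegral_lt_top)
  have main : ∀ r : ℝ, 0 < r → r ≤ r0 → Up (GI G u lam a b (K.indicator fun z => ENNReal.ofReal √(ρ z)))
      (ENNReal.ofReal ((b - a) * c) * (ν (Metric.cthickening r K) +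
        ENNReal.ofReal (2 * r) * volume (Metric.cthickening r K))) := by
    intro r hr hrr
    have hrW : Metric.cthickening r K ⊆ W := (Metric.cthickening_mono hrr K).trans hr0W
    obtain ⟨m, φ, κ, h1, h2, h3, h4, h5⟩ := part S.rs.continuous hK hr hrW
    have κ0 : ∀ i, 0 < κ i := fun i => by
      obtain ⟨x, hx, e⟩ := h2 i
      have := S.r0 x (hKW hx)
      rw [e]; linarith
    have mφ : ∀ i, Measurable fun z => ENNReal.ofReal (φ i z) := fun i =>
      (h1 i).sm.continuous.measurable.ennreal_ofReal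
    have u1 : Up (fun n => ∑ i, ENNReal.ofReal √(κ i) * GI G u lam a b (fun z => ENNReal.ofReal (φ i z)) n)
        (∑ i, ENNReal.ofReal √(κ i) * ENNReal.ofReal (√(κ i) * ((b - a) * c) * ∫ z, φ i z)) :=
      Up.sum _ fun i _ => (Up.of_limsup (hG.core _ _ _ _ S _ (h1 i) _ (κ0 i) (fun z hz => (h3 i z hz).1) _ _ hab)).mul
        (Real.sqrt_nonneg _)
    refine u1.mono (Eventually.of_forall fun n => ?_) ?_
    · have e1 : ∀ n, ∑ i, ENNReal.ofReal √(κ i) * GI G u lam a b (fun z => ENNReal.ofReal (φ i z)) n =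
          GI G u lam a b (fun z => ∑ i, ENNReal.ofReal √(κ i) * ENNReal.ofReal (φ i z)) n := by
        intro n
        rw [GI_sum hG S.us a b Finset.univ (fun i => (mφ i).const_mul _)]
        exact Finset.sum_congr rfl fun i _ => (GI_mul hG S.us a b (mφ i) _ n).symm
      rw [e1]
      refine GI_mono G u lam a b (fun z => ?_) n
      by_cases hz : z ∈ K
      · rw [Set.indicator_of_mem hz]
        have e2 : √(ρ z) = ∑ i, √(ρ z) * φ i z := by rw [← Finset.mul_sum, h4 z hz, mul_one]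
        rw [e2, ENNReal.ofReal_sum_of_nonneg fun i _ => mul_nonneg (Real.sqrt_nonneg _) ((h1 i).nn z)]
        refine Finset.sum_le_sum fun i _ => ?_
        rw [← ENNReal.ofReal_mul (Real.sqrt_nonneg _)]
        refine ENNReal.ofReal_le_ofReal ?_
        by_cases hzi : z ∈ tsupport (φ i)
        · exact mul_le_mul_of_nonneg_right (Real.sqrt_le_sqrt (h3 i z hzi).1) ((h1 i).nn z)
        · rw [image_eq_zero_of_notMem_tsupport hzi]; simp
      · rw [Set.indicator_of_notMem hz]; exact bot_le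
    · have e3 : ∀ i, ENNReal.ofReal √(κ i) * ENNReal.ofReal (√(κ i) * ((b - a) * c) * ∫ z, φ i z) =
          ENNReal.ofReal ((b - a) * c) * ∫⁻ z, ENNReal.ofReal (κ i * φ i z) := by
        intro i
        have q1 : 0 ≤ (b - a) * c := mul_nonneg (by linarith) hG.c0
        rw [← ofReal_integral_eq_lintegral_ofReal ((phi_int (h1 i)).const_mul _)
          (ae_of_all _ fun z => mul_nonneg (κ0 i).le ((h1 i).nn z)), integral_const_mul,
          ← ENNReal.ofReal_mul (Real.sqrt_nonneg _), ← ENNReal.ofReal_mul q1]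
        congr 1
        have := Real.mul_self_sqrt (κ0 i).le
        linear_combination ((b - a) * c * ∫ z, φ i z) * this
      simp only [e3]
      rw [← Finset.mul_sum, ← lintegral_finsetSum _ fun i _ => by
        exact (continuous_const.mul (h1 i).sm.continuous).measurable.ennreal_ofReal]
      gcongr
      have mT : MeasurableSet (Metric.cthickening r K) := Metric.isClosed_cthickening.measurableSet
      have e4 : ν (Metric.cthickening r K) + ENNReal.ofReal (2 * r) * volume (Metric.cthickening r K) =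
          ∫⁻ z in Metric.cthickening r K, (ENNReal.ofReal (ρ z) + ENNReal.ofReal (2 * r)) := by
        rw [lintegral_add_right _ measurable_const, νa _ mT, setLIntegral_const]
      rw [e4, ← lintegral_indicator mT]
      refine lintegral_mono fun z => ?_
      by_cases hz : z ∈ Metric.cthickening r K
      · rw [Set.indicator_of_mem hz]
        have r1 : 0 ≤ ρ z := (S.r0 z (hrW hz)).le
        rw [← ENNReal.ofReal_add r1 (by positivity)]
        calc ∑ i, ENNReal.ofReal (κ i * φ i z) ≤ ∑ i, ENNReal.ofReal ((ρ z + 2 * r) * φ i z) := by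
              refine Finset.sum_le_sum fun i _ => ENNReal.ofReal_le_ofReal ?_
              by_cases hzi : z ∈ tsupport (φ i)
              · exact mul_le_mul_of_nonneg_right (h3 i z hzi).2.1 ((h1 i).nn z)
              · rw [image_eq_zero_of_notMem_tsupport hzi]; simp
          _ = ENNReal.ofReal ((ρ z + 2 * r) * ∑ i, φ i z) := by
              rw [← ENNReal.ofReal_sum_of_nonneg fun i _ => mul_nonneg (by positivity) ((h1 i).nn z),
                Finset.mul_sum]
          _ ≤ _ := by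
              refine ENNReal.ofReal_le_ofReal ?_
              have := h5 z
              have q : 0 ≤ ρ z + 2 * r := by positivity
              nlinarith
      · rw [Set.indicator_of_notMem hz]
        have : ∀ i, φ i z = 0 := fun i => by
          by_contra h
          exact hz (h3 i z (subset_tsupport _ h)).2.2
        simp [this]
  -- the limit
  have lim : Tendsto (fun r : ℝ => ENNReal.ofReal ((b - a) * c) * (ν (Metric.cthickening r K) +
      ENNReal.ofReal (2 * r) * volume (Metric.cthickening r K))) (𝓝[>] 0)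
      (𝓝 (ENNReal.ofReal ((b - a) * c) * (ν K + ENNReal.ofReal (2 * 0) * volume K))) := by
    have t1 := (tendsto_measure_cthickening_of_isCompact (μ := ν) hK).mono_left
      (nhdsWithin_le_nhds (s := Set.Ioi (0 : ℝ)))
    have t2 := (tendsto_measure_cthickening_of_isCompact (μ := (volume : Measure ℂ)) hK).mono_left
      (nhdsWithin_le_nhds (s := Set.Ioi (0 : ℝ)))
    have t3 : Tendsto (fun r : ℝ => ENNReal.ofReal (2 * r)) (𝓝[>] 0) (𝓝 (ENNReal.ofReal (2 * 0))) := by
      have : Continuous fun r : ℝ => ENNReal.ofReal (2 * r) :=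
        ENNReal.continuous_ofReal.comp (continuous_const.mul continuous_id)
      exact (this.tendsto 0).mono_left nhdsWithin_le_nhds
    refine ENNReal.Tendsto.const_mul (t1.add (ENNReal.Tendsto.mul t3 (Or.inr hK.measure_lt_top.ne) t2
      (Or.inr ENNReal.ofReal_ne_top))) (Or.inr ENNReal.ofReal_ne_top)
  rw [mul_zero, ENNReal.ofReal_zero, zero_mul, add_zero, νa K hK.measurableSet] at lim
  refine Up.of_tendsto ?_ lim
  filter_upwards [self_mem_nhdsWithin, mem_nhdsWithin_of_mem_nhds (Iic_mem_nhds hr0)] with r h1 h2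
  exact main r h1 h2

end

end Pool.Agent.Q218.UB.Seq
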