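import Pool.Agent.Q218.UB.Lf
import Pool.Agent.Q73.PW.J15

/-!
# Level sets of eigenfunctions (project UB): surfaces
-/

set_option autoImplicit false
open MeasureTheory Filter Topology
open scoped ContDiff ENNReal

namespace Pool.Agent.Q218.UB.Srf

noncomputable section

open Pool.Agent.Results.MP_a52643_an.SharpNodalLength (IsothermalAtlas IsEigenfunction laplacian)
open Pool.Agent.Q218.UB.Seq

/-- `G` is the length of the gradient of `f` -/
def IsGrad {M ι : Type*} (U : ι → Set ℂ) (φ : ι → ℂ → M) (ρ : ι → ℂ → ℝ) (f G : M → ℝ) : Prop :=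
  ∀ i, ∀ z ∈ U i, G (φ i z) = gd (fun w => f (φ i w)) z / √(ρ i z)

variable {M ι : Type*} [TopologicalSpace M] [T2Space M] [SecondCountableTopology M] [MeasurableSpace M]
  [BorelSpace M] {U : ι → Set ℂ} {φ : ι → ℂ → M} {ρ : ι → ℂ → ℝ} {area len : Measure M}

/-- finite unions -/
lemma lint_union {X J : Type*} [MeasurableSpace X] {μ : Measure X} (t : Finset J) (A : J → Set X)
    (g : X → ℝ≥0∞) : ∫⁻ x in ⋃ j ∈ t, A j, g x ∂μ ≤ ∑ j ∈ t, ∫⁻ x in A j, g x ∂μ := by
  classical
  induction t using Finset.induction_on with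
  | empty => simp
  | insert j t hj ih =>
    rw [Finset.set_biUnion_insert, Finset.sum_insert hj]
    exact (lintegral_union_le _ _ _).trans (add_le_add le_rfl ih)

/-- continuity in the charts -/
lemma cont_charts (h : IsothermalAtlas U φ ρ area len) {g : M → ℝ}
    (hg : ∀ i, ContinuousOn (fun z => g (φ i z)) (U i)) : Continuous g := by
  rw [continuous_def]
  intro O hO
  have e1 : g ⁻¹' O = ⋃ i, φ i '' (U i ∩ (fun z => g (φ i z)) ⁻¹' O) := by
    ext x
    constructor
    · intro hx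
      obtain ⟨i, z, hz, rfl⟩ := h.cover x
      exact Set.mem_iUnion.mpr ⟨i, z, ⟨hz, hx⟩, rfl⟩
    · intro hx
      obtain ⟨i, z, ⟨hz, hz2⟩, rfl⟩ := Set.mem_iUnion.mp hx
      exact hz2
  rw [e1]
  exact isOpen_iUnion fun i => h.open_chart i _ ((hg i).isOpen_inter_preimage (h.isOpen_domain i) hO)
    Set.inter_subset_left

/-- integrals in a chart -/
lemma chart_lint (h : IsothermalAtlas U φ ρ area len) (i : ι) {S : Set M} (hS : MeasurableSet S)
    (hSU : S ⊆ φ i '' U i) {g : M → ℝ≥0∞} (hg : Measurable g) :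
    ∫⁻ x in S, g x ∂area = ∫⁻ z in U i ∩ φ i ⁻¹' S, ENNReal.ofReal (ρ i z) * g (φ i z) := by
  rcases (U i).eq_empty_or_nonempty with hne | hne
  · have : S = ∅ := by
      rw [hne, Set.image_empty] at hSU
      exact Set.subset_empty_iff.1 hSU
    rw [this]
    simp
  have h1 := Pool.Agent.Q73.PW.J15.lint_chart h (h.isOpen_domain i) subset_rfl hne (g := S.indicator g)
    (hg.indicator hS)
  rw [setLIntegral_indicator hS, Set.inter_eq_left.2 hSU] at h1
  rw [h1]
  have mP : MeasurableSet (U i ∩ φ i ⁻¹' S) :=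
    Pool.Agent.Q73.PW.J15.meas_inter (h.isOpen_domain i) (h.continuous_chart i) hS
  rw [← lintegral_indicator (h.isOpen_domain i).measurableSet, ← lintegral_indicator mP]
  refine lintegral_congr fun z => ?_
  by_cases hz : z ∈ U i
  · rw [Set.indicator_of_mem hz]
    by_cases hz2 : φ i z ∈ S
    · rw [Set.indicator_of_mem (show z ∈ U i ∩ φ i ⁻¹' S from ⟨hz, hz2⟩), Set.indicator_of_mem hz2]
    · rw [Set.indicator_of_notMem (show z ∉ U i ∩ φ i ⁻¹' S from fun h => hz2 h.2),
        Set.indicator_of_notMem hz2, mul_zero]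
  · rw [Set.indicator_of_notMem hz, Set.indicator_of_notMem fun h => hz h.1]

/-- the area in a chart -/
lemma chart_area (h : IsothermalAtlas U φ ρ area len) (i : ι) {S : Set M} (hS : MeasurableSet S)
    (hSU : S ⊆ φ i '' U i) : area S = ∫⁻ z in U i ∩ φ i ⁻¹' S, ENNReal.ofReal (ρ i z) := by
  have h1 := chart_lint h i hS hSU (g := fun _ => 1) measurable_const
  simpa using h1

/-- the assumptions -/
structure Sf (U : ι → Set ℂ) (φ : ι → ℂ → M) (ρ : ι → ℂ → ℝ) (area len : Measure M) (lam : ℕ → ℝ)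
    (f G : ℕ → M → ℝ) : Prop where
  at' : IsothermalAtlas U φ ρ area len
  rs : ∀ i, ContDiffOn ℝ ∞ (ρ i) (U i)
  tl : Tendsto lam atTop atTop
  ef : ∀ n, IsEigenfunction U φ ρ (lam n) (f n)
  gn : ∀ n, IsGrad U φ ρ (f n) (G n)
  lb : ∀ K : Set M, IsCompact K → ∃ C : ℝ, ∀ᶠ n in atTop,
    ∫⁻ x in K, ENNReal.ofReal (f n x ^ 2) ∂area ≤ ENNReal.ofReal C

variable {lam : ℕ → ℝ} {f G : ℕ → M → ℝ}

lemma Sf.mf (S : Sf U φ ρ area len lam f G) (n : ℕ) : Measurable (f n) :=
  (cont_charts S.at' fun i => (S.ef n i).1.continuousOn).measurable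

lemma Sf.mG (S : Sf U φ ρ area len lam f G) (n : ℕ) : Measurable (G n) := by
  refine (cont_charts S.at' fun i => ?_).measurable
  have h1 : ContinuousOn (fun z => fderiv ℝ (fun w => f n (φ i w)) z) (U i) :=
    (S.ef n i).1.continuousOn_fderiv_of_isOpen (S.at'.isOpen_domain i) (by simp)
  have h2 : ContinuousOn (fun z => gd (fun w => f n (φ i w)) z / √(ρ i z)) (U i) := by
    unfold gd dv
    refine ContinuousOn.div ?_ ?_ fun z hz => (Real.sqrt_pos.2 (S.at'.density_pos i z hz)).ne'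
    · exact (((h1.clm_apply continuousOn_const).pow 2).add
        ((h1.clm_apply continuousOn_const).pow 2)).sqrt
    · exact (S.at'.density_continuous i).sqrt
  exact h2.congr fun z hz => S.gn n i z hz

/-- the sequence in a chart -/
lemma Sf.chart (S : Sf U φ ρ area len lam f G) (i : ι) :
    Lq (U i) (ρ i) lam (fun n z => f n (φ i z)) := by
  have h := S.at'
  refine ⟨h.isOpen_domain i, S.rs i, h.density_pos i, S.tl, fun n => (S.ef n i).1, fun n z hz => ?_,
    fun K hK hKU => ?_⟩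
  · have h1 := (S.ef n i).2 z hz
    have e : laplacian (fun z => f n (φ i z)) z = lp (fun z => f n (φ i z)) z := rfl
    rw [e] at h1
    linarith
  · rcases K.eq_empty_or_nonempty with hKe | hKe
    · exact ⟨0, Eventually.of_forall fun n => by rw [hKe]; simp⟩
    obtain ⟨z0, hz0, hmin⟩ := hK.exists_isMinOn hKe ((h.density_continuous i).mono hKU)
    obtain ⟨c, hc⟩ : ∃ c, c = ρ i z0 := ⟨_, rfl⟩
    have hc0 : 0 < c := by rw [hc]; exact h.density_pos i z0 (hKU hz0)
    have cK : IsCompact (φ i '' K) := hK.image_of_continuousOn ((h.continuous_chart i).mono hKU)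
    obtain ⟨C, hC⟩ := S.lb _ cK
    refine ⟨c⁻¹ * |C|, ?_⟩
    filter_upwards [hC] with n hn
    have mg : Measurable fun x => ENNReal.ofReal (f n x ^ 2) := ((S.mf n).pow_const 2).ennreal_ofReal
    have h1 := chart_lint h i cK.isClosed.measurableSet (Set.image_mono hKU) mg
    have eK : U i ∩ φ i ⁻¹' (φ i '' K) = K := by
      ext z
      constructor
      · rintro ⟨hz, w, hw, hwz⟩
        rw [← h.injective_chart i (hKU hw) hz hwz]
        exact hw
      · intro hz
        exact ⟨hKU hz, z, hz, rfl⟩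
    rw [eK] at h1
    have hfc : ContinuousOn (fun z => f n (φ i z)) K := (S.ef n i).1.continuousOn.mono hKU
    have hρc : ContinuousOn (ρ i) K := (h.density_continuous i).mono hKU
    have i1 : IntegrableOn (fun z => ρ i z * f n (φ i z) ^ 2) K :=
      (hρc.mul (hfc.pow 2)).integrableOn_compact hK
    have i2 : IntegrableOn (fun z => f n (φ i z) ^ 2) K := (hfc.pow 2).integrableOn_compact hK
    have h3 : ∫ z in K, ρ i z * f n (φ i z) ^ 2 ≤ |C| := by
      have h0 : 0 ≤ᵐ[volume.restrict K] fun z => ρ i z * f n (φ i z) ^ 2 := by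
        rw [EventuallyLE, ae_restrict_iff' hK.measurableSet]
        exact Eventually.of_forall fun z hz =>
          mul_nonneg (h.density_pos i z (hKU hz)).le (sq_nonneg _)
      rw [integral_eq_lintegral_of_nonneg_ae h0 i1.aestronglyMeasurable]
      refine ENNReal.toReal_le_of_le_ofReal (abs_nonneg C) ?_
      calc ∫⁻ z in K, ENNReal.ofReal (ρ i z * f n (φ i z) ^ 2)
          = ∫⁻ z in K, ENNReal.ofReal (ρ i z) * ENNReal.ofReal (f n (φ i z) ^ 2) := by
            apply setLIntegral_congr_fun hK.measurableSet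
            intro z hz
            exact ENNReal.ofReal_mul (h.density_pos i z (hKU hz)).le
        _ = ∫⁻ x in φ i '' K, ENNReal.ofReal (f n x ^ 2) ∂area := h1.symm
        _ ≤ ENNReal.ofReal C := hn
        _ ≤ _ := ENNReal.ofReal_le_ofReal (le_abs_self C)
    have h4 : ∫ z in K, f n (φ i z) ^ 2 ≤ ∫ z in K, c⁻¹ * (ρ i z * f n (φ i z) ^ 2) := by
      apply setIntegral_mono_on i2 (i1.const_mul _) hK.measurableSet
      intro z hz
      have h5 : c ≤ ρ i z := by rw [hc]; exact hmin hz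
      have h6 : 1 ≤ c⁻¹ * ρ i z := by
        rw [← div_eq_inv_mul, le_div_iff₀ hc0]
        linarith
      have h7 := mul_le_mul_of_nonneg_right h6 (sq_nonneg (f n (φ i z)))
      linarith
    rw [integral_const_mul] at h4
    exact h4.trans (mul_le_mul_of_nonneg_left h3 (by positivity))

/-- the normalised integral of the gradient over `B ∩ {a ≤ f ≤ b}` -/
def FS (area : Measure M) (f G : ℕ → M → ℝ) (lam : ℕ → ℝ) (a b : ℝ) (B : Set M) (n : ℕ) : ℝ≥0∞ :=
  (∫⁻ x in B ∩ {x | a ≤ f n x ∧ f n x ≤ b}, ENNReal.ofReal (G n x) ∂area) / ENNReal.ofReal √(lam n)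

lemma Sf.mS (S : Sf U φ ρ area len lam f G) (a b : ℝ) (n : ℕ) :
    MeasurableSet {x | a ≤ f n x ∧ f n x ≤ b} :=
  (measurableSet_le measurable_const (S.mf n)).inter (measurableSet_le (S.mf n) measurable_const)

/-- in a chart -/
lemma Sf.FS_chart (S : Sf U φ ρ area len lam f G) (i : ι) {B : Set M} (hB : MeasurableSet B)
    (hBU : B ⊆ φ i '' U i) (a b : ℝ) (n : ℕ) :
    FS area f G lam a b B n = GS gd (ρ i) (fun n z => f n (φ i z)) lam a b (U i ∩ φ i ⁻¹' B) n := by
  unfold FS GS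
  congr 1
  rw [chart_lint S.at' i (hB.inter (S.mS a b n)) (Set.inter_subset_left.trans hBU)
    (S.mG n).ennreal_ofReal]
  have e : U i ∩ φ i ⁻¹' (B ∩ {x | a ≤ f n x ∧ f n x ≤ b}) =
      (U i ∩ φ i ⁻¹' B) ∩ {z | a ≤ f n (φ i z) ∧ f n (φ i z) ≤ b} := by
    ext z
    constructor
    · rintro ⟨h1, h2, h3⟩; exact ⟨⟨h1, h2⟩, h3⟩
    · rintro ⟨⟨h1, h2⟩, h3⟩; exact ⟨h1, h2, h3⟩
  have mP := Pool.Agent.Q73.PW.J15.meas_inter (S.at'.isOpen_domain i) (S.at'.continuous_chart i)
    (hB.inter (S.mS a b n))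
  rw [← e]
  refine setLIntegral_congr_fun mP fun z hz => ?_
  have r0 := S.at'.density_pos i z hz.1
  show ENNReal.ofReal (ρ i z) * ENNReal.ofReal (G n (φ i z)) = _
  rw [← ENNReal.ofReal_mul r0.le, S.gn n i z hz.1]
  congr 1
  have h1 : √(ρ i z) * √(ρ i z) = ρ i z := Real.mul_self_sqrt r0.le
  have h2 : 0 < √(ρ i z) := Real.sqrt_pos.2 r0
  rw [mul_div_assoc', div_eq_iff h2.ne', mul_right_comm, h1]

/-- the energy in a chart -/
lemma Sf.E_chart (S : Sf U φ ρ area len lam f G) (i : ι) {B : Set M} (hB : MeasurableSet B)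
    (hBU : B ⊆ φ i '' U i) (n : ℕ) :
    ∫⁻ x in B, ENNReal.ofReal (G n x ^ 2) ∂area =
      ∫⁻ z in U i ∩ φ i ⁻¹' B, ENNReal.ofReal (gd (fun w => f n (φ i w)) z ^ 2) := by
  rw [chart_lint S.at' i hB hBU ((S.mG n).pow_const 2).ennreal_ofReal]
  have mP := Pool.Agent.Q73.PW.J15.meas_inter (S.at'.isOpen_domain i) (S.at'.continuous_chart i) hB
  refine setLIntegral_congr_fun mP fun z hz => ?_
  have r0 := S.at'.density_pos i z hz.1
  show ENNReal.ofReal (ρ i z) * ENNReal.ofReal (G n (φ i z) ^ 2) = _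
  rw [← ENNReal.ofReal_mul r0.le, S.gn n i z hz.1, div_pow, Real.sq_sqrt r0.le]
  congr 1
  field_simp

/-- small sets -/
lemma Sf.rest (_S : Sf U φ ρ area len lam f G) {B : Set M} (a b : ℝ)
    {t : ℝ} (ht : 0 < t) {n : ℕ} (hn : 0 < lam n) :
    FS area f G lam a b B n ≤ ENNReal.ofReal (t / 2) * area B +
      ENNReal.ofReal (1 / (2 * t * lam n)) * ∫⁻ x in B, ENNReal.ofReal (G n x ^ 2) ∂area := by
  have l0 : 0 < √(lam n) := Real.sqrt_pos.2 hn
  unfold FS
  rw [ENNReal.div_le_iff_le_mul (Or.inl (ENNReal.ofReal_pos.2 l0).ne') (Or.inl ENNReal.ofReal_ne_top)]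
  have h1 : ∫⁻ x in B ∩ {x | a ≤ f n x ∧ f n x ≤ b}, ENNReal.ofReal (G n x) ∂area ≤
      ∫⁻ x in B, (ENNReal.ofReal (t / 2 * √(lam n)) +
        ENNReal.ofReal (1 / (2 * t * √(lam n))) * ENNReal.ofReal (G n x ^ 2)) ∂area := by
    refine (lintegral_mono_set Set.inter_subset_left).trans (lintegral_mono fun x => ?_)
    rw [← ENNReal.ofReal_mul (by positivity), ← ENNReal.ofReal_add (by positivity) (by positivity)]
    refine ENNReal.ofReal_le_ofReal ?_
    have q2 : 0 ≤ (t * √(lam n) - G n x) ^ 2 := sq_nonneg _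
    have q3 : t / 2 * √(lam n) + 1 / (2 * t * √(lam n)) * G n x ^ 2 =
        ((t * √(lam n)) ^ 2 + G n x ^ 2) / (2 * t * √(lam n)) := by
      field_simp
    rw [q3, le_div_iff₀ (by positivity)]
    nlinarith
  refine h1.trans ?_
  rw [lintegral_add_left' aemeasurable_const, lintegral_const_mul' _ _ ENNReal.ofReal_ne_top, add_mul,
    lintegral_const, Measure.restrict_apply_univ]
  refine add_le_add (le_of_eq ?_) (le_of_eq ?_)
  · rw [ENNReal.ofReal_mul (by positivity)]; ring
  · have e : (1 : ℝ) / (2 * t * √(lam n)) = 1 / (2 * t * lam n) * √(lam n) := by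
      have := Real.mul_self_sqrt hn.le
      field_simp
      linarith
    rw [e, ENNReal.ofReal_mul (by positivity)]; ring

/-- discs -/
lemma discs (h : IsothermalAtlas U φ ρ area len) [Nonempty M] :
    ∃ (i : ℕ → ι) (K : ℕ → Set ℂ) (O : ℕ → Set ℂ), (∀ j, IsCompact (K j)) ∧ (∀ j, K j ⊆ U (i j)) ∧
      (∀ j, IsOpen (O j)) ∧ (∀ j, O j ⊆ K j) ∧ (⋃ j, φ (i j) '' O j) = Set.univ := by
  have hAt : Pool.Agent.Q73.NL.Atl U φ ρ area len :=
    ⟨h.isOpen_domain, h.continuous_chart, h.injective_chart, h.open_chart, h.cover,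
      h.density_pos, h.density_continuous, h.area_chart, h.len_chart⟩
  obtain ⟨d, hd⟩ := Pool.Agent.Q73.NL.exists_discs hAt
  exact ⟨fun j => (d j).i, fun j => Metric.closedBall (d j).z (d j).r,
    fun j => Metric.ball (d j).z (d j).r, fun j => isCompact_closedBall _ _, fun j => (d j).sub,
    fun j => Metric.isOpen_ball, fun j => Metric.ball_subset_closedBall, hd⟩

/-- **the bound on a surface** -/
theorem Sf.bound (S : Sf U φ ρ area len lam f G) {B : Set M} (hB : MeasurableSet B) (hfin : area B ≠ ⊤)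
    {C : ℝ} (hC : 0 ≤ C)
    (hE : ∀ᶠ n in atTop, ∫⁻ x in B, ENNReal.ofReal (G n x ^ 2) ∂area ≤ ENNReal.ofReal (C * lam n))
    {a b : ℝ} (hab : a ≤ b) :
    Up (FS area f G lam a b B) (ENNReal.ofReal ((b - a) * (1 / 2)) * area B) := by
  rcases isEmpty_or_nonempty M with hM | hM
  · intro ε _
    refine Eventually.of_forall fun n => ?_
    have : B = ∅ := Set.eq_empty_of_isEmpty B
    unfold FS
    rw [this]
    simp
  have h := S.at'
  obtain ⟨i, K, O, hK, hKU, hO, hOK, hun⟩ := discs h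
  obtain ⟨Q, hQ⟩ : ∃ Q : ℕ → Set M, Q = fun j => φ (i j) '' O j := ⟨_, rfl⟩
  have oQ : ∀ j, IsOpen (Q j) := fun j => by
    rw [hQ]; exact h.open_chart _ _ (hO j) ((hOK j).trans (hKU j))
  obtain ⟨D, hD⟩ : ∃ D : ℕ → Set M, D = disjointed Q := ⟨_, rfl⟩
  have mD : ∀ j, MeasurableSet (D j) := fun j => by
    rw [hD]; exact MeasurableSet.disjointed (fun k => (oQ k).measurableSet) j
  have DQ : ∀ j, D j ⊆ Q j := fun j => by rw [hD]; exact disjointed_subset Q j
  have dD : Pairwise (Function.onFun Disjoint D) := by rw [hD]; exact disjoint_disjointed Q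
  have uD : ⋃ j, D j = Set.univ := by
    rw [hD, iUnion_disjointed, hQ]; exact hun
  -- the pieces
  have up : ∀ j, Up (FS area f G lam a b (B ∩ D j))
      (ENNReal.ofReal ((b - a) * (1 / 2)) * area (B ∩ D j)) := by
    intro j
    have sub : B ∩ D j ⊆ φ (i j) '' U (i j) := fun x hx => by
      have := DQ j hx.2
      rw [hQ] at this
      exact Set.image_mono ((hOK j).trans (hKU j)) this
    have mP := Pool.Agent.Q73.PW.J15.meas_inter (h.isOpen_domain (i j)) (h.continuous_chart (i j))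
      (hB.inter (mD j))
    have PK : U (i j) ∩ φ (i j) ⁻¹' (B ∩ D j) ⊆ K j := by
      rintro z ⟨hz, hz2⟩
      have h1 := DQ j hz2.2
      rw [hQ] at h1
      obtain ⟨w, hw, hwz⟩ := h1
      rw [← h.injective_chart (i j) (hKU j (hOK j hw)) hz hwz]
      exact hOK j hw
    have h1 := BK_bd fg_gd (S.chart (i j)) mP PK (hK j) (hKU j) hab
    rw [← chart_area h (i j) (hB.inter (mD j)) sub] at h1
    have e : FS area f G lam a b (B ∩ D j) =
        GS gd (ρ (i j)) (fun n z => f n (φ (i j) z)) lam a b (U (i j) ∩ φ (i j) ⁻¹' (B ∩ D j)) := by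
      funext n
      exact S.FS_chart (i j) (hB.inter (mD j)) sub a b n
    rw [e]
    exact h1
  intro ε hε
  obtain ⟨t, ht⟩ : ∃ t, t = (C + 1) / ε := ⟨_, rfl⟩
  have t0 : 0 < t := by rw [ht]; positivity
  obtain ⟨e, he⟩ : ∃ e, e = ε / (2 * t) := ⟨_, rfl⟩
  have e0 : 0 < e := by rw [he]; positivity
  -- the rest
  obtain ⟨R, hR⟩ : ∃ R : ℕ → Set M, R = fun m => B \ ⋃ j ∈ Finset.range m, D j := ⟨_, rfl⟩
  have mR : ∀ m, MeasurableSet (R m) := fun m => by
    rw [hR]; exact hB.diff (Finset.measurableSet_biUnion _ fun j _ => mD j)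
  have RB : ∀ m, R m ⊆ B := fun m => by rw [hR]; exact Set.sdiff_subset
  have aR : Antitone R := fun m k hmk => by
    rw [hR]
    refine Set.sdiff_subset_sdiff_right ?_
    refine Set.biUnion_subset_biUnion_left ?_
    intro j hj
    simp only [Finset.coe_range, Set.mem_Iio] at hj ⊢
    exact lt_of_lt_of_le hj hmk
  have iR : ⋂ m, R m = ∅ := by
    rw [Set.eq_empty_iff_forall_notMem]
    intro x hx
    rw [Set.mem_iInter] at hx
    have h1 : x ∈ ⋃ j, D j := by rw [uD]; trivial
    obtain ⟨j, hj⟩ := Set.mem_iUnion.1 h1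
    have h2 := hx (j + 1)
    rw [hR] at h2
    refine h2.2 ?_
    simp only [Set.mem_iUnion, Finset.mem_range]
    exact ⟨j, Nat.lt_succ_self j, hj⟩
  have tR : Tendsto (fun m => area (R m)) atTop (𝓝 0) := by
    have h1 := tendsto_measure_iInter_atTop (μ := area) (fun m => (mR m).nullMeasurableSet) aR
      ⟨0, ((measure_mono (RB 0)).trans_lt (lt_top_iff_ne_top.2 hfin)).ne⟩
    rw [iR, measure_empty] at h1
    exact h1
  obtain ⟨m, hm⟩ := (tR.eventually (gt_mem_nhds (ENNReal.ofReal_pos.2 e0))).exists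
  have sums := Up.sum (Finset.range m) fun j _ => up j
  filter_upwards [sums (ε / 4) (by positivity), hE, S.tl.eventually_gt_atTop 0] with n h1 h2 h3
  have s1 : FS area f G lam a b B n ≤ (∑ j ∈ Finset.range m, FS area f G lam a b (B ∩ D j) n) +
      FS area f G lam a b (R m) n := by
    unfold FS
    simp only [div_eq_mul_inv]
    rw [← Finset.sum_mul, ← add_mul]
    gcongr
    have e1 : B ∩ {x | a ≤ f n x ∧ f n x ≤ b} ⊆
        (⋃ j ∈ Finset.range m, (B ∩ D j) ∩ {x | a ≤ f n x ∧ f n x ≤ b}) ∪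
          (R m ∩ {x | a ≤ f n x ∧ f n x ≤ b}) := by
      rintro x ⟨hx, hx2⟩
      by_cases hxD : x ∈ ⋃ j ∈ Finset.range m, D j
      · left
        simp only [Set.mem_iUnion, Finset.mem_range] at hxD ⊢
        obtain ⟨j, hj, hxj⟩ := hxD
        exact ⟨j, hj, ⟨hx, hxj⟩, hx2⟩
      · right
        refine ⟨?_, hx2⟩
        rw [hR]
        exact ⟨hx, hxD⟩
    refine (lintegral_mono_set e1).trans ((lintegral_union_le _ _ _).trans ?_)
    gcongr
    exact lint_union _ _ _
  have s2 := S.rest (B := R m) a b t0 h3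
  have s3 : ENNReal.ofReal (t / 2) * area (R m) ≤ ENNReal.ofReal (ε / 4) := by
    calc _ ≤ ENNReal.ofReal (t / 2) * ENNReal.ofReal e := by gcongr
      _ = ENNReal.ofReal (t / 2 * e) := (ENNReal.ofReal_mul (by positivity)).symm
      _ = _ := by
          congr 1
          rw [he]; field_simp; norm_num
  have s4 : ENNReal.ofReal (1 / (2 * t * lam n)) * ∫⁻ x in R m, ENNReal.ofReal (G n x ^ 2) ∂area ≤
      ENNReal.ofReal (ε / 2) := by
    calc _ ≤ ENNReal.ofReal (1 / (2 * t * lam n)) * ENNReal.ofReal (C * lam n) := by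
          gcongr
          exact (lintegral_mono_set (RB m)).trans h2
      _ = ENNReal.ofReal (1 / (2 * t * lam n) * (C * lam n)) := (ENNReal.ofReal_mul (by positivity)).symm
      _ ≤ _ := by
          refine ENNReal.ofReal_le_ofReal ?_
          have : 1 / (2 * t * lam n) * (C * lam n) = C / (2 * t) := by field_simp
          rw [this, ht, div_le_iff₀ (by positivity)]
          have : ε / 2 * (2 * ((C + 1) / ε)) = C + 1 := by field_simp
          rw [this]; linarith
  have s5 : ∑ j ∈ Finset.range m, ENNReal.ofReal ((b - a) * (1 / 2)) * area (B ∩ D j) ≤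
      ENNReal.ofReal ((b - a) * (1 / 2)) * area B := by
    rw [← Finset.mul_sum]
    gcongr
    rw [← measure_biUnion_finset]
    · exact measure_mono (Set.iUnion₂_subset fun j _ => Set.inter_subset_left)
    · intro j _ k _ hjk
      exact (dD hjk).mono Set.inter_subset_right Set.inter_subset_right
    · exact fun j _ => hB.inter (mD j)
  calc FS area f G lam a b B n ≤ _ := s1
    _ ≤ (ENNReal.ofReal ((b - a) * (1 / 2)) * area B + ENNReal.ofReal (ε / 4)) +
        (ENNReal.ofReal (ε / 4) + ENNReal.ofReal (ε / 2)) :=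
          add_le_add (h1.trans (add_le_add s5 le_rfl)) (s2.trans (add_le_add s3 s4))
    _ = ENNReal.ofReal ((b - a) * (1 / 2)) * area B +
        (ENNReal.ofReal (ε / 4) + (ENNReal.ofReal (ε / 4) + ENNReal.ofReal (ε / 2))) := add_assoc _ _ _
    _ = _ := by
        rw [← ENNReal.ofReal_add (by positivity) (by positivity),
          ← ENNReal.ofReal_add (by positivity) (by positivity)]
        congr 2
        ring

/-- compact sets have finite area and energy -/
lemma Sf.compact (S : Sf U φ ρ area len lam f G) {K : Set M} (hK : IsCompact K) :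
    area K ≠ ⊤ ∧ ∃ C : ℝ, 0 ≤ C ∧
      ∀ᶠ n in atTop, ∫⁻ x in K, ENNReal.ofReal (G n x ^ 2) ∂area ≤ ENNReal.ofReal (C * lam n) := by
  rcases isEmpty_or_nonempty M with hM | hM
  · have : K = ∅ := Set.eq_empty_of_isEmpty K
    rw [this]
    exact ⟨by simp, 0, le_rfl, Eventually.of_forall fun n => by simp⟩
  have h := S.at'
  obtain ⟨i, L, O, hL, hLU, hO, hOL, hun⟩ := discs h
  have oQ : ∀ j, IsOpen (φ (i j) '' O j) := fun j => h.open_chart _ _ (hO j) ((hOL j).trans (hLU j))
  obtain ⟨t, ht⟩ := hK.elim_finite_subcover (fun j => φ (i j) '' O j) oQ (by rw [hun]; exact Set.subset_univ _)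
  have cQ : ∀ j, IsCompact (φ (i j) '' L j) := fun j =>
    (hL j).image_of_continuousOn ((h.continuous_chart _).mono (hLU j))
  have cov : K ⊆ ⋃ j ∈ t, φ (i j) '' L j :=
    ht.trans (Set.iUnion₂_mono fun j _ => Set.image_mono (hOL j))
  have eL : ∀ j, U (i j) ∩ φ (i j) ⁻¹' (φ (i j) '' L j) = L j := fun j => by
    ext z
    constructor
    · rintro ⟨hz, w, hw, hwz⟩
      rw [← h.injective_chart (i j) (hLU j hw) hz hwz]
      exact hw
    · intro hz
      exact ⟨hLU j hz, z, hz, rfl⟩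
  refine ⟨?_, ?_⟩
  · refine ((measure_mono cov).trans_lt ((measure_biUnion_finset_le t _).trans_lt ?_)).ne
    refine ENNReal.sum_lt_top.2 fun j _ => ?_
    rw [chart_area h (i j) (cQ j).isClosed.measurableSet (Set.image_mono (hLU j)), eL]
    exact (((h.density_continuous (i j)).mono (hLU j)).integrableOn_compact (hL j)).lintegral_lt_top
  · have hb := fun j => E_bd (S.chart (i j)) (hL j) (hLU j)
    choose C C0 hC using hb
    refine ⟨∑ j ∈ t, C j, Finset.sum_nonneg fun j _ => C0 j, ?_⟩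
    have hall : ∀ᶠ n in atTop, ∀ j ∈ t, ∫⁻ z in L j, ENNReal.ofReal (gd (fun z => f n (φ (i j) z)) z ^ 2) ≤
        ENNReal.ofReal (C j * lam n) := (Finset.eventually_all t).2 fun j _ => hC j
    filter_upwards [hall, S.tl.eventually_ge_atTop 0] with n hn hn0
    calc ∫⁻ x in K, ENNReal.ofReal (G n x ^ 2) ∂area
        ≤ ∫⁻ x in ⋃ j ∈ t, φ (i j) '' L j, ENNReal.ofReal (G n x ^ 2) ∂area := lintegral_mono_set cov
      _ ≤ ∑ j ∈ t, ∫⁻ x in φ (i j) '' L j, ENNReal.ofReal (G n x ^ 2) ∂area :=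
          lint_union _ _ _
      _ ≤ ∑ j ∈ t, ENNReal.ofReal (C j * lam n) := by
          refine Finset.sum_le_sum fun j hj => ?_
          rw [S.E_chart (i j) (cQ j).isClosed.measurableSet (Set.image_mono (hLU j)), eL]
          exact hn j hj
      _ = ENNReal.ofReal ((∑ j ∈ t, C j) * lam n) := by
          rw [Finset.sum_mul, ENNReal.ofReal_sum_of_nonneg fun j _ => mul_nonneg (C0 j) hn0]

end

end Pool.Agent.Q218.UB.Srf
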