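import Pool.Agent.Q218.UB.O
import Pool.Agent.Q218.UB.N

/-!
# Level sets of eigenfunctions (project UB): the level curves on surfaces
-/

set_option autoImplicit false
open MeasureTheory Filter Topology
open scoped ContDiff ENNReal

namespace Pool.Agent.Q218.UB.Srf

noncomputable section

open Pool.Agent.Results.MP_a52643_an.SharpNodalLength (IsothermalAtlas IsEigenfunction laplacian)
open Pool.Agent.Q218.UB.Seq

/-- a piece of a small disc -/
lemma piece {U : Set ℂ} {ρ : ℂ → ℝ} {u : ℂ → ℝ} (hU : IsOpen U) (us : ContDiffOn ℝ ∞ u U)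
    (hρ : ContinuousOn ρ U) {z : ℂ} {r c δ : ℝ} (hsub : Metric.closedBall z r ⊆ U) (hc : 0 < c) (hδ : 0 < δ)
    (hr : ∀ w ∈ Metric.closedBall z r, c ≤ √(ρ w) ∧ √(ρ w) ≤ (1 + δ) * c) {P : Set ℂ}
    (mP : MeasurableSet P) (hP : P ⊆ Metric.ball z r) {ε : ℝ≥0∞} (hε : ε ≠ 0) :
    ∃ L : ℝ → ℝ≥0∞, Measurable L ∧
      (∀ s, ∫⁻ w in P ∩ {w | u w = s ∧ gd u w ≠ 0}, ENNReal.ofReal √(ρ w) ∂(μH[1] : Measure ℂ) ≤ L s) ∧
      ∀ a b η : ℝ, 0 < η → ∫⁻ s in Set.Icc a b, L s ≤ ENNReal.ofReal (1 + δ) *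
        ((∫⁻ w in P ∩ {w | a - η ≤ u w ∧ u w ≤ b + η}, ENNReal.ofReal (√(ρ w) * gd u w)) + ε) := by
  classical
  obtain ⟨D, hD⟩ : ∃ D, D = Metric.ball z r := ⟨_, rfl⟩
  have oD : IsOpen D := by rw [hD]; exact Metric.isOpen_ball
  have DK : D ⊆ Metric.closedBall z r := by rw [hD]; exact Metric.ball_subset_closedBall
  have DU : D ⊆ U := DK.trans hsub
  have cd : ∀ v, ContinuousOn (dv v u) U := fun v => by
    have h2 : ContinuousOn (fun z => fderiv ℝ u z) U := us.continuousOn_fderiv_of_isOpen hU (by simp)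
    exact h2.clm_apply continuousOn_const
  have cg0 : ContinuousOn (gd u) U := by
    unfold gd
    exact (((cd 1).pow 2).add ((cd Complex.I).pow 2)).sqrt
  have cg : ContinuousOn (fun w => √(ρ w) * gd u w) U := hρ.sqrt.mul cg0
  -- the measure
  obtain ⟨ν, hν⟩ : ∃ ν : Measure ℂ, ν = (volume.restrict D).withDensity fun w => ENNReal.ofReal (√(ρ w) * gd u w) :=
    ⟨_, rfl⟩
  have fin : ∫⁻ w in D, ENNReal.ofReal (√(ρ w) * gd u w) ≠ ⊤ := by
    have h1 : IntegrableOn (fun w => √(ρ w) * gd u w) (Metric.closedBall z r) :=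
      (cg.mono hsub).integrableOn_compact (isCompact_closedBall z r)
    exact ((lintegral_mono_set DK).trans_lt h1.lintegral_lt_top).ne
  haveI : IsFiniteMeasure ν := by
    rw [hν]
    exact isFiniteMeasure_withDensity fin
  obtain ⟨O, hPO, oO, -, hO⟩ := mP.exists_isOpen_diff_lt (measure_ne_top ν P) hε
  obtain ⟨Q, hQ⟩ : ∃ Q, Q = O ∩ D := ⟨_, rfl⟩
  have oQ : IsOpen Q := by rw [hQ]; exact oO.inter oD
  have PQ : P ⊆ Q := by
    rw [hQ, hD]; exact Set.subset_inter hPO hP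
  have QD : Q ⊆ D := by rw [hQ]; exact Set.inter_subset_right
  have QU : Q ⊆ U := QD.trans DU
  -- measurable versions
  obtain ⟨f, hf⟩ : ∃ f : ℂ → ℝ, f = Q.piecewise u fun _ => 0 := ⟨_, rfl⟩
  obtain ⟨g, hg⟩ : ∃ g : ℂ → ℝ≥0∞, g = Q.piecewise (fun z => ENNReal.ofReal (gd u z)) fun _ => 0 := ⟨_, rfl⟩
  have mf : Measurable f := by
    rw [hf]; exact ((us.continuousOn).mono QU).measurable_piecewise continuousOn_const oQ.measurableSet
  have mg : Measurable g := by
    rw [hg]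
    exact (ENNReal.continuous_ofReal.comp_continuousOn (cg0.mono QU)).measurable_piecewise
      continuousOn_const oQ.measurableSet
  have fz : ∀ z ∈ Q, f z = u z := fun z hz => by rw [hf]; exact Set.piecewise_eq_of_mem _ _ _ hz
  have gz : ∀ z ∈ Q, g z = ENNReal.ofReal (gd u z) := fun z hz => by
    rw [hg]; exact Set.piecewise_eq_of_mem _ _ _ hz
  have elv : ∀ ε s, lv f g Q ε s = lv u (fun z => ENNReal.ofReal (gd u z)) Q ε s := by
    intro ε s
    unfold lv
    congr 1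
    refine setLIntegral_congr_fun oQ.measurableSet fun z hz => ?_
    show Set.indicator {z | |f z - s| ≤ ε} g z =
      Set.indicator {z | |u z - s| ≤ ε} (fun z => ENNReal.ofReal (gd u z)) z
    by_cases h : |u z - s| ≤ ε
    · rw [Set.indicator_of_mem (show z ∈ {z | |f z - s| ≤ ε} by rw [Set.mem_ofPred_eq, fz z hz]; exact h),
        Set.indicator_of_mem (show z ∈ {z | |u z - s| ≤ ε} from h), gz z hz]
    · rw [Set.indicator_of_notMem (show z ∉ {z | |f z - s| ≤ ε} by rw [Set.mem_ofPred_eq, fz z hz]; exact h),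
        Set.indicator_of_notMem (show z ∉ {z | |u z - s| ≤ ε} from h)]
  have len1 : ∀ s, (μH[1] : Measure ℂ) (rl u Q s) ≤ Lv f g Q s := by
    intro s
    refine (rl_open oQ (us.mono QU) s).trans ?_
    unfold Lv
    simp only [elv]
    have ht : Tendsto (fun k : ℕ => (1 : ℝ) / ((k : ℝ) + 1)) atTop (𝓝[>] 0) := by
      rw [tendsto_nhdsWithin_iff]
      exact ⟨tendsto_one_div_add_atTop_nhds_zero_nat, Eventually.of_forall fun n => by
        show (0 : ℝ) < 1 / ((n : ℝ) + 1)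
        positivity⟩
    have : liminf (fun k : ℕ => lv u (fun z => ENNReal.ofReal (gd u z)) Q (1 / ((k : ℝ) + 1)) s) atTop =
        liminf (fun ε => lv u (fun z => ENNReal.ofReal (gd u z)) Q ε s)
          (Filter.map (fun k : ℕ => (1 : ℝ) / ((k : ℝ) + 1)) atTop) := by
      rw [← liminf_comp]; rfl
    rw [this]
    exact liminf_le_liminf_of_le ht
  have dne : ∀ w, gd u w ≠ 0 → fderiv ℝ u w ≠ 0 := fun w hw h0 => hw (by
    unfold gd dv
    rw [h0]; simp)
  refine ⟨fun s => ENNReal.ofReal ((1 + δ) * c) * Lv f g Q s, (Lv_meas mf mg Q).const_mul _, fun s => ?_,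
    fun a b η hη => ?_⟩
  · have sub : P ∩ {w | u w = s ∧ gd u w ≠ 0} ⊆ rl u Q s := fun w hw => ⟨PQ hw.1, hw.2.1, dne w hw.2.2⟩
    calc ∫⁻ w in P ∩ {w | u w = s ∧ gd u w ≠ 0}, ENNReal.ofReal √(ρ w) ∂(μH[1] : Measure ℂ)
        ≤ ∫⁻ _ in P ∩ {w | u w = s ∧ gd u w ≠ 0}, ENNReal.ofReal ((1 + δ) * c) ∂(μH[1] : Measure ℂ) := by
          have mQ : MeasurableSet (P ∩ {w | u w = s ∧ gd u w ≠ 0}) := by
            have e1 : P ∩ {w | u w = s ∧ gd u w ≠ 0} = P ∩ ((Q ∩ f ⁻¹' {s}) ∩ {w | g w ≠ 0}) := by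
              ext w
              constructor
              · rintro ⟨h1, h2, h3⟩
                refine ⟨h1, ⟨PQ h1, ?_⟩, ?_⟩
                · rw [Set.mem_preimage, fz w (PQ h1)]; exact h2
                · rw [Set.mem_ofPred_eq, gz w (PQ h1)]
                  exact (ENNReal.ofReal_pos.2 (lt_of_le_of_ne (gd_nn u w) (Ne.symm h3))).ne'
              · rintro ⟨h1, ⟨h2, h3⟩, h4⟩
                rw [Set.mem_preimage, fz w h2] at h3
                rw [Set.mem_ofPred_eq, gz w h2] at h4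
                exact ⟨h1, h3, fun h5 => h4 (by rw [h5]; simp)⟩
            rw [e1]
            exact mP.inter ((oQ.measurableSet.inter (mf (measurableSet_singleton s))).inter
              (measurableSet_eq_fun mg measurable_const).compl)
          refine setLIntegral_mono' mQ fun w hw => ?_
          exact ENNReal.ofReal_le_ofReal (hr w (DK (QD (PQ hw.1)))).2
      _ = ENNReal.ofReal ((1 + δ) * c) * (μH[1] : Measure ℂ) (P ∩ {w | u w = s ∧ gd u w ≠ 0}) := by
          rw [setLIntegral_const]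
      _ ≤ ENNReal.ofReal ((1 + δ) * c) * Lv f g Q s := by
          gcongr
          exact (measure_mono sub).trans (len1 s)
  · rw [lintegral_const_mul _ (Lv_meas mf mg Q)]
    have h1 := Lv_int mf mg (V := Q) (a := a) (b := b) hη
    have mS : MeasurableSet {w | a - η ≤ f w ∧ f w ≤ b + η} :=
      (measurableSet_le measurable_const mf).inter (measurableSet_le mf measurable_const)
    have mS2 : MeasurableSet (Q ∩ {w | a - η ≤ f w ∧ f w ≤ b + η}) := oQ.measurableSet.inter mS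
    have h2 : ENNReal.ofReal c * ∫⁻ w in Q, Set.indicator {w | a - η ≤ f w ∧ f w ≤ b + η} g w ≤
        ∫⁻ w in Q ∩ {w | a - η ≤ f w ∧ f w ≤ b + η}, ENNReal.ofReal (√(ρ w) * gd u w) := by
      rw [setLIntegral_indicator mS, ← lintegral_const_mul _ mg, Set.inter_comm]
      refine setLIntegral_mono' mS2 fun w hw => ?_
      rw [gz w hw.1, ← ENNReal.ofReal_mul hc.le]
      exact ENNReal.ofReal_le_ofReal (mul_le_mul_of_nonneg_right (hr w (DK (QD hw.1))).1 (gd_nn u w))
    have sub2 : Q ∩ {w | a - η ≤ f w ∧ f w ≤ b + η} ⊆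
        (P ∩ {w | a - η ≤ u w ∧ u w ≤ b + η}) ∪ (D ∩ (O \ P)) := by
      rintro w ⟨h3, h4⟩
      by_cases hw : w ∈ P
      · left
        rw [Set.mem_ofPred_eq, fz w h3] at h4
        exact ⟨hw, h4⟩
      · right
        rw [hQ] at h3
        exact ⟨h3.2, h3.1, hw⟩
    have h3 : ∫⁻ w in D ∩ (O \ P), ENNReal.ofReal (√(ρ w) * gd u w) ≤ ε := by
      have e2 : ν (O \ P) = ∫⁻ w in D ∩ (O \ P), ENNReal.ofReal (√(ρ w) * gd u w) := by
        rw [hν, withDensity_apply _ (oO.measurableSet.diff mP), Measure.restrict_restrict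
          (oO.measurableSet.diff mP), Set.inter_comm]
      rw [← e2]
      exact hO.le
    calc ENNReal.ofReal ((1 + δ) * c) * ∫⁻ s in Set.Icc a b, Lv f g Q s
        ≤ ENNReal.ofReal ((1 + δ) * c) * ∫⁻ w in Q, Set.indicator {w | a - η ≤ f w ∧ f w ≤ b + η} g w := by
          gcongr
      _ = ENNReal.ofReal (1 + δ) * (ENNReal.ofReal c *
          ∫⁻ w in Q, Set.indicator {w | a - η ≤ f w ∧ f w ≤ b + η} g w) := by
          rw [ENNReal.ofReal_mul (by positivity), mul_assoc]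
      _ ≤ ENNReal.ofReal (1 + δ) *
          ((∫⁻ w in P ∩ {w | a - η ≤ u w ∧ u w ≤ b + η}, ENNReal.ofReal (√(ρ w) * gd u w)) + ε) := by
          refine mul_le_mul_right ?_ _
          refine h2.trans ((lintegral_mono_set sub2).trans ((lintegral_union_le _ _ _).trans ?_))
          exact add_le_add le_rfl h3

variable {M ι : Type*} [TopologicalSpace M] [T2Space M] [SecondCountableTopology M] [MeasurableSpace M]
  [BorelSpace M] {U : ι → Set ℂ} {φ : ι → ℂ → M} {ρ : ι → ℂ → ℝ} {area len : Measure M}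

/-- small discs -/
lemma small_discs (h : IsothermalAtlas U φ ρ area len) [Nonempty M] {δ : ℝ} (hδ : 0 < δ) :
    ∃ (i : ℕ → ι) (z : ℕ → ℂ) (r c : ℕ → ℝ), (∀ j, 0 < c j) ∧ (∀ j, Metric.closedBall (z j) (r j) ⊆ U (i j)) ∧
      (∀ j, ∀ w ∈ Metric.closedBall (z j) (r j), c j ≤ √(ρ (i j) w) ∧ √(ρ (i j) w) ≤ (1 + δ) * c j) ∧
      (⋃ j, φ (i j) '' Metric.ball (z j) (r j)) = Set.univ := by
  have h1 : ∀ x : M, ∃ (i : ι) (z : ℂ) (r c : ℝ), 0 < r ∧ 0 < c ∧ Metric.closedBall z r ⊆ U i ∧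
      (∀ w ∈ Metric.closedBall z r, c ≤ √(ρ i w) ∧ √(ρ i w) ≤ (1 + δ) * c) ∧ φ i z = x := by
    intro x
    obtain ⟨i, z, hz, rfl⟩ := h.cover x
    obtain ⟨r, hr, hr2⟩ := Metric.isOpen_iff.1 (h.isOpen_domain i) z hz
    have s0 : 0 < √(ρ i z) := Real.sqrt_pos.2 (h.density_pos i z hz)
    obtain ⟨t, ht⟩ : ∃ t, t = √(1 + δ) := ⟨_, rfl⟩
    have t1 : 1 < t := by
      rw [ht, Real.lt_sqrt (by norm_num)]; linarith
    have t2 : t * t = 1 + δ := by rw [ht]; exact Real.mul_self_sqrt (by linarith)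
    have cs : ContinuousAt (fun w => √(ρ i w)) z :=
      ((h.density_continuous i).continuousAt ((h.isOpen_domain i).mem_nhds hz)).sqrt
    have e1 : √(ρ i z) / t < √(ρ i z) := div_lt_self s0 t1
    have e2 : √(ρ i z) < √(ρ i z) * t := lt_mul_of_one_lt_right s0 t1
    have ev : ∀ᶠ w in 𝓝 z, √(ρ i w) ∈ Set.Ioo (√(ρ i z) / t) (√(ρ i z) * t) :=
      cs.eventually (Ioo_mem_nhds e1 e2)
    obtain ⟨r', hr', hr3⟩ := Metric.eventually_nhds_iff_ball.1 ev
    refine ⟨i, z, min r r' / 2, √(ρ i z) / t, by positivity, by positivity, fun w hw => hr2 ?_,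
      fun w hw => ?_, rfl⟩
    · rw [Metric.mem_closedBall] at hw
      rw [Metric.mem_ball]
      have := min_le_left r r'
      linarith
    · have hw2 : w ∈ Metric.ball z r' := by
        rw [Metric.mem_closedBall] at hw
        rw [Metric.mem_ball]
        have := min_le_right r r'
        linarith
      have h2 := hr3 w hw2
      refine ⟨h2.1.le, h2.2.le.trans (le_of_eq ?_)⟩
      rw [← t2]
      field_simp
  choose i z r c hr hc hsub hrat hx using h1
  have ho : ∀ x, IsOpen (φ (i x) '' Metric.ball (z x) (r x)) := fun x =>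
    h.open_chart _ _ Metric.isOpen_ball (Metric.ball_subset_closedBall.trans (hsub x))
  obtain ⟨T, hT, hTu⟩ := TopologicalSpace.isOpen_iUnion_countable _ ho
  have hall : (⋃ x, φ (i x) '' Metric.ball (z x) (r x)) = Set.univ :=
    Set.eq_univ_of_forall fun x => Set.mem_iUnion.2 ⟨x, z x, Metric.mem_ball_self (hr x), hx x⟩
  rw [hall] at hTu
  have hTne : T.Nonempty := by
    by_contra hne
    rw [Set.not_nonempty_iff_eq_empty] at hne
    rw [hne] at hTu
    simp only [Set.mem_empty_iff_false, Set.iUnion_of_empty, Set.iUnion_empty] at hTu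
    obtain ⟨x⟩ := (inferInstance : Nonempty M)
    have hx : x ∈ (Set.univ : Set M) := trivial
    rw [← hTu] at hx
    exact hx
  obtain ⟨f, hf⟩ := hT.exists_eq_range hTne
  refine ⟨fun j => i (f j), fun j => z (f j), fun j => r (f j), fun j => c (f j), fun j => hc _,
    fun j => hsub _, fun j => hrat _, ?_⟩
  rw [← hTu, hf]
  ext x
  simp

/-- the length in a chart -/
lemma chart_len (h : IsothermalAtlas U φ ρ area len) (i : ι) {S : Set M} (hS : MeasurableSet S)
    (hSU : S ⊆ φ i '' U i) :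
    len S = ∫⁻ z in U i ∩ φ i ⁻¹' S, ENNReal.ofReal √(ρ i z) ∂(μH[1] : Measure ℂ) := by
  have mP := Pool.Agent.Q73.PW.J15.meas_inter (h.isOpen_domain i) (h.continuous_chart i) hS
  have e : φ i '' (U i ∩ φ i ⁻¹' S) = S := by
    ext x
    constructor
    · rintro ⟨z, hz, rfl⟩; exact hz.2
    · intro hx
      obtain ⟨z, hz, rfl⟩ := hSU hx
      exact ⟨z, ⟨hz, hx⟩, rfl⟩
  have h1 := h.len_chart i _ mP Set.inter_subset_left
  rw [e] at h1
  exact h1

variable {lam : ℕ → ℝ} {f G : ℕ → M → ℝ}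

/-- **the length of the level curves on a surface** -/
theorem Sf.level (S : Sf U φ ρ area len lam f G) (n : ℕ) {B : Set M} (hB : MeasurableSet B) {δ : ℝ}
    (hδ : 0 < δ) {ε : ℝ≥0∞} (hε : ε ≠ 0) :
    ∃ L : ℝ → ℝ≥0∞, Measurable L ∧ (∀ s, len (B ∩ {x | f n x = s ∧ G n x ≠ 0}) ≤ L s) ∧
      ∀ a b η : ℝ, 0 < η → ∫⁻ s in Set.Icc a b, L s ≤ ENNReal.ofReal (1 + δ) *
        ((∫⁻ x in B ∩ {x | a - η ≤ f n x ∧ f n x ≤ b + η}, ENNReal.ofReal (G n x) ∂area) + ε) := by
  rcases isEmpty_or_nonempty M with hM | hM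
  · refine ⟨fun _ => 0, measurable_const, fun s => ?_, fun a b η _ => by simp⟩
    have : B ∩ {x | f n x = s ∧ G n x ≠ 0} = ∅ := Set.eq_empty_of_isEmpty _
    rw [this]; simp
  have h := S.at'
  obtain ⟨i, z, r, c, hc, hsub, hrat, hun⟩ := small_discs h hδ
  obtain ⟨Q, hQ⟩ : ∃ Q : ℕ → Set M, Q = fun j => φ (i j) '' Metric.ball (z j) (r j) := ⟨_, rfl⟩
  have oQ : ∀ j, IsOpen (Q j) := fun j => by
    rw [hQ]; exact h.open_chart _ _ Metric.isOpen_ball (Metric.ball_subset_closedBall.trans (hsub j))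
  obtain ⟨D, hD⟩ : ∃ D : ℕ → Set M, D = disjointed Q := ⟨_, rfl⟩
  have mD : ∀ j, MeasurableSet (D j) := fun j => by
    rw [hD]; exact MeasurableSet.disjointed (fun k => (oQ k).measurableSet) j
  have DQ : ∀ j, D j ⊆ Q j := fun j => by rw [hD]; exact disjointed_subset Q j
  have dD : Pairwise (Function.onFun Disjoint D) := by rw [hD]; exact disjoint_disjointed Q
  have uD : ⋃ j, D j = Set.univ := by
    rw [hD, iUnion_disjointed, hQ]; exact hun
  obtain ⟨P, hPdef⟩ : ∃ P : ℕ → Set ℂ, P = fun j => U (i j) ∩ φ (i j) ⁻¹' (B ∩ D j) := ⟨_, rfl⟩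
  have sub : ∀ j, B ∩ D j ⊆ φ (i j) '' U (i j) := fun j x hx => by
    have := DQ j hx.2
    rw [hQ] at this
    exact Set.image_mono (Metric.ball_subset_closedBall.trans (hsub j)) this
  have mP : ∀ j, MeasurableSet (P j) := fun j => by
    rw [hPdef]
    exact Pool.Agent.Q73.PW.J15.meas_inter (h.isOpen_domain (i j)) (h.continuous_chart (i j))
      (hB.inter (mD j))
  have PB : ∀ j, P j ⊆ Metric.ball (z j) (r j) := by
    intro j w hw
    rw [hPdef] at hw
    have h1 := DQ j hw.2.2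
    rw [hQ] at h1
    obtain ⟨w', hw', hww⟩ := h1
    rw [← h.injective_chart (i j) (hsub j (Metric.ball_subset_closedBall hw')) hw.1 hww]
    exact hw'
  obtain ⟨e, he0, hesum⟩ := ENNReal.exists_pos_sum_of_countable' hε ℕ
  have pc := fun j => piece (h.isOpen_domain (i j)) (S.ef n (i j)).1 (h.density_continuous (i j)) (hsub j)
    (hc j) hδ (hrat j) (mP j) (PB j) (he0 j).ne'
  choose L mL hL1 hL2 using pc
  have mS : ∀ a b : ℝ, MeasurableSet {x | a ≤ f n x ∧ f n x ≤ b} := fun a b => S.mS a b n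
  have mE : ∀ s, MeasurableSet {x | f n x = s ∧ G n x ≠ 0} := fun s =>
    (measurableSet_eq_fun (S.mf n) measurable_const).inter
      (measurableSet_eq_fun (S.mG n) measurable_const).compl
  refine ⟨fun s => ∑' j, L j s, Measurable.ennreal_tsum mL, fun s => ?_, fun a b η hη => ?_⟩
  · -- the length
    have e1 : B ∩ {x | f n x = s ∧ G n x ≠ 0} = ⋃ j, (B ∩ D j) ∩ {x | f n x = s ∧ G n x ≠ 0} := by
      rw [← Set.iUnion_inter, ← Set.inter_iUnion, uD, Set.inter_univ]
    rw [e1]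
    refine (measure_iUnion_le _).trans (ENNReal.tsum_le_tsum fun j => ?_)
    rw [chart_len h (i j) ((hB.inter (mD j)).inter (mE s)) (Set.inter_subset_left.trans (sub j))]
    refine le_trans (lintegral_mono_set fun w hw => ?_) (hL1 j s)
    obtain ⟨hwU, hwB, hw1, hw2⟩ := hw
    refine ⟨?_, hw1, ?_⟩
    · rw [hPdef]; exact ⟨hwU, hwB⟩
    · intro h0
      refine hw2 ?_
      rw [S.gn n (i j) w hwU]
      have h3 : gd (fun w => f n (φ (i j) w)) w = 0 := h0
      rw [h3, zero_div]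
  · rw [lintegral_tsum fun j => (mL j).aemeasurable]
    have t1 : ∀ j, ∫⁻ s in Set.Icc a b, L j s ≤ ENNReal.ofReal (1 + δ) *
        ((∫⁻ x in (B ∩ D j) ∩ {x | a - η ≤ f n x ∧ f n x ≤ b + η}, ENNReal.ofReal (G n x) ∂area) + e j) := by
      intro j
      refine (hL2 j a b η hη).trans (le_of_eq ?_)
      congr 2
      rw [chart_lint h (i j) ((hB.inter (mD j)).inter (mS _ _)) (Set.inter_subset_left.trans (sub j))
        (S.mG n).ennreal_ofReal]
      have e3 : U (i j) ∩ φ (i j) ⁻¹' ((B ∩ D j) ∩ {x | a - η ≤ f n x ∧ f n x ≤ b + η}) =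
          P j ∩ {w | a - η ≤ f n (φ (i j) w) ∧ f n (φ (i j) w) ≤ b + η} := by
        rw [hPdef]
        ext w
        constructor
        · rintro ⟨h1, h2, h3⟩; exact ⟨⟨h1, h2⟩, h3⟩
        · rintro ⟨⟨h1, h2⟩, h3⟩; exact ⟨h1, h2, h3⟩
      have mP2 := Pool.Agent.Q73.PW.J15.meas_inter (h.isOpen_domain (i j)) (h.continuous_chart (i j))
        ((hB.inter (mD j)).inter (mS (a - η) (b + η)))
      rw [← e3]
      refine setLIntegral_congr_fun mP2 fun w hw => ?_
      have r0 := h.density_pos (i j) w hw.1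
      show ENNReal.ofReal _ = ENNReal.ofReal (ρ (i j) w) * ENNReal.ofReal (G n (φ (i j) w))
      rw [← ENNReal.ofReal_mul r0.le, S.gn n (i j) w hw.1]
      congr 1
      have h1 : √(ρ (i j) w) * √(ρ (i j) w) = ρ (i j) w := Real.mul_self_sqrt r0.le
      have h2 : 0 < √(ρ (i j) w) := Real.sqrt_pos.2 r0
      rw [mul_div_assoc', eq_div_iff h2.ne', mul_right_comm, h1]
    refine (ENNReal.tsum_le_tsum t1).trans ?_
    rw [ENNReal.tsum_mul_left, ENNReal.tsum_add]
    refine mul_le_mul_right ?_ _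
    refine add_le_add (le_of_eq ?_) hesum.le
    rw [← lintegral_iUnion (fun j => (hB.inter (mD j)).inter (mS _ _))]
    · congr 2
      rw [← Set.iUnion_inter, ← Set.inter_iUnion, uD, Set.inter_univ]
    · intro j k hjk
      exact (dD hjk).mono (Set.inter_subset_left.trans Set.inter_subset_right)
        (Set.inter_subset_left.trans Set.inter_subset_right)

/-- **the mean length of the level curves on a surface** -/
theorem Sf.curves (S : Sf U φ ρ area len lam f G) {B : Set M} (hB : MeasurableSet B) (hfin : area B ≠ ⊤)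
    (hup : ∀ a b : ℝ, a ≤ b → Up (FS area f G lam a b B) (ENNReal.ofReal ((b - a) * (1 / 2)) * area B)) :
    ∃ L : ℕ → ℝ → ℝ≥0∞, (∀ n, Measurable (L n)) ∧
      (∀ n s, len (B ∩ {x | f n x = s ∧ G n x ≠ 0}) ≤ L n s) ∧
      ∀ a b : ℝ, a ≤ b → limsup (fun n => (∫⁻ s in Set.Icc a b, L n s) / ENNReal.ofReal √(lam n)) atTop ≤
        ENNReal.ofReal ((b - a) / 2) * area B := by
  have d0 : ∀ n : ℕ, (0 : ℝ) < 1 / ((n : ℝ) + 1) := fun n => by positivity
  have hL := fun n : ℕ => S.level n hB (d0 n) (ENNReal.ofReal_pos.2 (d0 n)).ne'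
  choose L mL hL1 hL2 using hL
  refine ⟨L, mL, hL1, fun a b hab => ?_⟩
  have key : ∀ η : ℝ, 0 < η →
      limsup (fun n => (∫⁻ s in Set.Icc a b, L n s) / ENNReal.ofReal √(lam n)) atTop ≤
        ENNReal.ofReal (1 + η) * (ENNReal.ofReal ((b - a) / 2 + η) * area B + ENNReal.ofReal (2 * η)) := by
    intro η hη
    refine limsup_le_of_le (by isBoundedDefault) ?_
    have ht : ∀ᶠ n : ℕ in atTop, (1 : ℝ) / ((n : ℝ) + 1) < η :=
      tendsto_one_div_add_atTop_nhds_zero_nat.eventually (gt_mem_nhds hη)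
    filter_upwards [hup (a - η) (b + η) (by linarith) η hη, ht, S.tl.eventually_ge_atTop 1] with n h1 h2 h3
    have s1 : (1 : ℝ) ≤ √(lam n) := by
      rw [Real.le_sqrt' one_pos]; linarith
    have s0 : 0 < ENNReal.ofReal √(lam n) := ENNReal.ofReal_pos.2 (by linarith)
    have e : (b + η - (a - η)) * (1 / 2) = (b - a) / 2 + η := by ring
    rw [e] at h1
    unfold FS at h1
    rw [ENNReal.div_le_iff_le_mul (Or.inl s0.ne') (Or.inl ENNReal.ofReal_ne_top)] at h1 ⊢
    calc ∫⁻ s in Set.Icc a b, L n s ≤ _ := hL2 n a b η hη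
      _ ≤ ENNReal.ofReal (1 + η) * ((ENNReal.ofReal ((b - a) / 2 + η) * area B + ENNReal.ofReal η) *
          ENNReal.ofReal √(lam n) + ENNReal.ofReal η * ENNReal.ofReal √(lam n)) := by
          gcongr ENNReal.ofReal (1 + ?_) * (?_ + ?_)
          · calc ENNReal.ofReal (1 / ((n : ℝ) + 1)) ≤ ENNReal.ofReal (η * √(lam n)) := by
                  refine ENNReal.ofReal_le_ofReal ?_
                  nlinarith
              _ = _ := ENNReal.ofReal_mul hη.le
      _ = _ := by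
          have e4 : ENNReal.ofReal (2 * η) = ENNReal.ofReal η + ENNReal.ofReal η := by
            rw [← ENNReal.ofReal_add hη.le hη.le]; congr 1; ring
          rw [e4]
          ring
  have lim : Tendsto (fun η : ℝ => ENNReal.ofReal (1 + η) *
      (ENNReal.ofReal ((b - a) / 2 + η) * area B + ENNReal.ofReal (2 * η))) (𝓝[>] 0)
      (𝓝 (ENNReal.ofReal (1 + 0) * (ENNReal.ofReal ((b - a) / 2 + 0) * area B + ENNReal.ofReal (2 * 0)))) := by
    have c1 : Tendsto (fun η : ℝ => ENNReal.ofReal (1 + η)) (𝓝[>] 0) (𝓝 (ENNReal.ofReal (1 + 0))) :=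
      ENNReal.tendsto_ofReal (((continuous_const.add continuous_id).tendsto 0).mono_left nhdsWithin_le_nhds)
    have c2 : Tendsto (fun η : ℝ => ENNReal.ofReal ((b - a) / 2 + η)) (𝓝[>] 0)
        (𝓝 (ENNReal.ofReal ((b - a) / 2 + 0))) :=
      ENNReal.tendsto_ofReal (((continuous_const.add continuous_id).tendsto 0).mono_left nhdsWithin_le_nhds)
    have c3 : Tendsto (fun η : ℝ => ENNReal.ofReal (2 * η)) (𝓝[>] 0) (𝓝 (ENNReal.ofReal (2 * 0))) :=
      ENNReal.tendsto_ofReal (((continuous_const.mul continuous_id).tendsto 0).mono_left nhdsWithin_le_nhds)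
    have c4 := (ENNReal.Tendsto.mul_const c2 (Or.inr hfin)).add c3
    refine ENNReal.Tendsto.mul c1 (Or.inl ?_) c4 (Or.inr ENNReal.ofReal_ne_top)
    simp
  have e5 : ENNReal.ofReal (1 + 0) * (ENNReal.ofReal ((b - a) / 2 + 0) * area B + ENNReal.ofReal (2 * 0)) =
      ENNReal.ofReal ((b - a) / 2) * area B := by simp
  rw [e5] at lim
  exact ge_of_tendsto lim (by filter_upwards [self_mem_nhdsWithin] with η hη using key η hη)

end

end Pool.Agent.Q218.UB.Srf
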